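import Pool.Agent.T2H20.AH.Ha

/-! # The lower bound for the number of exceptions of `c < rad (abc) ^ M`, `1/3 < M < 1/2` -/

set_option autoImplicit false

namespace Pool.Agent.T2H20.AH

open Finset Pool.Agent.H785R2.ABC Filter Topology

/-- the primes in `[x, 2 x)` -/
noncomputable def DP (x : ℝ) : Finset ℕ :=
  (range (⌈2 * x⌉₊ + 1)).filter (fun p => p.Prime ∧ x ≤ p ∧ (p : ℝ) < 2 * x)

theorem mem_DP {x : ℝ} {p : ℕ} : p ∈ DP x ↔ p.Prime ∧ x ≤ p ∧ (p : ℝ) < 2 * x := by
  rw [DP, mem_filter, mem_range]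
  refine ⟨fun h => h.2, fun h => ⟨?_, h⟩⟩
  have : p < ⌈2 * x⌉₊ := Nat.lt_ceil.2 h.2.2
  omega

theorem card_DP {η : ℝ} (hη : 0 < η) (hη1 : η ≤ 1) :
    ∀ᶠ x : ℝ in atTop, x ^ (1 - η) ≤ ((DP x).card : ℝ) := by
  filter_upwards [Pool.Agent.H170R2.PC.dyadic_primes hη hη1] with x hx
  exact hx _ fun p h1 h2 h3 => mem_DP.2 ⟨h1, h2, h3⟩

/-- an exponent from upper and lower bounds -/
theorem tendsto_exponent {f : ℝ → ℝ} {L : ℝ}
    (h1 : ∀ ε : ℝ, 0 < ε → ∃ C : ℝ, 0 < C ∧ ∀ X : ℝ, 1 ≤ X → f X ≤ C * X ^ (L + ε))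
    (h2 : ∀ ε : ℝ, 0 < ε → ∃ X₀ : ℝ, ∀ X : ℝ, X₀ ≤ X → X ^ (L - ε) ≤ f X) :
    Tendsto (fun X : ℝ => Real.log (f X) / Real.log X) atTop (𝓝 L) := by
  rw [Metric.tendsto_atTop]
  intro ε hε
  obtain ⟨C, hC, hup⟩ := h1 (ε / 3) (by positivity)
  obtain ⟨X₀, hlo⟩ := h2 (ε / 3) (by positivity)
  have ht : Tendsto (fun X : ℝ => ε / 3 * Real.log X) atTop atTop :=
    Real.tendsto_log_atTop.const_mul_atTop (by positivity)
  obtain ⟨X₁, hX₁⟩ := eventually_atTop.1 (ht.eventually (eventually_ge_atTop (Real.log C)))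
  refine ⟨max (max X₀ X₁) 2, fun X hX => ?_⟩
  have hX0 : X₀ ≤ X := (le_max_left _ _).trans ((le_max_left _ _).trans hX)
  have hX1 : X₁ ≤ X := (le_max_right _ _).trans ((le_max_left _ _).trans hX)
  have hX2 : 2 ≤ X := (le_max_right _ _).trans hX
  have hXp : 0 < X := by linarith
  have hl : 0 < Real.log X := Real.log_pos (by linarith)
  have hf0 : 0 < f X := lt_of_lt_of_le (by positivity) (hlo X hX0)
  have e1 : Real.log (f X) ≤ Real.log C + (L + ε / 3) * Real.log X := by
    rw [← Real.log_rpow hXp, ← Real.log_mul hC.ne' (by positivity)]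
    exact Real.log_le_log hf0 (hup X (by linarith))
  have e2 : (L - ε / 3) * Real.log X ≤ Real.log (f X) := by
    rw [← Real.log_rpow hXp]
    exact Real.log_le_log (by positivity) (hlo X hX0)
  have e3 := hX₁ X hX1
  rw [Real.dist_eq, abs_lt]
  have hεl : 0 < ε * Real.log X := by positivity
  constructor
  · rw [neg_lt_sub_iff_lt_add, ← sub_lt_iff_lt_add', lt_div_iff₀ hl]
    linarith
  · rw [sub_lt_iff_lt_add', div_lt_iff₀ hl]
    linarith

theorem rad_pow_mul {n m b c : ℕ} (hm : 0 < m) (hb : 0 < b) (hc : 0 < c) :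
    2 ^ (n + 1) * rad (2 ^ (n + 2) * m * b * c) ≤ 2 ^ (n + 2) * m * b * c := by
  have h1 : rad (2 ^ (n + 2) * m * b * c) ∣ 2 * m * b * c := by
    have h2 : (2 ^ (n + 2) * m * b * c).primeFactors = (2 * m * b * c).primeFactors := by
      rw [Nat.primeFactors_mul (by positivity) (by positivity),
        Nat.primeFactors_mul (by positivity) (by positivity),
        Nat.primeFactors_mul (by positivity) (by positivity),
        Nat.primeFactors_mul (a := 2 * m * b) (by positivity) (by positivity),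
        Nat.primeFactors_mul (a := 2 * m) (by positivity) (by positivity),
        Nat.primeFactors_mul (a := 2) (by positivity) (by positivity),
        Nat.primeFactors_pow _ (by omega)]
    unfold rad
    rw [h2]
    exact Nat.prod_primeFactors_dvd _
  calc 2 ^ (n + 1) * rad (2 ^ (n + 2) * m * b * c) ≤ 2 ^ (n + 1) * (2 * m * b * c) :=
        Nat.mul_le_mul_left _ (Nat.le_of_dvd (by positivity) h1)
    _ = _ := by ring

/-- **The lower bound.** -/
theorem prof_lower {M ε : ℝ} (hM : 1 / 3 < M) (hM1 : M < 1 / 2) (hε : 0 < ε) :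
    ∃ X₀ : ℝ, ∀ X : ℝ, X₀ ≤ X → X ^ (1 - M - ε) ≤ ((Exc M X).ncard : ℝ) := by
  classical
  obtain ⟨η, hη⟩ : ∃ η : ℝ, η = min 1 (ε / 2) := ⟨_, rfl⟩
  have hη0 : 0 < η := by rw [hη]; exact lt_min one_pos (by positivity)
  have hη1 : η ≤ 1 := by rw [hη]; exact min_le_left _ _
  have hηε : η ≤ ε / 2 := by rw [hη]; exact min_le_right _ _
  have hprime := card_DP hη0 hη1
  have t2 : Tendsto (fun X : ℝ => 1 / 64 * X ^ (1 - 2 * M)) atTop atTop :=
    (tendsto_rpow_atTop (by linarith)).const_mul_atTop (by norm_num)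
  have t3 : Tendsto (fun X : ℝ => 1 / 4 * X ^ M) atTop atTop :=
    (tendsto_rpow_atTop (by linarith)).const_mul_atTop (by norm_num)
  have t5 : Tendsto (fun X : ℝ => X ^ (ε / 2)) atTop atTop :=
    tendsto_rpow_atTop (by linarith)
  have key : ∀ᶠ X : ℝ in atTop, X ^ (1 - M - ε) ≤ ((Exc M X).ncard : ℝ) := by
    filter_upwards [t2.eventually hprime, t3.eventually hprime,
      t5.eventually (eventually_ge_atTop 256), eventually_ge_atTop 1] with X h2 h3 h5 hX
    have hX0 : 0 < X := by linarith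
    have hM0 : 0 < M := by linarith
    obtain ⟨P, hP⟩ : ∃ P : ℝ, P = X ^ (3 * M - 1) := ⟨_, rfl⟩
    obtain ⟨Z, hZ⟩ : ∃ Z : ℝ, Z = X ^ M := ⟨_, rfl⟩
    obtain ⟨Y, hY⟩ : ∃ Y : ℝ, Y = 1 / 64 * X ^ (1 - 2 * M) := ⟨_, rfl⟩
    rw [← hY] at h2
    rw [← hZ] at h3
    have hP0 : 0 < P := by rw [hP]; positivity
    have hP1 : 1 ≤ P := by rw [hP]; exact Real.one_le_rpow hX (by linarith)
    have hY0 : 0 < Y := by rw [hY]; positivity
    have hZ0 : 0 < Z := by rw [hZ]; positivity
    have hPY : 64 * Y * P = Z := by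
      rw [hY, hP, hZ]
      calc 64 * (1 / 64 * X ^ (1 - 2 * M)) * X ^ (3 * M - 1) =
            X ^ (1 - 2 * M) * X ^ (3 * M - 1) := by ring
        _ = _ := by
            rw [← Real.rpow_add hX0]
            congr 1
            ring
    have hZP : Z ^ 3 = X * P := by
      rw [hZ, hP, ← Real.rpow_natCast, ← Real.rpow_mul hX0.le]
      conv_rhs => rw [← Real.rpow_one X, ← Real.rpow_mul hX0.le]
      rw [← Real.rpow_add hX0]
      congr 1
      push_cast
      ring
    obtain ⟨n, hn1, hn2⟩ := exists_nat_pow_near hP1 (one_lt_two : (1 : ℝ) < 2)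
    have hfin := exc_finite M hX
    rw [Set.ncard_eq_toFinset_card _ hfin]
    have hcard : (DP Y ×ˢ DP (1 / 4 * Z)).card ≤ hfin.toFinset.card := by
      refine card_le_card_of_injOn (fun x => (2 ^ (n + 2) * x.1, x.2)) ?_ ?_
      · rintro ⟨k, b⟩ hx
        rw [mem_coe, mem_product, mem_DP, mem_DP] at hx
        obtain ⟨⟨k1, k2, k3⟩, b1, b2, b3⟩ := hx
        simp only at k1 k2 k3 b1 b2 b3
        rw [mem_coe, Set.Finite.mem_toFinset]
        have hk0 : (0 : ℝ) < k := hY0.trans_le k2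
        have hb0 : (0 : ℝ) < b := by exact_mod_cast b1.pos
        have ha : ((2 ^ (n + 2) * k : ℕ) : ℝ) < Z / 8 := by
          push_cast
          calc (2 : ℝ) ^ (n + 2) * k = 4 * 2 ^ n * k := by ring
            _ ≤ 4 * P * k := by gcongr
            _ < 4 * P * (2 * Y) := mul_lt_mul_of_pos_left k3 (by positivity)
            _ = 64 * Y * P / 8 := by ring
            _ = Z / 8 := by rw [hPY]
        have hab : 2 ^ (n + 2) * k < b := by
          have : ((2 ^ (n + 2) * k : ℕ) : ℝ) < b := by linarith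
          exact_mod_cast this
        have ha0 : 0 < 2 ^ (n + 2) * k := Nat.mul_pos (by positivity) k1.pos
        have hc : ((2 ^ (n + 2) * k + b : ℕ) : ℝ) ≤ Z := by
          rw [Nat.cast_add]
          linarith
        have hc0 : (0 : ℝ) < ((2 ^ (n + 2) * k + b : ℕ) : ℝ) := by exact_mod_cast (by omega)
        have hcop : Nat.Coprime (2 ^ (n + 2) * k) b := by
          rw [Nat.coprime_comm, b1.coprime_iff_not_dvd]
          intro h
          exact absurd (Nat.le_of_dvd ha0 h) (not_le.2 hab)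
        obtain ⟨r, hr⟩ : ∃ r : ℕ, r = rad (2 ^ (n + 2) * k * b * (2 ^ (n + 2) * k + b)) := ⟨_, rfl⟩
        have hrad : (r : ℝ) ≤ ((2 ^ (n + 2) * k + b : ℕ) : ℝ) ^ 3 / P := by
          have e1 := rad_pow_mul (n := n) (c := 2 ^ (n + 2) * k + b) k1.pos b1.pos (by omega)
          rw [← hr] at e1
          have e3 : 2 ^ (n + 2) * k * b * (2 ^ (n + 2) * k + b) ≤ (2 ^ (n + 2) * k + b) ^ 3 := by
            calc 2 ^ (n + 2) * k * b * (2 ^ (n + 2) * k + b) ≤
                (2 ^ (n + 2) * k + b) * (2 ^ (n + 2) * k + b) * (2 ^ (n + 2) * k + b) :=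
                  Nat.mul_le_mul_right _ (Nat.mul_le_mul (by omega) (by omega))
              _ = _ := by ring
          have e4 : ((2 ^ (n + 1) * r : ℕ) : ℝ) ≤
              ((2 ^ (n + 2) * k + b : ℕ) : ℝ) ^ 3 := by exact_mod_cast e1.trans e3
          rw [le_div_iff₀ hP0]
          have e5 : (0 : ℝ) ≤ r := Nat.cast_nonneg _
          calc (r : ℝ) * P ≤ (r : ℝ) * 2 ^ (n + 1) := mul_le_mul_of_nonneg_left hn2.le e5
            _ = ((2 ^ (n + 1) * r : ℕ) : ℝ) := by push_cast; ring
            _ ≤ _ := e4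
        refine ⟨⟨ha0, hab.le, hcop⟩, ?_, ?_⟩
        · show ((rad (2 ^ (n + 2) * k * b * (2 ^ (n + 2) * k + b)) : ℕ) : ℝ) ≤ X
          rw [← hr]
          refine hrad.trans ?_
          rw [div_le_iff₀ hP0, ← hZP]
          exact pow_le_pow_left₀ hc0.le hc 3
        · show ((rad (2 ^ (n + 2) * k * b * (2 ^ (n + 2) * k + b)) : ℕ) : ℝ) ^ M ≤
            ((2 ^ (n + 2) * k + b : ℕ) : ℝ)
          rw [← hr]
          obtain ⟨c, hcd⟩ : ∃ c : ℝ, c = ((2 ^ (n + 2) * k + b : ℕ) : ℝ) := ⟨_, rfl⟩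
          rw [← hcd] at hrad hc hc0 ⊢
          calc (r : ℝ) ^ M ≤ (c ^ 3 / P) ^ M :=
                Real.rpow_le_rpow (Nat.cast_nonneg _) hrad hM0.le
            _ = c ^ (3 * M) / P ^ M := by
                rw [Real.div_rpow (by positivity) hP0.le, ← Real.rpow_natCast c,
                  ← Real.rpow_mul hc0.le]
                norm_num
            _ = c * (c ^ (3 * M - 1) / P ^ M) := by
                rw [← mul_div_assoc]
                congr 1
                conv_rhs => rw [← Real.rpow_one c, ← Real.rpow_mul hc0.le]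
                rw [← Real.rpow_add hc0]
                congr 1
                ring
            _ ≤ c * 1 := by
                apply mul_le_mul_of_nonneg_left _ hc0.le
                rw [div_le_one (by positivity)]
                calc c ^ (3 * M - 1) ≤ Z ^ (3 * M - 1) :=
                      Real.rpow_le_rpow hc0.le hc (by linarith)
                  _ = P ^ M := by
                      rw [hZ, hP, ← Real.rpow_mul hX0.le, ← Real.rpow_mul hX0.le]
                      congr 1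
                      ring
            _ = c := mul_one c
      · rintro ⟨k, b⟩ hx ⟨k', b'⟩ hx' h
        simp only [Prod.mk.injEq] at h
        obtain ⟨h6, h7⟩ := h
        have := Nat.eq_of_mul_eq_mul_left (by positivity) h6
        rw [this, h7]
    have hcard' : ((DP Y).card : ℝ) * ((DP (1 / 4 * Z)).card : ℝ) ≤
        (hfin.toFinset.card : ℝ) := by
      rw [card_product] at hcard
      exact_mod_cast hcard
    refine le_trans ?_ hcard'
    have h6 : (Y * (1 / 4 * Z)) ^ (1 - η) ≤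
        ((DP Y).card : ℝ) * ((DP (1 / 4 * Z)).card : ℝ) := by
      rw [Real.mul_rpow hY0.le (by positivity)]
      gcongr
    refine le_trans ?_ h6
    have h7 : Y * (1 / 4 * Z) = 1 / 256 * X ^ (1 - M) := by
      rw [hY, hZ]
      calc 1 / 64 * X ^ (1 - 2 * M) * (1 / 4 * X ^ M) =
            1 / 256 * (X ^ (1 - 2 * M) * X ^ M) := by ring
        _ = _ := by
            rw [← Real.rpow_add hX0]
            congr 2
            ring
    rw [h7, Real.mul_rpow (by norm_num) (by positivity), ← Real.rpow_mul hX0.le]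
    have h8 : (1 : ℝ) / 256 ≤ (1 / 256 : ℝ) ^ (1 - η) := by
      calc (1 : ℝ) / 256 = (1 / 256 : ℝ) ^ (1 : ℝ) := by rw [Real.rpow_one]
        _ ≤ _ := Real.rpow_le_rpow_of_exponent_ge (by norm_num) (by norm_num) (by linarith)
    have h9 : X ^ (1 - M - ε) * 256 ≤ X ^ ((1 - M) * (1 - η)) := by
      calc X ^ (1 - M - ε) * 256 ≤ X ^ (1 - M - ε) * X ^ (ε / 2) :=
            mul_le_mul_of_nonneg_left h5 (by positivity)
        _ = X ^ (1 - M - ε / 2) := by
            rw [← Real.rpow_add hX0]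
            congr 1
            ring
        _ ≤ _ := by
            refine Real.rpow_le_rpow_of_exponent_le hX ?_
            have : 0 ≤ M * η := by positivity
            nlinarith
    calc X ^ (1 - M - ε) = 1 / 256 * (X ^ (1 - M - ε) * 256) := by ring
      _ ≤ (1 / 256 : ℝ) ^ (1 - η) * X ^ ((1 - M) * (1 - η)) := by gcongr
  obtain ⟨X₀, hX₀⟩ := eventually_atTop.1 key
  exact ⟨X₀, hX₀⟩

/-- **The exact exponent for `1/3 < M ≤ 3/7`.** -/
theorem prof_tendsto {M : ℝ} (hM : 1 / 3 < M) (hM1 : M ≤ 3 / 7) :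
    Tendsto (fun X : ℝ => Real.log ((Exc M X).ncard : ℝ) / Real.log X) atTop (𝓝 (1 - M)) := by
  refine tendsto_exponent (fun ε hε => ?_) fun ε hε => prof_lower hM (by linarith) hε
  have h := prof_upper M ε (by linarith) hε
  rwa [max_eq_right (by linarith : (4 : ℝ) / 7 ≤ 1 - M)] at h

end Pool.Agent.T2H20.AH
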