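import Pool.Agent.T2H20.AH.Fw

/-!
The number of the triples two of whose members are, up to known factors, products of powers of few
primes.
-/

set_option autoImplicit false

namespace Pool.Agent.T2H20.AH

open Finset Pool.Agent.H785R2.ABC Pool.Agent.H785R2.ABC.EC Pool.Agent.T2H20.ABC

/-- **real supports** -/
theorem supp_real {Z U X E a F g h ν k s n0 lam₁ lam₂ N' : ℕ} {S : Finset ℕ} {α : ℕ → ℕ}
    (N : NumF X U E a F g h ν k) (e3 : 20000 * h * ν ≤ Z * g ^ 2)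
    (hs : 1 ≤ s) (hN : 2 ^ (g + 1) * (k * Real.log (X ^ a : ℕ)) ≤ N')
    (hsk : 2 * N' + 1 < (s - 1).choose k) (hα : App U E a F S α)
    {i j : Fin 3} (hij : i ≠ j) (Q : Finset (ℕ × ℕ)) (l₁ l₂ : ℕ × ℕ → ℕ) {θ : ℝ}
    (hθ : 4 * (k * θ) ≤ (1 / 2 : ℝ) ^ (g * Z))
    (hQ : ∀ q ∈ Q, Pr q ∧
      |Real.log (num (tri q) i) - Real.log (num (tri q) j)| ≤ θ ∧
      Few U X lam₁ n0 S (num (tri q) i) (l₁ q) ∧ Few U X lam₂ n0 S (num (tri q) j) (l₂ q)) :
    (Q.image fun q => (l₁ q * l₂ q).primeFactors).card ≤ s ^ (2 * n0) * (2 * n0).factorial := by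
  classical
  rcases Q.eq_empty_or_nonempty with h0 | ⟨q0, hq0⟩
  · rw [h0, image_empty, card_empty]; exact Nat.zero_le _
  have hcp : ∀ q ∈ Q, Nat.Coprime (l₁ q) (l₂ q) := by
    intro q hq
    have h1 := num_coprime (hQ q hq).1.abc hij
    have F1 := (hQ q hq).2.2.1
    have F2 := (hQ q hq).2.2.2
    exact cop_of_sub F1.t0.ne' F1.sub (Nat.Coprime.symm (cop_of_sub F2.t0.ne' F2.sub h1.symm
      F2.l0.ne')) F1.l0.ne'
  have himage : (Q.image fun q => (l₁ q * l₂ q).primeFactors) =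
      Q.image fun q => (fm α (l₁ q) * fm α (l₂ q)).primeFactors := by
    apply Finset.image_congr
    intro q hq
    have hq' := mem_coe.1 hq
    have F1 := (hQ q hq').2.2.1
    have F2 := (hQ q hq').2.2.2
    simp only
    rw [Nat.primeFactors_mul F1.l0.ne' F2.l0.ne', Nat.primeFactors_mul (fm_pos α).ne'
      (fm_pos α).ne', F1.fm_pf hα, F2.fm_pf hα]
  rw [himage]
  have hl1 : (0 : ℝ) < (lam₁ : ℝ) ^ U := by
    have := (hQ q0 hq0).2.2.1.lam0
    have : (0 : ℝ) < lam₁ := by exact_mod_cast this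
    positivity
  have hl2 : (0 : ℝ) < (lam₂ : ℝ) ^ U := by
    have := (hQ q0 hq0).2.2.2.lam0
    have : (0 : ℝ) < lam₂ := by exact_mod_cast this
    positivity
  refine few_real (Z := Z) (g := g) (h := h) (ν := ν) (E := E) (k := k) (s := s)
    (n0 := 2 * n0) (Mb := X ^ a) (Cb := X ^ (2 * F + U)) (N := N') N.g16 N.gh N.gν
    N.e1 N.e2 e3 N.hM N.hC hs hN hsk Q (fun q => fm α (l₁ q)) (fun q => fm α (l₂ q))
    (fun q => fA U E α (l₁ q) * rm U (num (tri q) i) * fB U E α (l₂ q))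
    (fun q => fA U E α (l₂ q) * rm U (num (tri q) j) * fB U E α (l₁ q))
    ((lam₁ : ℝ) ^ U / (lam₂ : ℝ) ^ U) θ (div_pos hl1 hl2) hθ ?_ ?_ ?_ ?_ ?_ ?_ ?_
  · intro q hq
    obtain ⟨hp, hd, F1, F2⟩ := hQ q hq
    have i1 := congrArg (fun z : ℕ => (z : ℝ)) (F1.id E α)
    have i2 := congrArg (fun z : ℕ => (z : ℝ)) (F2.id E α)
    beta_reduce at i1 i2
    push_cast at i1 i2 ⊢
    have b1 : (0 : ℝ) < fB U E α (l₁ q) := by exact_mod_cast fB_pos U E α
    have b2 : (0 : ℝ) < fB U E α (l₂ q) := by exact_mod_cast fB_pos U E α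
    have t1 : (0 : ℝ) < num (tri q) i := by exact_mod_cast F1.t0
    have t2 : (0 : ℝ) < num (tri q) j := by exact_mod_cast F2.t0
    have r1 : (lam₁ : ℝ) ^ U / (lam₂ : ℝ) ^ U * ((fm α (l₁ q) : ℝ) ^ E *
        ((fA U E α (l₁ q) : ℝ) * (rm U (num (tri q) i) : ℝ) * (fB U E α (l₂ q) : ℝ))) =
        (num (tri q) i : ℝ) * ((fB U E α (l₁ q) : ℝ) * (fB U E α (l₂ q) : ℝ) /
          (lam₂ : ℝ) ^ U) := by
      calc (lam₁ : ℝ) ^ U / (lam₂ : ℝ) ^ U * ((fm α (l₁ q) : ℝ) ^ E *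
          ((fA U E α (l₁ q) : ℝ) * (rm U (num (tri q) i) : ℝ) * (fB U E α (l₂ q) : ℝ)))
          = ((lam₁ : ℝ) ^ U * ((fm α (l₁ q) : ℝ) ^ E *
          ((fA U E α (l₁ q) : ℝ) * (rm U (num (tri q) i) : ℝ)))) * (fB U E α (l₂ q) : ℝ) /
            (lam₂ : ℝ) ^ U := by ring
        _ = _ := by rw [← i1]; ring
    have r2 : (fm α (l₂ q) : ℝ) ^ E *
        ((fA U E α (l₂ q) : ℝ) * (rm U (num (tri q) j) : ℝ) * (fB U E α (l₁ q) : ℝ)) =
        (num (tri q) j : ℝ) * ((fB U E α (l₁ q) : ℝ) * (fB U E α (l₂ q) : ℝ) /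
          (lam₂ : ℝ) ^ U) := by
      have : (fm α (l₂ q) : ℝ) ^ E *
          ((fA U E α (l₂ q) : ℝ) * (rm U (num (tri q) j) : ℝ)) =
          (num (tri q) j : ℝ) * (fB U E α (l₂ q) : ℝ) / (lam₂ : ℝ) ^ U := by
        rw [eq_div_iff hl2.ne', i2]
        ring
      calc (fm α (l₂ q) : ℝ) ^ E *
          ((fA U E α (l₂ q) : ℝ) * (rm U (num (tri q) j) : ℝ) * (fB U E α (l₁ q) : ℝ))
          = ((fm α (l₂ q) : ℝ) ^ E *
          ((fA U E α (l₂ q) : ℝ) * (rm U (num (tri q) j) : ℝ))) * (fB U E α (l₁ q) : ℝ) := by ring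
        _ = _ := by rw [this]; ring
    rw [r1, r2, Real.log_mul t1.ne' (by positivity), Real.log_mul t2.ne' (by positivity)]
    rw [add_sub_add_right_eq_sub]
    exact hd
  · intro q hq
    obtain ⟨hp, hd, F1, F2⟩ := hQ q hq
    exact ⟨fm_pos α, F1.fm_le hα⟩
  · intro q hq
    obtain ⟨hp, hd, F1, F2⟩ := hQ q hq
    exact ⟨fm_pos α, F2.fm_le hα⟩
  · intro q hq
    obtain ⟨hp, hd, F1, F2⟩ := hQ q hq
    refine ⟨Nat.mul_pos (Nat.mul_pos (fA_pos _ _ _) (rm_pos F1.t0.ne')) (fB_pos _ _ _), ?_⟩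
    calc fA U E α (l₁ q) * rm U (num (tri q) i) * fB U E α (l₂ q) ≤ X ^ F * X ^ U * X ^ F :=
            Nat.mul_le_mul (Nat.mul_le_mul (F1.fA_le hα) (F1.rm_le N.U1)) (F2.fB_le hα)
      _ = X ^ (2 * F + U) := by rw [← pow_add, ← pow_add]; congr 1; ring
  · intro q hq
    obtain ⟨hp, hd, F1, F2⟩ := hQ q hq
    refine ⟨Nat.mul_pos (Nat.mul_pos (fA_pos _ _ _) (rm_pos F2.t0.ne')) (fB_pos _ _ _), ?_⟩
    calc fA U E α (l₂ q) * rm U (num (tri q) j) * fB U E α (l₁ q) ≤ X ^ F * X ^ U * X ^ F :=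
            Nat.mul_le_mul (Nat.mul_le_mul (F2.fA_le hα) (F2.rm_le N.U1)) (F1.fB_le hα)
      _ = X ^ (2 * F + U) := by rw [← pow_add, ← pow_add]; congr 1; ring
  · intro q hq
    obtain ⟨hp, hd, F1, F2⟩ := hQ q hq
    have h1 := hcp q hq
    refine cop_of_sub F1.l0.ne' (by rw [F1.fm_pf hα]) ?_ (fm_pos α).ne'
    exact Nat.Coprime.symm (cop_of_sub F2.l0.ne' (by rw [F2.fm_pf hα]) h1.symm (fm_pos α).ne')
  · intro q hq
    obtain ⟨hp, hd, F1, F2⟩ := hQ q hq
    rw [Nat.primeFactors_mul (fm_pos α).ne' (fm_pos α).ne', F1.fm_pf hα, F2.fm_pf hα]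
    refine (card_union_le _ _).trans ?_
    have := F1.card
    have := F2.card
    omega

/-- the number of pairs with given support and bounded exponents -/
theorem card_supp {ι : Type*} [DecidableEq ι] (F : Finset ι) (m₁ m₂ : ι → ℕ) (S : Finset ℕ)
    (G m0 : ℕ) (hS : S.card ≤ m0) (h0 : ∀ x ∈ F, m₁ x ≠ 0 ∧ m₂ x ≠ 0)
    (hsup : ∀ x ∈ F, (m₁ x).primeFactors ⊆ S ∧ (m₂ x).primeFactors ⊆ S)
    (hG : ∀ x ∈ F, ∀ q, (m₁ x).factorization q ≤ G ∧ (m₂ x).factorization q ≤ G)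
    (hinj : ∀ x ∈ F, ∀ y ∈ F, m₁ x = m₁ y → m₂ x = m₂ y → x = y) :
    F.card ≤ ((G + 1) ^ m0) ^ 2 := by
  classical
  obtain ⟨f, hf⟩ : ∃ f : ι → (S → Fin (G + 1)) × (S → Fin (G + 1)), f = fun x =>
      (fun q => ⟨min ((m₁ x).factorization q) G, by omega⟩,
        fun q => ⟨min ((m₂ x).factorization q) G, by omega⟩) := ⟨_, rfl⟩
  have hfinj : Set.InjOn f F := by
    intro x hx y hy hxy
    rw [hf] at hxy
    simp only [Prod.mk.injEq, funext_iff, Fin.mk.injEq] at hxy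
    obtain ⟨e1, e2⟩ := hxy
    have key : ∀ {u v : ℕ}, u ≠ 0 → v ≠ 0 → u.primeFactors ⊆ S → v.primeFactors ⊆ S →
        (∀ q, u.factorization q ≤ G) → (∀ q, v.factorization q ≤ G) →
        (∀ q : S, min (u.factorization q) G = min (v.factorization q) G) → u = v := by
      intro u v hu hv hu1 hv1 hu2 hv2 huv
      refine Nat.eq_of_factorization_eq hu hv fun q => ?_
      by_cases hq : q ∈ S
      · have := huv ⟨q, hq⟩
        rw [min_eq_left (hu2 q), min_eq_left (hv2 q)] at this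
        exact this
      · have z1 : u.factorization q = 0 := by
          by_contra hcon
          exact hq (hu1 (by rw [← Nat.support_factorization]; exact Finsupp.mem_support_iff.2 hcon))
        have z2 : v.factorization q = 0 := by
          by_contra hcon
          exact hq (hv1 (by rw [← Nat.support_factorization]; exact Finsupp.mem_support_iff.2 hcon))
        rw [z1, z2]
    refine hinj x hx y hy ?_ ?_
    · exact key (h0 x hx).1 (h0 y hy).1 (hsup x hx).1 (hsup y hy).1 (fun q => (hG x hx q).1)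
        (fun q => (hG y hy q).1) e1
    · exact key (h0 x hx).2 (h0 y hy).2 (hsup x hx).2 (hsup y hy).2 (fun q => (hG x hx q).2)
        (fun q => (hG y hy q).2) e2
  have h1 : F.card ≤ (univ : Finset ((S → Fin (G + 1)) × (S → Fin (G + 1)))).card :=
    Finset.card_le_card_of_injOn f (fun _ _ => mem_univ _) hfinj
  refine h1.trans ?_
  rw [Finset.card_univ, Fintype.card_prod, Fintype.card_fun, Fintype.card_fin, Fintype.card_coe,
    pow_two]
  exact Nat.mul_le_mul (Nat.pow_le_pow_right (by omega) hS) (Nat.pow_le_pow_right (by omega) hS)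

/-- from supports to triples -/
theorem card_of_supp {U X n0 G lam₁ lam₂ N : ℕ} {S : Finset ℕ} {i j : Fin 3}
    (Q : Finset (ℕ × ℕ)) (l₁ l₂ : ℕ × ℕ → ℕ) (hG : ∀ δ ∈ S, δ ≤ G)
    (hQ : ∀ q ∈ Q, Few U X lam₁ n0 S (num (tri q) i) (l₁ q) ∧
      Few U X lam₂ n0 S (num (tri q) j) (l₂ q))
    (hN : (Q.image fun q => (l₁ q * l₂ q).primeFactors).card ≤ N)
    (hinj : ∀ q ∈ Q, ∀ q' ∈ Q, rt U (num (tri q) i) = rt U (num (tri q') i) →
      rt U (num (tri q) j) = rt U (num (tri q') j) → q = q') :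
    Q.card ≤ N * ((G + 1) ^ (2 * n0)) ^ 2 := by
  classical
  rw [Finset.card_eq_sum_card_image (fun q => (l₁ q * l₂ q).primeFactors) Q]
  have hfib : ∀ T ∈ Q.image (fun q => (l₁ q * l₂ q).primeFactors),
      (Q.filter fun q => (l₁ q * l₂ q).primeFactors = T).card ≤ ((G + 1) ^ (2 * n0)) ^ 2 := by
    intro T hT
    obtain ⟨q0, hq0, hT0⟩ := mem_image.1 hT
    have hfac : ∀ {l : ℕ} {lam t : ℕ}, Few U X lam n0 S t l → ∀ p, l.factorization p ≤ G := by
      intro l lam t H p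
      by_cases hp : p ∈ l.primeFactors
      · exact hG _ (H.dig p hp)
      · have : l.factorization p = 0 := by
          rw [← Nat.support_factorization, Finsupp.notMem_support_iff] at hp
          exact hp
        omega
    refine card_supp _ l₁ l₂ T G (2 * n0) ?_ ?_ ?_ ?_ ?_
    · have F1 := (hQ q0 hq0).1
      have F2 := (hQ q0 hq0).2
      rw [← hT0, Nat.primeFactors_mul F1.l0.ne' F2.l0.ne']
      refine (card_union_le _ _).trans ?_
      have := F1.card
      have := F2.card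
      omega
    · intro q hq
      have hq' := (mem_filter.1 hq).1
      exact ⟨(hQ q hq').1.l0.ne', (hQ q hq').2.l0.ne'⟩
    · intro q hq
      rw [mem_filter] at hq
      have F1 := (hQ q hq.1).1
      have F2 := (hQ q hq.1).2
      rw [← hq.2, Nat.primeFactors_mul F1.l0.ne' F2.l0.ne']
      exact ⟨subset_union_left, subset_union_right⟩
    · intro q hq p
      have hq' := (mem_filter.1 hq).1
      exact ⟨hfac (hQ q hq').1 p, hfac (hQ q hq').2 p⟩
    · intro q hq q' hq' h1 h2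
      have m := (mem_filter.1 hq).1
      have m' := (mem_filter.1 hq').1
      refine hinj q m q' m' ?_ ?_
      · rw [(hQ q m).1.eq, (hQ q' m').1.eq, h1]
      · rw [(hQ q m).2.eq, (hQ q' m').2.eq, h2]
  refine (Finset.sum_le_sum hfib).trans ?_
  rw [Finset.sum_const, smul_eq_mul]
  exact Nat.mul_le_mul_right _ hN

/-- uniqueness modulo a large modulus -/
theorem uniq_padic {U X f : ℕ} (hU : 1 ≤ U) (hf : X ^ (2 * U) < f) {i j c : Fin 3} (hij : i ≠ j)
    (hjc : j ≠ c) (hic : i ≠ c) {q q' : ℕ × ℕ} (hq : Pr q) (hq' : Pr q')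
    (hd : f ∣ num (tri q) c) (hd' : f ∣ num (tri q') c)
    (hr : ∀ l, rad (num (tri q) l) ≤ X) (hr' : ∀ l, rad (num (tri q') l) ≤ X)
    (h1 : rt U (num (tri q) i) = rt U (num (tri q') i))
    (h2 : rt U (num (tri q) j) = rt U (num (tri q') j)) : q = q' := by
  have ti : 0 < num (tri q) i := num_pos hq.abc i
  have tj : 0 < num (tri q) j := num_pos hq.abc j
  have ti' : 0 < num (tri q') i := num_pos hq'.abc i
  have tj' : 0 < num (tri q') j := num_pos hq'.abc j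
  have ci : (num (tri q) i).Coprime f := Nat.Coprime.coprime_dvd_right hd (num_coprime hq.abc hic)
  have cj : (num (tri q) j).Coprime f := Nat.Coprime.coprime_dvd_right hd (num_coprime hq.abc hjc)
  have e1 := cong hq.abc hij hjc hic hd
  have e2 := cong hq'.abc hij hjc hic hd'
  have a1 := rt_mul_rm (U := U) ti.ne'
  have a2 := rt_mul_rm (U := U) tj.ne'
  have a3 := rt_mul_rm (U := U) ti'.ne'
  have a4 := rt_mul_rm (U := U) tj'.ne'
  rw [← h1] at a3
  rw [← h2] at a4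
  obtain ⟨x, hx⟩ : ∃ x, x = rt U (num (tri q) i) ^ U := ⟨_, rfl⟩
  obtain ⟨y, hy⟩ : ∃ y, y = rt U (num (tri q) j) ^ U := ⟨_, rfl⟩
  rw [← hx] at a1 a3
  rw [← hy] at a2 a4
  have cx : IsUnit (x : ZMod f) := by
    rw [ZMod.isUnit_iff_coprime]
    exact Nat.Coprime.coprime_dvd_left ⟨_, a1.symm⟩ ci
  have cy : IsUnit (y : ZMod f) := by
    rw [ZMod.isUnit_iff_coprime]
    exact Nat.Coprime.coprime_dvd_left ⟨_, a2.symm⟩ cj
  have key : rm U (num (tri q) j) * rm U (num (tri q') i) ≡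
      rm U (num (tri q') j) * rm U (num (tri q) i) [MOD f] := by
    rw [← ZMod.natCast_eq_natCast_iff]
    rw [← a1, ← a2] at e1
    rw [← a3, ← a4] at e2
    push_cast at e1 e2 ⊢
    apply cx.mul_left_cancel
    apply cy.mul_left_cancel
    have hs := Units.isUnit (sgu f c)
    apply hs.mul_left_cancel
    calc (sgu f c : ZMod f) * ((y : ZMod f) * ((x : ZMod f) *
          ((rm U (num (tri q) j) : ZMod f) * (rm U (num (tri q') i) : ZMod f))))
        = ((y : ZMod f) * (rm U (num (tri q) j) : ZMod f)) *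
          ((sgu f c : ZMod f) * ((x : ZMod f) * (rm U (num (tri q') i) : ZMod f))) := by ring
      _ = ((sgu f c : ZMod f) * ((x : ZMod f) * (rm U (num (tri q) i) : ZMod f))) *
          ((y : ZMod f) * (rm U (num (tri q') j) : ZMod f)) := by rw [e1, ← e2]
      _ = _ := by ring
  have hle : ∀ {t t' : ℕ}, t ≠ 0 → t' ≠ 0 → rad t ≤ X → rad t' ≤ X →
      rm U t * rm U t' < f := by
    intro t t' ht ht' hr hr'
    refine lt_of_le_of_lt ?_ hf
    calc rm U t * rm U t' ≤ X ^ U * X ^ U := Nat.mul_le_mul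
          ((rm_le hU ht).trans (Nat.pow_le_pow_left hr _))
          ((rm_le hU ht').trans (Nat.pow_le_pow_left hr' _))
      _ = X ^ (2 * U) := by rw [← pow_add]; congr 1; ring
  have key2 := Nat.ModEq.eq_of_lt_of_lt key (hle tj.ne' ti'.ne' (hr j) (hr' i))
    (hle tj'.ne' ti.ne' (hr' j) (hr i))
  have c1 : Nat.Coprime (rm U (num (tri q) i)) (rm U (num (tri q) j)) :=
    Nat.Coprime.coprime_dvd_left (rm_dvd ti.ne') (Nat.Coprime.coprime_dvd_right (rm_dvd tj.ne')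
      (num_coprime hq.abc hij))
  have c2 : Nat.Coprime (rm U (num (tri q') i)) (rm U (num (tri q') j)) :=
    Nat.Coprime.coprime_dvd_left (rm_dvd ti'.ne') (Nat.Coprime.coprime_dvd_right (rm_dvd tj'.ne')
      (num_coprime hq'.abc hij))
  have d1 : rm U (num (tri q) i) ∣ rm U (num (tri q') i) := by
    have : rm U (num (tri q) i) ∣ rm U (num (tri q) j) * rm U (num (tri q') i) := by
      rw [key2]; exact Dvd.intro_left _ rfl
    exact c1.dvd_of_dvd_mul_left this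
  have d2 : rm U (num (tri q') i) ∣ rm U (num (tri q) i) := by
    have : rm U (num (tri q') i) ∣ rm U (num (tri q') j) * rm U (num (tri q) i) := by
      rw [← key2]; exact Dvd.intro_left _ rfl
    exact c2.dvd_of_dvd_mul_left this
  have e3 := Nat.dvd_antisymm d1 d2
  rw [e3] at key2
  have e4 := Nat.eq_of_mul_eq_mul_right (rm_pos ti'.ne') key2
  apply tri_inj
  apply num_inj hq.abc hq'.abc hij
  · rw [← a1, ← a3, e3]
  · rw [← a2, ← a4, e4]

/-- uniqueness in the real numbers -/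
theorem uniq_real {U X : ℕ} (hU : 1 ≤ U) {i j : Fin 3} (hij : i ≠ j)
    {q q' : ℕ × ℕ} (hq : Pr q) (hq' : Pr q') {θ : ℝ} (hθ : 4 * θ * (X : ℝ) ^ (2 * U) < 1)
    (hX : 1 ≤ X)
    (hd : |Real.log (num (tri q) i) - Real.log (num (tri q) j)| ≤ θ)
    (hd' : |Real.log (num (tri q') i) - Real.log (num (tri q') j)| ≤ θ)
    (hr : ∀ l, rad (num (tri q) l) ≤ X) (hr' : ∀ l, rad (num (tri q') l) ≤ X)
    (h1 : rt U (num (tri q) i) = rt U (num (tri q') i))
    (h2 : rt U (num (tri q) j) = rt U (num (tri q') j)) : q = q' := by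
  have ti : 0 < num (tri q) i := num_pos hq.abc i
  have tj : 0 < num (tri q) j := num_pos hq.abc j
  have ti' : 0 < num (tri q') i := num_pos hq'.abc i
  have tj' : 0 < num (tri q') j := num_pos hq'.abc j
  have a1 := rt_mul_rm (U := U) ti.ne'
  have a2 := rt_mul_rm (U := U) tj.ne'
  have a3 := rt_mul_rm (U := U) ti'.ne'
  have a4 := rt_mul_rm (U := U) tj'.ne'
  rw [← h1] at a3
  rw [← h2] at a4
  have x0 : 0 < rt U (num (tri q) i) ^ U := pow_pos (rt_pos _ _) _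
  have y0 : 0 < rt U (num (tri q) j) ^ U := pow_pos (rt_pos _ _) _
  obtain ⟨x, hx⟩ : ∃ x, x = rt U (num (tri q) i) ^ U := ⟨_, rfl⟩
  obtain ⟨y, hy⟩ : ∃ y, y = rt U (num (tri q) j) ^ U := ⟨_, rfl⟩
  rw [← hx] at a1 a3 x0
  rw [← hy] at a2 a4 y0
  have r1 := rm_pos (U := U) ti.ne'
  have r2 := rm_pos (U := U) tj.ne'
  have r3 := rm_pos (U := U) ti'.ne'
  have r4 := rm_pos (U := U) tj'.ne'
  have x0' : (0 : ℝ) < x := by exact_mod_cast x0
  have y0' : (0 : ℝ) < y := by exact_mod_cast y0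
  have r1' : (0 : ℝ) < rm U (num (tri q) i) := by exact_mod_cast r1
  have r2' : (0 : ℝ) < rm U (num (tri q) j) := by exact_mod_cast r2
  have r3' : (0 : ℝ) < rm U (num (tri q') i) := by exact_mod_cast r3
  have r4' : (0 : ℝ) < rm U (num (tri q') j) := by exact_mod_cast r4
  rw [← a1, ← a2] at hd
  rw [← a3, ← a4] at hd'
  push_cast at hd hd'
  rw [Real.log_mul x0'.ne' r1'.ne', Real.log_mul y0'.ne' r2'.ne'] at hd
  rw [Real.log_mul x0'.ne' r3'.ne', Real.log_mul y0'.ne' r4'.ne'] at hd'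
  have hX1 : (1 : ℝ) ≤ (X : ℝ) ^ (2 * U) := one_le_pow₀ (by exact_mod_cast hX)
  have hθ0 : 0 ≤ θ := (abs_nonneg _).trans hd
  have hc : |((rm U (num (tri q) j) * rm U (num (tri q') i) : ℕ) : ℝ) /
      ((rm U (num (tri q') j) * rm U (num (tri q) i) : ℕ) : ℝ) - 1| ≤ 2 * (2 * θ) := by
    apply log_close (by rw [Nat.cast_mul]; positivity) (by rw [Nat.cast_mul]; positivity)
    · rw [Nat.cast_mul, Nat.cast_mul, Real.log_mul r2'.ne' r3'.ne', Real.log_mul r4'.ne' r1'.ne']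
      rw [abs_le] at hd hd' ⊢
      constructor <;> linarith [hd.1, hd.2, hd'.1, hd'.2]
    · nlinarith
  have hle : ∀ {t t' : ℕ}, t ≠ 0 → t' ≠ 0 → rad t ≤ X → rad t' ≤ X →
      rm U t * rm U t' ≤ X ^ (2 * U) := by
    intro t t' ht ht' hr hr'
    calc rm U t * rm U t' ≤ X ^ U * X ^ U := Nat.mul_le_mul
          ((rm_le hU ht).trans (Nat.pow_le_pow_left hr _))
          ((rm_le hU ht').trans (Nat.pow_le_pow_left hr' _))
      _ = X ^ (2 * U) := by rw [← pow_add]; congr 1; ring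
  have hb := hle tj'.ne' ti.ne' (hr' j) (hr i)
  have key2 : rm U (num (tri q) j) * rm U (num (tri q') i) =
      rm U (num (tri q') j) * rm U (num (tri q) i) := by
    obtain ⟨a, ha⟩ : ∃ a, a = rm U (num (tri q) j) * rm U (num (tri q') i) := ⟨_, rfl⟩
    obtain ⟨b, hb'⟩ : ∃ b, b = rm U (num (tri q') j) * rm U (num (tri q) i) := ⟨_, rfl⟩
    rw [← ha, ← hb'] at hc ⊢
    rw [← hb'] at hb
    have b0 : (0 : ℝ) < b := by
      have : 0 < b := by rw [hb']; exact Nat.mul_pos r4 r1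
      exact_mod_cast this
    have hbX : (b : ℝ) ≤ (X : ℝ) ^ (2 * U) := by exact_mod_cast hb
    have h3 : |(a : ℝ) - b| < 1 := by
      have e : (a : ℝ) - b = b * (a / b - 1) := by field_simp
      rw [e, abs_mul, abs_of_pos b0]
      calc (b : ℝ) * |(a : ℝ) / b - 1| ≤ (X : ℝ) ^ (2 * U) * (2 * (2 * θ)) :=
            mul_le_mul hbX hc (abs_nonneg _) (by positivity)
        _ = 4 * θ * (X : ℝ) ^ (2 * U) := by ring
        _ < 1 := hθ
    have h8 : |((a : ℤ) - (b : ℤ) : ℤ)| < 1 := by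
      have : ((|((a : ℤ) - (b : ℤ) : ℤ)| : ℤ) : ℝ) < 1 := by
        push_cast
        exact h3
      exact_mod_cast this
    have h9 := Int.abs_lt_one_iff.mp h8
    omega
  have c1 : Nat.Coprime (rm U (num (tri q) i)) (rm U (num (tri q) j)) :=
    Nat.Coprime.coprime_dvd_left (rm_dvd ti.ne') (Nat.Coprime.coprime_dvd_right (rm_dvd tj.ne')
      (num_coprime hq.abc hij))
  have c2 : Nat.Coprime (rm U (num (tri q') i)) (rm U (num (tri q') j)) :=
    Nat.Coprime.coprime_dvd_left (rm_dvd ti'.ne') (Nat.Coprime.coprime_dvd_right (rm_dvd tj'.ne')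
      (num_coprime hq'.abc hij))
  have d1 : rm U (num (tri q) i) ∣ rm U (num (tri q') i) := by
    have : rm U (num (tri q) i) ∣ rm U (num (tri q) j) * rm U (num (tri q') i) := by
      rw [key2]; exact Dvd.intro_left _ rfl
    exact c1.dvd_of_dvd_mul_left this
  have d2 : rm U (num (tri q') i) ∣ rm U (num (tri q) i) := by
    have : rm U (num (tri q') i) ∣ rm U (num (tri q') j) * rm U (num (tri q) i) := by
      rw [← key2]; exact Dvd.intro_left _ rfl
    exact c2.dvd_of_dvd_mul_left this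
  have e3 := Nat.dvd_antisymm d1 d2
  rw [e3] at key2
  have e4 := Nat.eq_of_mul_eq_mul_right (rm_pos ti'.ne') key2
  apply tri_inj
  apply num_inj hq.abc hq'.abc hij
  · rw [← a1, ← a3, e3]
  · rw [← a2, ← a4, e4]

end Pool.Agent.T2H20.AH
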