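import Pool.Agent.T2H20.AH.Rt

/-!
Decomposition of a product of powers of primes into few products of one of the two kinds.
-/

set_option autoImplicit false

namespace Pool.Agent.T2H20.AH

open Finset Pool.Agent.H785R2.ABC

/-- the grid of exponents -/
def gr (wb d : ℕ) : ℕ → ℕ
  | 0 => d
  | r + 1 => gr wb d r + gr wb d r / wb + 1

lemma le_gr {wb d : ℕ} (r : ℕ) : d ≤ gr wb d r := by
  induction r with
  | zero => exact le_rfl
  | succ r ih =>
    show d ≤ gr wb d r + gr wb d r / wb + 1
    exact ih.trans ((Nat.le_add_right _ _).trans (Nat.le_add_right _ _))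

lemma gr_big {wb d : ℕ} (hw : 1 ≤ wb) (r : ℕ) : wb * d + r * d ≤ wb * gr wb d r := by
  induction r with
  | zero => simp [gr]
  | succ r ih =>
    show _ ≤ wb * (gr wb d r + gr wb d r / wb + 1)
    have h1 := le_gr (wb := wb) (d := d) r
    have h2 : gr wb d r < wb * (gr wb d r / wb + 1) := Nat.lt_mul_div_succ _ (by omega)
    have e : wb * (gr wb d r + gr wb d r / wb + 1) =
        wb * gr wb d r + wb * (gr wb d r / wb + 1) := by ring
    rw [e, add_mul, one_mul]
    omega

lemma exists_gr {wb d : ℕ} {n δ : ℕ} (h1 : d ≤ δ) (h2 : δ < gr wb d n) :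
    ∃ r < n, gr wb d r ≤ δ ∧ δ ≤ gr wb d r + gr wb d r / wb := by
  induction n with
  | zero =>
    exact absurd h2 (by simpa [gr] using h1)
  | succ n ih =>
    rcases Nat.lt_or_ge δ (gr wb d n) with h | h
    · obtain ⟨r, hr, h3⟩ := ih h
      exact ⟨r, by omega, h3⟩
    · refine ⟨n, by omega, h, ?_⟩
      have : gr wb d (n + 1) = gr wb d n + gr wb d n / wb + 1 := rfl
      omega

/-- pieces of the two kinds -/
def Piece (X t wb d d1 x : ℕ) : Prop :=
  0 < x ∧ rad x ≤ X ∧ ∃ E W : ℕ, d ≤ E ∧ E ≤ d1 ∧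
    (∀ p ∈ x.primeFactors, E ≤ x.factorization p ∧ x.factorization p ≤ E + W) ∧
    ((wb * W ≤ E ∧ rad x ^ t ≤ X ^ 2) ∨ W = 0)

lemma rad_one : rad 1 = 1 := by simp [rad]

lemma piece_one {X t wb d d1 : ℕ} (hX : 1 ≤ X) (hd : d ≤ d1) : Piece X t wb d d1 1 := by
  refine ⟨one_pos, by rw [rad_one]; exact hX, d, 0, le_rfl, hd, ?_, Or.inr rfl⟩
  intro p hp
  simp at hp

lemma fac_mul_pow {x p δ : ℕ} (hx : 0 < x) (hp : p.Prime) (hpx : ¬ p ∣ x) (hδ : δ ≠ 0) :
    (x * p ^ δ).primeFactors = insert p x.primeFactors ∧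
    (∀ q, (x * p ^ δ).factorization q = if q = p then δ else x.factorization q) ∧
    rad (x * p ^ δ) = rad x * p := by
  have h0 : p ^ δ ≠ 0 := pow_ne_zero _ hp.ne_zero
  have h1 : (x * p ^ δ).primeFactors = insert p x.primeFactors := by
    rw [Nat.primeFactors_mul hx.ne' h0, Nat.primeFactors_prime_pow hδ hp, Finset.union_comm]
    rfl
  refine ⟨h1, ?_, ?_⟩
  · intro q
    rw [Nat.factorization_mul hx.ne' h0, Finsupp.add_apply, hp.factorization_pow,
      Finsupp.single_apply]
    by_cases hq : p = q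
    · subst hq
      rw [if_pos rfl, if_pos rfl, Nat.factorization_eq_zero_of_not_dvd hpx, zero_add]
    · rw [if_neg hq, if_neg (fun h => hq h.symm), add_zero]
  · unfold rad
    rw [h1, Finset.prod_insert, mul_comm]
    intro h
    exact hpx (Nat.dvd_of_mem_primeFactors h)

/-- the invariant of the construction -/
def Inv (X t wb d d1 n : ℕ) (δ : ℕ → ℕ) (S : Finset ℕ) : Prop :=
  ∃ (sp : ℕ → ℕ) (L : List ℕ), (∀ r < n, 0 < sp r ∧ rad (sp r) ^ t ≤ X ∧
      (sp r).primeFactors ⊆ S ∧ (gr wb d r ≤ d1 ∨ sp r = 1) ∧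
      ∀ p ∈ (sp r).primeFactors, gr wb d r ≤ (sp r).factorization p ∧
        (sp r).factorization p ≤ gr wb d r + gr wb d r / wb) ∧
    (∀ x ∈ L, Piece X t wb d d1 x ∧ X < rad x ^ t) ∧
    (∏ r ∈ range n, sp r) * L.prod = pp S δ ∧
    (∏ r ∈ range n, rad (sp r)) * (L.map rad).prod = ∏ p ∈ S, p

lemma inv_all {X t wb d d1 n : ℕ} {δ : ℕ → ℕ} (hX : 1 ≤ X) (hd : 1 ≤ d)
    (hw : 1 ≤ wb) (ht : 1 ≤ t)
    (hd1 : d1 < gr wb d n) : ∀ S : Finset ℕ, (∀ p ∈ S, p.Prime) → (∀ p ∈ S, d ≤ δ p ∧ δ p ≤ d1) →
    ∏ p ∈ S, p ≤ X → Inv X t wb d d1 n δ S := by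
  classical
  intro S
  induction S using Finset.induction_on with
  | empty =>
    intro _ _ _
    refine ⟨fun _ => 1, [], ?_, ?_, ?_, ?_⟩
    · intro r _
      refine ⟨one_pos, ?_, ?_, Or.inr rfl, ?_⟩
      · rw [rad_one, one_pow]; exact hX
      · simp
      · intro p hp; simp at hp
    · intro x hx; simp at hx
    · simp [pp]
    · simp [rad_one]
  | insert p S hpS ih =>
    intro hprime hδ hprod
    have hpp := hprime p (mem_insert_self _ _)
    have hδp := hδ p (mem_insert_self _ _)
    rw [Finset.prod_insert hpS] at hprod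
    have hSpos : 0 < ∏ q ∈ S, q :=
      Finset.prod_pos fun q hq => (hprime q (mem_insert_of_mem hq)).pos
    have hprodS : ∏ q ∈ S, q ≤ X := le_trans (Nat.le_mul_of_pos_left _ hpp.pos) hprod
    have hpX : p ≤ X := le_trans (Nat.le_mul_of_pos_right _ hSpos) hprod
    obtain ⟨sp, L, h1, h2, h3, h4⟩ := ih (fun q hq => hprime q (mem_insert_of_mem hq))
      (fun q hq => hδ q (mem_insert_of_mem hq)) hprodS
    have hpp_ins : pp (insert p S) δ = p ^ δ p * pp S δ := Finset.prod_insert hpS
    have hδ0 : δ p ≠ 0 := by omega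
    rcases Nat.lt_or_ge X (p ^ t) with hbig | hsmall
    · -- a large prime
      refine ⟨sp, p ^ δ p :: L, ?_, ?_, ?_, ?_⟩
      · intro r hr
        obtain ⟨a1, a2, a3, a4, a5⟩ := h1 r hr
        exact ⟨a1, a2, a3.trans (subset_insert _ _), a4, a5⟩
      · intro x hx
        rw [List.mem_cons] at hx
        rcases hx with rfl | hx
        · have hr : rad (p ^ δ p) = p := by
            unfold rad
            rw [Nat.primeFactors_prime_pow hδ0 hpp, Finset.prod_singleton]
          refine ⟨⟨pow_pos hpp.pos _, by rw [hr]; exact hpX, δ p, 0, hδp.1, hδp.2, ?_, Or.inr rfl⟩,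
            by rw [hr]; exact hbig⟩
          intro q hq
          rw [Nat.primeFactors_prime_pow hδ0 hpp, mem_singleton] at hq
          subst hq
          rw [hpp.factorization_pow, Finsupp.single_eq_same]
          omega
        · exact h2 x hx
      · rw [List.prod_cons, hpp_ins, ← h3]; ring
      · rw [List.map_cons, List.prod_cons, Finset.prod_insert hpS, ← h4]
        have hr : rad (p ^ δ p) = p := by
          unfold rad
          rw [Nat.primeFactors_prime_pow hδ0 hpp, Finset.prod_singleton]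
        rw [hr]; ring
    · obtain ⟨r0, hr0, hr1, hr2⟩ := exists_gr (wb := wb) (n := n) hδp.1 (lt_of_le_of_lt hδp.2 hd1)
      obtain ⟨a1, a2, a3, a4, a5⟩ := h1 r0 hr0
      have hpx : ¬ p ∣ sp r0 := by
        intro h
        exact hpS (a3 ((Nat.mem_primeFactors_of_ne_zero a1.ne').2 ⟨hpp, h⟩))
      obtain ⟨b1, b2, b3⟩ := fac_mul_pow (δ := δ p) a1 hpp hpx hδ0
      obtain ⟨y, hy⟩ : ∃ y, y = sp r0 * p ^ δ p := ⟨_, rfl⟩
      rw [← hy] at b1 b2 b3
      have hy0 : 0 < y := by rw [hy]; exact Nat.mul_pos a1 (pow_pos hpp.pos _)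
      have hfac : ∀ q ∈ y.primeFactors, gr wb d r0 ≤ y.factorization q ∧
          y.factorization q ≤ gr wb d r0 + gr wb d r0 / wb := by
        intro q hq
        rw [b2]
        split_ifs with hqp
        · exact ⟨hr1, hr2⟩
        · rw [b1, mem_insert] at hq
          exact a5 q (hq.resolve_left hqp)
      have hmem : r0 ∈ range n := mem_range.2 hr0
      have hsp : ∏ r ∈ range n, sp r = sp r0 * ∏ r ∈ range n \ {r0}, sp r := by
        rw [Finset.sdiff_singleton_eq_erase, Finset.mul_prod_erase _ _ hmem]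
      have hspr : ∏ r ∈ range n, rad (sp r) =
          rad (sp r0) * ∏ r ∈ range n \ {r0}, rad (sp r) := by
        rw [Finset.sdiff_singleton_eq_erase, Finset.mul_prod_erase _ (fun r => rad (sp r)) hmem]
      have hupd : ∀ b, ∏ r ∈ range n, Function.update sp r0 b r =
          b * ∏ r ∈ range n \ {r0}, sp r := fun b => Finset.prod_update_of_mem hmem _ _
      have hupdr : ∀ b, ∏ r ∈ range n, rad (Function.update sp r0 b r) =
          rad b * ∏ r ∈ range n \ {r0}, rad (sp r) := by
        intro b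
        have : (fun r => rad (Function.update sp r0 b r)) =
            Function.update (fun r => rad (sp r)) r0 (rad b) := by
          funext r
          by_cases h : r = r0
          · subst h; simp
          · simp [Function.update_of_ne h]
        calc ∏ r ∈ range n, rad (Function.update sp r0 b r) =
            ∏ r ∈ range n, Function.update (fun r => rad (sp r)) r0 (rad b) r := by
              rw [← this]
          _ = _ := Finset.prod_update_of_mem hmem _ _
      have hgr1 : gr wb d r0 ≤ d1 := hr1.trans hδp.2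
      rcases le_or_gt (rad y ^ t) X with hle | hlt
      · refine ⟨Function.update sp r0 y, L, ?_, h2, ?_, ?_⟩
        · intro r hr
          by_cases h : r = r0
          · subst h
            rw [Function.update_self]
            refine ⟨hy0, hle, ?_, Or.inl hgr1, hfac⟩
            rw [b1]
            exact insert_subset_insert _ a3
          · rw [Function.update_of_ne h]
            obtain ⟨c1, c2, c3, c4, c5⟩ := h1 r hr
            exact ⟨c1, c2, c3.trans (subset_insert _ _), c4, c5⟩
        · rw [hupd, hpp_ins, ← h3, hsp, hy]; ring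
        · rw [hupdr, Finset.prod_insert hpS, ← h4, hspr, b3]; ring
      · refine ⟨Function.update sp r0 1, y :: L, ?_, ?_, ?_, ?_⟩
        · intro r hr
          by_cases h : r = r0
          · subst h
            rw [Function.update_self]
            refine ⟨one_pos, ?_, ?_, Or.inr rfl, ?_⟩
            · rw [rad_one, one_pow]; exact hX
            · simp
            · intro q hq; simp at hq
          · rw [Function.update_of_ne h]
            obtain ⟨c1, c2, c3, c4, c5⟩ := h1 r hr
            exact ⟨c1, c2, c3.trans (subset_insert _ _), c4, c5⟩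
        · intro x hx
          rw [List.mem_cons] at hx
          rcases hx with rfl | hx
          · refine ⟨⟨hy0, ?_, gr wb d r0, gr wb d r0 / wb, le_gr _, hgr1, hfac, Or.inl ⟨?_, ?_⟩⟩,
              hlt⟩
            · refine le_trans ?_ hprod
              rw [b3, mul_comm]
              apply Nat.mul_le_mul_left
              unfold rad
              exact Finset.prod_le_prod_of_subset_of_one_le' a3
                fun q hq _ => (hprime q (mem_insert_of_mem hq)).one_le
            · exact Nat.mul_div_le _ _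
            · rw [b3, mul_pow, sq]
              exact Nat.mul_le_mul a2 hsmall
          · exact h2 x hx
        · rw [hupd, hpp_ins, List.prod_cons, ← h3, hsp, hy]; ring
        · rw [hupdr, List.map_cons, List.prod_cons, Finset.prod_insert hpS, ← h4, hspr, b3,
            rad_one]
          ring

lemma prod_getD {M : Type*} [CommMonoid M] (f : ℕ → M) (hf : f 1 = 1) : ∀ (L : List ℕ) (N : ℕ),
    L.length ≤ N → ∏ i : Fin N, f (L.getD i 1) = (L.map f).prod := by
  intro L
  induction L with
  | nil =>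
    intro N _
    simp [hf]
  | cons a L ih =>
    intro N hN
    obtain ⟨N', rfl⟩ : ∃ N', N = N' + 1 := ⟨N - 1, by simp at hN; omega⟩
    rw [Fin.prod_univ_succ, List.map_cons, List.prod_cons]
    congr 1
    have h1 : L.length ≤ N' := by simpa using hN
    rw [← ih N' h1]
    apply Finset.prod_congr rfl
    intro i _
    simp

lemma list_to_Ix {L : List ℕ} {dd : ℕ} (h : L.length ≤ 2 ^ dd) : ∃ x : Ix dd → ℕ,
    (∀ l, x l ∈ L ∨ x l = 1) ∧ ∀ f : ℕ → ℕ, f 1 = 1 → ∏ l, f (x l) = (L.map f).prod := by
  obtain ⟨e⟩ : Nonempty (Ix dd ≃ Fin (2 ^ dd)) :=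
    Fintype.card_eq.1 (by rw [card_Ix, Fintype.card_fin])
  refine ⟨fun l => L.getD (e l) 1, ?_, ?_⟩
  · intro l
    rcases Nat.lt_or_ge (e l : ℕ) L.length with h1 | h1
    · left
      show L.getD (e l) 1 ∈ L
      rw [List.getD_eq_getElem _ _ h1]
      exact List.getElem_mem h1
    · right
      show L.getD (e l) 1 = 1
      exact List.getD_eq_default _ _ h1
  · intro f hf
    rw [← prod_getD f hf L (2 ^ dd) h]
    exact Equiv.prod_comp e fun i => f (L.getD i 1)

/-- **The decomposition.** -/
theorem decompose {X t wb d d1 n dd : ℕ} {δ : ℕ → ℕ} (hX : 2 ≤ X) (hd : 1 ≤ d) (hdd1 : d ≤ d1)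
    (hw : 1 ≤ wb) (ht : 1 ≤ t) (hd1 : d1 < gr wb d n) (hdd : n + t ≤ 2 ^ dd)
    (S : Finset ℕ) (hS : ∀ p ∈ S, p.Prime) (hδ : ∀ p ∈ S, d ≤ δ p ∧ δ p ≤ d1)
    (hprod : ∏ p ∈ S, p ≤ X) :
    ∃ x : Ix dd → ℕ, (∀ l, Piece X t wb d d1 (x l)) ∧ ∏ l, x l = pp S δ ∧
      ∏ l, rad (x l) = ∏ p ∈ S, p := by
  obtain ⟨sp, L, h1, h2, h3, h4⟩ := inv_all (by omega) hd hw ht hd1 S hS hδ hprod
  have hlen : L.length ≤ t := by
    have key : ∀ M : List ℕ, (∀ x ∈ M, X < rad x ^ t) → X ^ M.length ≤ ((M.map rad).prod) ^ t := by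
      intro M
      induction M with
      | nil => intro _; simp
      | cons a M ih =>
        intro hM
        rw [List.length_cons, List.map_cons, List.prod_cons, mul_pow, pow_succ, mul_comm]
        exact Nat.mul_le_mul (hM a (by simp)).le (ih fun x hx => hM x (by simp [hx]))
    have h5 := key L fun x hx => (h2 x hx).2
    have h6 : (L.map rad).prod ≤ X := by
      refine le_trans ?_ hprod
      rw [← h4]
      exact Nat.le_mul_of_pos_left _ (Finset.prod_pos fun r _ => rad_pos' _)
    have h7 : X ^ L.length ≤ X ^ t := h5.trans (Nat.pow_le_pow_left h6 _)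
    exact (Nat.pow_le_pow_iff_right (by omega)).1 h7
  obtain ⟨x, hx1, hx2⟩ := list_to_Ix (L := (List.range n).map sp ++ L) (dd := dd) (by
    simp
    omega)
  refine ⟨x, ?_, ?_, ?_⟩
  · intro l
    rcases hx1 l with h | h
    · rw [List.mem_append, List.mem_map] at h
      rcases h with ⟨r, hr, hrl⟩ | h
      · rw [List.mem_range] at hr
        obtain ⟨a1, a2, a3, a4, a5⟩ := h1 r hr
        rw [← hrl]
        rcases a4 with a4 | a4
        · refine ⟨a1, ?_, gr wb d r, gr wb d r / wb, le_gr _, a4, a5, Or.inl ⟨Nat.mul_div_le _ _, ?_⟩⟩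
          · refine le_trans ?_ hprod
            unfold rad
            exact Finset.prod_le_prod_of_subset_of_one_le' a3 fun q hq _ => (hS q hq).one_le
          · exact a2.trans (Nat.le_self_pow (by norm_num) X)
        · rw [a4]
          exact piece_one (by omega) hdd1
      · exact (h2 _ h).1
    · rw [h]
      exact piece_one (by omega) hdd1
  · have := hx2 (fun v => v) rfl
    rw [this, List.map_id', List.prod_append, ← h3]
    congr 1
  · have := hx2 rad rad_one
    rw [this, List.map_append, List.prod_append, List.map_map, ← h4]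
    congr 1

end Pool.Agent.T2H20.AH
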