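import Pool.Agent.T2H20.AH.Pc
import Pool.Agent.T2H20.AH.Ty
import Pool.Agent.T2H20.AH.Fx

/-!
The number of the triples of a class, the third member of which is divisible by a large power of a
small integer.
-/

set_option autoImplicit false

namespace Pool.Agent.T2H20.AH

open Finset Pool.Agent.H785R2.ABC Pool.Agent.H785R2.ABC.EC Pool.Agent.T2H20.ABC

/-- admissible types -/
structure TyOK (X t wb d d1 : ℕ) (τ : ℕ × ℕ × ℕ) : Prop where
  lo : d ≤ τ.1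
  hi : τ.1 ≤ d1
  le : 2 ^ τ.2.2 ≤ X
  kind : (wb * τ.2.1 ≤ τ.1 ∧ (2 ^ τ.2.2) ^ t ≤ X ^ 2) ∨ τ.2.1 = 0

open Classical in
/-- the numbers of a type -/
noncomputable def As (X A D : ℕ) (τ : ℕ × ℕ × ℕ) : Finset ℕ :=
  (Icc 1 (X ^ A)).filter fun v => Var D τ.1 τ.2.1 (2 ^ (τ.2.2 + 1)) v ∧ 2 ^ τ.2.2 ≤ rad v

/-- numerical conditions -/
lemma num_gen {X D E W N U Y e m d1 V H ℓ g : ℕ} (he : 1 ≤ e) (hU : 1 ≤ U)
    (hℓ : ℓ = Nat.log 2 X) (hg : g = Nat.log 2 D) (hX : X ≠ 0) (hD : D ≠ 0)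
    (h1 : X ≤ D ^ e) (h2 : D ^ e ≤ X ^ 4) (hg8 : 8 ≤ g) (hd1g : d1 ≤ 2 ^ (g / 4))
    (hE : E ≤ d1) (hV : 282 * e * V ≤ E) (hH4 : 4 ≤ H) (hV4 : 4 ≤ V)
    (hY : 80000 * e ^ 2 * (H * V) ≤ Y)
    (hh : N ^ m < 2 ^ (H * (ℓ + 1)))
    (hν : (N ^ m) ^ (W * U) * (X ^ U) ^ (4 * m) < 2 ^ ((ℓ + 1) * (U * V))) :
    Num D E W N U (U * Y) (X ^ U) (4 * m) m g (H * (ℓ + 1)) ((ℓ + 1) * (U * V)) := by
  have hXlt : X < 2 ^ (ℓ + 1) := by rw [hℓ]; exact Nat.lt_pow_succ_log_self (by norm_num) _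
  have hXge : 2 ^ ℓ ≤ X := by rw [hℓ]; exact Nat.pow_log_le_self 2 hX
  have hDlt : D < 2 ^ (g + 1) := by rw [hg]; exact Nat.lt_pow_succ_log_self (by norm_num) _
  have hDge : 2 ^ g ≤ D := by rw [hg]; exact Nat.pow_log_le_self 2 hD
  -- `ℓ + 1 ≤ 2 e g`
  have a1 : ℓ < (g + 1) * e := by
    have : 2 ^ ℓ < 2 ^ ((g + 1) * e) := by
      calc 2 ^ ℓ ≤ X := hXge
        _ ≤ D ^ e := h1
        _ < (2 ^ (g + 1)) ^ e := Nat.pow_lt_pow_left hDlt (by omega)
        _ = _ := (pow_mul _ _ _).symm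
    exact (Nat.pow_lt_pow_iff_right (by norm_num)).1 this
  have a2 : ℓ + 1 ≤ 2 * e * g := by
    have e1 : (g + 1) * e = e * g + e := by ring
    have e2 : e ≤ e * g := Nat.le_mul_of_pos_right _ (by omega)
    have e3 : 2 * e * g = e * g + e * g := by ring
    omega
  -- `g ≤ 4 (ℓ + 1)`
  have a3 : g ≤ 4 * (ℓ + 1) := by
    have : 2 ^ (g * e) < 2 ^ (4 * (ℓ + 1)) := by
      calc 2 ^ (g * e) = (2 ^ g) ^ e := pow_mul _ _ _
        _ ≤ D ^ e := Nat.pow_le_pow_left hDge _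
        _ ≤ X ^ 4 := h2
        _ < (2 ^ (ℓ + 1)) ^ 4 := Nat.pow_lt_pow_left hXlt (by norm_num)
        _ = _ := by rw [← pow_mul]; congr 1; ring
    have h3 := (Nat.pow_lt_pow_iff_right (by norm_num)).1 this
    have : g ≤ g * e := Nat.le_mul_of_pos_right _ (by omega)
    omega
  have hUV : V ≤ U * V := Nat.le_mul_of_pos_left _ (by omega)
  refine ⟨hDge, hg8, ?_, ?_, hh, hν, ?_, ?_, ?_⟩
  · exact a3.trans (Nat.mul_le_mul_right _ hH4)
  · calc g ≤ 4 * (ℓ + 1) := a3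
      _ = (ℓ + 1) * 4 := mul_comm _ _
      _ ≤ (ℓ + 1) * (U * V) := Nat.mul_le_mul_left _ (by omega)
  · calc 141 * ((ℓ + 1) * (U * V)) ≤ 141 * ((2 * e * g) * (U * V)) :=
          Nat.mul_le_mul_left _ (Nat.mul_le_mul_right _ a2)
      _ = g * ((282 * e * V) * U) := by ring
      _ ≤ g * (E * U) := Nat.mul_le_mul_left _ (Nat.mul_le_mul_right _ hV)
  · calc E * U * g ≤ d1 * U * (4 * (ℓ + 1)) :=
          Nat.mul_le_mul (Nat.mul_le_mul_right _ hE) a3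
      _ = d1 * ((ℓ + 1) * (U * 4)) := by ring
      _ ≤ 2 ^ (g / 4) * ((ℓ + 1) * (U * V)) := by
          apply Nat.mul_le_mul hd1g
          exact Nat.mul_le_mul_left _ (Nat.mul_le_mul_left _ hV4)
  · calc 20000 * (H * (ℓ + 1)) * ((ℓ + 1) * (U * V)) = 20000 * (H * V) * U * (ℓ + 1) ^ 2 := by ring
      _ ≤ 20000 * (H * V) * U * (2 * e * g) ^ 2 :=
          Nat.mul_le_mul_left _ (Nat.pow_le_pow_left a2 2)
      _ = U * (80000 * e ^ 2 * (H * V)) * g ^ 2 := by ring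
      _ ≤ U * Y * g ^ 2 := Nat.mul_le_mul_right _ (Nat.mul_le_mul_left _ hY)

/-- the numbers of an admissible type -/
theorem good_type {X A D U Y e t wb d d1 κ dd T K : ℕ} {τ : ℕ × ℕ × ℕ} (he : 1 ≤ e) (hU : 1 ≤ U)
    (hX : 2 ≤ X) (hD : D ≠ 0) (h1 : X ≤ D ^ e) (h2 : D ^ e ≤ X ^ 4)
    (hg8 : 8 ≤ Nat.log 2 D) (hd1g : d1 ≤ 2 ^ (Nat.log 2 D / 4)) (hXm : 2 ^ 2 ^ dd ≤ X)
    (hd1 : d1 = κ * d) (hκ : 1 ≤ κ) (hdd : 2 ^ dd ≤ 4 * t) (hdd1 : 1 ≤ dd)
    (hwb : 103680000 * e ^ 2 * κ ≤ wb)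
    (hd : 46080000 * e ^ 2 * (2 ^ dd) ^ 2 ≤ d) (hY : d ≤ 8 * Y)
    (hT : ∀ s : ℕ, 0 < s → s ≤ X ^ (2 * 2 ^ dd + 18) → s.divisors.card ≤ T)
    (hK : ∀ r : ℕ, ((Icc 1 (X ^ A)).filter fun v => rad v = r).card ≤ K)
    (hτ : TyOK X t wb d d1 τ) : Good D U (U * Y) (X ^ U) dd T K (As X A D τ) := by
  classical
  obtain ⟨E, W, a⟩ := τ
  obtain ⟨hlo, hhi, hle, hkind⟩ := hτ
  simp only at hlo hhi hle hkind
  obtain ⟨m, hm⟩ : ∃ m, m = 2 ^ dd := ⟨_, rfl⟩
  rw [← hm] at hXm hdd hd hT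
  obtain ⟨ℓ, hℓ⟩ : ∃ ℓ, ℓ = Nat.log 2 X := ⟨_, rfl⟩
  have hXlt : X < 2 ^ (ℓ + 1) := by rw [hℓ]; exact Nat.lt_pow_succ_log_self (by norm_num) _
  have hXge : 2 ^ ℓ ≤ X := by rw [hℓ]; exact Nat.pow_log_le_self 2 (by omega)
  have hm2 : 2 ≤ m := by
    rw [hm]
    calc 2 = 2 ^ 1 := rfl
      _ ≤ 2 ^ dd := Nat.pow_le_pow_right (by norm_num) hdd1
  have hmℓ : m ≤ ℓ := by
    rw [hℓ]
    exact Nat.le_log_of_pow_le (by norm_num) hXm
  have haℓ : a ≤ ℓ := by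
    rw [hℓ]
    exact Nat.le_log_of_pow_le (by norm_num) hle
  have he2 : 1 ≤ e ^ 2 := Nat.one_le_pow _ _ he
  have hee : e ≤ e ^ 2 := Nat.le_self_pow (by norm_num) e
  have hmm : m ≤ m ^ 2 := Nat.le_self_pow (by norm_num) m
  have hXU : (X ^ U) ^ (4 * m) < 2 ^ ((ℓ + 1) * (U * (4 * m))) := by
    calc (X ^ U) ^ (4 * m) = X ^ (U * (4 * m)) := (pow_mul _ _ _).symm
      _ < (2 ^ (ℓ + 1)) ^ (U * (4 * m)) := Nat.pow_lt_pow_left hXlt
          (Nat.mul_ne_zero (by omega) (by omega))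
      _ = _ := (pow_mul _ _ _).symm
  have hX2 : 2 ^ (ℓ + 1) ≤ X ^ 2 := by
    calc 2 ^ (ℓ + 1) = 2 ^ ℓ * 2 := pow_succ _ _
      _ ≤ X * X := Nat.mul_le_mul hXge hX
      _ = X ^ 2 := (sq X).symm
  refine ⟨?_, ?_⟩
  · have hvar : ∀ v ∈ As X A D (E, W, a), Var D E W (2 ^ (a + 1)) v := by
      intro v hv
      unfold As at hv
      rw [mem_filter] at hv
      exact hv.2.1
    by_cases hW : W = 0
    · -- kind 2
      have hh : (2 ^ (a + 1)) ^ m < 2 ^ ((2 * m) * (ℓ + 1)) := by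
        rw [← pow_mul]
        apply Nat.pow_lt_pow_right (by norm_num)
        calc (a + 1) * m ≤ (ℓ + 1) * m := Nat.mul_le_mul_right _ (by omega)
          _ < (ℓ + 1) * m + (ℓ + 1) * m := by
              have : 0 < (ℓ + 1) * m := Nat.mul_pos (by omega) (by omega)
              omega
          _ = _ := by ring
      have hnum := num_gen (X := X) (D := D) (E := E) (W := W) (N := 2 ^ (a + 1)) (U := U)
        (Y := Y) (e := e) (m := m) (d1 := d1) (V := 4 * m) (H := 2 * m) he hU hℓ rfl (by omega)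
        hD h1 h2 hg8 hd1g hhi (by
          calc 282 * e * (4 * m) ≤ 46080000 * e ^ 2 * m ^ 2 := by
                have : e * m ≤ e ^ 2 * m ^ 2 := Nat.mul_le_mul hee hmm
                calc 282 * e * (4 * m) = 1128 * (e * m) := by ring
                  _ ≤ 46080000 * (e ^ 2 * m ^ 2) := Nat.mul_le_mul (by norm_num) this
                  _ = _ := by ring
            _ ≤ d := hd
            _ ≤ E := hlo) (by omega) (by omega) (by
          have e1 : 8 * (80000 * e ^ 2 * (2 * m * (4 * m))) ≤ 8 * Y := by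
            calc 8 * (80000 * e ^ 2 * (2 * m * (4 * m))) = 5120000 * (e ^ 2 * m ^ 2) := by ring
              _ ≤ 46080000 * (e ^ 2 * m ^ 2) := Nat.mul_le_mul_right _ (by norm_num)
              _ = 46080000 * e ^ 2 * m ^ 2 := by ring
              _ ≤ d := hd
              _ ≤ 8 * Y := hY
          omega) hh (by
          rw [hW, zero_mul, pow_zero, one_mul]
          exact hXU)
      refine ⟨E, W, 2 ^ (a + 1), Nat.log 2 D, (2 * m) * (ℓ + 1), (ℓ + 1) * (U * (4 * m)),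
        hvar, ?_, ?_⟩
      · rw [← hm]; exact hnum
      · intro s hs hs2
        apply hT s hs
        refine hs2.trans ?_
        rw [← hm]
        calc (2 ^ (a + 1)) ^ m ≤ (X ^ 2) ^ m := Nat.pow_le_pow_left
              ((Nat.pow_le_pow_right (by norm_num) (by omega)).trans hX2) _
          _ = X ^ (2 * m) := (pow_mul _ _ _).symm
          _ ≤ X ^ (2 * m + 18) := Nat.pow_le_pow_right (by omega) (by omega)
    · -- kind 1
      obtain ⟨hk1, hk2⟩ := hkind.resolve_right hW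
      have hat : a * t < 2 * (ℓ + 1) := by
        have : 2 ^ (a * t) < 2 ^ (2 * (ℓ + 1)) := by
          calc 2 ^ (a * t) = (2 ^ a) ^ t := pow_mul _ _ _
            _ ≤ X ^ 2 := hk2
            _ < (2 ^ (ℓ + 1)) ^ 2 := Nat.pow_lt_pow_left hXlt (by norm_num)
            _ = _ := by rw [← pow_mul]; congr 1; ring
        exact (Nat.pow_lt_pow_iff_right (by norm_num)).1 this
      have ham : (a + 1) * m < 9 * (ℓ + 1) := by
        have : a * m ≤ 4 * (a * t) := by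
          calc a * m ≤ a * (4 * t) := Nat.mul_le_mul_left _ hdd
            _ = _ := by ring
        have e1 : (a + 1) * m = a * m + m := by ring
        omega
      have hh : (2 ^ (a + 1)) ^ m < 2 ^ (9 * (ℓ + 1)) := by
        rw [← pow_mul]
        exact Nat.pow_lt_pow_right (by norm_num) ham
      have hWb : 5076 * e * W ≤ E := by
        refine le_trans (Nat.mul_le_mul_right _ ?_) hk1
        refine le_trans ?_ hwb
        calc 5076 * e ≤ 103680000 * e ^ 2 := Nat.mul_le_mul (by norm_num) hee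
          _ ≤ 103680000 * e ^ 2 * κ := Nat.le_mul_of_pos_right _ (by omega)
      have hWd : 103680000 * e ^ 2 * W ≤ d := by
        have e1 : κ * (103680000 * e ^ 2 * W) ≤ κ * d := by
          calc κ * (103680000 * e ^ 2 * W) = (103680000 * e ^ 2 * κ) * W := by ring
            _ ≤ wb * W := Nat.mul_le_mul_right _ hwb
            _ ≤ E := hk1
            _ ≤ d1 := hhi
            _ = κ * d := hd1
        exact Nat.le_of_mul_le_mul_left e1 (by omega)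
      have hnum := num_gen (X := X) (D := D) (E := E) (W := W) (N := 2 ^ (a + 1)) (U := U)
        (Y := Y) (e := e) (m := m) (d1 := d1) (V := 9 * W + 4 * m) (H := 9) he hU hℓ rfl (by omega)
        hD h1 h2 hg8 hd1g hhi (by
          have e1 : 2256 * e * m ≤ E := by
            calc 2256 * e * m = 2256 * (e * m) := by ring
              _ ≤ 46080000 * (e ^ 2 * m ^ 2) :=
                Nat.mul_le_mul (by norm_num) (Nat.mul_le_mul hee hmm)
              _ = 46080000 * e ^ 2 * m ^ 2 := by ring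
              _ ≤ d := hd
              _ ≤ E := hlo
          have e2 : 2 * (282 * e * (9 * W + 4 * m)) = 5076 * e * W + 2256 * e * m := by ring
          omega) (by norm_num) (by omega) (by
          have e1 : 16 * (80000 * e ^ 2 * (9 * (9 * W))) ≤ d := by
            refine le_trans (le_of_eq ?_) hWd
            ring
          have e2 : 16 * (80000 * e ^ 2 * (9 * (4 * m))) ≤ d := by
            calc 16 * (80000 * e ^ 2 * (9 * (4 * m))) = 46080000 * (e ^ 2 * m) := by ring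
              _ ≤ 46080000 * (e ^ 2 * m ^ 2) :=
                Nat.mul_le_mul_left _ (Nat.mul_le_mul_left _ hmm)
              _ = 46080000 * e ^ 2 * m ^ 2 := by ring
              _ ≤ d := hd
          have e3 : 16 * (80000 * e ^ 2 * (9 * (9 * W + 4 * m))) =
              16 * (80000 * e ^ 2 * (9 * (9 * W))) + 16 * (80000 * e ^ 2 * (9 * (4 * m))) := by
            ring
          omega) hh (by
          calc ((2 ^ (a + 1)) ^ m) ^ (W * U) * (X ^ U) ^ (4 * m)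
              ≤ (2 ^ (9 * (ℓ + 1))) ^ (W * U) * (X ^ U) ^ (4 * m) :=
                Nat.mul_le_mul_right _ (Nat.pow_le_pow_left hh.le _)
            _ < (2 ^ (9 * (ℓ + 1))) ^ (W * U) * 2 ^ ((ℓ + 1) * (U * (4 * m))) :=
                Nat.mul_lt_mul_of_pos_left hXU (by positivity)
            _ = 2 ^ ((ℓ + 1) * (U * (9 * W + 4 * m))) := by
                rw [← pow_mul, ← pow_add]; congr 1; ring)
      refine ⟨E, W, 2 ^ (a + 1), Nat.log 2 D, 9 * (ℓ + 1), (ℓ + 1) * (U * (9 * W + 4 * m)),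
        hvar, ?_, ?_⟩
      · rw [← hm]; exact hnum
      · intro s hs hs2
        apply hT s hs
        refine hs2.trans ?_
        rw [← hm]
        calc (2 ^ (a + 1)) ^ m ≤ 2 ^ (9 * (ℓ + 1)) := hh.le
          _ = (2 ^ (ℓ + 1)) ^ 9 := by rw [← pow_mul, mul_comm]
          _ ≤ (X ^ 2) ^ 9 := Nat.pow_le_pow_left hX2 _
          _ = X ^ 18 := by rw [← pow_mul]
          _ ≤ X ^ (2 * m + 18) := Nat.pow_le_pow_right (by omega) (by omega)
  · intro r
    refine le_trans (card_le_card ?_) (hK r)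
    intro v hv
    rw [mem_filter] at hv ⊢
    obtain ⟨hv1, hv2⟩ := hv
    unfold As at hv1
    rw [mem_filter] at hv1
    exact ⟨hv1.1, hv2⟩

/-- **the class bound** -/
theorem class_bound {X A D U Z dd T K C R₁ R₂ : ℕ} (hX : 1 ≤ X) (hU : 1 ≤ U) (hD : 0 < D)
    (hZ : Z ≠ 0)
    (hf : X ^ (2 * U) < D ^ Z) {i j c : Fin 3} (hij : i ≠ j) (hjc : j ≠ c) (hic : i ≠ c)
    (τ₁ τ₂ : Ix dd → ℕ × ℕ × ℕ) (kn₁ kn₂ : ℕ)
    (hG₁ : ∀ l, Good D U Z (X ^ U) dd T K (As X A D (τ₁ l)))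
    (hG₂ : ∀ l, Good D U Z (X ^ U) dd T K (As X A D (τ₂ l)))
    (hC₁ : ∀ l, (As X A D (τ₁ l)).card ≤ C * 2 ^ (τ₁ l).2.2)
    (hC₂ : ∀ l, (As X A D (τ₂ l)).card ≤ C * 2 ^ (τ₂ l).2.2)
    (Q : Finset (ℕ × ℕ)) (hQ : ∀ q ∈ Q, Pr q ∧ (∀ l, rad (num (tri q) l) ≤ X) ∧
      D ^ Z ∣ num (tri q) c ∧
      (∃ x : Ix dd → ℕ, (∀ l, x l ∈ As X A D (τ₁ l)) ∧ rt U (num (tri q) i) = kn₁ * ∏ l, x l ∧
        ∏ l, rad (x l) ≤ R₁) ∧
      (∃ x : Ix dd → ℕ, (∀ l, x l ∈ As X A D (τ₂ l)) ∧ rt U (num (tri q) j) = kn₂ * ∏ l, x l ∧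
        ∏ l, rad (x l) ≤ R₂)) :
    Q.card ^ 2 ≤ (C ^ 2 ^ dd * R₁) * (C ^ 2 ^ dd * R₂) * (D * (T * K) ^ (2 ^ dd)) ^ 2 := by
  classical
  rcases Q.eq_empty_or_nonempty with h0 | ⟨q0, hq0⟩
  · rw [h0, card_empty]; simp
  have hx : ∀ q ∈ Q, ∃ x : Ix dd → ℕ, (∀ l, x l ∈ As X A D (τ₁ l)) ∧
      rt U (num (tri q) i) = kn₁ * ∏ l, x l ∧ ∏ l, rad (x l) ≤ R₁ := fun q hq => (hQ q hq).2.2.2.1
  have hy : ∀ q ∈ Q, ∃ x : Ix dd → ℕ, (∀ l, x l ∈ As X A D (τ₂ l)) ∧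
      rt U (num (tri q) j) = kn₂ * ∏ l, x l ∧ ∏ l, rad (x l) ≤ R₂ := fun q hq => (hQ q hq).2.2.2.2
  choose! x hx1 hx2 hx3 using hx
  choose! y hy1 hy2 hy3 using hy
  have hcop : ∀ q ∈ Q, ∀ l : Fin 3, l ≠ c → Nat.Coprime (num (tri q) l) (D ^ Z) := fun q hq l hl =>
    Nat.Coprime.coprime_dvd_right (hQ q hq).2.2.1 (num_coprime (hQ q hq).1.abc hl)
  have hcrt : ∀ q ∈ Q, ∀ l : Fin 3, l ≠ c → Nat.Coprime (rt U (num (tri q) l)) (D ^ Z) := by
    intro q hq l hl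
    have tl : 0 < num (tri q) l := num_pos (hQ q hq).1.abc l
    exact Nat.Coprime.coprime_dvd_left (rt_dvd hU tl.ne') (hcop q hq l hl)
  have ck1 : kn₁.Coprime (D ^ Z) := by
    have h1 := hcrt q0 hq0 i hic
    rw [hx2 q0 hq0] at h1
    exact Nat.Coprime.coprime_mul_right h1
  have ck2 : kn₂.Coprime (D ^ Z) := by
    have h1 := hcrt q0 hq0 j hjc
    rw [hy2 q0 hq0] at h1
    exact Nat.Coprime.coprime_mul_right h1
  have cx : ∀ q ∈ Q, ∀ l, (x q l).Coprime (D ^ Z) := by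
    intro q hq l
    have h1 := hx1 q hq l
    unfold As at h1
    rw [mem_filter] at h1
    exact Nat.Coprime.pow_right Z h1.2.1.cop
  have cy : ∀ q ∈ Q, ∀ l, (y q l).Coprime (D ^ Z) := by
    intro q hq l
    have h1 := hy1 q hq l
    unfold As at h1
    rw [mem_filter] at h1
    exact Nat.Coprime.pow_right Z h1.2.1.cop
  obtain ⟨r, hr⟩ : ∃ r : (ZMod (D ^ Z))ˣ, r = sgu (D ^ Z) c * un (D ^ Z) kn₁ ^ U *
      (un (D ^ Z) kn₂ ^ U)⁻¹ := ⟨_, rfl⟩
  have hpc := pair_class (Z := Z) (U := U) (T := T) (K := K) hD (Nat.one_le_pow U X hX)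
    (fun l => As X A D (τ₁ l)) (fun l => As X A D (τ₂ l)) hG₁ hG₂ r
  set P := (tup dd (fun l => As X A D (τ₁ l)) ×ˢ tup dd (fun l => As X A D (τ₂ l))).filter
    fun t => Sm (D ^ Z) (X ^ U) 1 ((∏ i, (un (D ^ Z) (t.1 i)) ^ U) *
      (r * (∏ i, (un (D ^ Z) (t.2 i)) ^ U)⁻¹)) with hP
  have hcard : Q.card ≤ P.card := by
    apply card_le_card_of_injOn (fun q => (x q, y q))
    · intro q hq
      have hq' := mem_coe.1 hq
      apply mem_coe.2
      rw [hP, mem_filter, mem_product, mem_tup, mem_tup]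
      refine ⟨⟨hx1 q hq', hy1 q hq'⟩, ?_⟩
      obtain ⟨hp, hrad, hd, -, -⟩ := hQ q hq'
      have ti : 0 < num (tri q) i := num_pos hp.abc i
      have tj : 0 < num (tri q) j := num_pos hp.abc j
      refine ⟨rm U (num (tri q) j), rm U (num (tri q) i), rm_pos tj.ne', rm_pos ti.ne',
        Nat.Coprime.coprime_dvd_left (rm_dvd tj.ne') (hcop q hq' j hjc),
        Nat.Coprime.coprime_dvd_left (rm_dvd ti.ne') (hcop q hq' i hic), ?_, ?_, ?_⟩
      · rw [pow_one]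
        exact (rm_le hU tj.ne').trans (Nat.pow_le_pow_left (hrad j) _)
      · rw [pow_one]
        exact (rm_le hU ti.ne').trans (Nat.pow_le_pow_left (hrad i) _)
      · have e1 := cong hp.abc hij hjc hic hd
        have a1 := rt_mul_rm (U := U) ti.ne'
        have a2 := rt_mul_rm (U := U) tj.ne'
        have ux : ((∏ l, (un (D ^ Z) (x q l)) ^ U : (ZMod (D ^ Z))ˣ) : ZMod (D ^ Z)) =
            ((∏ l, x q l : ℕ) : ZMod (D ^ Z)) ^ U := by
          rw [Finset.prod_pow, Units.val_pow_eq_pow_val, Units.coe_prod]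
          congr 1
          push_cast
          exact Finset.prod_congr rfl fun l _ => un_coe (cx q hq' l)
        have uy : ((∏ l, (un (D ^ Z) (y q l)) ^ U : (ZMod (D ^ Z))ˣ) : ZMod (D ^ Z)) =
            ((∏ l, y q l : ℕ) : ZMod (D ^ Z)) ^ U := by
          rw [Finset.prod_pow, Units.val_pow_eq_pow_val, Units.coe_prod]
          congr 1
          push_cast
          exact Finset.prod_congr rfl fun l _ => un_coe (cy q hq' l)
        obtain ⟨ux', hux'⟩ : ∃ u : (ZMod (D ^ Z))ˣ, u = ∏ l, (un (D ^ Z) (x q l)) ^ U := ⟨_, rfl⟩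
        obtain ⟨uy', huy'⟩ : ∃ u : (ZMod (D ^ Z))ˣ, u = ∏ l, (un (D ^ Z) (y q l)) ^ U := ⟨_, rfl⟩
        simp only
        rw [← hux'] at ux ⊢
        rw [← huy'] at uy ⊢
        rw [hx2 q hq'] at a1
        rw [hy2 q hq'] at a2
        rw [hr]
        have k1 := un_coe ck1
        have k2 := un_coe ck2
        obtain ⟨w1, hw1⟩ : ∃ w : (ZMod (D ^ Z))ˣ, w = un (D ^ Z) kn₁ ^ U := ⟨_, rfl⟩
        obtain ⟨w2, hw2⟩ : ∃ w : (ZMod (D ^ Z))ˣ, w = un (D ^ Z) kn₂ ^ U := ⟨_, rfl⟩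
        have hw1' : (w1 : ZMod (D ^ Z)) = (kn₁ : ZMod (D ^ Z)) ^ U := by
          rw [hw1, Units.val_pow_eq_pow_val, k1]
        have hw2' : (w2 : ZMod (D ^ Z)) = (kn₂ : ZMod (D ^ Z)) ^ U := by
          rw [hw2, Units.val_pow_eq_pow_val, k2]
        rw [← hw1, ← hw2]
        push_cast at e1 ux uy ⊢
        have a1' := congrArg (fun z : ℕ => (z : ZMod (D ^ Z))) a1
        have a2' := congrArg (fun z : ℕ => (z : ZMod (D ^ Z))) a2
        beta_reduce at a1' a2'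
        push_cast at a1' a2'
        rw [mul_pow, ← hw1', ← ux] at a1'
        rw [mul_pow, ← hw2', ← uy] at a2'
        apply (Units.isUnit w2).mul_left_cancel
        apply (Units.isUnit uy').mul_left_cancel
        calc (uy' : ZMod (D ^ Z)) * ((w2 : ZMod (D ^ Z)) * ((ux' : ZMod (D ^ Z)) *
              ((sgu (D ^ Z) c : ZMod (D ^ Z)) * (w1 : ZMod (D ^ Z)) *
                ((w2⁻¹ : (ZMod (D ^ Z))ˣ) : ZMod (D ^ Z)) *
                ((uy'⁻¹ : (ZMod (D ^ Z))ˣ) : ZMod (D ^ Z))) *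
                (rm U (num (tri q) i) : ZMod (D ^ Z))))
            = ((uy' : ZMod (D ^ Z)) * ((uy'⁻¹ : (ZMod (D ^ Z))ˣ) : ZMod (D ^ Z))) *
              ((w2 : ZMod (D ^ Z)) * ((w2⁻¹ : (ZMod (D ^ Z))ˣ) : ZMod (D ^ Z))) *
              ((sgu (D ^ Z) c : ZMod (D ^ Z)) * ((w1 : ZMod (D ^ Z)) * (ux' : ZMod (D ^ Z)) *
                (rm U (num (tri q) i) : ZMod (D ^ Z)))) := by ring
          _ = (num (tri q) j : ZMod (D ^ Z)) := by
              rw [Units.mul_inv, Units.mul_inv, one_mul, one_mul, a1', e1]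
          _ = _ := by rw [← a2']; ring
    · intro q hq q' hq' h
      have m1 := mem_coe.1 hq
      have m2 := mem_coe.1 hq'
      simp only [Prod.mk.injEq] at h
      obtain ⟨hp, hrad, hd, -, -⟩ := hQ q m1
      obtain ⟨hp', hrad', hd', -, -⟩ := hQ q' m2
      refine uniq_padic hU hf hij hjc hic hp hp' hd hd' hrad hrad' ?_ ?_
      · rw [hx2 q m1, hx2 q' m2, h.1]
      · rw [hy2 q m1, hy2 q' m2, h.2]
  -- sizes
  have hsz : ∀ (τ : Ix dd → ℕ × ℕ × ℕ) (z : Ix dd → ℕ) (R : ℕ),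
      (∀ l, (As X A D (τ l)).card ≤ C * 2 ^ (τ l).2.2) → (∀ l, z l ∈ As X A D (τ l)) →
      ∏ l, rad (z l) ≤ R → ∏ l, (As X A D (τ l)).card ≤ C ^ 2 ^ dd * R := by
    intro τ z R h1 h2 h3
    calc ∏ l, (As X A D (τ l)).card ≤ ∏ l, (C * 2 ^ (τ l).2.2) :=
          Finset.prod_le_prod' fun l _ => h1 l
      _ = C ^ 2 ^ dd * ∏ l, 2 ^ (τ l).2.2 := by
          rw [Finset.prod_mul_distrib, Finset.prod_const, Finset.card_univ, card_Ix]
      _ ≤ C ^ 2 ^ dd * ∏ l, rad (z l) := by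
          apply Nat.mul_le_mul_left
          apply Finset.prod_le_prod'
          intro l _
          have := h2 l
          unfold As at this
          rw [mem_filter] at this
          exact this.2.2
      _ ≤ C ^ 2 ^ dd * R := Nat.mul_le_mul_left _ h3
  have s1 := hsz τ₁ (x q0) R₁ hC₁ (hx1 q0 hq0) (hx3 q0 hq0)
  have s2 := hsz τ₂ (y q0) R₂ hC₂ (hy1 q0 hq0) (hy3 q0 hq0)
  have hfin : P.card ^ 2 ≤ (∏ l, (As X A D (τ₁ l)).card) * (∏ l, (As X A D (τ₂ l)).card) *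
      (D * (T * K) ^ (2 ^ dd)) ^ 2 := by
    exact_mod_cast hpc
  calc Q.card ^ 2 ≤ P.card ^ 2 := Nat.pow_le_pow_left hcard 2
    _ ≤ _ := hfin
    _ ≤ _ := Nat.mul_le_mul_right _ (Nat.mul_le_mul s1 s2)

end Pool.Agent.T2H20.AH
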