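import Mathlib

/-!
The inequalities of Cauchy-Schwarz and Hoelder for numbers of pairs at a small distance in a
commutative group.
-/

set_option autoImplicit false

namespace Pool.Agent.T2H20.AH

open Finset

section

variable {G : Type*} [CommGroup G]

/-- nested symmetric sets -/
structure Balls (Γ : ℕ → G → Prop) : Prop where
  one : ∀ c, Γ c 1
  inv : ∀ c x, Γ c x → Γ c x⁻¹
  mul : ∀ c d x y, Γ c x → Γ d y → Γ (c + d) (x * y)

open Classical in
/-- the number of pairs at distance at most `c` -/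
noncomputable def en (Γ : ℕ → G → Prop) (c : ℕ) {ι : Type*} (A : Finset ι) (a : ι → G) : ℕ :=
  ((A ×ˢ A).filter fun t => Γ c (a t.1 * (a t.2)⁻¹)).card

lemma en_le_of_inj {Γ : ℕ → G → Prop} {c : ℕ} {ι κ : Type*} {A : Finset ι} {B : Finset κ}
    {a : ι → G} {b : κ → G} (φ : ι → κ) (hφ : Set.InjOn φ A) (hm : ∀ i ∈ A, φ i ∈ B)
    (hab : ∀ i ∈ A, b (φ i) = a i) : en Γ c A a ≤ en Γ c B b := by
  classical
  unfold en
  apply card_le_card_of_injOn (fun t => (φ t.1, φ t.2))
  · intro t ht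
    have ht' := mem_filter.1 (mem_coe.1 ht)
    rw [mem_product] at ht'
    apply mem_coe.2
    rw [mem_filter, mem_product]
    refine ⟨⟨hm _ ht'.1.1, hm _ ht'.1.2⟩, ?_⟩
    simp only
    rw [hab _ ht'.1.1, hab _ ht'.1.2]
    exact ht'.2
  · intro t ht t' ht' h
    have h1 := mem_filter.1 (mem_coe.1 ht)
    have h2 := mem_filter.1 (mem_coe.1 ht')
    rw [mem_product] at h1 h2
    simp only [Prod.mk.injEq] at h
    exact Prod.ext (hφ h1.1.1 h2.1.1 h.1) (hφ h1.1.2 h2.1.2 h.2)

open Classical in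
/-- one half of the Cauchy-Schwarz inequality -/
lemma cs_half {Γ : ℕ → G → Prop} (hΓ : Balls Γ) (c : ℕ) {ι κ : Type*} (A : Finset ι)
    (B : Finset κ) (a : ι → G) (b : κ → G) :
    ∑ t ∈ (A ×ˢ B).filter (fun t => Γ c (a t.1 * b t.2)),
      (((B.filter fun j => Γ (2 * c) (b t.2 * (b j)⁻¹)).card : ℝ) /
        ((A.filter fun i => Γ (2 * c) (a t.1 * (a i)⁻¹)).card : ℝ)) ≤ (en Γ (2 * c) B b : ℝ) := by
  set T : ι → ℝ := fun i => ((A.filter fun i' => Γ (2 * c) (a i * (a i')⁻¹)).card : ℝ) with hT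
  set S : κ → ℝ := fun j => ((B.filter fun j' => Γ (2 * c) (b j * (b j')⁻¹)).card : ℝ) with hS
  have hen : (en Γ (2 * c) B b : ℝ) = ∑ j ∈ B, S j := by
    unfold en
    rw [hS]
    simp only
    rw [← Nat.cast_sum]
    congr 1
    rw [card_filter, sum_product]
    apply sum_congr rfl
    intro j _
    rw [card_filter]
  rw [hen, sum_filter, sum_product_right]
  apply sum_le_sum
  intro j _
  rw [← sum_filter]
  set N := A.filter fun i => Γ c (a i * b j) with hN
  show ∑ i ∈ N, S j / T i ≤ S j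
  have hS0 : 0 ≤ S j := by rw [hS]; exact Nat.cast_nonneg _
  rcases N.eq_empty_or_nonempty with h0 | hne
  · rw [h0, sum_empty]; exact hS0
  have hN0 : (0 : ℝ) < N.card := by exact_mod_cast card_pos.2 hne
  calc ∑ i ∈ N, S j / T i ≤ ∑ _i ∈ N, S j / N.card := by
        apply sum_le_sum
        intro i hi
        apply div_le_div_of_nonneg_left hS0 hN0
        rw [hT]
        simp only
        exact_mod_cast card_le_card (by
          intro i' hi'
          rw [hN, mem_filter] at hi hi'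
          rw [mem_filter]
          refine ⟨hi'.1, ?_⟩
          have h1 := hΓ.mul _ _ _ _ hi.2 (hΓ.inv _ _ hi'.2)
          have h2 : a i * b j * (a i' * b j)⁻¹ = a i * (a i')⁻¹ := by
            rw [mul_inv, mul_mul_mul_comm, mul_inv_cancel, mul_one]
          rw [h2, ← two_mul] at h1
          exact h1)
    _ = S j := by
        rw [sum_const, nsmul_eq_mul]
        field_simp

open Classical in
/-- **Cauchy-Schwarz.** -/
theorem cs {Γ : ℕ → G → Prop} (hΓ : Balls Γ) (c : ℕ) {ι κ : Type*} (A : Finset ι)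
    (B : Finset κ) (a : ι → G) (b : κ → G) :
    (((A ×ˢ B).filter fun t => Γ c (a t.1 * b t.2)).card : ℝ) ^ 2 ≤
      (en Γ (2 * c) A a : ℝ) * (en Γ (2 * c) B b : ℝ) := by
  set E := (A ×ˢ B).filter fun t => Γ c (a t.1 * b t.2) with hE
  set T : ι → ℝ := fun i => ((A.filter fun i' => Γ (2 * c) (a i * (a i')⁻¹)).card : ℝ) with hT
  set S : κ → ℝ := fun j => ((B.filter fun j' => Γ (2 * c) (b j * (b j')⁻¹)).card : ℝ) with hS
  have h1 := cs_half hΓ c A B a b
  have h2 := cs_half hΓ c B A b a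
  have h2' : ∑ t ∈ E, T t.1 / S t.2 ≤ (en Γ (2 * c) A a : ℝ) := by
    refine le_trans (le_of_eq ?_) h2
    rw [hE]
    refine Finset.sum_nbij' (fun t => (t.2, t.1)) (fun t => (t.2, t.1)) ?_ ?_ ?_ ?_ ?_
    · intro t ht
      rw [mem_filter, mem_product] at ht ⊢
      refine ⟨⟨ht.1.2, ht.1.1⟩, ?_⟩
      simp only
      rw [mul_comm]
      exact ht.2
    · intro t ht
      rw [mem_filter, mem_product] at ht ⊢
      refine ⟨⟨ht.1.2, ht.1.1⟩, ?_⟩
      simp only
      rw [mul_comm]
      exact ht.2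
    · intro t _; rfl
    · intro t _; rfl
    · intro t _; rfl
  have hpos : ∀ t ∈ E, 0 < T t.1 ∧ 0 < S t.2 := by
    intro t ht
    rw [hE, mem_filter, mem_product] at ht
    refine ⟨?_, ?_⟩
    · rw [hT]
      simp only
      exact_mod_cast card_pos.2 ⟨t.1, by
        rw [mem_filter, mul_inv_cancel]
        exact ⟨ht.1.1, hΓ.one _⟩⟩
    · rw [hS]
      simp only
      exact_mod_cast card_pos.2 ⟨t.2, by
        rw [mem_filter, mul_inv_cancel]
        exact ⟨ht.1.2, hΓ.one _⟩⟩
  have h3 : (∑ _t ∈ E, (1 : ℝ)) ^ 2 ≤ (∑ t ∈ E, T t.1 / S t.2) * ∑ t ∈ E, S t.2 / T t.1 := by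
    apply Finset.sum_sq_le_sum_mul_sum_of_sq_le_mul
    · intro t ht
      exact div_nonneg (hpos t ht).1.le (hpos t ht).2.le
    · intro t ht
      exact div_nonneg (hpos t ht).2.le (hpos t ht).1.le
    · intro t ht
      have := (hpos t ht).1.ne'
      have := (hpos t ht).2.ne'
      apply le_of_eq
      field_simp
  rw [sum_const, nsmul_eq_mul, mul_one] at h3
  refine h3.trans (mul_le_mul h2' h1 ?_ (Nat.cast_nonneg _))
  exact sum_nonneg fun t ht => div_nonneg (hpos t ht).2.le (hpos t ht).1.le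

end

/-- the index set with `2 ^ d` elements -/
def Ix : ℕ → Type
  | 0 => Unit
  | d + 1 => Ix d ⊕ Ix d

instance instIxFintype : ∀ d, Fintype (Ix d)
  | 0 => inferInstanceAs (Fintype Unit)
  | d + 1 => by
      haveI := instIxFintype d
      exact inferInstanceAs (Fintype (Ix d ⊕ Ix d))

instance instIxDecEq : ∀ d, DecidableEq (Ix d)
  | 0 => inferInstanceAs (DecidableEq Unit)
  | d + 1 => by
      haveI := instIxDecEq d
      exact inferInstanceAs (DecidableEq (Ix d ⊕ Ix d))

lemma card_Ix (d : ℕ) : Fintype.card (Ix d) = 2 ^ d := by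
  induction d with
  | zero => rfl
  | succ d ih =>
    have : Fintype.card (Ix (d + 1)) = Fintype.card (Ix d ⊕ Ix d) := rfl
    rw [this, Fintype.card_sum, ih, pow_succ]
    ring

/-- products over the two halves -/
lemma prod_Ix_succ {M : Type*} [CommMonoid M] (d : ℕ) (f : Ix (d + 1) → M) :
    ∏ i, f i = (∏ i : Ix d, f (Sum.inl i)) * ∏ i : Ix d, f (Sum.inr i) :=
  Fintype.prod_sum_type (α₁ := Ix d) (α₂ := Ix d) f

/-- gluing the two halves -/
def glue {α : Type*} {d : ℕ} (x : Ix d → α × α) : Ix (d + 1) → α := fun i =>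
  Sum.elim (fun j => (x j).1) (fun j => (x j).2) (i : Ix d ⊕ Ix d)

section

variable {G : Type*} [CommGroup G]

/-- tuples -/
noncomputable def tup {α : Type*} (d : ℕ) (A : Ix d → Finset α) : Finset (Ix d → α) :=
  Fintype.piFinset A

lemma mem_tup {α : Type*} {d : ℕ} {A : Ix d → Finset α} {x : Ix d → α} :
    x ∈ tup d A ↔ ∀ i, x i ∈ A i := Fintype.mem_piFinset

/-- **Hoelder.** -/
theorem holder {Γ : ℕ → G → Prop} (hΓ : Balls Γ) (d : ℕ) : ∀ {α : Type} (A : Ix d → Finset α)
    (a : α → G) (c : ℕ),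
    (en Γ c (tup d A) (fun x => ∏ i, a (x i)) : ℝ) ^ (2 ^ d) ≤
      ∏ l, (en Γ (2 ^ d * c) (tup d fun _ => A l) (fun x => ∏ i, a (x i)) : ℝ) := by
  classical
  induction d with
  | zero =>
    intro α A a c
    have h1 : (∏ l : Ix 0, (en Γ (2 ^ 0 * c) (tup 0 fun _ => A l) (fun x => ∏ i, a (x i)) : ℝ)) =
        (en Γ (2 ^ 0 * c) (tup 0 fun _ => A ()) (fun x => ∏ i, a (x i)) : ℝ) :=
      Fintype.prod_unique (ι := Unit) _
    rw [h1, pow_zero, pow_one, one_mul]
    have h2 : (fun _ : Ix 0 => A ()) = A := by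
      funext i
      cases i
      rfl
    rw [h2]
  | succ d ih =>
    intro α A a c
    -- the two halves
    obtain ⟨A1, hA1⟩ : ∃ A1 : Ix d → Finset α, A1 = fun i => A (Sum.inl i) := ⟨_, rfl⟩
    obtain ⟨A2, hA2⟩ : ∃ A2 : Ix d → Finset α, A2 = fun i => A (Sum.inr i) := ⟨_, rfl⟩
    obtain ⟨a', ha'⟩ : ∃ a' : α × α → G, a' = fun z => a z.1 * a z.2 := ⟨_, rfl⟩
    obtain ⟨u, hu⟩ : ∃ u : (Ix d → α) × (Ix d → α) → G,
        u = fun z => (∏ i, a (z.1 i)) * (∏ i, a (z.2 i))⁻¹ := ⟨_, rfl⟩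
    have key : ∀ B : Ix d → Finset α,
        en Γ (2 * c) (tup d B ×ˢ tup d B) u ≤
          en Γ (2 * c) (tup d fun i => B i ×ˢ B i) (fun x => ∏ i, a' (x i)) := by
      intro B
      unfold en
      apply card_le_card_of_injOn
        (fun t => ((fun i => (t.1.1 i, t.2.2 i)), (fun i => (t.1.2 i, t.2.1 i))))
      · intro t ht
        have ht' := mem_filter.1 (mem_coe.1 ht)
        simp only [mem_product, mem_tup] at ht'
        obtain ⟨⟨⟨m1, m2⟩, m3, m4⟩, h⟩ := ht'
        apply mem_coe.2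
        rw [mem_filter, mem_product, mem_tup, mem_tup]
        refine ⟨⟨fun i => mem_product.2 ⟨m1 i, m4 i⟩, fun i => mem_product.2 ⟨m2 i, m3 i⟩⟩, ?_⟩
        rw [hu] at h
        rw [ha']
        simp only [Finset.prod_mul_distrib] at h ⊢
        have e : (∏ i, a (t.1.1 i)) * (∏ i, a (t.2.2 i)) *
            ((∏ i, a (t.1.2 i)) * (∏ i, a (t.2.1 i)))⁻¹ =
            (∏ i, a (t.1.1 i)) * (∏ i, a (t.1.2 i))⁻¹ *
              ((∏ i, a (t.2.1 i)) * (∏ i, a (t.2.2 i))⁻¹)⁻¹ := by
          rw [mul_inv, mul_inv, inv_inv]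
          simp only [mul_assoc, mul_left_comm, mul_comm]
        rw [e]
        exact h
      · rintro ⟨⟨x, y⟩, x', y'⟩ _ ⟨⟨z, w⟩, z', w'⟩ _ h
        simp only [Prod.mk.injEq, funext_iff] at h ⊢
        exact ⟨⟨fun i => (h.1 i).1, fun i => (h.2 i).1⟩, fun i => (h.2 i).2, fun i => (h.1 i).2⟩
    have step : (en Γ c (tup (d + 1) A) (fun x => ∏ i, a (x i)) : ℝ) ^ 2 ≤
        (en Γ (2 * c) (tup d fun i => A1 i ×ˢ A1 i) (fun x => ∏ i, a' (x i)) : ℝ) *
        (en Γ (2 * c) (tup d fun i => A2 i ×ˢ A2 i) (fun x => ∏ i, a' (x i)) : ℝ) := by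
      have h1 := cs hΓ c (tup d A1 ×ˢ tup d A1) (tup d A2 ×ˢ tup d A2) u u
      have h2 : en Γ c (tup (d + 1) A) (fun x => ∏ i, a (x i)) ≤
          (((tup d A1 ×ˢ tup d A1) ×ˢ (tup d A2 ×ˢ tup d A2)).filter
            fun t => Γ c (u t.1 * u t.2)).card := by
        unfold en
        apply card_le_card_of_injOn
          (fun t => (((fun i => t.1 (Sum.inl i)), (fun i => t.2 (Sum.inl i))),
            ((fun i => t.1 (Sum.inr i)), (fun i => t.2 (Sum.inr i)))))
        · intro t ht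
          have ht' := mem_filter.1 (mem_coe.1 ht)
          simp only [mem_product, mem_tup] at ht'
          obtain ⟨⟨m1, m2⟩, h⟩ := ht'
          apply mem_coe.2
          simp only [mem_filter, mem_product, mem_tup]
          rw [hA1, hA2]
          refine ⟨⟨⟨fun i => m1 _, fun i => m2 _⟩, fun i => m1 _, fun i => m2 _⟩, ?_⟩
          rw [hu]
          simp only
          rw [prod_Ix_succ, prod_Ix_succ] at h
          have e : (∏ i : Ix d, a (t.1 (Sum.inl i))) * (∏ i : Ix d, a (t.2 (Sum.inl i)))⁻¹ *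
              ((∏ i : Ix d, a (t.1 (Sum.inr i))) * (∏ i : Ix d, a (t.2 (Sum.inr i)))⁻¹) =
              (∏ i : Ix d, a (t.1 (Sum.inl i))) * (∏ i : Ix d, a (t.1 (Sum.inr i))) *
              ((∏ i : Ix d, a (t.2 (Sum.inl i))) * (∏ i : Ix d, a (t.2 (Sum.inr i))))⁻¹ := by
            rw [mul_inv]
            simp only [mul_assoc, mul_left_comm, mul_comm]
          rw [e]
          exact h
        · rintro ⟨x, y⟩ _ ⟨x', y'⟩ _ h
          simp only [Prod.mk.injEq, funext_iff] at h
          obtain ⟨⟨e1, e2⟩, e3, e4⟩ := h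
          refine Prod.ext ?_ ?_
          · funext i
            rcases i with i | i
            · exact e1 i
            · exact e3 i
          · funext i
            rcases i with i | i
            · exact e2 i
            · exact e4 i
      have h3 : (en Γ c (tup (d + 1) A) (fun x => ∏ i, a (x i)) : ℝ) ^ 2 ≤
          ((((tup d A1 ×ˢ tup d A1) ×ˢ (tup d A2 ×ˢ tup d A2)).filter
            fun t => Γ c (u t.1 * u t.2)).card : ℝ) ^ 2 := by
        apply pow_le_pow_left₀ (Nat.cast_nonneg _)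
        exact_mod_cast h2
      refine h3.trans (h1.trans ?_)
      apply mul_le_mul _ _ (Nat.cast_nonneg _) (Nat.cast_nonneg _)
      · exact_mod_cast key A1
      · exact_mod_cast key A2
    have last : ∀ B : Finset α,
        en Γ (2 ^ d * (2 * c)) (tup d fun _ => B ×ˢ B) (fun x => ∏ i, a' (x i)) ≤
          en Γ (2 ^ (d + 1) * c) (tup (d + 1) fun _ => B) (fun x => ∏ i, a (x i)) := by
      intro B
      have e : 2 ^ d * (2 * c) = 2 ^ (d + 1) * c := by rw [pow_succ]; ring
      rw [e]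
      apply en_le_of_inj glue
      · intro x _ y _ h
        funext i
        have h1 := congrFun h (Sum.inl i)
        have h2 := congrFun h (Sum.inr i)
        exact Prod.ext h1 h2
      · intro x hx
        rw [mem_tup] at hx ⊢
        intro i
        rcases i with i | i
        · exact (mem_product.1 (hx i)).1
        · exact (mem_product.1 (hx i)).2
      · intro x _
        rw [prod_Ix_succ, ha']
        simp only [Finset.prod_mul_distrib]
        rfl
    have ih1 := ih (fun i => A1 i ×ˢ A1 i) a' (2 * c)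
    have ih2 := ih (fun i => A2 i ×ˢ A2 i) a' (2 * c)
    calc (en Γ c (tup (d + 1) A) (fun x => ∏ i, a (x i)) : ℝ) ^ (2 ^ (d + 1))
        = ((en Γ c (tup (d + 1) A) (fun x => ∏ i, a (x i)) : ℝ) ^ 2) ^ (2 ^ d) := by
          rw [← pow_mul]; congr 1; rw [pow_succ]; ring
      _ ≤ ((en Γ (2 * c) (tup d fun i => A1 i ×ˢ A1 i) (fun x => ∏ i, a' (x i)) : ℝ) *
          (en Γ (2 * c) (tup d fun i => A2 i ×ˢ A2 i) (fun x => ∏ i, a' (x i)) : ℝ)) ^ (2 ^ d) :=
          pow_le_pow_left₀ (pow_nonneg (Nat.cast_nonneg _) _) step _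
      _ ≤ (∏ l, (en Γ (2 ^ d * (2 * c)) (tup d fun _ => A1 l ×ˢ A1 l)
            (fun x => ∏ i, a' (x i)) : ℝ)) *
          ∏ l, (en Γ (2 ^ d * (2 * c)) (tup d fun _ => A2 l ×ˢ A2 l)
            (fun x => ∏ i, a' (x i)) : ℝ) := by
          rw [mul_pow]
          exact mul_le_mul ih1 ih2 (pow_nonneg (Nat.cast_nonneg _) _)
            (Finset.prod_nonneg fun _ _ => Nat.cast_nonneg _)
      _ ≤ (∏ l, (en Γ (2 ^ (d + 1) * c) (tup (d + 1) fun _ => A1 l)
            (fun x => ∏ i, a (x i)) : ℝ)) *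
          ∏ l, (en Γ (2 ^ (d + 1) * c) (tup (d + 1) fun _ => A2 l)
            (fun x => ∏ i, a (x i)) : ℝ) := by
          apply mul_le_mul
          · apply Finset.prod_le_prod (fun _ _ => Nat.cast_nonneg _)
            intro l _
            exact_mod_cast last (A1 l)
          · apply Finset.prod_le_prod (fun _ _ => Nat.cast_nonneg _)
            intro l _
            exact_mod_cast last (A2 l)
          · exact Finset.prod_nonneg fun _ _ => Nat.cast_nonneg _
          · exact Finset.prod_nonneg fun _ _ => Nat.cast_nonneg _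
      _ = _ := by
          rw [prod_Ix_succ, hA1, hA2]

end

end Pool.Agent.T2H20.AH
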