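import Pool.Agent.T2H20.AH.Rt
import Pool.Agent.T2H20.AH.Ty

/-!
The parts of a member of a triple at a given level.
-/

set_option autoImplicit false

namespace Pool.Agent.T2H20.AH

open Finset Pool.Agent.H785R2.ABC

/-- the digit -/
def dg (U t p : ℕ) : ℕ := (rt U t).factorization p

lemma dg_eq (U t p : ℕ) : dg U t p = t.factorization p / U := rt_fac U t p

/-- the main primes -/
def mS (U d d1 t : ℕ) : Finset ℕ := (rt U t).primeFactors.filter fun p => d ≤ dg U t p ∧ dg U t p ≤ d1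
/-- the other primes -/
def kS (U d d1 t : ℕ) : Finset ℕ :=
  (rt U t).primeFactors.filter fun p => ¬ (d ≤ dg U t p ∧ dg U t p ≤ d1)
/-- the small main primes -/
def sS (e X U d d1 t : ℕ) : Finset ℕ := (mS U d d1 t).filter fun p => p ^ (2 * e) ≤ X
/-- the large main primes -/
def lS (e X U d d1 t : ℕ) : Finset ℕ := (mS U d d1 t).filter fun p => ¬ p ^ (2 * e) ≤ X

/-- a divisor with a small radical -/
def Cheap (e X U d t : ℕ) : Prop := ∃ z, z ∣ rt U t ∧ rad z ^ e ≤ X ∧ X ^ d ≤ z ^ (4 * e)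

section

variable {e X U d d1 t : ℕ}

lemma mS_prime : ∀ p ∈ mS U d d1 t, p.Prime := fun _ hp =>
  Nat.prime_of_mem_primeFactors (mem_filter.1 hp).1
lemma kS_prime : ∀ p ∈ kS U d d1 t, p.Prime := fun _ hp =>
  Nat.prime_of_mem_primeFactors (mem_filter.1 hp).1
lemma sS_sub : sS e X U d d1 t ⊆ mS U d d1 t := filter_subset _ _
lemma lS_sub : lS e X U d d1 t ⊆ mS U d d1 t := filter_subset _ _
lemma sS_prime : ∀ p ∈ sS e X U d d1 t, p.Prime := fun _ hp => mS_prime _ (sS_sub hp)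
lemma lS_prime : ∀ p ∈ lS e X U d d1 t, p.Prime := fun _ hp => mS_prime _ (lS_sub hp)

lemma rt_pf_sub (U t : ℕ) : (rt U t).primeFactors ⊆ t.primeFactors := pp_sub primes_of _

lemma mS_t : mS U d d1 t ⊆ t.primeFactors := (filter_subset _ _).trans (rt_pf_sub U t)
lemma kS_t : kS U d d1 t ⊆ t.primeFactors := (filter_subset _ _).trans (rt_pf_sub U t)

lemma prod_sub_le {S T : Finset ℕ} (h : S ⊆ T) (hT : ∀ p ∈ T, p.Prime) : ∏ p ∈ S, p ≤ ∏ p ∈ T, p :=
  Finset.prod_le_prod_of_subset_of_one_le' h fun p hp _ => (hT p hp).one_le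

lemma prod_sub_rad {S : Finset ℕ} (h : S ⊆ t.primeFactors) : ∏ p ∈ S, p ≤ rad t :=
  prod_sub_le h fun _ hp => Nat.prime_of_mem_primeFactors hp

/-- the known part and the main part -/
lemma km_eq : pp (kS U d d1 t) (dg U t) * pp (mS U d d1 t) (dg U t) = rt U t := by
  unfold pp kS mS
  rw [mul_comm, Finset.prod_filter_mul_prod_filter_not]
  conv_rhs => rw [← Nat.prod_factorization_pow_eq_self (rt_pos U t).ne']
  rfl

lemma sl_eq : pp (sS e X U d d1 t) (dg U t) * pp (lS e X U d d1 t) (dg U t) =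
    pp (mS U d d1 t) (dg U t) := by
  unfold pp sS lS
  rw [Finset.prod_filter_mul_prod_filter_not]

lemma dg_ne {p : ℕ} (hp : p ∈ (rt U t).primeFactors) : dg U t p ≠ 0 := by
  unfold dg
  have h := (Nat.prime_of_mem_primeFactors hp).factorization_pos_of_dvd (rt_pos U t).ne'
    (Nat.dvd_of_mem_primeFactors hp)
  omega

lemma pp_dvd_rt {S : Finset ℕ} (h : S ⊆ (rt U t).primeFactors) : pp S (dg U t) ∣ rt U t := by
  have e1 : pp (rt U t).primeFactors (dg U t) = rt U t := by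
    unfold pp
    conv_rhs => rw [← Nat.prod_factorization_pow_eq_self (rt_pos U t).ne']
    rfl
  conv_rhs => rw [← e1]
  exact Finset.prod_dvd_prod_of_subset _ _ _ h

lemma kS_sub' : kS U d d1 t ⊆ (rt U t).primeFactors := filter_subset _ _
lemma mS_sub' : mS U d d1 t ⊆ (rt U t).primeFactors := filter_subset _ _
lemma sS_sub' : sS e X U d d1 t ⊆ (rt U t).primeFactors := sS_sub.trans mS_sub'
lemma lS_sub' : lS e X U d d1 t ⊆ (rt U t).primeFactors := lS_sub.trans mS_sub'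

lemma rad_pp_kS : rad (pp (kS U d d1 t) (dg U t)) = ∏ p ∈ kS U d d1 t, p :=
  rad_pp_eq kS_prime _ fun _ hp => dg_ne (kS_sub' hp)

lemma rad_pp_sS : rad (pp (sS e X U d d1 t) (dg U t)) = ∏ p ∈ sS e X U d d1 t, p :=
  rad_pp_eq sS_prime _ fun _ hp => dg_ne (sS_sub' hp)

lemma pow_mul_le {a b N q : ℕ} (ha : a ^ q ≤ N) (hb : b ^ q ≤ N) : (a * b) ^ q ≤ N ^ 2 := by
  rw [mul_pow, sq]
  exact Nat.mul_le_mul ha hb

/-- the radical of the known part -/
lemma known_rad {A q : ℕ} (hA : 1 ≤ A) (hU : 1 ≤ U) (hd1 : d1 = A * q)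
    (hv : rt U t ≤ X ^ A)
    (hwin : (∏ p ∈ t.primeFactors.filter (fun p => U ≤ t.factorization p ∧
      t.factorization p < d * U), p) ^ q ≤ X) :
    rad (pp (kS U d d1 t) (dg U t)) ^ q ≤ X ^ 2 := by
  classical
  rw [rad_pp_kS]
  set W := t.primeFactors.filter (fun p => U ≤ t.factorization p ∧ t.factorization p < d * U) with hW
  set H := (rt U t).primeFactors.filter (fun p => d1 < dg U t p) with hH
  have hHp : ∀ p ∈ H, p.Prime := fun p hp => Nat.prime_of_mem_primeFactors (mem_filter.1 hp).1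
  have hWp : ∀ p ∈ W, p.Prime := fun p hp => Nat.prime_of_mem_primeFactors (mem_filter.1 hp).1
  have hsub : kS U d d1 t ⊆ W ∪ H := by
    intro p hp
    unfold kS at hp
    rw [mem_filter] at hp
    rw [mem_union]
    rcases Nat.lt_or_ge d1 (dg U t p) with h | h
    · right
      rw [hH, mem_filter]
      exact ⟨hp.1, h⟩
    · left
      have h2 : dg U t p < d := by
        by_contra hcon
        exact hp.2 ⟨not_lt.1 hcon, h⟩
      have h3 := dg_ne hp.1
      rw [dg_eq] at h2 h3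
      rw [hW, mem_filter]
      refine ⟨rt_pf_sub U t hp.1, ?_, ?_⟩
      · by_contra hcon
        exact h3 (Nat.div_eq_of_lt (not_le.1 hcon))
      · exact (Nat.div_lt_iff_lt_mul (by omega)).1 h2
  have hHle : (∏ p ∈ H, p) ^ q ≤ X := by
    have h1 : (∏ p ∈ H, p) ^ (A * q) ≤ X ^ A := by
      calc (∏ p ∈ H, p) ^ (A * q) = ∏ p ∈ H, p ^ (A * q) := (Finset.prod_pow _ _ _).symm
        _ ≤ ∏ p ∈ H, p ^ dg U t p := Finset.prod_le_prod' fun p hp =>
            Nat.pow_le_pow_right (hHp p hp).pos (by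
              have := (mem_filter.1 hp).2
              omega)
        _ = pp H (dg U t) := rfl
        _ ≤ rt U t := Nat.le_of_dvd (rt_pos U t) (pp_dvd_rt (filter_subset _ _))
        _ ≤ X ^ A := hv
    rw [mul_comm, pow_mul] at h1
    exact (Nat.pow_le_pow_iff_left (by omega)).1 h1
  calc (∏ p ∈ kS U d d1 t, p) ^ q ≤ ((∏ p ∈ W, p) * ∏ p ∈ H, p) ^ q := by
        apply Nat.pow_le_pow_left
        refine (prod_sub_le hsub ?_).trans ?_
        · intro p hp
          rcases mem_union.1 hp with h | h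
          · exact hWp p h
          · exact hHp p h
        · rw [← Finset.prod_union_inter]
          exact Nat.le_mul_of_pos_right _ (Finset.prod_pos fun p hp =>
            (hWp p (mem_inter.1 hp).1).pos)
    _ ≤ X ^ 2 := pow_mul_le hwin hHle

/-- a set of primes with a product of suitable size -/
lemma greedy_set {w : ℕ} (hw : 1 ≤ w) (hX : 1 ≤ X) : ∀ S : Finset ℕ,
    (∀ p ∈ S, p.Prime ∧ p ^ w ≤ X) → X ≤ (∏ p ∈ S, p) ^ w →
    ∃ T ⊆ S, X ≤ (∏ p ∈ T, p) ^ w ∧ (∏ p ∈ T, p) ^ w ≤ X ^ 2 := by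
  classical
  intro S
  induction S using Finset.induction_on with
  | empty =>
    intro _ h
    rw [Finset.prod_empty, one_pow] at h
    refine ⟨∅, Finset.Subset.refl _, ?_, ?_⟩
    · rw [Finset.prod_empty, one_pow]; exact h
    · rw [Finset.prod_empty, one_pow]; exact Nat.one_le_pow _ _ hX
  | insert p S hpS ih =>
    intro h1 h2
    rcases Nat.lt_or_ge ((∏ q ∈ S, q) ^ w) X with h | h
    · refine ⟨insert p S, Finset.Subset.refl _, h2, ?_⟩
      rw [Finset.prod_insert hpS, mul_pow, sq]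
      exact Nat.mul_le_mul (h1 p (mem_insert_self _ _)).2 h.le
    · obtain ⟨T, hT, h3⟩ := ih (fun q hq => h1 q (mem_insert_of_mem hq)) h
      exact ⟨T, hT.trans (subset_insert _ _), h3⟩

/-- the parts of a member without a divisor with a small radical -/
lemma not_cheap (he : 1 ≤ e) (hX : 2 ≤ X) (hr : rad (pp (kS U d d1 t) (dg U t)) ^ (4 * e) ≤ X ^ 2)
    (h : ¬ Cheap e X U d t) :
    pp (kS U d d1 t) (dg U t) ^ (4 * e) < X ^ d ∧
    rad (pp (sS e X U d d1 t) (dg U t)) ^ (2 * e) ≤ X ∧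
    pp (sS e X U d d1 t) (dg U t) ^ (4 * e) < X ^ d := by
  have hkey : ∀ S : Finset ℕ, S ⊆ (rt U t).primeFactors → rad (pp S (dg U t)) ^ e ≤ X →
      pp S (dg U t) ^ (4 * e) < X ^ d := by
    intro S hS h1
    by_contra hcon
    exact h ⟨_, pp_dvd_rt hS, h1, not_lt.1 hcon⟩
  have h2 : rad (pp (sS e X U d d1 t) (dg U t)) ^ (2 * e) ≤ X := by
    rw [rad_pp_sS]
    by_contra hcon
    rw [not_le] at hcon
    obtain ⟨T, hT, h3, h4⟩ := greedy_set (w := 2 * e) (by omega) (by omega : 1 ≤ X)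
      (sS e X U d d1 t) (fun p hp => ⟨sS_prime p hp, (mem_filter.1 hp).2⟩) hcon.le
    apply h
    refine ⟨pp T (dg U t), pp_dvd_rt (hT.trans sS_sub'), ?_, ?_⟩
    · rw [rad_pp_eq (fun p hp => sS_prime p (hT hp)) _ fun p hp => dg_ne (sS_sub' (hT hp))]
      have h5 : ((∏ p ∈ T, p) ^ e) ^ 2 ≤ X ^ 2 := by
        rw [← pow_mul, mul_comm e 2]; exact h4
      exact (Nat.pow_le_pow_iff_left (by norm_num)).1 h5
    · have h5 : (∏ p ∈ T, p) ^ d ≤ pp T (dg U t) := by
        unfold pp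
        rw [← Finset.prod_pow]
        apply Finset.prod_le_prod'
        intro p hp
        apply Nat.pow_le_pow_right (sS_prime p (hT hp)).pos
        exact (mem_filter.1 (sS_sub (hT hp))).2.1
      calc X ^ d ≤ ((∏ p ∈ T, p) ^ (2 * e)) ^ d := Nat.pow_le_pow_left h3 _
        _ ≤ ((∏ p ∈ T, p) ^ (2 * e)) ^ (2 * d) := by
            apply Nat.pow_le_pow_right _ (by omega)
            omega
        _ = ((∏ p ∈ T, p) ^ d) ^ (4 * e) := by
            rw [← pow_mul, ← pow_mul]; congr 1; ring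
        _ ≤ pp T (dg U t) ^ (4 * e) := Nat.pow_le_pow_left h5 _
  refine ⟨hkey _ kS_sub' ?_, h2, hkey _ sS_sub' ?_⟩
  · have h3 : (rad (pp (kS U d d1 t) (dg U t)) ^ e) ^ 4 ≤ X ^ 4 := by
      calc (rad (pp (kS U d d1 t) (dg U t)) ^ e) ^ 4 =
          rad (pp (kS U d d1 t) (dg U t)) ^ (4 * e) := by rw [← pow_mul, mul_comm]
        _ ≤ X ^ 2 := hr
        _ ≤ X ^ 4 := Nat.pow_le_pow_right (by omega) (by norm_num)
    exact (Nat.pow_le_pow_iff_left (by norm_num)).1 h3
  · have h3 : (rad (pp (sS e X U d d1 t) (dg U t)) ^ e) ^ 2 ≤ X ^ 2 := by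
      calc (rad (pp (sS e X U d d1 t) (dg U t)) ^ e) ^ 2 =
          rad (pp (sS e X U d d1 t) (dg U t)) ^ (2 * e) := by rw [← pow_mul, mul_comm]
        _ ≤ X := h2
        _ ≤ X ^ 2 := Nat.le_self_pow (by norm_num) X
    exact (Nat.pow_le_pow_iff_left (by norm_num)).1 h3

/-- the number of the large main primes -/
lemma card_lS (hX : 1 ≤ X) (hr : rad t ≤ X) : (lS e X U d d1 t).card ≤ 2 * e := by
  by_contra hcon
  push Not at hcon
  have hne : (lS e X U d d1 t).Nonempty := Finset.card_pos.mp (by omega)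
  have h1 : X ^ (lS e X U d d1 t).card < (∏ p ∈ lS e X U d d1 t, p) ^ (2 * e) := by
    rw [← Finset.prod_pow, ← Finset.prod_const]
    exact Finset.prod_lt_prod_of_nonempty (fun p _ => by omega)
      (fun p hp => not_le.1 (mem_filter.mp hp).2) hne
  have h2 : (∏ p ∈ lS e X U d d1 t, p) ^ (2 * e) ≤ X ^ (2 * e) :=
    Nat.pow_le_pow_left ((prod_sub_rad (lS_sub.trans mS_t)).trans hr) _
  have h3 : X ^ (2 * e) ≤ X ^ (lS e X U d d1 t).card := Nat.pow_le_pow_right hX (by omega)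
  omega

end

end Pool.Agent.T2H20.AH
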