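import Pool.Agent.T2H20.AH.Fl
import Pool.Agent.T2H20.AH.Mb
import Pool.Agent.T2H20.AH.Bc

/-!
The data of a class.
-/

set_option autoImplicit false

namespace Pool.Agent.T2H20.AH

open Finset Pool.Agent.H785R2.ABC Pool.Agent.H785R2.ABC.EC Pool.Agent.T2H20.ABC

/-- possible moduli -/
def Ds (e X : ℕ) : Finset ℕ := (Icc 1 X).filter fun D => D ^ e ≤ X ^ 4

lemma mem_Ds {e X D : ℕ} (he : 4 ≤ e) (hD : 0 < D) (h : D ^ e ≤ X ^ 4) : D ∈ Ds e X := by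
  unfold Ds
  rw [mem_filter, mem_Icc]
  refine ⟨⟨hD, ?_⟩, h⟩
  have : D ^ 4 ≤ X ^ 4 := (Nat.pow_le_pow_right hD he).trans h
  exact (Nat.pow_le_pow_iff_left (by norm_num)).1 this

lemma root_le {x : ℝ} {X e : ℕ} {c : ℕ} {η : ℝ} (hx : 0 ≤ x) (hX : 1 ≤ X) (he : 1 ≤ e)
    (hη : 1 ≤ η * e) (h : x ^ e ≤ (X : ℝ) ^ c) : x ≤ (X : ℝ) ^ (c * η) := by
  have hX0 : (0 : ℝ) < X := by exact_mod_cast hX
  have hX1 : (1 : ℝ) ≤ X := by exact_mod_cast hX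
  have he0 : (0 : ℝ) < e := by exact_mod_cast he
  calc x = (x ^ e) ^ ((1 : ℝ) / e) := by
        rw [← Real.rpow_natCast, ← Real.rpow_mul hx, mul_one_div_cancel he0.ne', Real.rpow_one]
    _ ≤ ((X : ℝ) ^ c) ^ ((1 : ℝ) / e) := Real.rpow_le_rpow (by positivity) h (by positivity)
    _ = (X : ℝ) ^ ((c : ℝ) * (1 / e)) := by rw [← Real.rpow_natCast, ← Real.rpow_mul hX0.le]
    _ ≤ (X : ℝ) ^ (c * η) := by
        apply Real.rpow_le_rpow_of_exponent_le hX1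
        apply mul_le_mul_of_nonneg_left _ (Nat.cast_nonneg _)
        rw [div_le_iff₀ he0]
        exact hη

lemma D_le {e X D : ℕ} {η : ℝ} (hX : 1 ≤ X) (he : 1 ≤ e) (hη : 1 ≤ η * e)
    (h : D ^ e ≤ X ^ 4) : (D : ℝ) ≤ (X : ℝ) ^ (4 * η) := by
  have := root_le (x := D) (X := X) (e := e) (c := 4) (η := η) (Nat.cast_nonneg _) hX he hη
    (by exact_mod_cast h)
  exact_mod_cast this

lemma card_Ds {e X : ℕ} {η : ℝ} (hX : 1 ≤ X) (he : 1 ≤ e) (hη : 1 ≤ η * e) :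
    ((Ds e X).card : ℝ) ≤ (X : ℝ) ^ (4 * η) := by
  have hX0 : (0 : ℝ) < X := by exact_mod_cast hX
  have h1 : Ds e X ⊆ Icc 1 ⌊(X : ℝ) ^ (4 * η)⌋₊ := by
    intro D hD
    unfold Ds at hD
    rw [mem_filter, mem_Icc] at hD
    rw [mem_Icc]
    exact ⟨hD.1.1, Nat.le_floor (D_le hX he hη hD.2)⟩
  have h2 := card_le_card h1
  rw [Nat.card_Icc, Nat.add_sub_cancel] at h2
  calc ((Ds e X).card : ℝ) ≤ (⌊(X : ℝ) ^ (4 * η)⌋₊ : ℝ) := by exact_mod_cast h2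
    _ ≤ _ := Nat.floor_le (by positivity)

/-- light numbers -/
def Ks (e A X : ℕ) : Finset ℕ := (Icc 1 (X ^ A)).filter fun z => rad z ^ e ≤ X

lemma card_Ks (e A : ℕ) {η : ℝ} (hη0 : 0 < η) (he : 1 ≤ e) (hη : 1 ≤ η * e) :
    ∃ C : ℝ, 0 < C ∧ ∀ X : ℕ, 1 ≤ X → ((Ks e A X).card : ℝ) ≤ C * (X : ℝ) ^ (2 * η) := by
  obtain ⟨D4, hD4, h4⟩ := Pool.Agent.H705R2.ABC.stmtA4' (η / (A + 1)) (by positivity)
  refine ⟨D4, hD4, fun X hX => ?_⟩
  have hX0 : (0 : ℝ) < X := by exact_mod_cast hX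
  have hX1 : (1 : ℝ) ≤ X := by exact_mod_cast hX
  have h1 : Ks e A X ⊆ (Icc 1 (X ^ A)).filter fun z => (rad z : ℝ) ≤ (X : ℝ) ^ η := by
    intro z hz
    unfold Ks at hz
    rw [mem_filter] at hz ⊢
    refine ⟨hz.1, ?_⟩
    have := root_le (x := rad z) (X := X) (e := e) (c := 1) (η := η) (Nat.cast_nonneg _) hX he hη
      (by rw [pow_one]; exact_mod_cast hz.2)
    rw [Nat.cast_one, one_mul] at this
    exact this
  have h5 := h4 (X ^ A) (Nat.pow_pos hX) ((X : ℝ) ^ η) (by positivity)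
  calc ((Ks e A X).card : ℝ) ≤
        (((Icc 1 (X ^ A)).filter fun z => (rad z : ℝ) ≤ (X : ℝ) ^ η).card : ℝ) := by
        exact_mod_cast card_le_card h1
    _ ≤ D4 * ((X ^ A : ℕ) : ℝ) ^ (η / (A + 1)) * (X : ℝ) ^ η := h5
    _ ≤ D4 * (X : ℝ) ^ η * (X : ℝ) ^ η := by
        apply mul_le_mul_of_nonneg_right _ (by positivity)
        apply mul_le_mul_of_nonneg_left _ hD4.le
        push_cast
        rw [← Real.rpow_natCast, ← Real.rpow_mul hX0.le]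
        apply Real.rpow_le_rpow_of_exponent_le hX1
        rw [← mul_div_assoc, div_le_iff₀ (by positivity)]
        nlinarith
    _ = D4 * (X : ℝ) ^ (2 * η) := by rw [mul_assoc, ← Real.rpow_add hX0, two_mul]

/-- the conditions on a member -/
structure Mc (e X U d d1 A t : ℕ) : Prop where
  t0 : 0 < t
  rd : rad t ≤ X
  v : rt U t ≤ X ^ A
  kn : rad (pp (kS U d d1 t) (dg U t)) ^ (4 * e) ≤ X ^ 2

lemma rad_mul_le' {a b : ℕ} (ha : a ≠ 0) (hb : b ≠ 0) : rad (a * b) ≤ rad a * rad b := by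
  classical
  unfold rad
  rw [Nat.primeFactors_mul ha hb, ← Finset.prod_union_inter]
  exact Nat.le_mul_of_pos_right _ (Finset.prod_pos fun p hp =>
    (Nat.prime_of_mem_primeFactors (mem_inter.1 hp).1).pos)

section

variable {e X U d d1 A t : ℕ}

lemma dvd_le {z : ℕ} (H : Mc e X U d d1 A t) (hz : z ∣ rt U t) : 1 ≤ z ∧ z ≤ X ^ A :=
  ⟨Nat.pos_of_dvd_of_pos hz (rt_pos U t), (Nat.le_of_dvd (rt_pos U t) hz).trans H.v⟩

lemma known_mem (hX : 1 ≤ X) (H : Mc e X U d d1 A t) : pp (kS U d d1 t) (dg U t) ∈ Ks e A X := by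
  unfold Ks
  rw [mem_filter, mem_Icc]
  refine ⟨dvd_le H (pp_dvd_rt kS_sub'), ?_⟩
  have h3 : (rad (pp (kS U d d1 t) (dg U t)) ^ e) ^ 4 ≤ X ^ 4 := by
    calc (rad (pp (kS U d d1 t) (dg U t)) ^ e) ^ 4 =
        rad (pp (kS U d d1 t) (dg U t)) ^ (4 * e) := by
          rw [← pow_mul, mul_comm]
      _ ≤ X ^ 2 := H.kn
      _ ≤ X ^ 4 := Nat.pow_le_pow_right (by omega) (by norm_num)
  exact (Nat.pow_le_pow_iff_left (by norm_num)).1 h3

/-- the known factor of a member without a divisor with a small radical -/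
def lm (e X U d d1 t : ℕ) : ℕ := pp (kS U d d1 t) (dg U t) * pp (sS e X U d d1 t) (dg U t)

lemma lm_eq : rt U t = lm e X U d d1 t * pp (lS e X U d d1 t) (dg U t) := by
  unfold lm
  rw [mul_assoc, sl_eq, km_eq]

lemma lm_mem (he : 1 ≤ e) (hX : 2 ≤ X) (H : Mc e X U d d1 A t) (h : ¬ Cheap e X U d t) :
    lm e X U d d1 t ∈ Ks e A X := by
  obtain ⟨-, h2, -⟩ := not_cheap he hX H.kn h
  unfold Ks
  rw [mem_filter, mem_Icc]
  have hdv : lm e X U d d1 t ∣ rt U t := ⟨_, lm_eq⟩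
  refine ⟨dvd_le H hdv, ?_⟩
  have h4 : (rad (lm e X U d d1 t) ^ e) ^ 4 ≤ X ^ 4 := by
    calc (rad (lm e X U d d1 t) ^ e) ^ 4 = rad (lm e X U d d1 t) ^ (4 * e) := by
          rw [← pow_mul, mul_comm]
      _ ≤ (rad (pp (kS U d d1 t) (dg U t)) * rad (pp (sS e X U d d1 t) (dg U t))) ^ (4 * e) :=
          Nat.pow_le_pow_left (rad_mul_le' (pp_pos kS_prime _).ne' (pp_pos sS_prime _).ne') _
      _ = rad (pp (kS U d d1 t) (dg U t)) ^ (4 * e) *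
          (rad (pp (sS e X U d d1 t) (dg U t)) ^ (2 * e)) ^ 2 := by
          rw [mul_pow, ← pow_mul]
          congr 2
          ring
      _ ≤ X ^ 2 * X ^ 2 := Nat.mul_le_mul H.kn (Nat.pow_le_pow_left h2 2)
      _ = X ^ 4 := by ring
  exact (Nat.pow_le_pow_iff_left (by norm_num)).1 h4

/-- the few primes of a member without a divisor with a small radical -/
lemma fw_of (hX : 1 ≤ X) (H : Mc e X U d d1 A t) :
    Fw U X (lm e X U d d1 t) (2 * e) d d1 t (pp (lS e X U d d1 t) (dg U t)) := by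
  refine ⟨H.t0, pp_pos lS_prime _, lm_eq, H.rd, ?_, ?_⟩
  · exact (card_le_card (pp_sub lS_prime _)).trans (card_lS hX H.rd)
  · intro p hp
    have h1 := pp_sub lS_prime _ hp
    rw [pp_fac lS_prime, if_pos h1]
    exact (mem_filter.1 (lS_sub h1)).2

lemma fw_one (n0 : ℕ) (H : Mc e X U d d1 A t) : Fw U X (rt U t) n0 d d1 t 1 := by
  refine ⟨H.t0, one_pos, (mul_one _).symm, H.rd, ?_, ?_⟩
  · simp
  · intro p hp; simp at hp

/-- a large power of a small integer -/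
lemma cheap_data (he : 4 ≤ e) (hX : 2 ≤ X) (hd : 8 ≤ d) (hd8 : 8 ∣ d)
    (H : Mc e X U d d1 A t) (h : Cheap e X U d t) :
    ∃ D ∈ Ds e X, ∃ Y ∈ range (A * e + 1), X ≤ D ^ e ∧ d ≤ 8 * Y ∧ D ^ (U * Y) ∣ t := by
  obtain ⟨z, h1, h2, h3⟩ := h
  have hz := dvd_le H h1
  obtain ⟨D, Y, a1, a2, a3, a4, a5, a6⟩ := exists_root (B := A * e) hX (by omega) hd h2 h3 (by
    rw [pow_mul]; exact Nat.pow_le_pow_left hz.2 _)
  refine ⟨D, mem_Ds he a6 a3, Y, ?_, a2, ?_, ?_⟩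
  · rw [mem_range]; omega
  · obtain ⟨w, hw⟩ := hd8
    have : d / 8 = w := by omega
    omega
  · calc D ^ (U * Y) = (D ^ Y) ^ U := by rw [← pow_mul, mul_comm]
      _ ∣ rt U t ^ U := pow_dvd_pow_of_dvd (a1.trans h1) U
      _ ∣ t := rt_pow_dvd H.t0.ne'

lemma Ds_le {D : ℕ} (h : D ∈ Ds e X) : 1 ≤ D ∧ D ≤ X ∧ D ^ e ≤ X ^ 4 := by
  unfold Ds at h
  rw [mem_filter, mem_Icc] at h
  exact ⟨h.1.1, h.1.2, h.2⟩

/-- the smallness of a member all the large primes of which are missing -/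
lemma light_small (he : 4 ≤ e) (hX : 2 ≤ X) (hU : 1 ≤ U) (hd : 16 ≤ d)
    (H : Mc e X U d d1 A t)
    (h : ¬ Cheap e X U d t) (hl : lS e X U d d1 t = ∅) : t * X ^ (U * (d / 2)) ≤ X ^ (U * d) := by
  obtain ⟨h1, -, h3⟩ := not_cheap (by omega) hX H.kn h
  have e1 : rt U t = pp (kS U d d1 t) (dg U t) * pp (sS e X U d d1 t) (dg U t) := by
    rw [lm_eq (e := e) (X := X) (d := d) (d1 := d1), hl]
    unfold lm pp
    rw [Finset.prod_empty, mul_one]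
  -- `(rt U t) ^ (4 e) ≤ X ^ (2 d)`
  have h4 : rt U t ^ (4 * e) ≤ X ^ (2 * d) := by
    rw [e1, mul_pow]
    calc _ ≤ X ^ d * X ^ d := Nat.mul_le_mul h1.le h3.le
      _ = X ^ (2 * d) := by rw [← pow_add, two_mul]
  have h5 : rt U t ^ 16 ≤ X ^ (2 * d) :=
    le_trans (Nat.pow_le_pow_right (rt_pos U t) (by omega)) h4
  have h6 : rt U t ^ 8 ≤ X ^ d := by
    have : (rt U t ^ 8) ^ 2 ≤ (X ^ d) ^ 2 := by
      rw [← pow_mul, ← pow_mul, mul_comm d 2]; exact h5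
    exact (Nat.pow_le_pow_iff_left (by norm_num)).1 this
  -- `t ^ 8 ≤ X ^ (U d + 8 U)`
  have h7 : t ^ 8 ≤ X ^ (U * d + 8 * U) := by
    calc t ^ 8 = (rt U t ^ U * rm U t) ^ 8 := by rw [rt_mul_rm H.t0.ne']
      _ ≤ (rt U t ^ U * X ^ U) ^ 8 := Nat.pow_le_pow_left (Nat.mul_le_mul_left _
          ((rm_le hU H.t0.ne').trans (Nat.pow_le_pow_left H.rd _))) _
      _ = (rt U t ^ 8) ^ U * X ^ (8 * U) := by
          rw [mul_pow, ← pow_mul, ← pow_mul, ← pow_mul, mul_comm U 8]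
      _ ≤ (X ^ d) ^ U * X ^ (8 * U) := Nat.mul_le_mul_right _ (Nat.pow_le_pow_left h6 _)
      _ = X ^ (U * d + 8 * U) := by rw [← pow_mul, ← pow_add, mul_comm d U]
  have h8 : (t * X ^ (U * (d / 2))) ^ 8 ≤ (X ^ (U * d)) ^ 8 := by
    calc (t * X ^ (U * (d / 2))) ^ 8 = t ^ 8 * X ^ (8 * (U * (d / 2))) := by
          rw [mul_pow, ← pow_mul, mul_comm 8]
      _ ≤ X ^ (U * d + 8 * U) * X ^ (8 * (U * (d / 2))) := Nat.mul_le_mul_right _ h7
      _ = X ^ (U * d + 8 * U + 8 * (U * (d / 2))) := (pow_add _ _ _).symm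
      _ ≤ X ^ (8 * (U * d)) := by
          apply Nat.pow_le_pow_right (by omega)
          have e2 : U * (d + 8 + 8 * (d / 2)) ≤ U * (8 * d) := Nat.mul_le_mul_left _ (by omega)
          calc U * d + 8 * U + 8 * (U * (d / 2)) = U * (d + 8 + 8 * (d / 2)) := by ring
            _ ≤ U * (8 * d) := e2
            _ = 8 * (U * d) := by ring
      _ = (X ^ (U * d)) ^ 8 := by rw [← pow_mul, mul_comm 8]
  exact (Nat.pow_le_pow_iff_left (by norm_num)).1 h8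

end

end Pool.Agent.T2H20.AH
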