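import Pool.Agent.T2H20.AH.Ca

/-!
The triples of a level: two members with few primes up to known factors.
-/

set_option autoImplicit false

namespace Pool.Agent.T2H20.AH

open Finset Pool.Agent.H785R2.ABC Pool.Agent.H785R2.ABC.EC Pool.Agent.T2H20.ABC

/-- the parameters of a level -/
structure Pm (e k κ d d1 U X : ℕ) : Prop where
  he : 4 ≤ e
  hk : 1 ≤ k
  hκ : 1 ≤ κ
  hd1 : d1 = κ * d
  hd : 5120000 * (4 * e) ^ 2 * k ^ 2 * Bp e k κ ≤ d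
  hd8 : 8 ∣ d
  hU : 4 * Bp e k κ + 2 ≤ U
  hX : 2 ^ (2 * e * (4 * d1 + 16)) ≤ X
  hXk : 17 * Bp e k κ * k ≤ X

section

variable {e k κ d d1 U X : ℕ}

lemma Bp_pos (he : 1 ≤ e) (hk : 1 ≤ k) (hκ : 1 ≤ κ) : 1 ≤ Bp e k κ := by
  have : 0 < Qp e k κ := by
    unfold Qp
    positivity
  exact Nat.one_le_pow _ _ this

lemma Pm.Bp1 (P : Pm e k κ d d1 U X) : 1 ≤ Bp e k κ := by
  have := P.he
  exact Bp_pos (by omega) P.hk P.hκ

lemma Pm.d_e (P : Pm e k κ d d1 U X) : 5120000 * e ≤ d := by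
  have h1 := P.Bp1
  have h2 := P.hk
  have h3 := P.he
  refine le_trans ?_ P.hd
  calc 5120000 * e ≤ 5120000 * e * (16 * e * k ^ 2 * Bp e k κ) := by
        apply Nat.le_mul_of_pos_right
        have : 0 < e := by omega
        positivity
    _ = _ := by ring

lemma Pm.U1 (P : Pm e k κ d d1 U X) : 1 ≤ U := by
  have := P.hU
  omega

lemma Pm.d_big (P : Pm e k κ d d1 U X) : 20480000 ≤ d := by
  have h1 := P.d_e
  have h2 := P.he
  omega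

lemma Pm.X_big (P : Pm e k κ d d1 U X) : 2 ^ 128 ≤ X := by
  refine le_trans (Nat.pow_le_pow_right (by norm_num) ?_) P.hX
  have h2 := P.he
  have : 4 * 16 ≤ e * (4 * d1 + 16) := Nat.mul_le_mul h2 (by omega)
  have e1 : 2 * e * (4 * d1 + 16) = 2 * (e * (4 * d1 + 16)) := by ring
  omega

lemma Pm.X2 (P : Pm e k κ d d1 U X) : 2 ≤ X := by
  have h := P.X_big
  have : (2 : ℕ) ≤ 2 ^ 128 := by norm_num
  omega

/-- the base of the large power is large -/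
lemma Pm.D_log (P : Pm e k κ d d1 U X) {D : ℕ} (h : X ≤ D ^ (2 * e)) :
    16 ≤ Nat.log 2 D ∧ d1 ≤ 2 ^ (Nat.log 2 D / 4) ∧ 2 ≤ D := by
  have he := P.he
  have h1 : 2 ^ (4 * d1 + 16) ≤ D := by
    have h2 : (2 ^ (4 * d1 + 16)) ^ (2 * e) ≤ D ^ (2 * e) := by
      rw [← pow_mul, mul_comm (4 * d1 + 16)]
      exact P.hX.trans h
    exact (Nat.pow_le_pow_iff_left (by omega)).1 h2
  have h2 : 4 * d1 + 16 ≤ Nat.log 2 D := Nat.le_log_of_pow_le (by norm_num) h1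
  refine ⟨by omega, ?_, ?_⟩
  · calc d1 ≤ 2 ^ d1 := (Nat.lt_two_pow_self).le
      _ ≤ 2 ^ (Nat.log 2 D / 4) := Nat.pow_le_pow_right (by norm_num) (by omega)
  · refine le_trans ?_ h1
    calc 2 = 2 ^ 1 := rfl
      _ ≤ 2 ^ (4 * d1 + 16) := Nat.pow_le_pow_right (by norm_num) (by omega)

lemma Pm.X_log (P : Pm e k κ d d1 U X) :
    16 ≤ Nat.log 2 X ∧ d1 ≤ 2 ^ ((Nat.log 2 X + 1) / 4) := by
  have he := P.he
  have h1 : X ≤ X ^ (2 * e) := Nat.le_self_pow (by omega) X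
  obtain ⟨h2, h3, -⟩ := P.D_log h1
  refine ⟨h2, h3.trans (Nat.pow_le_pow_right (by norm_num) (Nat.div_le_div_right (by omega)))⟩

lemma Cf_pos (e k d1 : ℕ) (hk : 1 ≤ k) : 0 < Cf e k d1 := by
  unfold Cf
  have : (0 : ℝ) < k := by exact_mod_cast hk
  positivity

/-- **few primes, modulo a large power, with unknown parameters** -/
theorem padic_count (P : Pm e k κ d d1 U X) (DS : Finset (ℕ × ℕ))
    (hDS : ∀ z ∈ DS, z.1 ≤ X ∧ X ≤ z.1 ^ (2 * e) ∧ U * d ≤ 8 * z.2 ∧ X ^ (2 * U) < z.1 ^ z.2)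
    (L₁ L₂ : Finset ℕ) {i j c : Fin 3} (hij : i ≠ j) (hjc : j ≠ c) (hic : i ≠ c)
    (Q : Finset (ℕ × ℕ)) (hQ : ∀ q ∈ Q, Pr q ∧ (∀ l, rad (num (tri q) l) ≤ X) ∧
      (∃ z ∈ DS, z.1 ^ z.2 ∣ num (tri q) c) ∧
      (∃ lam ∈ L₁, ∃ l, Fw U X lam (2 * e) d d1 (num (tri q) i) l) ∧
      (∃ lam ∈ L₂, ∃ l, Fw U X lam (2 * e) d d1 (num (tri q) j) l)) :
    (Q.card : ℝ) ≤ ((DS.card : ℝ) * (L₁.card * L₂.card)) *
      (Cf e k d1 * (X : ℝ) ^ ((12 * e : ℝ) / k)) := by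
  classical
  have he := P.he
  have h1 := card_le_of_cover Q (DS ×ˢ (L₁ ×ˢ L₂))
    (fun z q => z.1.1 ^ z.1.2 ∣ num (tri q) c ∧
      (∃ l, Fw U X z.2.1 (2 * e) d d1 (num (tri q) i) l) ∧
      (∃ l, Fw U X z.2.2 (2 * e) d d1 (num (tri q) j) l))
    (Cf e k d1 * (X : ℝ) ^ ((12 * e : ℝ) / k)) (by
      intro q hq
      obtain ⟨-, -, ⟨z, hz, hz2⟩, ⟨l1, hl1, hl1'⟩, l2, hl2, hl2'⟩ := hQ q hq
      exact ⟨(z, (l1, l2)), mem_product.2 ⟨hz, mem_product.2 ⟨hl1, hl2⟩⟩, hz2, hl1', hl2'⟩) (by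
      rintro ⟨⟨D, Z⟩, lam₁, lam₂⟩ hz
      rw [mem_product] at hz
      obtain ⟨a1, a2, a3, a4⟩ := hDS _ hz.1
      simp only at a1 a2 a3 a4
      obtain ⟨b1, b2, b3⟩ := P.D_log a2
      apply few_level_padic (κ := κ) (d := d) (D := D) (Z := Z) (lam₁ := lam₁) (lam₂ := lam₂)
        (by omega) P.hk P.hκ P.hd1 P.hd P.hU (by have := P.X2; omega) a1 a2 b1 b2 a3 a4 hij hjc hic
      intro q hq
      rw [mem_filter] at hq
      obtain ⟨hq, h2, h3, h4⟩ := hq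
      exact ⟨(hQ q hq).1, (hQ q hq).2.1, h2, h3, h4⟩)
  rw [card_product, card_product] at h1
  push_cast at h1
  exact h1

/-- **few primes, in the real numbers, with unknown parameters** -/
theorem real_count (P : Pm e k κ d d1 U X)
    (L₁ L₂ : Finset ℕ) {i j : Fin 3} (hij : i ≠ j)
    (Q : Finset (ℕ × ℕ)) (hQ : ∀ q ∈ Q, Pr q ∧ (∀ l, rad (num (tri q) l) ≤ X) ∧
      |Real.log (num (tri q) i) - Real.log (num (tri q) j)| ≤ 2 * ((X : ℝ) ^ (U * (d / 2)))⁻¹ ∧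
      (∃ lam ∈ L₁, ∃ l, Fw U X lam (2 * e) d d1 (num (tri q) i) l) ∧
      (∃ lam ∈ L₂, ∃ l, Fw U X lam (2 * e) d d1 (num (tri q) j) l)) :
    (Q.card : ℝ) ≤ ((L₁.card : ℝ) * L₂.card) *
      (Cf e k d1 * (X : ℝ) ^ ((12 * e : ℝ) / k)) := by
  classical
  have he := P.he
  have h1 := card_le_of_cover Q (L₁ ×ˢ L₂)
    (fun z q => (∃ l, Fw U X z.1 (2 * e) d d1 (num (tri q) i) l) ∧
      (∃ l, Fw U X z.2 (2 * e) d d1 (num (tri q) j) l))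
    (Cf e k d1 * (X : ℝ) ^ ((12 * e : ℝ) / k)) (by
      intro q hq
      obtain ⟨-, -, -, ⟨l1, hl1, hl1'⟩, l2, hl2, hl2'⟩ := hQ q hq
      exact ⟨(l1, l2), mem_product.2 ⟨hl1, hl2⟩, hl1', hl2'⟩) (by
      rintro ⟨lam₁, lam₂⟩ hz
      obtain ⟨b1, b2⟩ := P.X_log
      apply few_level_real (κ := κ) (d := d) (U := U) (lam₁ := lam₁) (lam₂ := lam₂)
        (by omega) P.hk P.hκ P.hd1 P.hd P.hU b1 b2 P.hXk P.hd8 hij
      intro q hq
      rw [mem_filter] at hq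
      obtain ⟨hq, h2, h3⟩ := hq
      exact ⟨(hQ q hq).1, (hQ q hq).2.1, (hQ q hq).2.2.1, h2, h3⟩)
  rw [card_product] at h1
  push_cast at h1
  exact h1

/-- two close numbers -/
lemma log_close' {a b c : ℕ} (ha : 0 < a) (hb : 0 < b) (hc : c = a + b) {N : ℝ} (hN : 2 ≤ N)
    (h : (a : ℝ) * N ≤ c) : |Real.log b - Real.log c| ≤ 2 * N⁻¹ := by
  have hb0 : (0 : ℝ) < b := by exact_mod_cast hb
  have ha0 : (0 : ℝ) < a := by exact_mod_cast ha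
  have hcR : (c : ℝ) = a + b := by rw [hc]; push_cast; rfl
  have hc0 : (0 : ℝ) < c := by rw [hcR]; positivity
  have hN0 : 0 < N := by linarith
  rw [abs_sub_comm, abs_of_nonneg (by
    rw [sub_nonneg]
    exact Real.log_le_log hb0 (by rw [hcR]; linarith)), ← Real.log_div hc0.ne' hb0.ne']
  have h1 := Real.log_le_sub_one_of_pos (div_pos hc0 hb0)
  refine h1.trans ?_
  have h2 : (c : ℝ) / b - 1 = a / b := by
    rw [hcR]; field_simp; ring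
  rw [h2, div_le_iff₀ hb0]
  -- `a N ≤ a + b`, so `a (N - 1) ≤ b` and `a N ≤ 2 b`
  have h3 : (a : ℝ) * N ≤ 2 * b := by
    rw [hcR] at h
    nlinarith
  calc (a : ℝ) = a * N * N⁻¹ := by field_simp
    _ ≤ 2 * b * N⁻¹ := mul_le_mul_of_nonneg_right h3 (by positivity)
    _ = _ := by ring

end

end Pool.Agent.T2H20.AH
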