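import Pool.Agent.T2H20.AH.Cb
import Pool.Agent.T2H20.ABC.Two

/-!
The triples of a level whose member with the largest radical has no divisor with a small radical.
-/

set_option autoImplicit false

namespace Pool.Agent.T2H20.AH

open Finset Pool.Agent.H785R2.ABC Pool.Agent.H785R2.ABC.EC Pool.Agent.T2H20.ABC

/-- the conditions on a pair at a level -/
structure Lc (e X U d d1 A R₁ R₂ : ℕ) (i j : Fin 3) (q : ℕ × ℕ) : Prop where
  pr : Pr q
  mc : ∀ l, Mc e X U d d1 A (num (tri q) l)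
  r1 : rad (num (tri q) i) ≤ R₁
  r2 : rad (num (tri q) j) ≤ R₂
  big : X ^ (U * d) ≤ q.1 + q.2

/-- bases and exponents -/
def DY (e X d A : ℕ) : Finset (ℕ × ℕ) :=
  ((Ds e X) ×ˢ range (A * e + 1)).filter fun z => X ≤ z.1 ^ e ∧ d ≤ 8 * z.2

/-- the large powers -/
def DD (e X U d A : ℕ) : Finset (ℕ × ℕ) := (DY e X d A).image fun z => (z.1, U * z.2)

lemma DY_card {e X d A : ℕ} {η : ℝ} (hX : 1 ≤ X) (he : 1 ≤ e) (hη : 1 ≤ η * e) :
    ((DY e X d A).card : ℝ) ≤ (A * e + 1 : ℕ) * (X : ℝ) ^ (4 * η) := by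
  calc ((DY e X d A).card : ℝ) ≤ (((Ds e X) ×ˢ range (A * e + 1)).card : ℝ) := by
        exact_mod_cast card_filter_le _ _
    _ = (Ds e X).card * (A * e + 1 : ℕ) := by
        rw [card_product, card_range]; push_cast; ring
    _ ≤ (X : ℝ) ^ (4 * η) * (A * e + 1 : ℕ) :=
        mul_le_mul_of_nonneg_right (card_Ds hX he hη) (Nat.cast_nonneg _)
    _ = _ := mul_comm _ _

lemma DD_card {e X U d A : ℕ} {η : ℝ} (hX : 1 ≤ X) (he : 1 ≤ e) (hη : 1 ≤ η * e) :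
    ((DD e X U d A).card : ℝ) ≤ (A * e + 1 : ℕ) * (X : ℝ) ^ (4 * η) := by
  refine le_trans ?_ (DY_card (d := d) (A := A) hX he hη)
  exact_mod_cast card_image_le

section

variable {e k κ d d1 U X A R₁ R₂ : ℕ}

lemma DY_mem {z : ℕ × ℕ} (h : z ∈ DY e X d A) : 1 ≤ z.1 ∧ z.1 ≤ X ∧ z.1 ^ e ≤ X ^ 4 ∧
    X ≤ z.1 ^ e ∧ d ≤ 8 * z.2 := by
  unfold DY at h
  rw [mem_filter, mem_product] at h
  obtain ⟨⟨h1, -⟩, h2, h3⟩ := h
  obtain ⟨a1, a2, a3⟩ := Ds_le h1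
  exact ⟨a1, a2, a3, h2, h3⟩

lemma DY_f (P : Pm e k κ d d1 U X) {z : ℕ × ℕ} (h : z ∈ DY e X d A) :
    X ^ (2 * U) < z.1 ^ (U * z.2) := by
  obtain ⟨h1, h2, h3, h4, h5⟩ := DY_mem h
  have he := P.he
  have hU := P.U1
  have h6 : X ≤ z.1 ^ (2 * e) := h4.trans (Nat.pow_le_pow_right h1 (by omega))
  obtain ⟨-, -, hD⟩ := P.D_log h6
  have hde := P.d_e
  calc X ^ (2 * U) ≤ (z.1 ^ e) ^ (2 * U) := Nat.pow_le_pow_left h4 _
    _ = z.1 ^ (U * (2 * e)) := by rw [← pow_mul]; congr 1; ring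
    _ < z.1 ^ (U * z.2) := by
        apply Nat.pow_lt_pow_right (by omega)
        apply Nat.mul_lt_mul_of_pos_left _ (by omega)
        omega

lemma DD_ok (P : Pm e k κ d d1 U X) : ∀ z ∈ DD e X U d A, z.1 ≤ X ∧ X ≤ z.1 ^ (2 * e) ∧
    U * d ≤ 8 * z.2 ∧ X ^ (2 * U) < z.1 ^ z.2 := by
  intro z hz
  unfold DD at hz
  rw [mem_image] at hz
  obtain ⟨y, hy, rfl⟩ := hz
  obtain ⟨h1, h2, h3, h4, h5⟩ := DY_mem hy
  refine ⟨h2, h4.trans (Nat.pow_le_pow_right h1 (by omega)), ?_, DY_f P hy⟩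
  calc U * d ≤ U * (8 * y.2) := Nat.mul_le_mul_left _ h5
    _ = 8 * (U * y.2) := by ring

lemma DY_cheap (P : Pm e k κ d d1 U X) {t : ℕ} (H : Mc e X U d d1 A t)
    (h : Cheap e X U d t) : ∃ z ∈ DY e X d A, z.1 ^ (U * z.2) ∣ t := by
  have he := P.he
  have hd := P.d_big
  obtain ⟨D, hD, Y, hY, h1, h2, h3⟩ := cheap_data he P.X2 (by omega) P.hd8 H h
  refine ⟨(D, Y), ?_, h3⟩
  unfold DY
  rw [mem_filter, mem_product]
  exact ⟨⟨hD, hY⟩, h1, h2⟩

lemma DD_cheap (P : Pm e k κ d d1 U X) {t : ℕ} (H : Mc e X U d d1 A t)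
    (h : Cheap e X U d t) : ∃ z ∈ DD e X U d A, z.1 ^ z.2 ∣ t := by
  obtain ⟨z, h1, h2⟩ := DY_cheap P H h
  exact ⟨(z.1, U * z.2), mem_image.2 ⟨z, h1, rfl⟩, h2⟩

lemma lm_fw (P : Pm e k κ d d1 U X) {t : ℕ} (H : Mc e X U d d1 A t) (h : ¬ Cheap e X U d t) :
    ∃ lam ∈ Ks e A X, ∃ l, Fw U X lam (2 * e) d d1 t l :=
  ⟨lm e X U d d1 t, lm_mem (by have := P.he; omega) P.X2 H h, _,
    fw_of (by have := P.X2; omega) H⟩

/-- the second member is divisible by a large power -/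
theorem case2 (P : Pm e k κ d d1 U X) {i j c : Fin 3} (hij : i ≠ j) (hjc : j ≠ c) (hic : i ≠ c)
    (Q : Finset (ℕ × ℕ)) (hQ : ∀ q ∈ Q, Lc e X U d d1 A R₁ R₂ i j q ∧
      ¬ Cheap e X U d (num (tri q) c) ∧ Cheap e X U d (num (tri q) j)) :
    (Q.card : ℝ) ≤ (((DD e X U d A).card : ℝ) * ((Ss (X ^ A) R₁).card * (Ks e A X).card)) *
      (Cf e k d1 * (X : ℝ) ^ ((12 * e : ℝ) / k)) := by
  apply padic_count P (DD e X U d A) (DD_ok P) (Ss (X ^ A) R₁) (Ks e A X) hic hjc.symm hij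
  intro q hq
  obtain ⟨h, hc, hj⟩ := hQ q hq
  refine ⟨h.pr, fun l => (h.mc l).rd, DD_cheap P (h.mc j) hj, ?_, lm_fw P (h.mc c) hc⟩
  refine ⟨rt U (num (tri q) i), ?_, 1, fw_one _ (h.mc i)⟩
  unfold Ss
  rw [mem_filter, mem_Icc]
  refine ⟨⟨rt_pos _ _, (h.mc i).v⟩, ?_⟩
  exact_mod_cast rad_rt_le.trans h.r1

/-- the first member is divisible by a large power -/
theorem case3 (P : Pm e k κ d d1 U X) {i j c : Fin 3} (hij : i ≠ j) (hjc : j ≠ c) (hic : i ≠ c)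
    (Q : Finset (ℕ × ℕ)) (hQ : ∀ q ∈ Q, Lc e X U d d1 A R₁ R₂ i j q ∧
      ¬ Cheap e X U d (num (tri q) c) ∧ ¬ Cheap e X U d (num (tri q) j) ∧
      Cheap e X U d (num (tri q) i)) :
    (Q.card : ℝ) ≤ (((DD e X U d A).card : ℝ) * ((Ks e A X).card * (Ks e A X).card)) *
      (Cf e k d1 * (X : ℝ) ^ ((12 * e : ℝ) / k)) := by
  apply padic_count P (DD e X U d A) (DD_ok P) (Ks e A X) (Ks e A X) hjc hic.symm hij.symm
  intro q hq
  obtain ⟨h, hc, hj, hi⟩ := hQ q hq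
  exact ⟨h.pr, fun l => (h.mc l).rd, DD_cheap P (h.mc i) hi, lm_fw P (h.mc j) hj,
    lm_fw P (h.mc c) hc⟩

/-- no member is divisible by a large power, the first one is divisible by a large power of a
large prime -/
theorem case4a (P : Pm e k κ d d1 U X) {i j c : Fin 3} (hij : i ≠ j) (hjc : j ≠ c) (hic : i ≠ c)
    (Q : Finset (ℕ × ℕ)) (hQ : ∀ q ∈ Q, Lc e X U d d1 A R₁ R₂ i j q ∧
      ¬ Cheap e X U d (num (tri q) c) ∧ ¬ Cheap e X U d (num (tri q) j) ∧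
      (lS e X U d d1 (num (tri q) i)).Nonempty) :
    (Q.card : ℝ) ≤ ((R₁ : ℝ) * ((Ks e A X).card * (Ks e A X).card)) *
      (Cf e k d1 * (X : ℝ) ^ ((12 * e : ℝ) / k)) := by
  classical
  set DS : Finset (ℕ × ℕ) := ((Icc 1 R₁).filter fun p => p ≤ X ∧ X < p ^ (2 * e)).image
    fun p => (p, U * d) with hDS
  have hcard : (DS.card : ℝ) ≤ R₁ := by
    have : DS.card ≤ R₁ := by
      calc DS.card ≤ ((Icc 1 R₁).filter fun p => p ≤ X ∧ X < p ^ (2 * e)).card := card_image_le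
        _ ≤ (Icc 1 R₁).card := card_filter_le _ _
        _ = R₁ := by rw [Nat.card_Icc, Nat.add_sub_cancel]
    exact_mod_cast this
  have h1 := padic_count P DS (by
    intro z hz
    rw [hDS, mem_image] at hz
    obtain ⟨p, hp, rfl⟩ := hz
    rw [mem_filter, mem_Icc] at hp
    obtain ⟨⟨h1, h2⟩, h3, h4⟩ := hp
    refine ⟨h3, h4.le, Nat.le_mul_of_pos_left _ (by norm_num), ?_⟩
    have hde := P.d_e
    have he := P.he
    have hU := P.U1
    obtain ⟨-, -, hD⟩ := P.D_log h4.le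
    calc X ^ (2 * U) ≤ (p ^ (2 * e)) ^ (2 * U) := Nat.pow_le_pow_left h4.le _
      _ = p ^ (U * (4 * e)) := by rw [← pow_mul]; congr 1; ring
      _ < p ^ (U * d) := by
          apply Nat.pow_lt_pow_right (by omega)
          apply Nat.mul_lt_mul_of_pos_left _ (by omega)
          omega) (Ks e A X) (Ks e A X) hjc hic.symm hij.symm Q (by
    intro q hq
    obtain ⟨h, hc, hj, p, hp⟩ := hQ q hq
    refine ⟨h.pr, fun l => (h.mc l).rd, ⟨(p, U * d), ?_, ?_⟩, lm_fw P (h.mc j) hj,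
      lm_fw P (h.mc c) hc⟩
    · rw [hDS, mem_image]
      refine ⟨p, ?_, rfl⟩
      have hpp := lS_prime p hp
      have hp1 : p ≤ rad (num (tri q) i) := by
        have h2 := prod_sub_rad (t := num (tri q) i) (S := {p})
          (singleton_subset_iff.2 ((lS_sub.trans mS_t) hp))
        rwa [prod_singleton] at h2
      rw [mem_filter, mem_Icc]
      exact ⟨⟨hpp.one_le, hp1.trans h.r1⟩, hp1.trans (h.mc i).rd, not_le.1 (mem_filter.1 hp).2⟩
    · show p ^ (U * d) ∣ num (tri q) i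
      have hpp := lS_prime p hp
      have h2 : d ≤ dg U (num (tri q) i) p := (mem_filter.1 (lS_sub hp)).2.1
      calc p ^ (U * d) = (p ^ d) ^ U := by rw [← pow_mul, mul_comm]
        _ ∣ rt U (num (tri q) i) ^ U := by
            apply pow_dvd_pow_of_dvd
            exact (hpp.pow_dvd_iff_le_factorization (rt_pos _ _).ne').2 h2
        _ ∣ num (tri q) i := rt_pow_dvd (h.mc i).t0.ne')
  refine h1.trans ?_
  have hC := Cf_pos e k d1 P.hk
  apply mul_le_mul_of_nonneg_right _ (by positivity)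
  exact mul_le_mul_of_nonneg_right hcard (by positivity)

/-- no member is divisible by a large power, the first one is small -/
theorem case4b (P : Pm e k κ d d1 U X) {i : Fin 3} (j : Fin 3)
    (Q : Finset (ℕ × ℕ)) (hQ : ∀ q ∈ Q, Lc e X U d d1 A R₁ R₂ i j q ∧
      (∀ l, ¬ Cheap e X U d (num (tri q) l)) ∧ lS e X U d d1 (num (tri q) i) = ∅) :
    (Q.card : ℝ) ≤ ((Ks e A X).card * (Ks e A X).card) *
      (Cf e k d1 * (X : ℝ) ^ ((12 * e : ℝ) / k)) := by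
  have he := P.he
  have hd := P.d_big
  have hU := P.U1
  have hX2 := P.X2
  have hN2 : 2 ≤ X ^ (U * (d / 2)) := by
    calc 2 ≤ X := hX2
      _ = X ^ 1 := (pow_one X).symm
      _ ≤ X ^ (U * (d / 2)) := Nat.pow_le_pow_right (by omega)
          (Nat.mul_pos (by omega) (by omega))
  have hN2' : (2 : ℝ) ≤ (X : ℝ) ^ (U * (d / 2)) := by exact_mod_cast hN2
  have hsm : ∀ q ∈ Q, num (tri q) i * X ^ (U * (d / 2)) ≤ q.1 + q.2 := by
    intro q hq
    obtain ⟨h, h1, h2⟩ := hQ q hq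
    exact (light_small he hX2 hU (by omega) (h.mc i) (h1 i) h2).trans h.big
  have hC := Cf_pos e k d1 P.hk
  have hfin : ∀ i : Fin 3, i = 0 ∨ i = 1 ∨ i = 2 := by decide
  rcases hfin i with rfl | rfl | rfl
  · apply real_count P (Ks e A X) (Ks e A X) (i := 1) (j := 2) (by decide)
    intro q hq
    obtain ⟨h, h1, h2⟩ := hQ q hq
    refine ⟨h.pr, fun l => (h.mc l).rd, ?_, lm_fw P (h.mc 1) (h1 1), lm_fw P (h.mc 2) (h1 2)⟩
    have h3 := hsm q hq
    have e0 : num (tri q) 0 = q.1 := rfl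
    have e1 : num (tri q) 1 = q.2 := rfl
    have e2 : num (tri q) 2 = q.1 + q.2 := rfl
    rw [e0] at h3
    rw [e1, e2]
    refine log_close' h.pr.p1 h.pr.p2 rfl hN2' ?_
    exact_mod_cast h3
  · apply real_count P (Ks e A X) (Ks e A X) (i := 0) (j := 2) (by decide)
    intro q hq
    obtain ⟨h, h1, h2⟩ := hQ q hq
    refine ⟨h.pr, fun l => (h.mc l).rd, ?_, lm_fw P (h.mc 0) (h1 0), lm_fw P (h.mc 2) (h1 2)⟩
    have h3 := hsm q hq
    have e0 : num (tri q) 0 = q.1 := rfl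
    have e1 : num (tri q) 1 = q.2 := rfl
    have e2 : num (tri q) 2 = q.1 + q.2 := rfl
    rw [e1] at h3
    rw [e0, e2]
    refine log_close' h.pr.p2 h.pr.p1 (add_comm _ _) hN2' ?_
    exact_mod_cast h3
  · rcases Q.eq_empty_or_nonempty with h0 | ⟨q, hq⟩
    · rw [h0, card_empty, Nat.cast_zero]; positivity
    · exfalso
      have h3 := hsm q hq
      have e2 : num (tri q) 2 = q.1 + q.2 := rfl
      rw [e2] at h3
      have h4 := (hQ q hq).1.pr.p1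
      have h5 : (q.1 + q.2) * 2 ≤ (q.1 + q.2) * X ^ (U * (d / 2)) := Nat.mul_le_mul_left _ hN2
      omega

end

end Pool.Agent.T2H20.AH
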