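import Pool.Agent.T2H20.AH.Cc

/-!
The triples of a level whose member with the largest radical has a divisor with a small radical.
-/

set_option autoImplicit false

namespace Pool.Agent.T2H20.AH

open Finset Pool.Agent.H785R2.ABC Pool.Agent.H785R2.ABC.EC Pool.Agent.T2H20.ABC

open Classical in
/-- the types -/
noncomputable def TT (X t wb d d1 : ℕ) : Finset (ℕ × ℕ × ℕ) :=
  (range (d1 + 1) ×ˢ (range (d1 + 1) ×ˢ range (Nat.log 2 X + 1))).filter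
    fun τ => TyOK X t wb d d1 τ

lemma TT_card (X t wb d d1 : ℕ) : (TT X t wb d d1).card ≤ (d1 + 1) ^ 2 * (Nat.log 2 X + 1) := by
  classical
  unfold TT
  refine (card_filter_le _ _).trans (le_of_eq ?_)
  rw [card_product, card_product, card_range, card_range]
  ring

lemma TT_ok {X t wb d d1 : ℕ} {τ : ℕ × ℕ × ℕ} (h : τ ∈ TT X t wb d d1) :
    TyOK X t wb d d1 τ := by
  classical
  unfold TT at h
  rw [mem_filter] at h
  exact h.2

/-- the parameters of the decomposition -/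
structure Tp (e κ d d1 X dd t wb n : ℕ) : Prop where
  hdd : 2 ^ dd ≤ 4 * t
  hdd1 : 1 ≤ dd
  hwb : 103680000 * e ^ 2 * κ ≤ wb
  hd : 46080000 * e ^ 2 * (2 ^ dd) ^ 2 ≤ d
  hn : n + t ≤ 2 ^ dd
  ht : 1 ≤ t
  hgr : d1 < gr wb d n
  hXm : 2 ^ 2 ^ dd ≤ X

section

variable {e k κ d d1 U X A R₁ R₂ dd t wb n : ℕ}

lemma piece_type (hwb : 1 ≤ wb) {x D : ℕ} (hp : Piece X t wb d d1 x)
    (hxA : x ≤ X ^ A) (hcop : x.Coprime D) : ∃ τ ∈ TT X t wb d d1, x ∈ As X A D τ := by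
  classical
  obtain ⟨h0, h1, E, W, h2, h3, h4, h5⟩ := hp
  have hr := rad_pos' x
  have ha1 : 2 ^ Nat.log 2 (rad x) ≤ rad x := Nat.pow_log_le_self 2 hr.ne'
  have ha2 : rad x ≤ 2 ^ (Nat.log 2 (rad x) + 1) := (Nat.lt_pow_succ_log_self (by norm_num) _).le
  refine ⟨(E, W, Nat.log 2 (rad x)), ?_, ?_⟩
  · unfold TT
    rw [mem_filter, mem_product, mem_product, mem_range, mem_range, mem_range]
    refine ⟨⟨by simp only; omega, ?_, ?_⟩, ?_⟩
    · simp only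
      rcases h5 with h5 | h5
      · have : W ≤ wb * W := Nat.le_mul_of_pos_left _ (by omega)
        omega
      · omega
    · simp only
      exact Nat.lt_succ_of_le (Nat.log_mono_right h1)
    · refine ⟨h2, h3, ha1.trans h1, ?_⟩
      rcases h5 with h5 | h5
      · exact Or.inl ⟨h5.1, (Nat.pow_le_pow_left ha1 _).trans h5.2⟩
      · exact Or.inr h5
  · unfold As
    rw [mem_filter, mem_Icc]
    refine ⟨⟨h0, hxA⟩, ⟨h0, hcop, ha2, fun p hp => (h4 p hp).1, fun p hp => (h4 p hp).2⟩, ha1⟩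

/-- the decomposition of a member -/
lemma member_types (he : 1 ≤ e) (hX : 2 ≤ X) (hU : 1 ≤ U) (hκ : 1 ≤ κ) (hd1 : d1 = κ * d)
    (T : Tp e κ d d1 X dd t wb n) {m D R : ℕ} (H : Mc e X U d d1 A m) (hr : rad m ≤ R)
    (hcop : m.Coprime D) :
    ∃ kn ∈ Ks e A X, ∃ τ ∈ tup dd (fun _ => TT X t wb d d1), ∃ x : Ix dd → ℕ,
      (∀ l, x l ∈ As X A D (τ l)) ∧ rt U m = kn * ∏ l, x l ∧ ∏ l, rad (x l) ≤ R := by
  classical
  have hwb : 1 ≤ wb := by
    refine le_trans ?_ T.hwb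
    have : 0 < 103680000 * e ^ 2 * κ := by positivity
    omega
  have hd0 : 1 ≤ d := by
    refine le_trans ?_ T.hd
    have : 0 < 46080000 * e ^ 2 * (2 ^ dd) ^ 2 := by positivity
    omega
  have hdd1 : d ≤ d1 := by rw [hd1]; exact Nat.le_mul_of_pos_left _ (by omega)
  obtain ⟨x, h1, h2, h3⟩ := decompose (δ := dg U m) hX hd0 hdd1 hwb T.ht T.hgr T.hn
    (mS U d d1 m) mS_prime (fun p hp => (mem_filter.1 hp).2) ((prod_sub_rad mS_t).trans H.rd)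
  have hdv : ∀ l, x l ∣ rt U m := by
    intro l
    refine dvd_trans ?_ (pp_dvd_rt (S := mS U d d1 m) mS_sub')
    rw [← h2]
    exact Finset.dvd_prod_of_mem x (mem_univ l)
  have hx : ∀ l, ∃ τ ∈ TT X t wb d d1, x l ∈ As X A D τ := by
    intro l
    apply piece_type hwb (h1 l) (dvd_le H (hdv l)).2
    exact Nat.Coprime.coprime_dvd_left ((hdv l).trans (rt_dvd hU H.t0.ne')) hcop
  choose τ hτ1 hτ2 using hx
  refine ⟨pp (kS U d d1 m) (dg U m), known_mem (by omega) H, τ, mem_tup.2 hτ1, x, hτ2, ?_, ?_⟩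
  · rw [h2, km_eq]
  · rw [h3]
    exact (prod_sub_rad mS_t).trans hr

/-- **the third member is divisible by a large power of a small integer** -/
theorem case1 (P : Pm e k κ d d1 U X) (T : Tp e κ d d1 X dd t wb n) {TN KN CN : ℕ} {M : ℝ}
    (hT : ∀ s : ℕ, 0 < s → s ≤ X ^ (2 * 2 ^ dd + 18) → s.divisors.card ≤ TN)
    (hK : ∀ r : ℕ, ((Icc 1 (X ^ A)).filter fun v => rad v = r).card ≤ KN)
    (hC : ∀ a : ℕ, ((Icc 1 (X ^ A)).filter fun v => rad v ≤ 2 ^ (a + 1)).card ≤ CN * 2 ^ a)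
    (hM : ∀ D : ℕ, D ^ e ≤ X ^ 4 → (D : ℝ) ≤ M) {i j c : Fin 3} (hij : i ≠ j) (hjc : j ≠ c)
    (hic : i ≠ c) (Q : Finset (ℕ × ℕ)) (hQ : ∀ q ∈ Q, Lc e X U d d1 A R₁ R₂ i j q ∧
      Cheap e X U d (num (tri q) c)) :
    (Q.card : ℝ) ≤ (((DY e X d A).card : ℝ) * (((Ks e A X).card * (Ks e A X).card) *
      ((TT X t wb d d1).card ^ 2 ^ dd * (TT X t wb d d1).card ^ 2 ^ dd))) *
      (Real.sqrt ((R₁ : ℝ) * R₂) * ((CN : ℝ) ^ 2 ^ dd * (M * ((TN : ℝ) * KN) ^ 2 ^ dd))) := by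
  classical
  have he := P.he
  have hU := P.U1
  have hX := P.X2
  have hM0 : 0 ≤ M := by
    have := hM 0 (by rw [zero_pow (by omega)]; exact Nat.zero_le _)
    exact_mod_cast this
  have htup : (tup dd (fun _ => TT X t wb d d1)).card = (TT X t wb d d1).card ^ 2 ^ dd := by
    unfold tup
    rw [Fintype.card_piFinset, Finset.prod_const, Finset.card_univ, card_Ix]
  have h1 := card_le_of_cover Q ((DY e X d A) ×ˢ ((Ks e A X ×ˢ Ks e A X) ×ˢ
      (tup dd (fun _ => TT X t wb d d1) ×ˢ tup dd (fun _ => TT X t wb d d1))))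
    (fun z q => z.1.1 ^ (U * z.1.2) ∣ num (tri q) c ∧
      (∃ x : Ix dd → ℕ, (∀ l, x l ∈ As X A z.1.1 (z.2.2.1 l)) ∧
        rt U (num (tri q) i) = z.2.1.1 * ∏ l, x l ∧ ∏ l, rad (x l) ≤ R₁) ∧
      (∃ x : Ix dd → ℕ, (∀ l, x l ∈ As X A z.1.1 (z.2.2.2 l)) ∧
        rt U (num (tri q) j) = z.2.1.2 * ∏ l, x l ∧ ∏ l, rad (x l) ≤ R₂))
    (Real.sqrt ((R₁ : ℝ) * R₂) * ((CN : ℝ) ^ 2 ^ dd * (M * ((TN : ℝ) * KN) ^ 2 ^ dd))) (by
      intro q hq
      obtain ⟨h, hch⟩ := hQ q hq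
      obtain ⟨⟨D, Y⟩, hz, hdv⟩ := DY_cheap P (h.mc c) hch
      obtain ⟨b1, b2, b3, b4, b5⟩ := DY_mem hz
      simp only at hdv b1 b2 b3 b4 b5
      have hde := P.d_e
      have hY : U * Y ≠ 0 := Nat.mul_ne_zero (by omega) (by omega)
      have hDd : D ∣ num (tri q) c := (dvd_pow_self D hY).trans hdv
      obtain ⟨kn1, hk1, τ1, ht1, x1, a1, a2, a3⟩ := member_types (D := D) (by omega) hX hU P.hκ P.hd1 T
        (h.mc i) h.r1 (Nat.Coprime.coprime_dvd_right hDd (num_coprime h.pr.abc hic))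
      obtain ⟨kn2, hk2, τ2, ht2, x2, c1, c2, c3⟩ := member_types (D := D) (by omega) hX hU P.hκ P.hd1 T
        (h.mc j) h.r2 (Nat.Coprime.coprime_dvd_right hDd (num_coprime h.pr.abc hjc))
      refine ⟨((D, Y), ((kn1, kn2), (τ1, τ2))), ?_, hdv, ⟨x1, a1, a2, a3⟩, ⟨x2, c1, c2, c3⟩⟩
      exact mem_product.2 ⟨hz, mem_product.2 ⟨mem_product.2 ⟨hk1, hk2⟩,
        mem_product.2 ⟨ht1, ht2⟩⟩⟩) (by
      rintro ⟨⟨D, Y⟩, ⟨kn1, kn2⟩, τ1, τ2⟩ hz
      rw [mem_product, mem_product, mem_product, mem_product] at hz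
      obtain ⟨hz1, ⟨hk1, hk2⟩, ht1, ht2⟩ := hz
      simp only at hz1 hk1 hk2 ht1 ht2
      obtain ⟨b1, b2, b3, b4, b5⟩ := DY_mem hz1
      have hf := DY_f P hz1
      simp only at b1 b2 b3 b4 b5 hf
      obtain ⟨g1, g2, g3⟩ := P.D_log (b4.trans (Nat.pow_le_pow_right b1 (by omega : e ≤ 2 * e)))
      have hde := P.d_e
      have hY : U * Y ≠ 0 := Nat.mul_ne_zero (by omega) (by omega)
      have hgood : ∀ τ ∈ TT X t wb d d1, Good D U (U * Y) (X ^ U) dd TN KN (As X A D τ) :=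
        fun τ hτ => good_type (by omega) hU hX (by omega) b4 b3 (by omega) g2 T.hXm P.hd1 P.hκ
          T.hdd T.hdd1 T.hwb T.hd b5 hT hK (TT_ok hτ)
      have hcard : ∀ τ : ℕ × ℕ × ℕ, (As X A D τ).card ≤ CN * 2 ^ τ.2.2 := by
        intro τ
        refine le_trans (card_le_card ?_) (hC τ.2.2)
        intro v hv
        unfold As at hv
        rw [mem_filter] at hv ⊢
        exact ⟨hv.1, hv.2.1.rad_le⟩
      have hcb := class_bound (A := A) (Z := U * Y) (T := TN) (K := KN) (C := CN)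
        (R₁ := R₁) (R₂ := R₂) (by omega : 1 ≤ X) hU (by omega : 0 < D) hY hf hij hjc hic τ1 τ2
        kn1 kn2
        (fun l => hgood _ (mem_tup.1 ht1 l)) (fun l => hgood _ (mem_tup.1 ht2 l))
        (fun l => hcard _) (fun l => hcard _)
        (Q.filter fun q => D ^ (U * Y) ∣ num (tri q) c ∧
          (∃ x : Ix dd → ℕ, (∀ l, x l ∈ As X A D (τ1 l)) ∧
            rt U (num (tri q) i) = kn1 * ∏ l, x l ∧ ∏ l, rad (x l) ≤ R₁) ∧
          (∃ x : Ix dd → ℕ, (∀ l, x l ∈ As X A D (τ2 l)) ∧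
            rt U (num (tri q) j) = kn2 * ∏ l, x l ∧ ∏ l, rad (x l) ≤ R₂)) (by
          intro q hq
          rw [mem_filter] at hq
          obtain ⟨hq, h2, h3, h4⟩ := hq
          obtain ⟨h, -⟩ := hQ q hq
          exact ⟨h.pr, fun l => (h.mc l).rd, h2, h3, h4⟩)
      have hDM := hM D b3
      have hs : ∀ N : ℕ, N ^ 2 ≤ (CN ^ 2 ^ dd * R₁) * (CN ^ 2 ^ dd * R₂) *
          (D * (TN * KN) ^ (2 ^ dd)) ^ 2 →
          (N : ℝ) ≤ Real.sqrt ((R₁ : ℝ) * R₂) *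
            ((CN : ℝ) ^ 2 ^ dd * (M * ((TN : ℝ) * KN) ^ 2 ^ dd)) := by
        intro N hN
        have h5 : (N : ℝ) ^ 2 ≤ ((CN : ℝ) ^ 2 ^ dd * R₁) * ((CN : ℝ) ^ 2 ^ dd * R₂) *
            ((D : ℝ) * ((TN : ℝ) * KN) ^ (2 ^ dd)) ^ 2 := by exact_mod_cast hN
        have h6 : (N : ℝ) ^ 2 ≤ (Real.sqrt ((R₁ : ℝ) * R₂) *
            ((CN : ℝ) ^ 2 ^ dd * (M * ((TN : ℝ) * KN) ^ 2 ^ dd))) ^ 2 := by
          refine h5.trans ?_
          have h7 : Real.sqrt ((R₁ : ℝ) * R₂) ^ 2 = (R₁ : ℝ) * R₂ := Real.sq_sqrt (by positivity)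
          have h8 : ((D : ℝ) * ((TN : ℝ) * KN) ^ (2 ^ dd)) ^ 2 ≤
              (M * ((TN : ℝ) * KN) ^ (2 ^ dd)) ^ 2 :=
            pow_le_pow_left₀ (by positivity) (mul_le_mul_of_nonneg_right hDM (by positivity)) 2
          calc ((CN : ℝ) ^ 2 ^ dd * R₁) * ((CN : ℝ) ^ 2 ^ dd * R₂) *
                ((D : ℝ) * ((TN : ℝ) * KN) ^ (2 ^ dd)) ^ 2
              ≤ ((CN : ℝ) ^ 2 ^ dd * R₁) * ((CN : ℝ) ^ 2 ^ dd * R₂) *
                (M * ((TN : ℝ) * KN) ^ (2 ^ dd)) ^ 2 :=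
                mul_le_mul_of_nonneg_left h8 (by positivity)
            _ = ((R₁ : ℝ) * R₂) * (((CN : ℝ) ^ 2 ^ dd * (M * ((TN : ℝ) * KN) ^ 2 ^ dd))) ^ 2 := by
                ring
            _ = _ := by
                rw [mul_pow (Real.sqrt _), h7]
        exact le_of_sq_le_sq h6 (by positivity)
      exact hs _ hcb)
  rw [card_product, card_product, card_product, card_product, htup] at h1
  push_cast at h1
  exact h1

end

end Pool.Agent.T2H20.AH
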