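import Pool.Agent.T2H20.AH.Cd

/-!
The number of the triples of a level.
-/

set_option autoImplicit false

namespace Pool.Agent.T2H20.AH

open Finset Pool.Agent.H785R2.ABC Pool.Agent.H785R2.ABC.EC Pool.Agent.T2H20.ABC

/-- the constants -/
lemma consts (η : ℝ) (hη : 0 < η) (A dd : ℕ) : ∃ C₁ C₂ C₃ : ℝ, 0 < C₁ ∧ 0 < C₂ ∧ 0 < C₃ ∧
    ∀ X : ℕ, 1 ≤ X → ∃ TN KN CN : ℕ,
    (∀ s : ℕ, 0 < s → s ≤ X ^ (2 * 2 ^ dd + 18) → s.divisors.card ≤ TN) ∧
    (∀ r : ℕ, ((Icc 1 (X ^ A)).filter fun v => rad v = r).card ≤ KN) ∧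
    (∀ a : ℕ, ((Icc 1 (X ^ A)).filter fun v => rad v ≤ 2 ^ (a + 1)).card ≤ CN * 2 ^ a) ∧
    (TN : ℝ) ^ 2 ^ dd ≤ C₁ * (X : ℝ) ^ η ∧ (KN : ℝ) ^ 2 ^ dd ≤ C₂ * (X : ℝ) ^ η ∧
    (CN : ℝ) ^ 2 ^ dd ≤ C₃ * (X : ℝ) ^ η := by
  obtain ⟨m, hm⟩ : ∃ m, m = 2 ^ dd := ⟨_, rfl⟩
  have hm1 : 1 ≤ m := by rw [hm]; exact Nat.one_le_two_pow
  have hm0 : (0 : ℝ) < m := by exact_mod_cast hm1
  rw [← hm]
  obtain ⟨D₁, hD₁, h₁⟩ := Pool.Agent.H705R2.ABC.stmtTau (η / m / (2 * m + 18)) (by positivity)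
  obtain ⟨D₂, hD₂, h₂⟩ := stmtA2 (η / m / (A + 1)) (by positivity)
  obtain ⟨D₃, hD₃, h₃⟩ := Pool.Agent.H705R2.ABC.stmtA4' (η / m / (A + 1)) (by positivity)
  refine ⟨D₁ ^ m, D₂ ^ m, (2 * D₃ + 1) ^ m, by positivity, by positivity, by positivity, ?_⟩
  intro X hX
  have hX0 : (0 : ℝ) < X := by exact_mod_cast hX
  have hX1 : (1 : ℝ) ≤ X := by exact_mod_cast hX
  have hpw : ∀ (Y : ℝ) (D : ℝ), 0 ≤ D → 0 ≤ Y → Y ≤ D * (X : ℝ) ^ (η / m) →
      Y ^ m ≤ D ^ m * (X : ℝ) ^ η := by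
    intro Y D hD hY h
    calc Y ^ m ≤ (D * (X : ℝ) ^ (η / m)) ^ m := pow_le_pow_left₀ hY h m
      _ = D ^ m * (X : ℝ) ^ η := by
          rw [mul_pow, ← Real.rpow_natCast ((X : ℝ) ^ (η / m)), ← Real.rpow_mul hX0.le,
            div_mul_cancel₀ _ hm0.ne']
  have hXA : ((X ^ A : ℕ) : ℝ) ^ (η / m / (A + 1)) ≤ (X : ℝ) ^ (η / m) := by
    push_cast
    rw [← Real.rpow_natCast, ← Real.rpow_mul hX0.le]
    apply Real.rpow_le_rpow_of_exponent_le hX1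
    rw [← mul_div_assoc, div_le_iff₀ (by positivity)]
    have : 0 < η / m := by positivity
    nlinarith
  refine ⟨⌊D₁ * (X : ℝ) ^ (η / m)⌋₊, ⌊D₂ * (X : ℝ) ^ (η / m)⌋₊,
    ⌊(2 * D₃ + 1) * (X : ℝ) ^ (η / m)⌋₊, ?_, ?_, ?_, ?_, ?_, ?_⟩
  · intro s hs hs2
    apply Nat.le_floor
    refine (h₁ s hs).trans ?_
    apply mul_le_mul_of_nonneg_left _ hD₁.le
    calc (s : ℝ) ^ (η / m / (2 * m + 18)) ≤
          ((X : ℝ) ^ (2 * m + 18)) ^ (η / m / (2 * m + 18)) := by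
          apply Real.rpow_le_rpow (Nat.cast_nonneg _) _ (by positivity)
          exact_mod_cast hs2
      _ = (X : ℝ) ^ (η / m) := by
          rw [← Real.rpow_natCast, ← Real.rpow_mul hX0.le]
          congr 1
          push_cast
          rw [mul_div_cancel₀]
          positivity
  · intro r
    apply Nat.le_floor
    exact (h₂ (X ^ A) (Nat.pow_pos hX) r).trans (mul_le_mul_of_nonneg_left hXA hD₂.le)
  · intro a
    have h4 := h₃ (X ^ A) (Nat.pow_pos hX) (2 ^ (a + 1)) (by positivity)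
    have h5 : ((Icc 1 (X ^ A)).filter fun v => rad v ≤ 2 ^ (a + 1)) =
        (Icc 1 (X ^ A)).filter fun v => (rad v : ℝ) ≤ 2 ^ (a + 1) := by
      apply filter_congr
      intro v _
      constructor
      · intro h; exact_mod_cast h
      · intro h; exact_mod_cast h
    have h6 : (((Icc 1 (X ^ A)).filter fun v => rad v ≤ 2 ^ (a + 1)).card : ℝ) ≤
        (⌊(2 * D₃ + 1) * (X : ℝ) ^ (η / m)⌋₊ : ℝ) * 2 ^ a := by
      rw [h5]
      refine h4.trans ?_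
      rw [pow_succ, ← mul_assoc, mul_comm (_ * _) (2 : ℝ), ← mul_assoc]
      apply mul_le_mul_of_nonneg_right _ (by positivity)
      have h7 := Nat.lt_floor_add_one ((2 * D₃ + 1) * (X : ℝ) ^ (η / m))
      have h8 : 1 ≤ (X : ℝ) ^ (η / m) := Real.one_le_rpow hX1 (by positivity)
      have h9 : D₃ * ((X ^ A : ℕ) : ℝ) ^ (η / m / (A + 1)) ≤ D₃ * (X : ℝ) ^ (η / m) :=
        mul_le_mul_of_nonneg_left hXA hD₃.le
      nlinarith
    exact_mod_cast h6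
  · exact hpw _ _ hD₁.le (Nat.cast_nonneg _) (Nat.floor_le (by positivity))
  · exact hpw _ _ hD₂.le (Nat.cast_nonneg _) (Nat.floor_le (by positivity))
  · exact hpw _ _ (by positivity) (Nat.cast_nonneg _) (Nat.floor_le (by positivity))

/-- the parameters of a level exist -/
lemma params (e k Ξ : ℕ) (he : 4 ≤ e) (hk : 1 ≤ k) (hΞ : 1 ≤ Ξ) : ∃ κ d d1 dd t wb n U₀ X₀ : ℕ,
    1 ≤ d ∧ 1 ≤ U₀ ∧ d1 = 2 * Ξ * d * (4 * e) ∧ ∀ X U : ℕ, X₀ ≤ X → U₀ ≤ U →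
    Pm e k κ d d1 U X ∧ Tp e κ d d1 X dd t wb n := by
  obtain ⟨κ, hκ⟩ : ∃ κ, κ = 8 * e * Ξ := ⟨_, rfl⟩
  have hκ1 : 1 ≤ κ := by
    rw [hκ]
    exact Nat.mul_pos (by omega) (by omega)
  obtain ⟨wb, hwb⟩ : ∃ wb, wb = 103680000 * e ^ 2 * κ := ⟨_, rfl⟩
  have hwb1 : 1 ≤ wb := by
    rw [hwb]
    have h1 : 0 < e := by omega
    have h2 : 0 < κ := by omega
    exact Nat.succ_le_of_lt (by positivity)
  obtain ⟨n, hn⟩ : ∃ n, n = wb * κ := ⟨_, rfl⟩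
  have hn1 : 1 ≤ n := by rw [hn]; exact Nat.mul_pos (by omega) (by omega)
  obtain ⟨dd, hdd⟩ : ∃ dd, dd = Nat.clog 2 (2 * n) := ⟨_, rfl⟩
  have hdd2 : 2 * n ≤ 2 ^ dd := by rw [hdd]; exact Nat.le_pow_clog (by norm_num) _
  have hdd1 : 1 ≤ dd := by
    by_contra hcon
    have : dd = 0 := by omega
    rw [this] at hdd2
    omega
  have hdd3 : 2 ^ dd ≤ 4 * n := by
    have h1 : 2 ^ (dd - 1) < 2 * n := by
      rw [hdd]
      exact Nat.pow_pred_clog_lt_self (by norm_num) (by omega)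
    have h2 : 2 ^ dd = 2 * 2 ^ (dd - 1) := by
      conv_lhs => rw [show dd = (dd - 1) + 1 by omega]
      rw [pow_succ, mul_comm]
    omega
  obtain ⟨d, hd⟩ : ∃ d, d = 8 * (46080000 * e ^ 2 * (2 ^ dd) ^ 2 +
      5120000 * (4 * e) ^ 2 * k ^ 2 * Bp e k κ) := ⟨_, rfl⟩
  have hd1 : 1 ≤ d := by
    rw [hd]
    have : 0 < 46080000 * e ^ 2 * (2 ^ dd) ^ 2 := by
      have : 0 < e := by omega
      positivity
    omega
  obtain ⟨x1, hx1⟩ : ∃ x1, x1 = 2 ^ (2 * e * (4 * (κ * d) + 16)) := ⟨_, rfl⟩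
  obtain ⟨x2, hx2⟩ : ∃ x2, x2 = 17 * Bp e k κ * k := ⟨_, rfl⟩
  obtain ⟨x3, hx3⟩ : ∃ x3, x3 = 2 ^ 2 ^ dd := ⟨_, rfl⟩
  obtain ⟨y1, hy1⟩ : ∃ y1, y1 = 46080000 * e ^ 2 * (2 ^ dd) ^ 2 := ⟨_, rfl⟩
  obtain ⟨y2, hy2⟩ : ∃ y2, y2 = 5120000 * (4 * e) ^ 2 * k ^ 2 * Bp e k κ := ⟨_, rfl⟩
  have hdy : d = 8 * (y1 + y2) := by rw [hd, hy1, hy2]
  refine ⟨κ, d, κ * d, dd, n, wb, n, 4 * Bp e k κ + 2,
    x1 + x2 + x3, hd1, by omega, ?_, ?_⟩
  · rw [hκ]; ring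
  · intro X U hX hU
    refine ⟨⟨he, hk, hκ1, rfl, by rw [← hy2]; omega, ⟨_, hd⟩, hU, by rw [← hx1]; omega,
      by rw [← hx2]; omega⟩,
      ⟨hdd3, hdd1, by omega, by rw [← hy1]; omega, by omega, hn1, ?_, by rw [← hx3]; omega⟩⟩
    have h1 := gr_big (wb := wb) (d := d) hwb1 n
    by_contra hcon
    rw [not_lt] at hcon
    have h2 : wb * gr wb d n ≤ wb * (κ * d) := Nat.mul_le_mul_left _ hcon
    have h3 : n * d = wb * (κ * d) := by rw [hn]; ring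
    have h4 : 0 < wb * d := Nat.mul_pos (by omega) (by omega)
    omega

/-- the light window of a member -/
def Win (e X U d t : ℕ) : Prop :=
  (∏ p ∈ t.primeFactors.filter (fun p => U ≤ t.factorization p ∧ t.factorization p < d * U), p) ^
    (4 * e) ≤ X

lemma mul_exp {X a b c₁ c₂ x y : ℝ} (hX : 0 < X) (hc₁ : 0 ≤ c₁)
    (hy : 0 ≤ y) (h1 : x ≤ c₁ * X ^ a) (h2 : y ≤ c₂ * X ^ b) :
    x * y ≤ (c₁ * c₂) * X ^ (a + b) := by
  calc x * y ≤ (c₁ * X ^ a) * (c₂ * X ^ b) :=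
        mul_le_mul h1 h2 hy (by positivity)
    _ = _ := by rw [Real.rpow_add hX]; ring

/-- **a level** -/
theorem level (e k : ℕ) (η : ℝ) (he : 4 ≤ e) (hk : 1 ≤ k) (hη0 : 0 < η) (hη : 1 ≤ η * e)
    (hηk : (12 * e : ℝ) / k ≤ η) (Ξ : ℕ) (hΞ : 1 ≤ Ξ) :
    ∃ d U₀ X₀ : ℕ, ∃ C : ℝ, 1 ≤ d ∧ 1 ≤ U₀ ∧ 0 < C ∧ ∀ X U R₁ R₂ : ℕ, X₀ ≤ X → U₀ ≤ U →
    1 ≤ R₁ → R₁ ≤ R₂ → ∀ i j c : Fin 3, i ≠ j → j ≠ c → i ≠ c →
    ∀ Q : Finset (ℕ × ℕ), (∀ q ∈ Q, Pr q ∧ (∀ l, rad (num (tri q) l) ≤ X) ∧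
      rad (num (tri q) i) ≤ R₁ ∧ rad (num (tri q) j) ≤ R₂ ∧ X ^ (Ξ * d * U) ≤ q.1 + q.2 ∧
      q.1 + q.2 ≤ X ^ (2 * (Ξ * d * U)) ∧ ∀ l, Win e X U d (num (tri q) l)) →
    (Q.card : ℝ) ≤ C * (X : ℝ) ^ (16 * η) * Real.sqrt ((R₁ : ℝ) * R₂) := by
  classical
  obtain ⟨κ, d, d1, dd, t, wb, n, U₀, X₀, hd, hU₀, hd1, hpar⟩ := params e k Ξ he hk hΞ
  obtain ⟨A, hA⟩ : ∃ A, A = 2 * Ξ * d := ⟨_, rfl⟩
  have hA1 : 1 ≤ A := by rw [hA]; exact Nat.mul_pos (by omega) (by omega)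
  rw [← hA] at hd1
  obtain ⟨C₁, C₂, C₃, hC₁, hC₂, hC₃, hcon⟩ := consts η hη0 A dd
  obtain ⟨CK, hCK, hKs⟩ := card_Ks e A hη0 (by omega) hη
  obtain ⟨CS, hCS, hSs⟩ := Ss_card A η hη0
  obtain ⟨DL, hDL, hL⟩ := log_pow_le (2 ^ dd) (η / 2) (by positivity)
  have hCf := Cf_pos e k d1 hk
  obtain ⟨Ae, hAe⟩ : ∃ Ae : ℝ, Ae = (A * e + 1 : ℕ) := ⟨_, rfl⟩
  have hAe0 : 0 < Ae := by rw [hAe]; positivity
  obtain ⟨CT, hCT⟩ : ∃ CT : ℝ, CT = ((d1 + 1 : ℕ) : ℝ) ^ (2 * 2 ^ dd) * DL := ⟨_, rfl⟩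
  have hCT0 : 0 < CT := by rw [hCT]; positivity
  refine ⟨d, U₀, X₀ + 1, (Ae * ((CK * CK) * (CT * CT))) * (C₃ * (1 * (C₁ * C₂))) +
    (Ae * (CS * CK)) * (Cf e k d1) + (Ae * (CK * CK)) * (Cf e k d1) + (CK * CK) * (Cf e k d1) +
    (CK * CK) * (Cf e k d1), hd, hU₀, by positivity, ?_⟩
  intro X U R₁ R₂ hX hU hR₁ hR₁₂ i j c hij hjc hic Q hQ
  obtain ⟨P, T⟩ := hpar X U (by omega) hU
  have hX2 := P.X2
  have hU1 := P.U1
  have hXone : 1 ≤ X := by omega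
  have hX0 : (0 : ℝ) < X := by exact_mod_cast hXone
  have hX1 : (1 : ℝ) ≤ X := by exact_mod_cast hXone
  have hR₁r : (1 : ℝ) ≤ R₁ := by exact_mod_cast hR₁
  have hR₁₂r : (R₁ : ℝ) ≤ R₂ := by exact_mod_cast hR₁₂
  have hsq1 : (R₁ : ℝ) ≤ Real.sqrt ((R₁ : ℝ) * R₂) := by
    apply Real.le_sqrt_of_sq_le
    rw [sq]
    exact mul_le_mul_of_nonneg_left hR₁₂r (by linarith)
  have hsq2 : (1 : ℝ) ≤ Real.sqrt ((R₁ : ℝ) * R₂) := hR₁r.trans hsq1
  obtain ⟨TN, KN, CN, hT, hK, hC, hTN, hKN, hCN⟩ := hcon X hXone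
  have hks := hKs X hXone
  have hss := hSs X R₁ hXone
  have hll := hL X hXone
  have hDYc := DY_card (d := d) (A := A) (X := X) hXone (by omega : 1 ≤ e) hη
  have hDDc := DD_card (U := U) (d := d) (A := A) (X := X) hXone (by omega : 1 ≤ e) hη
  rw [← hAe] at hDYc hDDc
  -- the members
  have hLc : ∀ q ∈ Q, Lc e X U d d1 A R₁ R₂ i j q := by
    intro q hq
    obtain ⟨h1, h2, h3, h4, h5, h6, h7⟩ := hQ q hq
    refine ⟨h1, ?_, h3, h4, ?_⟩
    · intro l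
      have ht0 : 0 < num (tri q) l := num_pos h1.abc l
      have hle : num (tri q) l ≤ X ^ (2 * (Ξ * d * U)) := (EC.num_le h1.abc l).trans h6
      have hv : rt U (num (tri q) l) ≤ X ^ A := by
        have h8 : rt U (num (tri q) l) ^ U ≤ (X ^ A) ^ U := by
          calc rt U (num (tri q) l) ^ U ≤ num (tri q) l :=
                Nat.le_of_dvd ht0 (rt_pow_dvd ht0.ne')
            _ ≤ X ^ (2 * (Ξ * d * U)) := hle
            _ = (X ^ A) ^ U := by rw [← pow_mul, hA]; congr 1; ring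
        exact (Nat.pow_le_pow_iff_left (by omega)).1 h8
      exact ⟨ht0, h2 l, hv, known_rad (A := A) (q := 4 * e) hA1 hU1 hd1 hv (h7 l)⟩
    · refine le_trans (Nat.pow_le_pow_right hXone ?_) h5
      calc U * d = 1 * (U * d) := (one_mul _).symm
        _ ≤ Ξ * (U * d) := Nat.mul_le_mul_right _ hΞ
        _ = Ξ * d * U := by ring
  -- the five parts
  set P1 : ℕ × ℕ → Prop := fun q => Cheap e X U d (num (tri q) c) with hP1
  set P2 : ℕ × ℕ → Prop := fun q => Cheap e X U d (num (tri q) j) with hP2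
  set P3 : ℕ × ℕ → Prop := fun q => Cheap e X U d (num (tri q) i) with hP3
  set P4 : ℕ × ℕ → Prop := fun q => (lS e X U d d1 (num (tri q) i)).Nonempty with hP4
  have hsplit : Q.card = (Q.filter fun q => P1 q).card +
      ((Q.filter fun q => ¬ P1 q).filter fun q => P2 q).card +
      (((Q.filter fun q => ¬ P1 q).filter fun q => ¬ P2 q).filter fun q => P3 q).card +
      ((((Q.filter fun q => ¬ P1 q).filter fun q => ¬ P2 q).filter fun q => ¬ P3 q).filter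
        fun q => P4 q).card +
      ((((Q.filter fun q => ¬ P1 q).filter fun q => ¬ P2 q).filter fun q => ¬ P3 q).filter
        fun q => ¬ P4 q).card := by
    have e1 : (Q.filter fun q => P1 q).card + (Q.filter fun q => ¬ P1 q).card = Q.card :=
      Finset.card_filter_add_card_filter_not (s := Q) P1
    have e2 : ((Q.filter fun q => ¬ P1 q).filter fun q => P2 q).card +
        ((Q.filter fun q => ¬ P1 q).filter fun q => ¬ P2 q).card =
        (Q.filter fun q => ¬ P1 q).card :=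
      Finset.card_filter_add_card_filter_not (s := Q.filter fun q => ¬ P1 q) P2
    have e3 : (((Q.filter fun q => ¬ P1 q).filter fun q => ¬ P2 q).filter fun q => P3 q).card +
        (((Q.filter fun q => ¬ P1 q).filter fun q => ¬ P2 q).filter fun q => ¬ P3 q).card =
        ((Q.filter fun q => ¬ P1 q).filter fun q => ¬ P2 q).card :=
      Finset.card_filter_add_card_filter_not
        (s := (Q.filter fun q => ¬ P1 q).filter fun q => ¬ P2 q) P3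
    have e4 : ((((Q.filter fun q => ¬ P1 q).filter fun q => ¬ P2 q).filter
          fun q => ¬ P3 q).filter fun q => P4 q).card +
        ((((Q.filter fun q => ¬ P1 q).filter fun q => ¬ P2 q).filter
          fun q => ¬ P3 q).filter fun q => ¬ P4 q).card =
        (((Q.filter fun q => ¬ P1 q).filter fun q => ¬ P2 q).filter fun q => ¬ P3 q).card :=
      Finset.card_filter_add_card_filter_not
        (s := ((Q.filter fun q => ¬ P1 q).filter fun q => ¬ P2 q).filter fun q => ¬ P3 q) P4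
    omega
  have hMD : ∀ D : ℕ, D ^ e ≤ X ^ 4 → (D : ℝ) ≤ (X : ℝ) ^ (4 * η) := fun D hD =>
    D_le hXone (by omega) hη hD
  have b1 := case1 P T (A := A) (R₁ := R₁) (R₂ := R₂) hT hK hC hMD hij hjc hic
    (Q.filter fun q => P1 q) (by
    intro q hq
    rw [mem_filter] at hq
    exact ⟨hLc q hq.1, hq.2⟩)
  have b2 := case2 P (A := A) (R₁ := R₁) (R₂ := R₂) hij hjc hic
    ((Q.filter fun q => ¬ P1 q).filter fun q => P2 q) (by
    intro q hq
    rw [mem_filter, mem_filter] at hq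
    exact ⟨hLc q hq.1.1, hq.1.2, hq.2⟩)
  have b3 := case3 P (A := A) (R₁ := R₁) (R₂ := R₂) hij hjc hic
    (((Q.filter fun q => ¬ P1 q).filter fun q => ¬ P2 q).filter fun q => P3 q) (by
    intro q hq
    rw [mem_filter, mem_filter, mem_filter] at hq
    exact ⟨hLc q hq.1.1.1, hq.1.1.2, hq.1.2, hq.2⟩)
  have b4 := case4a P (A := A) (R₁ := R₁) (R₂ := R₂) hij hjc hic
    ((((Q.filter fun q => ¬ P1 q).filter fun q => ¬ P2 q).filter fun q => ¬ P3 q).filter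
        fun q => P4 q) (by
    intro q hq
    rw [mem_filter, mem_filter, mem_filter, mem_filter] at hq
    exact ⟨hLc q hq.1.1.1.1, hq.1.1.1.2, hq.1.1.2, hq.2⟩)
  have b5 := case4b P (A := A) (R₁ := R₁) (R₂ := R₂) (i := i) j
    ((((Q.filter fun q => ¬ P1 q).filter fun q => ¬ P2 q).filter fun q => ¬ P3 q).filter
        fun q => ¬ P4 q) (by
    intro q hq
    rw [mem_filter, mem_filter, mem_filter, mem_filter] at hq
    refine ⟨hLc q hq.1.1.1.1, ?_, Finset.not_nonempty_iff_eq_empty.1 hq.2⟩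
    intro l
    rcases three i j c l hij hjc hic with rfl | rfl | rfl
    · exact hq.1.2
    · exact hq.1.1.2
    · exact hq.1.1.1.2)
  -- the sizes
  have hf : Cf e k d1 * (X : ℝ) ^ ((12 * e : ℝ) / k) ≤ Cf e k d1 * (X : ℝ) ^ η :=
    mul_le_mul_of_nonneg_left (Real.rpow_le_rpow_of_exponent_le hX1 hηk) hCf.le
  have hf0 : 0 ≤ Cf e k d1 * (X : ℝ) ^ ((12 * e : ℝ) / k) := by positivity
  have hTT : (((TT X t wb d d1).card : ℝ)) ^ 2 ^ dd ≤ CT * (X : ℝ) ^ (η / 2) := by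
    calc (((TT X t wb d d1).card : ℝ)) ^ 2 ^ dd ≤
          ((((d1 + 1) ^ 2 * (Nat.log 2 X + 1) : ℕ)) : ℝ) ^ 2 ^ dd := by
          apply pow_le_pow_left₀ (Nat.cast_nonneg _)
          exact_mod_cast TT_card X t wb d d1
      _ = ((d1 + 1 : ℕ) : ℝ) ^ (2 * 2 ^ dd) * ((Nat.log 2 X + 1 : ℕ) : ℝ) ^ 2 ^ dd := by
          push_cast
          rw [mul_pow, ← pow_mul]
      _ ≤ ((d1 + 1 : ℕ) : ℝ) ^ (2 * 2 ^ dd) * (DL * (X : ℝ) ^ (η / 2)) :=
          mul_le_mul_of_nonneg_left hll (by positivity)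
      _ = _ := by rw [hCT]; ring
  have hle16 : ∀ a : ℝ, a ≤ 16 * η → (X : ℝ) ^ a ≤ (X : ℝ) ^ (16 * η) := fun a ha =>
    Real.rpow_le_rpow_of_exponent_le hX1 ha
  have hkk := mul_exp (a := 2 * η) (b := 2 * η) hX0 hCK.le (Nat.cast_nonneg _) hks hks
  have htt := mul_exp (a := η / 2) (b := η / 2) hX0 hCT0.le (by positivity) hTT hTT
  have c1 : ((Q.filter fun q => P1 q).card : ℝ) ≤
      ((Ae * ((CK * CK) * (CT * CT))) * (C₃ * (1 * (C₁ * C₂)))) * (X : ℝ) ^ (16 * η) *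
        Real.sqrt ((R₁ : ℝ) * R₂) := by
    have d1' := mul_exp hX0 (by positivity) (by positivity) hkk htt
    have d2 := mul_exp hX0 hAe0.le (by positivity) hDYc d1'
    have d3 : ((TN : ℝ) * KN) ^ 2 ^ dd ≤ (C₁ * C₂) * (X : ℝ) ^ (η + η) := by
      rw [mul_pow]
      exact mul_exp hX0 hC₁.le (by positivity) hTN hKN
    have d4 : (X : ℝ) ^ (4 * η) ≤ 1 * (X : ℝ) ^ (4 * η) := (one_mul _).ge
    have d5 := mul_exp hX0 zero_le_one (by positivity) d4 d3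
    have d6 := mul_exp hX0 hC₃.le (by positivity) hCN d5
    have d7 := mul_exp hX0 (by positivity) (by positivity) d2 d6
    have e16 : 4 * η + (2 * η + 2 * η + (η / 2 + η / 2)) + (η + (4 * η + (η + η))) = 16 * η := by
      ring
    rw [e16] at d7
    refine b1.trans ?_
    calc _ = ((((DY e X d A).card : ℝ) * (((Ks e A X).card * (Ks e A X).card) *
          ((TT X t wb d d1).card ^ 2 ^ dd * (TT X t wb d d1).card ^ 2 ^ dd))) *
          ((CN : ℝ) ^ 2 ^ dd * ((X : ℝ) ^ (4 * η) * ((TN : ℝ) * KN) ^ 2 ^ dd))) *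
          Real.sqrt ((R₁ : ℝ) * R₂) := by ring
      _ ≤ _ := mul_le_mul_of_nonneg_right d7 (Real.sqrt_nonneg _)
  have c2 : (((Q.filter fun q => ¬ P1 q).filter fun q => P2 q).card : ℝ) ≤
      ((Ae * (CS * CK)) * (Cf e k d1)) * (X : ℝ) ^ (16 * η) * Real.sqrt ((R₁ : ℝ) * R₂) := by
    refine b2.trans ?_
    have hks' : ((Ks e A X).card : ℝ) ≤ CK * (X : ℝ) ^ (2 * η) := hks
    calc (((DD e X U d A).card : ℝ) * ((Ss (X ^ A) R₁).card * (Ks e A X).card)) *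
          (Cf e k d1 * (X : ℝ) ^ ((12 * e : ℝ) / k))
        ≤ ((Ae * (X : ℝ) ^ (4 * η)) * ((CS * (X : ℝ) ^ η * R₁) * (CK * (X : ℝ) ^ (2 * η)))) *
          (Cf e k d1 * (X : ℝ) ^ η) := by
          apply mul_le_mul _ hf hf0 (by positivity)
          apply mul_le_mul hDDc _ (by positivity) (by positivity)
          exact mul_le_mul hss hks' (Nat.cast_nonneg _) (by positivity)
      _ = ((Ae * (CS * CK)) * (Cf e k d1)) * ((X : ℝ) ^ (4 * η) * (X : ℝ) ^ η *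
          (X : ℝ) ^ (2 * η) * (X : ℝ) ^ η) * R₁ := by ring
      _ = ((Ae * (CS * CK)) * (Cf e k d1)) * (X : ℝ) ^ (8 * η) * R₁ := by
          rw [← Real.rpow_add hX0, ← Real.rpow_add hX0, ← Real.rpow_add hX0]
          congr 3
          ring
      _ ≤ _ := by
          apply mul_le_mul _ hsq1 (by positivity) (by positivity)
          exact mul_le_mul_of_nonneg_left (hle16 _ (by linarith)) (by positivity)
  have c3 : ((((Q.filter fun q => ¬ P1 q).filter fun q => ¬ P2 q).filter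
      fun q => P3 q).card : ℝ) ≤
      ((Ae * (CK * CK)) * (Cf e k d1)) * (X : ℝ) ^ (16 * η) * Real.sqrt ((R₁ : ℝ) * R₂) := by
    refine b3.trans ?_
    calc (((DD e X U d A).card : ℝ) * ((Ks e A X).card * (Ks e A X).card)) *
          (Cf e k d1 * (X : ℝ) ^ ((12 * e : ℝ) / k))
        ≤ ((Ae * (X : ℝ) ^ (4 * η)) * ((CK * (X : ℝ) ^ (2 * η)) * (CK * (X : ℝ) ^ (2 * η)))) *
          (Cf e k d1 * (X : ℝ) ^ η) := by
          apply mul_le_mul _ hf hf0 (by positivity)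
          apply mul_le_mul hDDc _ (by positivity) (by positivity)
          exact mul_le_mul hks hks (Nat.cast_nonneg _) (by positivity)
      _ = ((Ae * (CK * CK)) * (Cf e k d1)) * ((X : ℝ) ^ (4 * η) * (X : ℝ) ^ (2 * η) *
          (X : ℝ) ^ (2 * η) * (X : ℝ) ^ η) * 1 := by ring
      _ = ((Ae * (CK * CK)) * (Cf e k d1)) * (X : ℝ) ^ (9 * η) * 1 := by
          rw [← Real.rpow_add hX0, ← Real.rpow_add hX0, ← Real.rpow_add hX0]
          congr 3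
          ring
      _ ≤ _ := by
          apply mul_le_mul _ hsq2 (by positivity) (by positivity)
          exact mul_le_mul_of_nonneg_left (hle16 _ (by linarith)) (by positivity)
  have c4 : (((((Q.filter fun q => ¬ P1 q).filter fun q => ¬ P2 q).filter
      fun q => ¬ P3 q).filter fun q => P4 q).card : ℝ) ≤
      ((CK * CK) * (Cf e k d1)) * (X : ℝ) ^ (16 * η) * Real.sqrt ((R₁ : ℝ) * R₂) := by
    refine b4.trans ?_
    calc ((R₁ : ℝ) * ((Ks e A X).card * (Ks e A X).card)) *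
          (Cf e k d1 * (X : ℝ) ^ ((12 * e : ℝ) / k))
        ≤ ((R₁ : ℝ) * ((CK * (X : ℝ) ^ (2 * η)) * (CK * (X : ℝ) ^ (2 * η)))) *
          (Cf e k d1 * (X : ℝ) ^ η) := by
          apply mul_le_mul _ hf hf0 (by positivity)
          apply mul_le_mul_of_nonneg_left _ (Nat.cast_nonneg _)
          exact mul_le_mul hks hks (Nat.cast_nonneg _) (by positivity)
      _ = ((CK * CK) * (Cf e k d1)) * ((X : ℝ) ^ (2 * η) *
          (X : ℝ) ^ (2 * η) * (X : ℝ) ^ η) * R₁ := by ring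
      _ = ((CK * CK) * (Cf e k d1)) * (X : ℝ) ^ (5 * η) * R₁ := by
          rw [← Real.rpow_add hX0, ← Real.rpow_add hX0]
          congr 3
          ring
      _ ≤ _ := by
          apply mul_le_mul _ hsq1 (by positivity) (by positivity)
          exact mul_le_mul_of_nonneg_left (hle16 _ (by linarith)) (by positivity)
  have c5 : (((((Q.filter fun q => ¬ P1 q).filter fun q => ¬ P2 q).filter
      fun q => ¬ P3 q).filter fun q => ¬ P4 q).card : ℝ) ≤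
      ((CK * CK) * (Cf e k d1)) * (X : ℝ) ^ (16 * η) * Real.sqrt ((R₁ : ℝ) * R₂) := by
    refine b5.trans ?_
    calc (((Ks e A X).card : ℝ) * (Ks e A X).card) *
          (Cf e k d1 * (X : ℝ) ^ ((12 * e : ℝ) / k))
        ≤ (((CK * (X : ℝ) ^ (2 * η)) * (CK * (X : ℝ) ^ (2 * η)))) *
          (Cf e k d1 * (X : ℝ) ^ η) := by
          apply mul_le_mul _ hf hf0 (by positivity)
          exact mul_le_mul hks hks (Nat.cast_nonneg _) (by positivity)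
      _ = ((CK * CK) * (Cf e k d1)) * ((X : ℝ) ^ (2 * η) *
          (X : ℝ) ^ (2 * η) * (X : ℝ) ^ η) * 1 := by ring
      _ = ((CK * CK) * (Cf e k d1)) * (X : ℝ) ^ (5 * η) * 1 := by
          rw [← Real.rpow_add hX0, ← Real.rpow_add hX0]
          congr 3
          ring
      _ ≤ _ := by
          apply mul_le_mul _ hsq2 (by positivity) (by positivity)
          exact mul_le_mul_of_nonneg_left (hle16 _ (by linarith)) (by positivity)
  rw [hsplit]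
  push_cast
  have hexp : ((Ae * ((CK * CK) * (CT * CT))) * (C₃ * (1 * (C₁ * C₂))) +
      (Ae * (CS * CK)) * (Cf e k d1) + (Ae * (CK * CK)) * (Cf e k d1) + (CK * CK) * (Cf e k d1) +
      (CK * CK) * (Cf e k d1)) * (X : ℝ) ^ (16 * η) * Real.sqrt ((R₁ : ℝ) * R₂) =
      ((Ae * ((CK * CK) * (CT * CT))) * (C₃ * (1 * (C₁ * C₂)))) * (X : ℝ) ^ (16 * η) *
        Real.sqrt ((R₁ : ℝ) * R₂) +
      ((Ae * (CS * CK)) * (Cf e k d1)) * (X : ℝ) ^ (16 * η) * Real.sqrt ((R₁ : ℝ) * R₂) +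
      ((Ae * (CK * CK)) * (Cf e k d1)) * (X : ℝ) ^ (16 * η) * Real.sqrt ((R₁ : ℝ) * R₂) +
      ((CK * CK) * (Cf e k d1)) * (X : ℝ) ^ (16 * η) * Real.sqrt ((R₁ : ℝ) * R₂) +
      ((CK * CK) * (Cf e k d1)) * (X : ℝ) ^ (16 * η) * Real.sqrt ((R₁ : ℝ) * R₂) := by ring
  rw [hexp]
  linarith

end Pool.Agent.T2H20.AH
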