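import Pool.Agent.T2H20.AH.Ce
import Pool.Agent.TH867.SM.Fam

/-!
All levels and all scales.
-/

set_option autoImplicit false

namespace Pool.Agent.T2H20.AH

open Finset Pool.Agent.H785R2.ABC Pool.Agent.H785R2.ABC.EC Pool.Agent.T2H20.ABC

lemma rr_eq (t : Fin 3 → ℕ) (j : Fin 3) :
    Pool.Agent.TH867.SR.rr t j = Real.log (rad (t j)) := by
  unfold Pool.Agent.TH867.SR.rr rad
  push_cast
  rw [Real.log_prod]
  intro p hp
  exact_mod_cast (Nat.prime_of_mem_primeFactors hp).ne_zero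

/-- the bound for the height -/
noncomputable def Hb (X : ℝ) : ℝ := 3000 * (1 + Real.log (X ^ 3)) ^ 6

lemma height_sorted {a b X : ℕ} (ha : 0 < a) (hab : a ≤ b) (hc : Nat.Coprime a b) (hX : 1 ≤ X)
    (h1 : rad a ≤ X) (h2 : rad b ≤ X) (h3 : rad (a + b) ≤ X) :
    Real.log ((a + b : ℕ) : ℝ) ≤ Real.exp (Hb X) := by
  have hX1 : (1 : ℝ) ≤ X := by exact_mod_cast hX
  have hX0 : (0 : ℝ) < X := by linarith
  have ht : Pool.Agent.TH867.SR.Tr ![a, b, a + b] := ⟨ha, hab, hc, rfl⟩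
  have hl : ∀ n : ℕ, rad n ≤ X → Real.log (rad n) ≤ Real.log X := by
    intro n hn
    apply Real.log_le_log
    · exact_mod_cast rad_pos' n
    · exact_mod_cast hn
  have := Pool.Agent.TH867.SM.height_le ht (X := (X : ℝ) ^ 3) (one_le_pow₀ hX1) (by
    rw [rr_eq, rr_eq, rr_eq, Real.log_pow]
    have e0 : (![a, b, a + b] : Fin 3 → ℕ) 0 = a := rfl
    have e1 : (![a, b, a + b] : Fin 3 → ℕ) 1 = b := rfl
    have e2 : (![a, b, a + b] : Fin 3 → ℕ) 2 = a + b := rfl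
    rw [e0, e1, e2]
    have g1 := hl a h1
    have g2 := hl b h2
    have g3 := hl (a + b) h3
    push_cast
    linarith)
  have e2 : (![a, b, a + b] : Fin 3 → ℕ) 2 = a + b := rfl
  rw [e2] at this
  exact this

lemma height_q {q : ℕ × ℕ} (h : Pr q) {X : ℕ} (hX : 1 ≤ X) (hr : ∀ l, rad (num (tri q) l) ≤ X) :
    Real.log ((q.1 + q.2 : ℕ) : ℝ) ≤ Real.exp (Hb X) := by
  have h0 : rad q.1 ≤ X := hr 0
  have h1 : rad q.2 ≤ X := hr 1
  have h2 : rad (q.1 + q.2) ≤ X := hr 2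
  rcases Nat.le_total q.1 q.2 with hle | hle
  · exact height_sorted h.p1 hle h.cop hX h0 h1 h2
  · rw [add_comm q.1 q.2]
    rw [add_comm q.1 q.2] at h2
    exact height_sorted h.p2 hle h.cop.symm hX h1 h0 h2

/-- the window of a level -/
def wd (N : ℕ → ℕ) (j t : ℕ) : Finset ℕ :=
  t.primeFactors.filter fun p => N (j + 1) ≤ t.factorization p ∧ t.factorization p < N j

lemma wd_prod (N : ℕ → ℕ) (hN : Antitone N) (t J : ℕ) :
    ∏ j ∈ range J, ∏ p ∈ wd N j t, p ≤ rad t := by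
  classical
  have hdis : ∀ a b : ℕ, a < b → Disjoint (wd N a t) (wd N b t) := by
    intro a b hab
    rw [Finset.disjoint_left]
    intro p h1 h2
    unfold wd at h1 h2
    rw [mem_filter] at h1 h2
    have h3 : N b ≤ N (a + 1) := hN (by omega)
    omega
  rw [← Finset.prod_biUnion]
  · unfold rad
    apply Finset.prod_le_prod_of_subset_of_one_le'
    · intro p hp
      rw [mem_biUnion] at hp
      obtain ⟨j, -, hp⟩ := hp
      exact (mem_filter.1 hp).1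
    · intro p hp _
      exact (Nat.prime_of_mem_primeFactors hp).one_le
  · intro a _ b _ hab
    rcases Nat.lt_or_gt_of_ne hab with h | h
    · exact hdis a b h
    · exact (hdis b a h).symm

lemma wd_pos (N : ℕ → ℕ) (j t : ℕ) : 0 < ∏ p ∈ wd N j t, p :=
  Finset.prod_pos fun _ hp => (Nat.prime_of_mem_primeFactors (mem_filter.1 hp).1).pos

/-- a light window -/
lemma window_pigeon {X e : ℕ} (hX : 1 ≤ X) (he : 1 ≤ e) (N : ℕ → ℕ) (hN : Antitone N)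
    (tt : Fin 3 → ℕ) (h : ∀ l, rad (tt l) ≤ X) :
    ∃ j < 12 * e, ∀ l, (∏ p ∈ wd N j (tt l), p) ^ (4 * e) ≤ X := by
  classical
  by_contra hcon
  push Not at hcon
  have h1 : ∀ j ∈ range (12 * e), X < (∏ l : Fin 3, ∏ p ∈ wd N j (tt l), p) ^ (4 * e) := by
    intro j hj
    obtain ⟨l, hl⟩ := hcon j (mem_range.1 hj)
    refine lt_of_lt_of_le hl (Nat.pow_le_pow_left ?_ _)
    exact Nat.le_of_dvd (Finset.prod_pos fun l _ => wd_pos N j (tt l))
      (Finset.dvd_prod_of_mem (fun l => ∏ p ∈ wd N j (tt l), p) (mem_univ l))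
  have h2 : ∏ _j ∈ range (12 * e), X <
      ∏ j ∈ range (12 * e), (∏ l : Fin 3, ∏ p ∈ wd N j (tt l), p) ^ (4 * e) :=
    Finset.prod_lt_prod_of_nonempty (fun _ _ => by omega) h1
      ⟨0, mem_range.2 (by omega)⟩
  rw [Finset.prod_const, card_range, Finset.prod_pow, Finset.prod_comm] at h2
  have h3 : ∏ l : Fin 3, ∏ j ∈ range (12 * e), ∏ p ∈ wd N j (tt l), p ≤ ∏ _l : Fin 3, X :=
    Finset.prod_le_prod' fun l _ => (wd_prod N hN (tt l) _).trans (h l)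
  rw [Finset.prod_const, Finset.card_univ, Fintype.card_fin] at h3
  have h4 : X ^ (12 * e) < X ^ (12 * e) := by
    calc X ^ (12 * e) < _ := h2
      _ ≤ (X ^ 3) ^ (4 * e) := Nat.pow_le_pow_left h3 _
      _ = X ^ (12 * e) := by rw [← pow_mul]; congr 1; ring
  exact lt_irrefl _ h4

/-- the scale of an integer -/
lemma exists_scale {X K c : ℕ} (hX : 2 ≤ X) (hK : 1 ≤ K) (hc : X ^ K ≤ c) :
    ∃ s : ℕ, X ^ (K * 2 ^ s) ≤ c ∧ c ≤ X ^ (2 * (K * 2 ^ s)) ∧ 2 ^ s ≤ Nat.log X c := by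
  have hc0 : c ≠ 0 := by
    have : 0 < X ^ K := pow_pos (by omega) _
    omega
  obtain ⟨y, hy⟩ : ∃ y, y = Nat.log X c := ⟨_, rfl⟩
  have hy1 : X ^ y ≤ c := by rw [hy]; exact Nat.pow_log_le_self X hc0
  have hy2 : c < X ^ (y + 1) := by rw [hy]; exact Nat.lt_pow_succ_log_self (by omega) _
  have hyK : K ≤ y := by rw [hy]; exact Nat.le_log_of_pow_le (by omega) hc
  obtain ⟨z, hz⟩ : ∃ z, z = y / K := ⟨_, rfl⟩
  have hz1 : 1 ≤ z := by rw [hz]; exact (Nat.one_le_div_iff (by omega)).2 hyK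
  have hz2 : K * z ≤ y := by rw [hz]; exact Nat.mul_div_le _ _
  have hz3 : y < K * (z + 1) := by rw [hz]; exact Nat.lt_mul_div_succ _ (by omega)
  have hs1 : 2 ^ Nat.log 2 z ≤ z := Nat.pow_log_le_self 2 (by omega)
  have hs2 : z < 2 ^ (Nat.log 2 z + 1) := Nat.lt_pow_succ_log_self (by norm_num) _
  refine ⟨Nat.log 2 z, ?_, ?_, ?_⟩
  · refine le_trans (Nat.pow_le_pow_right (by omega) ?_) hy1
    exact (Nat.mul_le_mul_left _ hs1).trans hz2
  · refine hy2.le.trans (Nat.pow_le_pow_right (by omega) ?_)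
    have h1 : K * (z + 1) ≤ K * 2 ^ (Nat.log 2 z + 1) := Nat.mul_le_mul_left _ hs2
    have h2 : K * 2 ^ (Nat.log 2 z + 1) = 2 * (K * 2 ^ Nat.log 2 z) := by rw [pow_succ]; ring
    omega
  · rw [← hy]
    refine hs1.trans (le_trans ?_ hz2)
    exact Nat.le_mul_of_pos_left _ (by omega)

/-- the number of scales -/
lemma scale_le {X c s : ℕ} (hX : 2 ≤ X) (hc : 1 ≤ c) (hs : 2 ^ s ≤ Nat.log X c)
    (hh : Real.log (c : ℝ) ≤ Real.exp (Hb X)) : (s : ℝ) ≤ 2 * (1 + Hb X) := by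
  have hX0 : (0 : ℝ) < X := by
    have : 0 < X := by omega
    exact_mod_cast this
  have h1 : X ^ Nat.log X c ≤ c := Nat.pow_log_le_self X (by omega)
  have hl2 : (1 : ℝ) / 2 ≤ Real.log 2 := by
    have := Real.log_two_gt_d9
    linarith
  have hl2' : Real.log 2 ≤ 1 := by
    have := Real.log_two_lt_d9
    linarith
  have hlX : Real.log 2 ≤ Real.log X := Real.log_le_log (by norm_num) (by exact_mod_cast hX)
  have h2 : (Nat.log X c : ℝ) * Real.log X ≤ Real.log c := by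
    rw [← Real.log_pow]
    apply Real.log_le_log (by positivity)
    exact_mod_cast h1
  have h3 : ((2 ^ s : ℕ) : ℝ) ≤ Nat.log X c := by exact_mod_cast hs
  have h4 : ((2 ^ s : ℕ) : ℝ) * (1 / 2) ≤ Real.exp (Hb X) := by
    calc ((2 ^ s : ℕ) : ℝ) * (1 / 2) ≤ (Nat.log X c : ℝ) * Real.log X :=
          mul_le_mul h3 (hl2.trans hlX) (by norm_num) (Nat.cast_nonneg _)
      _ ≤ _ := h2.trans hh
  have h5 : (2 : ℝ) ^ s ≤ 2 * Real.exp (Hb X) := by
    push_cast at h4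
    linarith
  have h6 : (s : ℝ) * Real.log 2 ≤ Real.log 2 + Hb X := by
    rw [← Real.log_pow]
    calc Real.log ((2 : ℝ) ^ s) ≤ Real.log (2 * Real.exp (Hb X)) :=
          Real.log_le_log (by positivity) h5
      _ = Real.log 2 + Hb X := by
          rw [Real.log_mul (by norm_num) (Real.exp_pos _).ne', Real.log_exp]
  have hHb : 0 ≤ Hb X := by
    unfold Hb
    have : 0 ≤ Real.log ((X : ℝ) ^ 3) := Real.log_nonneg (one_le_pow₀ (by
      have : 1 ≤ X := by omega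
      exact_mod_cast this))
    positivity
  have h7 : (s : ℝ) * (1 / 2) ≤ (s : ℝ) * Real.log 2 :=
    mul_le_mul_of_nonneg_left hl2 (Nat.cast_nonneg _)
  linarith

/-- the parameters of the levels -/
def Xi (dF : ℕ → ℕ) : ℕ → ℕ
  | 0 => 1
  | j + 1 => Xi dF j * dF (Xi dF j)

lemma Xi_pos {dF : ℕ → ℕ} (h : ∀ x, 1 ≤ dF x) (j : ℕ) : 1 ≤ Xi dF j := by
  induction j with
  | zero => exact le_rfl
  | succ j ih => exact Nat.mul_pos ih (h _)

lemma Xi_dvd {dF : ℕ → ℕ} {a b : ℕ} (hab : a ≤ b) : Xi dF a ∣ Xi dF b := by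
  induction b, hab using Nat.le_induction with
  | base => exact dvd_rfl
  | succ b _ ih => exact ih.trans (Dvd.intro _ rfl)

/-- **large radicals** -/
theorem box_large (ε : ℝ) (hε : 0 < ε) : ∃ K X₀ : ℕ, ∃ C : ℝ, 1 ≤ K ∧ 0 < C ∧ ∀ X R₁ R₂ : ℕ,
    X₀ ≤ X → 1 ≤ R₁ → R₁ ≤ R₂ → ∀ i j c : Fin 3, i ≠ j → j ≠ c → i ≠ c →
    ∀ Q : Finset (ℕ × ℕ), (∀ q ∈ Q, Pr q ∧ (∀ l, rad (num (tri q) l) ≤ X) ∧
      rad (num (tri q) i) ≤ R₁ ∧ rad (num (tri q) j) ≤ R₂ ∧ X ^ K ≤ q.1 + q.2) →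
    (Q.card : ℝ) ≤ C * (X : ℝ) ^ ε * Real.sqrt ((R₁ : ℝ) * R₂) := by
  classical
  obtain ⟨η, hη⟩ : ∃ η, η = ε / 17 := ⟨_, rfl⟩
  have hη0 : 0 < η := by rw [hη]; positivity
  obtain ⟨e', he'⟩ := exists_nat_ge (1 / η)
  obtain ⟨e, hed⟩ : ∃ e, e = e' + 4 := ⟨_, rfl⟩
  have he : 4 ≤ e := by omega
  have hηe : 1 ≤ η * e := by
    have h1 : (e' : ℝ) ≤ e := by
      have : e' ≤ e := by omega
      exact_mod_cast this
    have h2 := he'.trans h1
    rw [div_le_iff₀ hη0] at h2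
    linarith
  obtain ⟨k', hk'⟩ := exists_nat_ge ((12 * e : ℝ) / η)
  obtain ⟨k, hkd⟩ : ∃ k, k = k' + 1 := ⟨_, rfl⟩
  have hk : 1 ≤ k := by omega
  have hηk : (12 * e : ℝ) / k ≤ η := by
    have h1 : (k' : ℝ) ≤ k := by
      have : k' ≤ k := by omega
      exact_mod_cast this
    have h2 := hk'.trans h1
    rw [div_le_iff₀ hη0] at h2
    rw [div_le_iff₀ (by exact_mod_cast hk)]
    linarith
  -- the data of the levels
  have key : ∀ Ξ : ℕ, ∃ d U₀ X₀ : ℕ, ∃ C : ℝ, 1 ≤ d ∧ 1 ≤ U₀ ∧ 0 < C ∧ (1 ≤ Ξ →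
      ∀ X U R₁ R₂ : ℕ, X₀ ≤ X → U₀ ≤ U →
      1 ≤ R₁ → R₁ ≤ R₂ → ∀ i j c : Fin 3, i ≠ j → j ≠ c → i ≠ c →
      ∀ Q : Finset (ℕ × ℕ), (∀ q ∈ Q, Pr q ∧ (∀ l, rad (num (tri q) l) ≤ X) ∧
        rad (num (tri q) i) ≤ R₁ ∧ rad (num (tri q) j) ≤ R₂ ∧ X ^ (Ξ * d * U) ≤ q.1 + q.2 ∧
        q.1 + q.2 ≤ X ^ (2 * (Ξ * d * U)) ∧ ∀ l, Win e X U d (num (tri q) l)) →
      (Q.card : ℝ) ≤ C * (X : ℝ) ^ (16 * η) * Real.sqrt ((R₁ : ℝ) * R₂)) := by
    intro Ξ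
    by_cases hΞ : 1 ≤ Ξ
    · obtain ⟨d, U₀, X₀, C, h1, h2, h3, h4⟩ := level e k η he hk hη0 hηe hηk Ξ hΞ
      exact ⟨d, U₀, X₀, C, h1, h2, h3, fun _ => h4⟩
    · exact ⟨1, 1, 1, 1, le_rfl, le_rfl, one_pos, fun h => absurd h hΞ⟩
  choose dF UF XF CF hd1 hU1 hC1 hlev using key
  obtain ⟨J, hJ⟩ : ∃ J, J = 12 * e := ⟨_, rfl⟩
  obtain ⟨Ξ, hΞ⟩ : ∃ Ξ, Ξ = Xi dF := ⟨_, rfl⟩
  have hΞ1 : ∀ j, 1 ≤ Ξ j := by rw [hΞ]; exact Xi_pos hd1
  have hΞd : ∀ {a b : ℕ}, a ≤ b → Ξ a ∣ Ξ b := by rw [hΞ]; exact fun h => Xi_dvd h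
  have hΞs : ∀ j, Ξ (j + 1) = Ξ j * dF (Ξ j) := by rw [hΞ]; exact fun _ => rfl
  obtain ⟨S, hS⟩ : ∃ S, S = ∑ j ∈ range J, UF (Ξ j) + 1 := ⟨_, rfl⟩
  obtain ⟨XM, hXM⟩ : ∃ XM, XM = ∑ j ∈ range J, XF (Ξ j) + 2 := ⟨_, rfl⟩
  obtain ⟨CM, hCM⟩ : ∃ CM : ℝ, CM = ∑ j ∈ range J, CF (Ξ j) + 1 := ⟨_, rfl⟩
  have hCM0 : 0 < CM := by
    rw [hCM]
    have : 0 ≤ ∑ j ∈ range J, CF (Ξ j) := Finset.sum_nonneg fun j _ => (hC1 _).le
    linarith
  obtain ⟨K, hK⟩ : ∃ K, K = Ξ J * S := ⟨_, rfl⟩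
  have hK1 : 1 ≤ K := by rw [hK]; exact Nat.mul_pos (hΞ1 J) (by omega)
  obtain ⟨DL, hDL, hL⟩ := Pool.Agent.TH867.SM.log_pow_le (η / 3) (by positivity)
  refine ⟨K, XM, 3 * DL * J * CM + 1, hK1, by positivity, ?_⟩
  intro X R₁ R₂ hX hR₁ hR₁₂ i j c hij hjc hic Q hQ
  have hX2 : 2 ≤ X := by omega
  have hXone : 1 ≤ X := by omega
  have hX0 : (0 : ℝ) < X := by exact_mod_cast hXone
  have hX1 : (1 : ℝ) ≤ X := by exact_mod_cast hXone
  obtain ⟨SM, hSM⟩ : ∃ SM, SM = ⌊2 * (1 + Hb X)⌋₊ := ⟨_, rfl⟩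
  have hHb : 0 ≤ Hb X := by
    unfold Hb
    have : 0 ≤ Real.log ((X : ℝ) ^ 3) := Real.log_nonneg (one_le_pow₀ hX1)
    positivity
  have hSMle : (SM : ℝ) + 1 ≤ 3 * DL * (X : ℝ) ^ η := by
    have h1 : (SM : ℝ) ≤ 2 * (1 + Hb X) := by rw [hSM]; exact Nat.floor_le (by positivity)
    have h2 := hL ((X : ℝ) ^ 3) (one_le_pow₀ hX1)
    have h3 : ((X : ℝ) ^ 3) ^ (η / 3) = (X : ℝ) ^ η := by
      rw [← Real.rpow_natCast, ← Real.rpow_mul hX0.le]
      congr 1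
      push_cast
      ring
    rw [h3] at h2
    have h4 : 1 + Hb X ≤ DL * (X : ℝ) ^ η := h2
    linarith
  -- the cover
  have hcov := card_le_of_cover Q (range (SM + 1) ×ˢ range J)
    (fun z q => (X ^ (K * 2 ^ z.1) ≤ q.1 + q.2 ∧ q.1 + q.2 ≤ X ^ (2 * (K * 2 ^ z.1))) ∧
      ∀ l, Win e X (K * 2 ^ z.1 / Ξ (z.2 + 1)) (dF (Ξ z.2)) (num (tri q) l))
    (CM * (X : ℝ) ^ (16 * η) * Real.sqrt ((R₁ : ℝ) * R₂)) (by
      intro q hq
      obtain ⟨h1, h2, h3, h4, h5⟩ := hQ q hq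
      obtain ⟨s, hs1, hs2, hs3⟩ := exists_scale hX2 hK1 h5
      obtain ⟨a, ha, ha2⟩ := window_pigeon (e := e) hXone (by omega) (fun m => K * 2 ^ s / Ξ m) (by
        intro u v huv
        exact Nat.div_le_div_left (Nat.le_of_dvd (hΞ1 v) (hΞd huv)) (hΞ1 u))
        (fun l => num (tri q) l) h2
      refine ⟨(s, a), ?_, ⟨hs1, hs2⟩, ?_⟩
      · rw [mem_product, mem_range, mem_range]
        refine ⟨?_, by rw [hJ]; exact ha⟩
        have h6 := scale_le hX2 (by have := h1.p1; omega) hs3 (height_q h1 hXone h2)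
        have h7 : s ≤ SM := by rw [hSM]; exact Nat.le_floor h6
        simp only
        omega
      · intro l
        have h6 := ha2 l
        have hdv : Ξ (a + 1) ∣ K * 2 ^ s := by
          rw [hK, mul_assoc]
          exact (hΞd (by omega)).trans (Dvd.intro _ rfl)
        have h7 : K * 2 ^ s / Ξ a = dF (Ξ a) * (K * 2 ^ s / Ξ (a + 1)) := by
          obtain ⟨u, hu⟩ := hdv
          rw [hu, Nat.mul_div_cancel_left _ (hΞ1 (a + 1)), hΞs, mul_assoc,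
            Nat.mul_div_cancel_left _ (hΞ1 a)]
        unfold wd at h6
        unfold Win
        simp only at h6 ⊢
        rw [h7] at h6
        exact h6) (by
      rintro ⟨s, a⟩ hz
      rw [mem_product, mem_range, mem_range] at hz
      obtain ⟨hz1, hz2⟩ := hz
      simp only at hz1 hz2 ⊢
      obtain ⟨u, hu⟩ : ∃ u, Ξ J = Ξ (a + 1) * u := hΞd (by omega)
      have hu1 : 1 ≤ u := by
        rcases Nat.eq_zero_or_pos u with h | h
        · rw [h, mul_zero] at hu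
          have := hΞ1 J
          omega
        · exact h
      have hKs : K * 2 ^ s = Ξ (a + 1) * (u * S * 2 ^ s) := by rw [hK, hu]; ring
      have hdiv : K * 2 ^ s / Ξ (a + 1) = u * S * 2 ^ s := by
        rw [hKs, Nat.mul_div_cancel_left _ (hΞ1 (a + 1))]
      rw [hdiv]
      have hUS : UF (Ξ a) ≤ u * S * 2 ^ s := by
        have h1 : UF (Ξ a) ≤ S := by
          rw [hS]
          have := Finset.single_le_sum (f := fun j => UF (Ξ j)) (fun _ _ => Nat.zero_le _)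
            (mem_range.2 hz2)
          omega
        calc UF (Ξ a) ≤ S := h1
          _ ≤ u * S := Nat.le_mul_of_pos_left _ hu1
          _ ≤ u * S * 2 ^ s := Nat.le_mul_of_pos_right _ (by positivity)
      have hXF : XF (Ξ a) ≤ X := by
        refine le_trans ?_ hX
        rw [hXM]
        have := Finset.single_le_sum (f := fun j => XF (Ξ j)) (fun _ _ => Nat.zero_le _)
          (mem_range.2 hz2)
        omega
      have hCF : CF (Ξ a) ≤ CM := by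
        rw [hCM]
        have := Finset.single_le_sum (f := fun j => CF (Ξ j)) (fun j _ => (hC1 (Ξ j)).le)
          (mem_range.2 hz2)
        linarith
      have hmain := hlev (Ξ a) (hΞ1 a) X (u * S * 2 ^ s) R₁ R₂ hXF hUS hR₁ hR₁₂ i j c hij hjc hic
        (Q.filter fun q => (X ^ (K * 2 ^ s) ≤ q.1 + q.2 ∧ q.1 + q.2 ≤ X ^ (2 * (K * 2 ^ s))) ∧
          ∀ l, Win e X (u * S * 2 ^ s) (dF (Ξ a)) (num (tri q) l)) (by
          intro q hq
          rw [mem_filter] at hq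
          obtain ⟨hq, ⟨h6, h7⟩, h8⟩ := hq
          obtain ⟨h1, h2, h3, h4, h5⟩ := hQ q hq
          have hn : Ξ a * dF (Ξ a) * (u * S * 2 ^ s) = K * 2 ^ s := by
            rw [hKs, hΞs]
          rw [hn]
          exact ⟨h1, h2, h3, h4, h6, h7, h8⟩)
      refine hmain.trans ?_
      apply mul_le_mul_of_nonneg_right _ (Real.sqrt_nonneg _)
      exact mul_le_mul_of_nonneg_right hCF (by positivity))
  refine hcov.trans ?_
  rw [card_product, card_range, card_range]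
  push_cast
  have hJ0 : (0 : ℝ) ≤ J := Nat.cast_nonneg _
  have hsq := Real.sqrt_nonneg ((R₁ : ℝ) * R₂)
  calc ((SM : ℝ) + 1) * J * (CM * (X : ℝ) ^ (16 * η) * Real.sqrt ((R₁ : ℝ) * R₂))
      ≤ (3 * DL * (X : ℝ) ^ η) * J * (CM * (X : ℝ) ^ (16 * η) * Real.sqrt ((R₁ : ℝ) * R₂)) := by
        apply mul_le_mul_of_nonneg_right _ (by positivity)
        exact mul_le_mul_of_nonneg_right hSMle hJ0
    _ = (3 * DL * J * CM) * ((X : ℝ) ^ η * (X : ℝ) ^ (16 * η)) * Real.sqrt ((R₁ : ℝ) * R₂) := by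
        ring
    _ = (3 * DL * J * CM) * (X : ℝ) ^ ε * Real.sqrt ((R₁ : ℝ) * R₂) := by
        rw [← Real.rpow_add hX0]
        congr 3
        rw [hη]; ring
    _ ≤ _ := by
        apply mul_le_mul_of_nonneg_right _ hsq
        apply mul_le_mul_of_nonneg_right _ (by positivity)
        linarith

/-- **The square root bound at all heights.** -/
theorem box_all (ε : ℝ) (hε : 0 < ε) : ∃ K : ℕ, ∃ C : ℝ, 0 < C ∧
    ∀ X R₁ R₂ : ℕ, 1 ≤ X → 1 ≤ R₁ → R₁ ≤ R₂ → ∀ i j c : Fin 3,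
    i ≠ j → j ≠ c → i ≠ c → ∀ Q : Finset (ℕ × ℕ),
    (∀ q ∈ Q, Pr q ∧ (∀ l, rad (num (tri q) l) ≤ X) ∧ rad (num (tri q) i) ≤ R₁ ∧
      rad (num (tri q) j) ≤ R₂ ∧ X ^ K ≤ q.1 + q.2) →
    (Q.card : ℝ) ≤ C * (X : ℝ) ^ ε * Real.sqrt ((R₁ : ℝ) * R₂) := by
  classical
  obtain ⟨K, X₀, C, hK, hC, hmain⟩ := box_large ε hε
  obtain ⟨H, hH⟩ : ∃ H, H = ⌊Real.exp (Real.exp (Hb (X₀ + 1 : ℕ)))⌋₊ := ⟨_, rfl⟩
  refine ⟨K, C + ((H : ℝ) + 1) ^ 2, by positivity, ?_⟩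
  intro X R₁ R₂ hX hR₁ hR₁₂ i j c hij hjc hic Q hQ
  have hX0 : (0 : ℝ) < X := by exact_mod_cast hX
  have hX1 : (1 : ℝ) ≤ X := by exact_mod_cast hX
  have hsq := Real.sqrt_nonneg ((R₁ : ℝ) * R₂)
  rcases Nat.lt_or_ge X X₀ with h | h
  · have hR₁r : (1 : ℝ) ≤ R₁ := by exact_mod_cast hR₁
    have hR₂r : (1 : ℝ) ≤ R₂ := by exact_mod_cast hR₁.trans hR₁₂
    have hsq1 : (1 : ℝ) ≤ Real.sqrt ((R₁ : ℝ) * R₂) := by
      apply Real.le_sqrt_of_sq_le
      nlinarith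
    have hXe : 1 ≤ (X : ℝ) ^ ε := Real.one_le_rpow hX1 hε.le
    have hsub : Q ⊆ range (H + 1) ×ˢ range (H + 1) := by
      intro q hq
      obtain ⟨h1, h2, -⟩ := hQ q hq
      have h3 := height_q h1 hX h2
      have h4 : Hb X ≤ Hb (X₀ + 1 : ℕ) := by
        unfold Hb
        have h5 : Real.log ((X : ℝ) ^ 3) ≤ Real.log (((X₀ + 1 : ℕ) : ℝ) ^ 3) := by
          apply Real.log_le_log (by positivity)
          apply pow_le_pow_left₀ hX0.le
          have : X ≤ X₀ + 1 := by omega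
          exact_mod_cast this
        have h6 : 0 ≤ Real.log ((X : ℝ) ^ 3) := Real.log_nonneg (one_le_pow₀ hX1)
        apply mul_le_mul_of_nonneg_left _ (by norm_num)
        apply pow_le_pow_left₀ (by linarith)
        linarith
      have h5 : Real.log ((q.1 + q.2 : ℕ) : ℝ) ≤ Real.exp (Hb (X₀ + 1 : ℕ)) :=
        h3.trans (Real.exp_le_exp.2 h4)
      have h6 : q.1 + q.2 ≤ H := by
        rw [hH]
        apply Nat.le_floor
        have h7 : (0 : ℝ) < ((q.1 + q.2 : ℕ) : ℝ) := by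
          have := h1.p1
          have : 0 < q.1 + q.2 := by omega
          exact_mod_cast this
        rw [← Real.log_le_iff_le_exp h7]
        exact h5
      rw [mem_product, mem_range, mem_range]
      omega
    have hcard := card_le_card hsub
    rw [card_product, card_range] at hcard
    calc (Q.card : ℝ) ≤ ((H : ℝ) + 1) * ((H : ℝ) + 1) := by exact_mod_cast hcard
      _ = ((H : ℝ) + 1) ^ 2 * 1 * 1 := by ring
      _ ≤ (C + ((H : ℝ) + 1) ^ 2) * (X : ℝ) ^ ε * Real.sqrt ((R₁ : ℝ) * R₂) := by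
          apply mul_le_mul _ hsq1 zero_le_one (by positivity)
          apply mul_le_mul _ hXe zero_le_one (by positivity)
          linarith
  · refine (hmain X R₁ R₂ h hR₁ hR₁₂ i j c hij hjc hic Q hQ).trans ?_
    apply mul_le_mul_of_nonneg_right _ hsq
    apply mul_le_mul_of_nonneg_right _ (by positivity)
    have : 0 ≤ ((H : ℝ) + 1) ^ 2 := by positivity
    linarith

end Pool.Agent.T2H20.AH
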