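import Pool.Agent.T2H20.AH.Cg
import Pool.Agent.T2H20.ABC.Cor

/-!
The exceptions of Oesterlé's inequality with a large exponent, at all heights.
-/

set_option autoImplicit false

namespace Pool.Agent.T2H20.AH

open Finset Pool.Agent.H785R2.ABC Pool.Agent.H785R2.ABC.EC Pool.Agent.T2H20.ABC

/-- the triples with a member of radical at most `B` -/
theorem small_member_all (ε : ℝ) (hε : 0 < ε) : ∃ K : ℕ, ∃ C : ℝ, 0 < C ∧
    ∀ X B : ℕ, 1 ≤ X → 1 ≤ B → ∀ Q : Finset (ℕ × ℕ),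
    (∀ q ∈ Q, 0 < q.1 ∧ 0 < q.2 ∧ Nat.Coprime q.1 q.2 ∧ rad (q.1 * q.2 * (q.1 + q.2)) ≤ X ∧
      (∃ i, rad (num (tri q) i) ≤ B) ∧ X ^ K ≤ q.1 + q.2) →
    (Q.card : ℝ) ≤ C * (X : ℝ) ^ ε * ((B : ℝ) * X) ^ ((1 : ℝ) / 4) := by
  classical
  obtain ⟨K0, C, hC, hc⟩ := box_all (ε / 2) (by positivity)
  obtain ⟨DL, hDL, hL⟩ := log_pow_le 2 (ε / 2) (by positivity)
  refine ⟨2 * K0 + 1, 27 * DL * (C * 2 ^ (ε / 2) * 2), by positivity, ?_⟩
  intro X B hX hB Q hQ
  have hX0 : (0 : ℝ) < X := by exact_mod_cast hX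
  have hX1 : (1 : ℝ) ≤ X := by exact_mod_cast hX
  have hBX : (0 : ℝ) ≤ (B : ℝ) * X := by positivity
  -- the cells
  set S : Finset ((Fin 3 × Fin 3 × Fin 3) × (ℕ × ℕ)) :=
    univ ×ˢ (range (Nat.log 2 X + 1) ×ˢ range (Nat.log 2 X + 1)) with hS
  have hScard : (S.card : ℝ) ≤ 27 * (DL * (X : ℝ) ^ (ε / 2)) := by
    rw [hS, card_product, card_product, card_range, card_univ, Fintype.card_prod,
      Fintype.card_prod, Fintype.card_fin]
    have h1 := hL X hX
    push_cast at h1 ⊢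
    nlinarith
  have hV0 : (0 : ℝ) ≤ C * (2 * X : ℝ) ^ (ε / 2) * (2 * ((B : ℝ) * X) ^ ((1 : ℝ) / 4)) := by
    positivity
  have h1 := card_le_of_cover Q S
    (fun z q => (z.1.1 ≠ z.1.2.1 ∧ z.1.2.1 ≠ z.1.2.2 ∧ z.1.1 ≠ z.1.2.2) ∧
      (rad (num (tri q) z.1.1) < 2 ^ (z.2.1 + 1) ∧ rad (num (tri q) z.1.2.1) < 2 ^ (z.2.2 + 1)) ∧
      z.2.1 ≤ z.2.2 ∧ z.2.2 ≤ Nat.log 2 X ∧ (2 ^ z.2.1 * 2 ^ z.2.2) ^ 2 ≤ B * X)
    (C * (2 * X : ℝ) ^ (ε / 2) * (2 * ((B : ℝ) * X) ^ ((1 : ℝ) / 4)))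
    (by
      intro q hq
      obtain ⟨g1, g2, g3, g4, ⟨i0, g5⟩, g6⟩ := hQ q hq
      obtain ⟨i, j, k, hij, hjk, hik, o1, o2⟩ := order3 fun l => rad (num (tri q) l)
      have hpr := rad_prod' g1 g2 g3 hij hjk hik
      rw [hpr] at g4
      have pi := rad_pos (num (tri q) i)
      have pj := rad_pos (num (tri q) j)
      have pk := rad_pos (num (tri q) k)
      have hiB : rad (num (tri q) i) ≤ B := by
        rcases three i j k i0 hij hjk hik with h | h | h
        · rw [h] at g5; exact g5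
        · rw [h] at g5; exact o1.trans g5
        · rw [h] at g5; exact o1.trans (o2.trans g5)
      set a := rad (num (tri q) i) with ha
      set b := rad (num (tri q) j) with hb
      set c := rad (num (tri q) k) with hc'
      have hbX : b ≤ X := by
        calc b ≤ a * b * c := by
              calc b = 1 * b * 1 := by ring
                _ ≤ a * b * c := Nat.mul_le_mul (Nat.mul_le_mul pi le_rfl) pk
          _ ≤ X := g4
      refine ⟨((i, j, k), (Nat.log 2 a, Nat.log 2 b)), ?_, ⟨hij, hjk, hik⟩, ⟨?_, ?_⟩, ?_, ?_, ?_⟩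
      · rw [hS, mem_product, mem_product, mem_range, mem_range]
        refine ⟨mem_univ _, ?_, ?_⟩
        · show Nat.log 2 a < Nat.log 2 X + 1
          exact Nat.lt_succ_of_le (Nat.log_mono_right (o1.trans hbX))
        · show Nat.log 2 b < Nat.log 2 X + 1
          exact Nat.lt_succ_of_le (Nat.log_mono_right hbX)
      · exact Nat.lt_pow_succ_log_self (by norm_num) a
      · exact Nat.lt_pow_succ_log_self (by norm_num) b
      · show Nat.log 2 a ≤ Nat.log 2 b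
        exact Nat.log_mono_right o1
      · show Nat.log 2 b ≤ Nat.log 2 X
        exact Nat.log_mono_right hbX
      · have h2a : 2 ^ Nat.log 2 a ≤ a := Nat.pow_log_le_self 2 pi.ne'
        have h2b : 2 ^ Nat.log 2 b ≤ b := Nat.pow_log_le_self 2 pj.ne'
        calc (2 ^ Nat.log 2 a * 2 ^ Nat.log 2 b) ^ 2 ≤ (a * b) ^ 2 :=
              Nat.pow_le_pow_left (Nat.mul_le_mul h2a h2b) 2
          _ = a * (a * b * b) := by ring
          _ ≤ B * (a * b * c) := Nat.mul_le_mul hiB (Nat.mul_le_mul_left _ o2)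
          _ ≤ B * X := Nat.mul_le_mul_left _ g4)
    (by
      rintro ⟨⟨i, j, k⟩, u, v⟩ -
      simp only
      set Q' := Q.filter fun q => (i ≠ j ∧ j ≠ k ∧ i ≠ k) ∧
        (rad (num (tri q) i) < 2 ^ (u + 1) ∧ rad (num (tri q) j) < 2 ^ (v + 1)) ∧
        u ≤ v ∧ v ≤ Nat.log 2 X ∧ (2 ^ u * 2 ^ v) ^ 2 ≤ B * X with hQ'
      rcases Q'.eq_empty_or_nonempty with h0 | ⟨q0, hq0⟩
      · rw [h0, card_empty, Nat.cast_zero]
        exact hV0
      obtain ⟨-, ⟨hij, hjk, hik⟩, -, huv, hv, hcap⟩ := by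
        rw [hQ', mem_filter] at hq0
        exact hq0
      have h2v : 2 ^ v ≤ X := (Nat.pow_le_pow_right (by norm_num) hv).trans
        (Nat.pow_log_le_self 2 (by omega))
      have hmain := hc (2 * X) (2 ^ (u + 1)) (2 ^ (v + 1)) (by omega) Nat.one_le_two_pow
        (Nat.pow_le_pow_right (by norm_num) (by omega)) i j k hij hjk hik
        Q' (by
          intro q hq
          rw [hQ', mem_filter] at hq
          obtain ⟨hq1, -, ⟨r1, r2⟩, -⟩ := hq
          obtain ⟨g1, g2, g3, g4, -, g6⟩ := hQ q hq1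
          have hX2 : 2 ≤ X := by
            refine le_trans ?_ g4
            obtain ⟨p, hp, hpd⟩ := Nat.exists_prime_and_dvd (by omega : q.1 + q.2 ≠ 1)
            calc 2 ≤ p := hp.two_le
              _ = rad p := by unfold rad; rw [hp.primeFactors, prod_singleton]
              _ ≤ rad (q.1 * q.2 * (q.1 + q.2)) :=
                Pool.Agent.T2H20.ABC.rad_le_of_dvd (by positivity)
                  (hpd.trans (Dvd.intro_left _ rfl))
          have hpr := rad_prod' g1 g2 g3 hij hjk hik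
          rw [hpr] at g4
          have pi := rad_pos (num (tri q) i)
          have pj := rad_pos (num (tri q) j)
          have pk := rad_pos (num (tri q) k)
          refine ⟨⟨g1, g2, g3⟩, ?_, r1.le, r2.le, ?_⟩
          · intro l
            have hall : rad (num (tri q) l) ≤
                rad (num (tri q) i) * rad (num (tri q) j) * rad (num (tri q) k) := by
              rcases three i j k l hij hjk hik with h | h | h
              · rw [h]
                calc rad (num (tri q) i) = rad (num (tri q) i) * 1 * 1 := by ring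
                  _ ≤ _ := Nat.mul_le_mul (Nat.mul_le_mul le_rfl pj) pk
              · rw [h]
                calc rad (num (tri q) j) = 1 * rad (num (tri q) j) * 1 := by ring
                  _ ≤ _ := Nat.mul_le_mul (Nat.mul_le_mul pi le_rfl) pk
              · rw [h]
                calc rad (num (tri q) k) = 1 * 1 * rad (num (tri q) k) := by ring
                  _ ≤ _ := Nat.mul_le_mul (Nat.mul_le_mul pi pj) le_rfl
            omega
          · calc (2 * X) ^ K0 ≤ (X * X) ^ K0 := Nat.pow_le_pow_left (Nat.mul_le_mul_right _ hX2) _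
              _ = X ^ (2 * K0) := by rw [← sq, ← pow_mul]
              _ ≤ X ^ (2 * K0 + 1) := Nat.pow_le_pow_right hX (by omega)
              _ ≤ _ := g6)
      have hsq : Real.sqrt (((2 ^ (u + 1) : ℕ) : ℝ) * ((2 ^ (v + 1) : ℕ) : ℝ)) ≤
          2 * ((B : ℝ) * X) ^ ((1 : ℝ) / 4) := by
        have hcapR : (((2 : ℝ) ^ u * 2 ^ v)) ^ 2 ≤ (B : ℝ) * X := by exact_mod_cast hcap
        have h3 : (2 : ℝ) ^ u * 2 ^ v ≤ ((B : ℝ) * X) ^ ((1 : ℝ) / 2) := by
          rw [← Real.sqrt_eq_rpow]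
          exact Real.le_sqrt_of_sq_le hcapR
        rw [Real.sqrt_le_left (by positivity)]
        push_cast
        have h4 : (2 * ((B : ℝ) * X) ^ ((1 : ℝ) / 4)) ^ 2 = 4 * ((B : ℝ) * X) ^ ((1 : ℝ) / 2) := by
          rw [mul_pow, ← Real.rpow_natCast (((B : ℝ) * X) ^ ((1 : ℝ) / 4)), ← Real.rpow_mul hBX]
          norm_num
        rw [h4, pow_succ, pow_succ]
        nlinarith
      refine hmain.trans ?_
      push_cast
      push_cast at hsq
      exact mul_le_mul_of_nonneg_left hsq (by positivity))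
  refine h1.trans ?_
  calc (S.card : ℝ) * (C * (2 * X : ℝ) ^ (ε / 2) * (2 * ((B : ℝ) * X) ^ ((1 : ℝ) / 4)))
      ≤ (27 * (DL * (X : ℝ) ^ (ε / 2))) *
        (C * (2 * X : ℝ) ^ (ε / 2) * (2 * ((B : ℝ) * X) ^ ((1 : ℝ) / 4))) :=
        mul_le_mul_of_nonneg_right hScard hV0
    _ = 27 * DL * (C * 2 ^ (ε / 2) * 2) * ((X : ℝ) ^ (ε / 2) * (X : ℝ) ^ (ε / 2)) *
        ((B : ℝ) * X) ^ ((1 : ℝ) / 4) := by
        rw [Real.mul_rpow (by norm_num) hX0.le]
        ring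
    _ = _ := by rw [← Real.rpow_add hX0, add_halves]


/-- **the exceptions, a member of which has radical at most `B`, at all heights** -/
theorem exceptions_all (ε : ℝ) (hε : 0 < ε) : ∃ M : ℕ, 1 ≤ M ∧ ∃ C : ℝ, 0 < C ∧
    ∀ X B : ℕ, 1 ≤ X → 1 ≤ B → ∀ Q : Finset (ℕ × ℕ),
    (∀ q ∈ Q, 0 < q.1 ∧ 0 < q.2 ∧ Nat.Coprime q.1 q.2 ∧ rad (q.1 * q.2 * (q.1 + q.2)) ≤ X ∧
      (∃ i, rad (num (tri q) i) ≤ B) ∧ rad (q.1 * q.2 * (q.1 + q.2)) ^ M ≤ q.1 + q.2) →
    (Q.card : ℝ) ≤ C * (X : ℝ) ^ ε * ((B : ℝ) * X) ^ ((1 : ℝ) / 4) := by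
  classical
  obtain ⟨K, C1, hC1, hc⟩ := small_member_all (ε / 2) (by positivity)
  obtain ⟨DL, hDL, hL⟩ := log_pow_le 1 (ε / 2) (by positivity)
  refine ⟨2 * K + 1, by omega, DL * (C1 * 2 ^ (ε / 2) * 2 ^ ((1 : ℝ) / 4)), by positivity, ?_⟩
  intro X B hX hB Q hQ
  have hX0 : (0 : ℝ) < X := by exact_mod_cast hX
  have hX1 : (1 : ℝ) ≤ X := by exact_mod_cast hX
  have hB1 : (1 : ℝ) ≤ B := by exact_mod_cast hB
  set ρ : ℕ × ℕ → ℕ := fun q => rad (q.1 * q.2 * (q.1 + q.2)) with hρ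
  have hρ2 : ∀ q ∈ Q, 2 ≤ ρ q := by
    intro q hq
    obtain ⟨g1, g2, -⟩ := hQ q hq
    obtain ⟨p, hp, hpd⟩ := Nat.exists_prime_and_dvd (by omega : q.1 + q.2 ≠ 1)
    calc 2 ≤ p := hp.two_le
      _ = rad p := by unfold rad; rw [hp.primeFactors, prod_singleton]
      _ ≤ rad (q.1 * q.2 * (q.1 + q.2)) :=
        Pool.Agent.T2H20.ABC.rad_le_of_dvd (by positivity) (hpd.trans (Dvd.intro_left _ rfl))
  have hV0 : (0 : ℝ) ≤ C1 * (2 * X : ℝ) ^ (ε / 2) * ((B : ℝ) * (2 * X)) ^ ((1 : ℝ) / 4) := by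
    positivity
  have b1 : (Q.card : ℝ) ≤ ((range (Nat.log 2 X + 1)).card : ℝ) *
        (C1 * (2 * X : ℝ) ^ (ε / 2) * ((B : ℝ) * (2 * X)) ^ ((1 : ℝ) / 4)) := by
    apply card_le_of_cover _ _ (fun u q => u = Nat.log 2 (ρ q))
    · intro q hq
      refine ⟨Nat.log 2 (ρ q), ?_, rfl⟩
      rw [mem_range]
      exact Nat.lt_succ_of_le (Nat.log_mono_right (hQ q hq).2.2.2.1)
    · intro u _
      set Q' := Q.filter fun q => u = Nat.log 2 (ρ q) with hQ'
      rcases Q'.eq_empty_or_nonempty with h0 | ⟨q0, hq0⟩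
      · rw [h0, card_empty, Nat.cast_zero]
        exact hV0
      have hmem : ∀ q ∈ Q', q ∈ Q ∧ 2 ^ u ≤ ρ q ∧ ρ q < 2 ^ (u + 1) := by
        intro q hq
        rw [hQ', mem_filter] at hq
        obtain ⟨h1, h3⟩ := hq
        have h4 := hρ2 q h1
        refine ⟨h1, ?_, ?_⟩
        · rw [h3]; exact Nat.pow_log_le_self 2 (by omega)
        · rw [h3]; exact Nat.lt_pow_succ_log_self (by norm_num) _
      obtain ⟨Y, hY⟩ : ∃ Y, Y = 2 ^ (u + 1) := ⟨_, rfl⟩
      have hYX : Y ≤ 2 * X := by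
        obtain ⟨h1, h3, h4⟩ := hmem q0 hq0
        rw [hY, pow_succ]
        have h5 : ρ q0 ≤ X := (hQ q0 h1).2.2.2.1
        omega
      have hY1 : 1 ≤ Y := by rw [hY]; exact Nat.one_le_two_pow
      have hmain := hc Y B hY1 hB Q' (by
        intro q hq
        obtain ⟨h1, h3, h4⟩ := hmem q hq
        obtain ⟨g1, g2, g3, g4, g5, g6⟩ := hQ q h1
        have hρq := hρ2 q h1
        have hYρ : Y ≤ 2 * ρ q := by rw [hY, pow_succ]; omega
        refine ⟨g1, g2, g3, ?_, g5, ?_⟩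
        · rw [hY]; exact h4.le
        · calc Y ^ K ≤ (ρ q * ρ q) ^ K := by
                apply Nat.pow_le_pow_left
                exact hYρ.trans (Nat.mul_le_mul_right _ hρq)
            _ = ρ q ^ (2 * K) := by rw [← sq, ← pow_mul]
            _ ≤ ρ q ^ (2 * K + 1) := Nat.pow_le_pow_right (by omega) (by omega)
            _ ≤ q.1 + q.2 := g6)
      refine hmain.trans ?_
      have hYXr : (Y : ℝ) ≤ 2 * X := by exact_mod_cast hYX
      have hY0 : (0 : ℝ) ≤ Y := Nat.cast_nonneg _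
      have e1 : (Y : ℝ) ^ (ε / 2) ≤ (2 * X : ℝ) ^ (ε / 2) :=
        Real.rpow_le_rpow hY0 hYXr (by positivity)
      have e2 : ((B : ℝ) * Y) ^ ((1 : ℝ) / 4) ≤ ((B : ℝ) * (2 * X)) ^ ((1 : ℝ) / 4) :=
        Real.rpow_le_rpow (by positivity) (mul_le_mul_of_nonneg_left hYXr (by positivity))
          (by norm_num)
      apply mul_le_mul _ e2 (by positivity) (by positivity)
      exact mul_le_mul_of_nonneg_left e1 hC1.le
  rw [card_range] at b1
  have h11 := hL X hX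
  rw [pow_one] at h11
  refine b1.trans ?_
  calc ((Nat.log 2 X + 1 : ℕ) : ℝ) *
        (C1 * (2 * X : ℝ) ^ (ε / 2) * ((B : ℝ) * (2 * X)) ^ ((1 : ℝ) / 4)) ≤
      (DL * (X : ℝ) ^ (ε / 2)) *
        (C1 * (2 * X : ℝ) ^ (ε / 2) * ((B : ℝ) * (2 * X)) ^ ((1 : ℝ) / 4)) :=
        mul_le_mul_of_nonneg_right h11 hV0
    _ = DL * (C1 * 2 ^ (ε / 2) * 2 ^ ((1 : ℝ) / 4)) * (X : ℝ) ^ ε *
        ((B : ℝ) * X) ^ ((1 : ℝ) / 4) := by
        have e1 : (2 * X : ℝ) ^ (ε / 2) = 2 ^ (ε / 2) * (X : ℝ) ^ (ε / 2) :=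
          Real.mul_rpow (by norm_num) hX0.le
        have e2 : ((B : ℝ) * (2 * X)) ^ ((1 : ℝ) / 4) =
            2 ^ ((1 : ℝ) / 4) * ((B : ℝ) * X) ^ ((1 : ℝ) / 4) := by
          rw [← Real.mul_rpow (by norm_num) (by positivity)]
          congr 1
          ring
        have e3 : (X : ℝ) ^ ε = (X : ℝ) ^ (ε / 2) * (X : ℝ) ^ (ε / 2) := by
          rw [← Real.rpow_add hX0, add_halves]
        rw [e1, e2, e3]
        ring

end Pool.Agent.T2H20.AH
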