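import Pool.Agent.T2H20.AH.Ch

/-!
The exceptions two members of which have radicals at most `R₁` and `R₂`.
-/

set_option autoImplicit false

namespace Pool.Agent.T2H20.AH

open Finset Pool.Agent.H785R2.ABC Pool.Agent.H785R2.ABC.EC Pool.Agent.T2H20.ABC

lemma exists_third : ∀ i j : Fin 3, i ≠ j → ∃ k : Fin 3, j ≠ k ∧ i ≠ k := by decide

lemma rads_le' {q : ℕ × ℕ} (g1 : 0 < q.1) (g2 : 0 < q.2) {X : ℕ}
    (hX : rad (q.1 * q.2 * (q.1 + q.2)) ≤ X) (l : Fin 3) : rad (num (tri q) l) ≤ X := by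
  refine le_trans ?_ hX
  have hne : q.1 * q.2 * (q.1 + q.2) ≠ 0 := by positivity
  have h : ∀ i : Fin 3, i = 0 ∨ i = 1 ∨ i = 2 := by decide
  rcases h l with rfl | rfl | rfl
  · exact Pool.Agent.T2H20.ABC.rad_le_of_dvd hne
      ((Dvd.intro _ rfl : q.1 ∣ q.1 * q.2).trans (Dvd.intro _ rfl))
  · exact Pool.Agent.T2H20.ABC.rad_le_of_dvd hne
      ((Dvd.intro_left _ rfl : q.2 ∣ q.1 * q.2).trans (Dvd.intro _ rfl))
  · exact Pool.Agent.T2H20.ABC.rad_le_of_dvd hne (Dvd.intro_left _ rfl)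

theorem two_members_aux (ε : ℝ) (hε : 0 < ε) (K : ℕ) (C1 : ℝ) (hC1 : 0 < C1)
    (hc : ∀ X R₁ R₂ : ℕ, 1 ≤ X → 1 ≤ R₁ → R₁ ≤ R₂ → ∀ i j c : Fin 3,
      i ≠ j → j ≠ c → i ≠ c → ∀ Q : Finset (ℕ × ℕ),
      (∀ q ∈ Q, Pr q ∧ (∀ l, rad (num (tri q) l) ≤ X) ∧ rad (num (tri q) i) ≤ R₁ ∧
        rad (num (tri q) j) ≤ R₂ ∧ X ^ K ≤ q.1 + q.2) →
      (Q.card : ℝ) ≤ C1 * (X : ℝ) ^ (ε / 2) * Real.sqrt ((R₁ : ℝ) * R₂)) : ∃ C : ℝ, 0 < C ∧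
    ∀ X R₁ R₂ : ℕ, 1 ≤ X → 1 ≤ R₁ → R₁ ≤ R₂ → ∀ Q : Finset (ℕ × ℕ),
    (∀ q ∈ Q, 0 < q.1 ∧ 0 < q.2 ∧ Nat.Coprime q.1 q.2 ∧ rad (q.1 * q.2 * (q.1 + q.2)) ≤ X ∧
      (∃ i j, i ≠ j ∧ rad (num (tri q) i) ≤ R₁ ∧ rad (num (tri q) j) ≤ R₂) ∧
      rad (q.1 * q.2 * (q.1 + q.2)) ^ (2 * K) ≤ q.1 + q.2) →
    (Q.card : ℝ) ≤ C * (X : ℝ) ^ ε * Real.sqrt ((R₁ : ℝ) * R₂) := by
  classical
  obtain ⟨DL, hDL, hL⟩ := log_pow_le 1 (ε / 2) (by positivity)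
  refine ⟨9 * DL * (C1 * 2 ^ (ε / 2)), by positivity, ?_⟩
  intro X R₁ R₂ hX hR₁ hR₁₂ Q hQ
  have hX0 : (0 : ℝ) < X := by exact_mod_cast hX
  have hX1 : (1 : ℝ) ≤ X := by exact_mod_cast hX
  set ρ : ℕ × ℕ → ℕ := fun q => rad (q.1 * q.2 * (q.1 + q.2)) with hρ
  have hρ2 : ∀ q ∈ Q, 2 ≤ ρ q := by
    intro q hq
    obtain ⟨g1, g2, -⟩ := hQ q hq
    obtain ⟨p, hp, hpd⟩ := Nat.exists_prime_and_dvd (by omega : q.1 + q.2 ≠ 1)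
    calc 2 ≤ p := hp.two_le
      _ = rad p := by unfold rad; rw [hp.primeFactors, prod_singleton]
      _ ≤ rad (q.1 * q.2 * (q.1 + q.2)) :=
        Pool.Agent.T2H20.ABC.rad_le_of_dvd (by positivity) (hpd.trans (Dvd.intro_left _ rfl))
  have hsq := Real.sqrt_nonneg ((R₁ : ℝ) * R₂)
  have b1 : (Q.card : ℝ) ≤ (((univ : Finset (Fin 3 × Fin 3)) ×ˢ
      (range (Nat.log 2 X + 1))).card : ℝ) *
        (C1 * (2 * X : ℝ) ^ (ε / 2) * Real.sqrt ((R₁ : ℝ) * R₂)) := by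
    apply card_le_of_cover _ _ (fun z q => (z.1.1 ≠ z.1.2 ∧ rad (num (tri q) z.1.1) ≤ R₁ ∧
      rad (num (tri q) z.1.2) ≤ R₂) ∧ z.2 = Nat.log 2 (ρ q))
    · intro q hq
      obtain ⟨g1, g2, g3, g4, ⟨i, j, g5⟩, g6⟩ := hQ q hq
      refine ⟨((i, j), Nat.log 2 (ρ q)), ?_, g5, rfl⟩
      rw [mem_product, mem_range]
      refine ⟨mem_univ _, ?_⟩
      show Nat.log 2 (ρ q) < Nat.log 2 X + 1
      exact Nat.lt_succ_of_le (Nat.log_mono_right g4)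
    · rintro ⟨⟨i, j⟩, u⟩ _
      simp only
      set Q' := Q.filter fun q => (i ≠ j ∧ rad (num (tri q) i) ≤ R₁ ∧
        rad (num (tri q) j) ≤ R₂) ∧ u = Nat.log 2 (ρ q) with hQ'
      rcases Q'.eq_empty_or_nonempty with h0 | ⟨q0, hq0⟩
      · rw [h0, card_empty, Nat.cast_zero]
        positivity
      have hmem : ∀ q ∈ Q', q ∈ Q ∧ (i ≠ j ∧ rad (num (tri q) i) ≤ R₁ ∧
          rad (num (tri q) j) ≤ R₂) ∧ 2 ^ u ≤ ρ q ∧ ρ q < 2 ^ (u + 1) := by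
        intro q hq
        rw [hQ', mem_filter] at hq
        obtain ⟨h1, h2, h3⟩ := hq
        have h4 := hρ2 q h1
        refine ⟨h1, h2, ?_, ?_⟩
        · rw [h3]; exact Nat.pow_log_le_self 2 (by omega)
        · rw [h3]; exact Nat.lt_pow_succ_log_self (by norm_num) _
      obtain ⟨Y, hY⟩ : ∃ Y, Y = 2 ^ (u + 1) := ⟨_, rfl⟩
      have hYX : Y ≤ 2 * X := by
        obtain ⟨h1, h2, h3, h4⟩ := hmem q0 hq0
        rw [hY, pow_succ]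
        have h5 : ρ q0 ≤ X := (hQ q0 h1).2.2.2.1
        omega
      have hY1 : 1 ≤ Y := by rw [hY]; exact Nat.one_le_two_pow
      have hij := (hmem q0 hq0).2.1.1
      obtain ⟨c, hjc, hic⟩ := exists_third i j hij
      have hmain := hc Y R₁ R₂ hY1 hR₁ hR₁₂ i j c hij hjc hic Q' (by
        intro q hq
        obtain ⟨h1, ⟨-, h2, h2'⟩, h3, h4⟩ := hmem q hq
        obtain ⟨g1, g2, g3, g4, -, g6⟩ := hQ q h1
        have hρq := hρ2 q h1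
        have hYρ : Y ≤ 2 * ρ q := by rw [hY, pow_succ]; omega
        refine ⟨⟨g1, g2, g3⟩, ?_, h2, h2', ?_⟩
        · intro l
          exact rads_le' g1 g2 (by rw [hY]; exact h4.le) l
        · calc Y ^ K ≤ (ρ q * ρ q) ^ K := by
                apply Nat.pow_le_pow_left
                exact hYρ.trans (Nat.mul_le_mul_right _ hρq)
            _ = ρ q ^ (2 * K) := by rw [← sq, ← pow_mul]
            _ ≤ q.1 + q.2 := g6)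
      refine hmain.trans ?_
      have hYXr : (Y : ℝ) ≤ 2 * X := by exact_mod_cast hYX
      have hY0 : (0 : ℝ) ≤ Y := Nat.cast_nonneg _
      have e1 : (Y : ℝ) ^ (ε / 2) ≤ (2 * X : ℝ) ^ (ε / 2) :=
        Real.rpow_le_rpow hY0 hYXr (by positivity)
      exact mul_le_mul_of_nonneg_right (mul_le_mul_of_nonneg_left e1 hC1.le) hsq
  rw [card_product, card_range, card_univ, Fintype.card_prod, Fintype.card_fin] at b1
  have h11 := hL X hX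
  rw [pow_one] at h11
  refine b1.trans ?_
  have hV0 : (0 : ℝ) ≤ C1 * (2 * X : ℝ) ^ (ε / 2) * Real.sqrt ((R₁ : ℝ) * R₂) := by positivity
  calc ((3 * 3 * (Nat.log 2 X + 1) : ℕ) : ℝ) *
        (C1 * (2 * X : ℝ) ^ (ε / 2) * Real.sqrt ((R₁ : ℝ) * R₂)) ≤
      (9 * (DL * (X : ℝ) ^ (ε / 2))) *
        (C1 * (2 * X : ℝ) ^ (ε / 2) * Real.sqrt ((R₁ : ℝ) * R₂)) := by
        apply mul_le_mul_of_nonneg_right _ hV0
        push_cast at h11 ⊢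
        linarith
    _ = 9 * DL * (C1 * 2 ^ (ε / 2)) * (X : ℝ) ^ ε * Real.sqrt ((R₁ : ℝ) * R₂) := by
        have e1 : (2 * X : ℝ) ^ (ε / 2) = 2 ^ (ε / 2) * (X : ℝ) ^ (ε / 2) :=
          Real.mul_rpow (by norm_num) hX0.le
        have e3 : (X : ℝ) ^ ε = (X : ℝ) ^ (ε / 2) * (X : ℝ) ^ (ε / 2) := by
          rw [← Real.rpow_add hX0, add_halves]
        rw [e1, e3]
        ring

/-- **two members with small radicals** -/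
theorem exceptions_two (ε : ℝ) (hε : 0 < ε) : ∃ M : ℕ, ∃ C : ℝ, 0 < C ∧
    ∀ X R₁ R₂ : ℕ, 1 ≤ X → 1 ≤ R₁ → 1 ≤ R₂ → ∀ Q : Finset (ℕ × ℕ),
    (∀ q ∈ Q, 0 < q.1 ∧ 0 < q.2 ∧ Nat.Coprime q.1 q.2 ∧ rad (q.1 * q.2 * (q.1 + q.2)) ≤ X ∧
      (∃ i j, i ≠ j ∧ rad (num (tri q) i) ≤ R₁ ∧ rad (num (tri q) j) ≤ R₂) ∧
      rad (q.1 * q.2 * (q.1 + q.2)) ^ M ≤ q.1 + q.2) →
    (Q.card : ℝ) ≤ C * (X : ℝ) ^ ε * Real.sqrt ((R₁ : ℝ) * R₂) := by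
  obtain ⟨K, C1, hC1, hc⟩ := box_all (ε / 2) (by positivity)
  obtain ⟨C, hC, h⟩ := two_members_aux ε hε K C1 hC1 hc
  refine ⟨2 * K, C, hC, ?_⟩
  intro X R₁ R₂ hX hR₁ hR₂ Q hQ
  rcases Nat.le_total R₁ R₂ with hle | hle
  · exact h X R₁ R₂ hX hR₁ hle Q hQ
  · rw [mul_comm (R₁ : ℝ)]
    apply h X R₂ R₁ hX hR₂ hle Q
    intro q hq
    obtain ⟨g1, g2, g3, g4, ⟨i, j, g5, g5', g5''⟩, g6⟩ := hQ q hq
    exact ⟨g1, g2, g3, g4, ⟨j, i, g5.symm, g5'', g5'⟩, g6⟩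

end Pool.Agent.T2H20.AH
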