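import Mathlib

/-!
Simultaneous approximation of digits.
-/

set_option autoImplicit false

namespace Pool.Agent.T2H20.AH

open Finset

/-- **simultaneous approximation** -/
theorem dirichlet (S : Finset ℕ) {N Q n : ℕ} (hN : 1 ≤ N) (hQ : 1 ≤ Q) (hc : S.card ≤ n) :
    ∃ b : ℕ, 1 ≤ b ∧ b ≤ Q ^ n ∧ ∃ α : ℕ → ℕ, ∀ δ ∈ S,
      b * δ * Q ≤ α δ * N * Q + N ∧ α δ * N * Q ≤ b * δ * Q + N := by
  classical
  -- boxes
  obtain ⟨f, hf⟩ : ∃ f : ℕ → (S → Fin Q), f = fun b δ =>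
      ⟨(b * δ.1 % N) * Q / N, by
        rw [Nat.div_lt_iff_lt_mul (by omega), mul_comm Q N]
        exact Nat.mul_lt_mul_of_pos_right (Nat.mod_lt _ (by omega)) (by omega)⟩ := ⟨_, rfl⟩
  have hcard : (univ : Finset (S → Fin Q)).card < (range (Q ^ n + 1)).card := by
    rw [card_univ, Fintype.card_fun, Fintype.card_fin, Fintype.card_coe, card_range]
    exact Nat.lt_succ_of_le (Nat.pow_le_pow_right hQ hc)
  obtain ⟨b1, hb1, b2, hb2, hne, heq⟩ := Finset.exists_ne_map_eq_of_card_lt_of_maps_to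
    (f := f) hcard (fun _ _ => mem_coe.2 (mem_univ _))
  rw [mem_range] at hb1 hb2
  wlog hlt : b1 < b2 generalizing b1 b2
  · exact this b2 hb2 b1 hb1 hne.symm heq.symm (by omega)
  refine ⟨b2 - b1, by omega, by omega, fun δ => b2 * δ / N - b1 * δ / N, ?_⟩
  intro δ hδ
  have h1 : (b1 * δ % N) * Q / N = (b2 * δ % N) * Q / N := by
    have := congrFun heq ⟨δ, hδ⟩
    rw [hf] at this
    simpa using this
  have d1 := Nat.div_add_mod (b1 * δ) N
  have d2 := Nat.div_add_mod (b2 * δ) N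
  have hmono : b1 * δ / N ≤ b2 * δ / N :=
    Nat.div_le_div_right (Nat.mul_le_mul_right _ hlt.le)
  have hmul : b1 * δ ≤ b2 * δ := Nat.mul_le_mul_right _ hlt.le
  obtain ⟨u, hu⟩ : ∃ u, u = b1 * δ % N := ⟨_, rfl⟩
  obtain ⟨v, hv⟩ : ∃ v, v = b2 * δ % N := ⟨_, rfl⟩
  obtain ⟨x, hx⟩ : ∃ x, x = b1 * δ / N := ⟨_, rfl⟩
  obtain ⟨y, hy⟩ : ∃ y, y = b2 * δ / N := ⟨_, rfl⟩
  rw [← hu, ← hx] at d1
  rw [← hv, ← hy] at d2
  rw [← hu, ← hv] at h1
  rw [← hx, ← hy] at hmono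
  simp only
  rw [← hx, ← hy]
  -- the remainders
  have hN0 : 0 < N := by omega
  have r1 := Nat.div_add_mod (u * Q) N
  have r2 := Nat.div_add_mod (v * Q) N
  have m1 := Nat.mod_lt (u * Q) hN0
  have m2 := Nat.mod_lt (v * Q) hN0
  rw [h1] at r1
  have c1 : u * Q ≤ v * Q + N := by omega
  have c2 : v * Q ≤ u * Q + N := by omega
  obtain ⟨z, rfl⟩ := Nat.exists_eq_add_of_le hmono
  rw [Nat.add_sub_cancel_left, Nat.sub_mul]
  have e1 : b2 * δ = b1 * δ + (z * N + v - u) ∧ u ≤ z * N + v := by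
    have : N * (x + z) = N * x + z * N := by ring
    omega
  obtain ⟨e1, e2⟩ := e1
  have e3 : (b2 * δ - b1 * δ) * Q = (z * N + v - u) * Q := by
    rw [e1, Nat.add_sub_cancel_left]
  rw [e3, Nat.sub_mul, add_mul]
  have e4 : u * Q ≤ z * N * Q + v * Q := by
    rw [← add_mul]
    exact Nat.mul_le_mul_right _ e2
  omega

end Pool.Agent.T2H20.AH
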