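import Pool.Agent.H374R2.T.TaskI

/-!
An upper bound for an interpolation determinant with real entries.
-/

set_option autoImplicit false

namespace Pool.Agent.T2H20.AH

open Finset Pool.Agent.H374R2.T.TaskI

lemma abs_det_le {n : ℕ} (M : Matrix (Fin n) (Fin n) ℝ) (b : Fin n → ℝ)
    (h : ∀ c a, |M c a| ≤ b c) : |M.det| ≤ n.factorial * ∏ c, b c := by
  rw [Matrix.det_apply]
  calc |∑ σ : Equiv.Perm (Fin n), Equiv.Perm.sign σ • ∏ i, M (σ i) i|
      ≤ ∑ σ : Equiv.Perm (Fin n), |Equiv.Perm.sign σ • ∏ i, M (σ i) i| :=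
        Finset.abs_sum_le_sum_abs _ _
    _ ≤ ∑ _σ : Equiv.Perm (Fin n), ∏ c, b c := by
        apply Finset.sum_le_sum
        intro σ _
        have e1 : |Equiv.Perm.sign σ • ∏ i, M (σ i) i| = ∏ i, |M (σ i) i| := by
          rw [← Finset.abs_prod]
          rcases Int.units_eq_one_or (Equiv.Perm.sign σ) with h1 | h1
          · rw [h1, one_smul]
          · rw [h1, Units.neg_smul, one_smul, abs_neg]
        rw [e1]
        calc ∏ i, |M (σ i) i| ≤ ∏ i, b (σ i) :=
              Finset.prod_le_prod (fun _ _ => abs_nonneg _) fun i _ => h _ _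
          _ = ∏ c, b c := Equiv.prod_comp σ b
    _ = _ := by
        rw [Finset.sum_const, Finset.card_univ, Fintype.card_perm, Fintype.card_fin, nsmul_eq_mul]

lemma sum_exp_le {x : ℝ} (hx : 0 ≤ x) (N : ℕ) :
    ∑ m ∈ range N, x ^ m / (m.factorial : ℝ) ≤ Real.exp x := Real.sum_le_exp_of_nonneg hx N

lemma choose_le (z m : ℕ) {Z : ℝ} (hz : (z : ℝ) ≤ Z) :
    (Nat.choose z m : ℝ) ≤ Z ^ m / (m.factorial : ℝ) := by
  refine (Nat.choose_le_pow_div (α := ℝ) m z).trans ?_
  apply div_le_div_of_nonneg_right _ (Nat.cast_nonneg _)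
  exact pow_le_pow_left₀ (Nat.cast_nonneg _) hz _

/-- the sum over the indices of one column -/
lemma col_sum (M K k : ℕ) :
    ∑ p : Fin M × Fin M, ((if k ≤ (p.1 : ℕ) then
      (K : ℝ) ^ ((p.1 : ℕ) - k) / (((p.1 : ℕ) - k).factorial : ℝ) else 0) *
        (1 / ((p.2 : ℕ).factorial : ℝ))) ≤ Real.exp K * Real.exp 1 := by
  rw [Fintype.sum_prod_type]
  simp only
  have h1 : ∀ x : Fin M, ∑ y : Fin M, ((if k ≤ (x : ℕ) then
      (K : ℝ) ^ ((x : ℕ) - k) / (((x : ℕ) - k).factorial : ℝ) else 0) *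
        (1 / ((y : ℕ).factorial : ℝ))) = (if k ≤ (x : ℕ) then
      (K : ℝ) ^ ((x : ℕ) - k) / (((x : ℕ) - k).factorial : ℝ) else 0) *
        ∑ y : Fin M, (1 / ((y : ℕ).factorial : ℝ)) := fun x => by rw [Finset.mul_sum]
  rw [Finset.sum_congr rfl fun x _ => h1 x, ← Finset.sum_mul]
  have h2 : ∑ y : Fin M, (1 / ((y : ℕ).factorial : ℝ)) ≤ Real.exp 1 := by
    refine le_trans (le_of_eq ?_) (sum_exp_le (x := 1) zero_le_one M)
    rw [Finset.sum_range]
    apply Finset.sum_congr rfl
    intro y _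
    rw [one_pow]
  have h3 : ∑ x : Fin M, (if k ≤ (x : ℕ) then
      (K : ℝ) ^ ((x : ℕ) - k) / (((x : ℕ) - k).factorial : ℝ) else 0) ≤ Real.exp K := by
    have e1 : ∑ x : Fin M, (if k ≤ (x : ℕ) then
        (K : ℝ) ^ ((x : ℕ) - k) / (((x : ℕ) - k).factorial : ℝ) else 0) =
        ∑ x ∈ (range M).filter (fun x => k ≤ x),
          (K : ℝ) ^ (x - k) / ((x - k).factorial : ℝ) := by
      rw [Finset.sum_filter, Finset.sum_range]
    rw [e1]
    calc ∑ x ∈ (range M).filter (fun x => k ≤ x), (K : ℝ) ^ (x - k) / ((x - k).factorial : ℝ)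
        = ∑ x ∈ ((range M).filter (fun x => k ≤ x)).image (fun x => x - k),
          (K : ℝ) ^ x / (x.factorial : ℝ) := by
          rw [Finset.sum_image]
          intro x hx y hy h
          have hx' := (mem_filter.1 (mem_coe.1 hx)).2
          have hy' := (mem_filter.1 (mem_coe.1 hy)).2
          simp only at h
          omega
      _ ≤ ∑ x ∈ range M, (K : ℝ) ^ x / (x.factorial : ℝ) := by
          apply Finset.sum_le_sum_of_subset_of_nonneg
          · intro x hx
            obtain ⟨y, hy, rfl⟩ := mem_image.1 hx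
            have := mem_range.1 (mem_filter.1 hy).1
            exact mem_range.2 (by omega)
          · intro x _ _
            positivity
      _ ≤ Real.exp K := sum_exp_le (Nat.cast_nonneg _) M
  exact mul_le_mul h3 h2 (Finset.sum_nonneg fun y _ => by positivity) (Real.exp_pos _).le

theorem det_small {n K Y : ℕ} (z s k l : Fin n → ℕ) (hk : ∀ c, k c ≤ K) (hnY : n ≤ Y)
    (Un : Fin n → ℝ) {β ω Um Zm Sm G δ : ℝ} (hUn : ∀ a, |Un a| ≤ Um)
    (hz : ∀ a, (z a : ℝ) ≤ Zm) (hs : ∀ a, (s a : ℝ) ≤ Sm) (hUm : 0 ≤ Um) (hZm : 0 ≤ Zm)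
    (hSm : 0 ≤ Sm) (hG0 : 0 ≤ G) (hδ0 : 0 ≤ δ) (hδ1 : δ ≤ 1)
    (h1 : ∀ c, Zm * |β ^ (l c) - 1| ≤ K * δ) (h2 : ∀ c, Sm * |ω ^ (l c) - 1| ≤ δ ^ Y)
    (hG : ∀ c, Zm ^ (k c) / ((k c).factorial : ℝ) * |β ^ (l c)| ^ (k c) ≤ G) :
    |Matrix.det (Matrix.of fun a c : Fin n => Un a * ((Nat.choose (z a) (k c) : ℝ) *
      (β ^ (l c)) ^ (z a) * (ω ^ (l c)) ^ (s a)))| ≤
      n.factorial * (Um * (G * (Real.exp K * Real.exp 1))) ^ n *
        δ ^ (n * (n - 1) / 2 - n * K) := by
  classical
  obtain ⟨W, hW⟩ : ∃ W, W = n * (n - 1) / 2 - n * K := ⟨_, rfl⟩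
  rw [← hW]
  let M : ℕ := (∑ a, (z a + s a)) + 1
  have hzM : ∀ a, z a < M := fun a => by
    have := Finset.single_le_sum (f := fun a => z a + s a) (fun a _ => Nat.zero_le _)
      (Finset.mem_univ a)
    show _ < (∑ a, (z a + s a)) + 1
    omega
  have htM : ∀ a, s a < M := fun a => by
    have := Finset.single_le_sum (f := fun a => z a + s a) (fun a _ => Nat.zero_le _)
      (Finset.mem_univ a)
    show _ < (∑ a, (z a + s a)) + 1
    omega
  let A : Fin n → Fin M × Fin M → ℝ := fun a p =>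
    Un a * ((Nat.choose (z a) p.1 : ℝ) * (Nat.choose (s a) p.2 : ℝ))
  let C : Fin M × Fin M → Fin n → ℝ := fun p c =>
    ((Nat.choose (p.1 : ℕ) (k c) : ℝ) * (β ^ l c) ^ k c * (β ^ l c - 1) ^ ((p.1 : ℕ) - k c)) *
      (ω ^ l c - 1) ^ (p.2 : ℕ)
  have hentry : (Matrix.of fun a c : Fin n => Un a * ((Nat.choose (z a) (k c) : ℝ) *
      (β ^ (l c)) ^ (z a) * (ω ^ (l c)) ^ (s a))) =
      Matrix.of fun a c => ∑ p, A a p * C p c := by
    ext a c
    simp only [Matrix.of_apply]
    rw [expand_choose _ (z a) (k c) M (hzM a), expand_pow _ (s a) M (htM a),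
      Finset.sum_mul_sum, Finset.mul_sum, Fintype.sum_prod_type, Finset.sum_range]
    refine Finset.sum_congr rfl fun m _ => ?_
    rw [Finset.mul_sum, Finset.sum_range]
    refine Finset.sum_congr rfl fun j _ => ?_
    simp only [A, C]
    ring
  rw [hentry, det_expand]
  -- the terms
  let V : Fin n → Fin M × Fin M → ℝ := fun c p => (Um * G) * ((if k c ≤ (p.1 : ℕ) then
      (K : ℝ) ^ ((p.1 : ℕ) - k c) / (((p.1 : ℕ) - k c).factorial : ℝ) else 0) *
        (1 / ((p.2 : ℕ).factorial : ℝ)))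
  have hV0 : ∀ c p, 0 ≤ V c p := by
    intro c p
    simp only [V]
    split_ifs <;> positivity
  have hterm : ∀ c p, |C p c| * (Um * (Zm ^ (p.1 : ℕ) / ((p.1 : ℕ).factorial : ℝ) *
      (Sm ^ (p.2 : ℕ) / ((p.2 : ℕ).factorial : ℝ)))) ≤
      V c p * δ ^ (((p.1 : ℕ) - k c) + Y * (p.2 : ℕ)) := by
    intro c p
    simp only [C, V]
    by_cases hkm : k c ≤ (p.1 : ℕ)
    · rw [if_pos hkm]
      obtain ⟨j, hj⟩ := Nat.exists_eq_add_of_le hkm
      rw [hj, Nat.add_sub_cancel_left, abs_mul, abs_mul, abs_mul, Nat.abs_cast,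
        abs_pow (β ^ l c) (k c), abs_pow (β ^ l c - 1), abs_pow (ω ^ l c - 1)]
      obtain ⟨t, ht⟩ : ∃ t, t = (p.2 : ℕ) := ⟨_, rfl⟩
      rw [← ht]
      have hch : ((k c + j).choose (k c) : ℝ) / ((k c + j).factorial : ℝ) =
          1 / ((k c).factorial : ℝ) * (1 / (j.factorial : ℝ)) := by
        have h3 := Nat.add_choose_mul_factorial_mul_factorial (k c) j
        rw [← Nat.choose_symm_add] at h3
        have h4 : ((k c + j).choose (k c) : ℝ) * ((k c).factorial : ℝ) * (j.factorial : ℝ) =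
            ((k c + j).factorial : ℝ) := by exact_mod_cast h3
        have f1 : ((k c).factorial : ℝ) ≠ 0 := by positivity
        have f2 : (j.factorial : ℝ) ≠ 0 := by positivity
        have f3 : ((k c + j).factorial : ℝ) ≠ 0 := by positivity
        field_simp
        linarith
      have e1 : ((k c + j).choose (k c) : ℝ) * |β ^ l c| ^ k c * |β ^ l c - 1| ^ j *
          |ω ^ l c - 1| ^ t * (Um * (Zm ^ (k c + j) / ((k c + j).factorial : ℝ) *
            (Sm ^ t / (t.factorial : ℝ)))) =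
          Um * (Zm ^ (k c) / ((k c).factorial : ℝ) * |β ^ (l c)| ^ (k c)) *
            ((Zm * |β ^ (l c) - 1|) ^ j / (j.factorial : ℝ)) *
            ((Sm * |ω ^ (l c) - 1|) ^ t / (t.factorial : ℝ)) := by
        calc _ = (((k c + j).choose (k c) : ℝ) / ((k c + j).factorial : ℝ)) *
              (Um * |β ^ l c| ^ k c * |β ^ l c - 1| ^ j * |ω ^ l c - 1| ^ t * Zm ^ (k c + j) *
                (Sm ^ t / (t.factorial : ℝ))) := by ring
          _ = _ := by rw [hch, pow_add, mul_pow, mul_pow]; ring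
      rw [e1]
      have e2 : Um * G * ((K : ℝ) ^ j / (j.factorial : ℝ) * (1 / (t.factorial : ℝ))) *
          δ ^ (j + Y * t) =
          Um * G * ((K * δ) ^ j / (j.factorial : ℝ)) * ((δ ^ Y) ^ t / (t.factorial : ℝ)) := by
        rw [pow_add, mul_pow, ← pow_mul]; ring
      rw [e2]
      have b1 := hG c
      have b2 : (Zm * |β ^ (l c) - 1|) ^ j ≤ (K * δ) ^ j :=
        pow_le_pow_left₀ (mul_nonneg hZm (abs_nonneg _)) (h1 c) _
      have b3 : (Sm * |ω ^ (l c) - 1|) ^ t ≤ (δ ^ Y) ^ t :=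
        pow_le_pow_left₀ (mul_nonneg hSm (abs_nonneg _)) (h2 c) _
      have p1 : 0 ≤ (Zm * |β ^ (l c) - 1|) ^ j := pow_nonneg (mul_nonneg hZm (abs_nonneg _)) _
      have p2 : 0 ≤ (Sm * |ω ^ (l c) - 1|) ^ t := pow_nonneg (mul_nonneg hSm (abs_nonneg _)) _
      apply mul_le_mul
      · apply mul_le_mul
        · exact mul_le_mul_of_nonneg_left b1 hUm
        · exact div_le_div_of_nonneg_right b2 (Nat.cast_nonneg _)
        · exact div_nonneg p1 (Nat.cast_nonneg _)
        · exact mul_nonneg hUm hG0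
      · exact div_le_div_of_nonneg_right b3 (Nat.cast_nonneg _)
      · exact div_nonneg p2 (Nat.cast_nonneg _)
      · positivity
    · rw [if_neg hkm, Nat.choose_eq_zero_of_lt (not_le.1 hkm), Nat.cast_zero]
      simp
  have hdetb : ∀ f : Fin n → Fin M × Fin M,
      |Matrix.det (Matrix.of fun c a => A a (f c))| ≤ n.factorial *
        ∏ c, (Um * (Zm ^ ((f c).1 : ℕ) / (((f c).1 : ℕ).factorial : ℝ) *
          (Sm ^ ((f c).2 : ℕ) / (((f c).2 : ℕ).factorial : ℝ)))) := by
    intro f
    apply abs_det_le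
    intro c a
    simp only [Matrix.of_apply, A]
    rw [abs_mul, abs_mul, Nat.abs_cast, Nat.abs_cast]
    apply mul_le_mul (hUn a) _ (by positivity) hUm
    apply mul_le_mul (choose_le _ _ (hz a)) (choose_le _ _ (hs a)) (Nat.cast_nonneg _)
    positivity
  calc |∑ f : Fin n → Fin M × Fin M, (∏ c, C (f c) c) *
        Matrix.det (Matrix.of fun c a => A a (f c))|
      ≤ ∑ f : Fin n → Fin M × Fin M, |(∏ c, C (f c) c) *
        Matrix.det (Matrix.of fun c a => A a (f c))| := Finset.abs_sum_le_sum_abs _ _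
    _ ≤ ∑ f : Fin n → Fin M × Fin M, (n.factorial * ∏ c, V c (f c)) * δ ^ W := by
        apply Finset.sum_le_sum
        intro f _
        have hVf : 0 ≤ ∏ c, V c (f c) := Finset.prod_nonneg fun c _ => hV0 c _
        by_cases hf : Function.Injective f
        · have hinj : Function.Injective (fun c => (((f c).1 : ℕ), ((f c).2 : ℕ))) := by
            intro c c' h
            rw [Prod.mk.injEq] at h
            exact hf (Prod.ext (Fin.ext h.1) (Fin.ext h.2))
          have hw := weight hnY _ hinj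
          simp only at hw
          have hE : W ≤ ∑ c, ((((f c).1 : ℕ) - k c) + Y * ((f c).2 : ℕ)) := by
            have h1 : ∑ c, (((f c).1 : ℕ) + Y * ((f c).2 : ℕ)) ≤
                ∑ c, (((((f c).1 : ℕ) - k c) + Y * ((f c).2 : ℕ)) + K) := by
              refine Finset.sum_le_sum fun c _ => ?_
              have := hk c
              omega
            rw [Finset.sum_add_distrib (g := fun _ => K), Finset.sum_const, Finset.card_univ,
              Fintype.card_fin, smul_eq_mul] at h1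
            omega
          rw [abs_mul, Finset.abs_prod]
          calc (∏ c, |C (f c) c|) * |Matrix.det (Matrix.of fun c a => A a (f c))|
              ≤ (∏ c, |C (f c) c|) * (n.factorial *
                ∏ c, (Um * (Zm ^ ((f c).1 : ℕ) / (((f c).1 : ℕ).factorial : ℝ) *
                (Sm ^ ((f c).2 : ℕ) / (((f c).2 : ℕ).factorial : ℝ))))) :=
                mul_le_mul_of_nonneg_left (hdetb f) (Finset.prod_nonneg fun _ _ => abs_nonneg _)
            _ = n.factorial * ∏ c, (|C (f c) c| *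
                (Um * (Zm ^ ((f c).1 : ℕ) / (((f c).1 : ℕ).factorial : ℝ) *
                (Sm ^ ((f c).2 : ℕ) / (((f c).2 : ℕ).factorial : ℝ))))) := by
                rw [Finset.prod_mul_distrib (f := fun c => |C (f c) c|)]; ring
            _ ≤ n.factorial * ∏ c, (V c (f c) *
                δ ^ ((((f c).1 : ℕ) - k c) + Y * ((f c).2 : ℕ))) := by
                apply mul_le_mul_of_nonneg_left _ (Nat.cast_nonneg _)
                apply Finset.prod_le_prod
                · intro c _; positivity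
                · intro c _; exact hterm c (f c)
            _ = (n.factorial * ∏ c, V c (f c)) *
                δ ^ (∑ c, ((((f c).1 : ℕ) - k c) + Y * ((f c).2 : ℕ))) := by
                rw [Finset.prod_mul_distrib (f := fun c => V c (f c)),
                  Finset.prod_pow_eq_pow_sum, mul_assoc]
            _ ≤ (n.factorial * ∏ c, V c (f c)) * δ ^ W := by
                apply mul_le_mul_of_nonneg_left _ (by positivity)
                exact pow_le_pow_of_le_one hδ0 hδ1 hE
        · rw [Function.not_injective_iff] at hf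
          obtain ⟨c, c', h1, h2⟩ := hf
          rw [Matrix.det_zero_of_row_eq h2, mul_zero, abs_zero]
          · positivity
          · ext a
            simp only [Matrix.of_apply, h1]
    _ = (n.factorial * ∑ f : Fin n → Fin M × Fin M, ∏ c, V c (f c)) * δ ^ W := by
        rw [← Finset.sum_mul, ← Finset.mul_sum]
    _ = (n.factorial * ∏ c, ∑ p, V c p) * δ ^ W := by
        rw [Finset.prod_univ_sum, Fintype.piFinset_univ]
    _ ≤ (n.factorial * ∏ _c : Fin n, (Um * (G * (Real.exp K * Real.exp 1)))) * δ ^ W := by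
        apply mul_le_mul_of_nonneg_right _ (pow_nonneg hδ0 _)
        apply mul_le_mul_of_nonneg_left _ (Nat.cast_nonneg _)
        apply Finset.prod_le_prod
        · intro c _
          exact Finset.sum_nonneg fun p _ => hV0 c p
        · intro c _
          simp only [V]
          rw [← Finset.mul_sum, ← mul_assoc Um G]
          exact mul_le_mul_of_nonneg_left (col_sum M K (k c)) (by positivity)
    _ = _ := by
        rw [Finset.prod_const, Finset.card_univ, Fintype.card_fin]

end Pool.Agent.T2H20.AH
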