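import Pool.Agent.T2H20.AH.CS
import Pool.Agent.Y911.AA.Two
import Pool.Agent.H785R2.ABC.Defs

/-!
Units modulo `f` which are quotients of small integers, and the energy of one variable.
-/

set_option autoImplicit false

namespace Pool.Agent.T2H20.AH

open Finset Pool.Agent.H785R2.ABC

/-- the unit of an integer -/
noncomputable def un (f a : ℕ) : (ZMod f)ˣ :=
  open Classical in if h : a.Coprime f then ZMod.unitOfCoprime a h else 1

lemma un_coe {f a : ℕ} (h : a.Coprime f) : ((un f a : (ZMod f)ˣ) : ZMod f) = (a : ZMod f) := by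
  unfold un
  rw [dif_pos h]
  exact ZMod.coe_unitOfCoprime a h

lemma un_mul {f a b : ℕ} (ha : a.Coprime f) (hb : b.Coprime f) :
    un f (a * b) = un f a * un f b := by
  rw [← Units.val_inj, Units.val_mul, un_coe ha, un_coe hb, un_coe (Nat.Coprime.mul_left ha hb)]
  push_cast
  rfl

lemma un_prod {f : ℕ} {ι : Type*} (s : Finset ι) (a : ι → ℕ) (h : ∀ i ∈ s, (a i).Coprime f) :
    un f (∏ i ∈ s, a i) = ∏ i ∈ s, un f (a i) := by
  have h1 : (∏ i ∈ s, a i).Coprime f := Nat.Coprime.prod_left h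
  rw [← Units.val_inj, un_coe h1, Units.coe_prod]
  push_cast
  exact Finset.prod_congr rfl fun i hi => (un_coe (h i hi)).symm

/-- quotients of integers up to `Λ ^ c` -/
def Sm (f Λ c : ℕ) (x : (ZMod f)ˣ) : Prop :=
  ∃ A B : ℕ, 0 < A ∧ 0 < B ∧ A.Coprime f ∧ B.Coprime f ∧ A ≤ Λ ^ c ∧ B ≤ Λ ^ c ∧
    (x : ZMod f) * (B : ZMod f) = (A : ZMod f)

lemma balls_Sm {f Λ : ℕ} (hΛ : 1 ≤ Λ) : Balls (Sm f Λ) := by
  refine ⟨?_, ?_, ?_⟩
  · intro c
    exact ⟨1, 1, one_pos, one_pos, Nat.coprime_one_left _, Nat.coprime_one_left _,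
      Nat.one_le_pow _ _ hΛ, Nat.one_le_pow _ _ hΛ, by simp⟩
  · rintro c x ⟨A, B, hA, hB, cA, cB, lA, lB, h⟩
    refine ⟨B, A, hB, hA, cB, cA, lB, lA, ?_⟩
    rw [← h, ← mul_assoc, ← Units.val_mul, inv_mul_cancel, Units.val_one, one_mul]
  · rintro c d x y ⟨A, B, hA, hB, cA, cB, lA, lB, h⟩ ⟨A', B', hA', hB', cA', cB', lA', lB', h'⟩
    refine ⟨A * A', B * B', Nat.mul_pos hA hA', Nat.mul_pos hB hB', cA.mul_left cA',
      cB.mul_left cB', ?_, ?_, ?_⟩
    · rw [pow_add]; exact Nat.mul_le_mul lA lA'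
    · rw [pow_add]; exact Nat.mul_le_mul lB lB'
    · push_cast
      rw [← h, ← h']
      ring

/-- the part of `v` above `rad v ^ E` -/
def ex (E v : ℕ) : ℕ := ∏ p ∈ v.primeFactors, p ^ (v.factorization p - E)

lemma rad_pos' (n : ℕ) : 0 < rad n :=
  Finset.prod_pos fun _ hp => (Nat.prime_of_mem_primeFactors hp).pos

lemma ex_pos (E v : ℕ) : 0 < ex E v :=
  Finset.prod_pos fun _ hp => pow_pos (Nat.prime_of_mem_primeFactors hp).pos _

lemma rad_ex {E v : ℕ} (hv : v ≠ 0) (h : ∀ p ∈ v.primeFactors, E ≤ v.factorization p) :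
    rad v ^ E * ex E v = v := by
  unfold rad ex
  rw [← Finset.prod_pow, ← Finset.prod_mul_distrib]
  conv_rhs => rw [← Nat.prod_factorization_pow_eq_self hv]
  apply Finset.prod_congr rfl
  intro p hp
  rw [← pow_add, Nat.add_sub_cancel' (h p hp)]

lemma ex_le {E W v : ℕ} (h : ∀ p ∈ v.primeFactors, v.factorization p ≤ E + W) :
    ex E v ≤ rad v ^ W := by
  unfold rad ex
  rw [← Finset.prod_pow]
  apply Finset.prod_le_prod' 
  intro p hp
  exact Nat.pow_le_pow_right (Nat.prime_of_mem_primeFactors hp).pos (by have := h p hp; omega)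

lemma rad_dvd' (v : ℕ) : rad v ∣ v := Nat.prod_primeFactors_dvd v

/-- numbers with nearly equal exponents -/
structure Var (D E W N v : ℕ) : Prop where
  pos : 0 < v
  cop : v.Coprime D
  rad_le : rad v ≤ N
  lo : ∀ p ∈ v.primeFactors, E ≤ v.factorization p
  hi : ∀ p ∈ v.primeFactors, v.factorization p ≤ E + W

/-- the numerical conditions of `core` -/
structure Num (D E W N U Z Λ c m g h ν : ℕ) : Prop where
  gD : 2 ^ g ≤ D
  g8 : 8 ≤ g
  gh : g ≤ h
  gν : g ≤ ν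
  hh : N ^ m < 2 ^ h
  hν : (N ^ m) ^ (W * U) * Λ ^ c < 2 ^ ν
  e1 : 141 * ν ≤ g * (E * U)
  e2 : E * U * g ≤ 2 ^ (g / 4) * ν
  e3 : 20000 * h * ν ≤ Z * g ^ 2

/-- two tuples at a small distance with congruent products of radicals -/
lemma tuple_rad {D E W N U Z Λ c m g h ν : ℕ} (H : Num D E W N U Z Λ c m g h ν) {ι : Type*}
    [Fintype ι] (hm : Fintype.card ι = m) (y y' : ι → ℕ) (hy : ∀ i, Var D E W N (y i))
    (hy' : ∀ i, Var D E W N (y' i))
    (hrel : Sm (D ^ Z) Λ c ((∏ i, un (D ^ Z) (y i) ^ U) * (∏ i, un (D ^ Z) (y' i) ^ U)⁻¹))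
    (hmod : ((∏ i, rad (y i) : ℕ) : ZMod D) = ((∏ i, rad (y' i) : ℕ) : ZMod D)) :
    ∏ i, rad (y i) = ∏ i, rad (y' i) := by
  obtain ⟨A, B, hA, hB, cA, cB, lA, lB, h0⟩ := hrel
  have hcop : ∀ {v : ℕ}, v.Coprime D → v.Coprime (D ^ Z) := fun hv => Nat.Coprime.pow_right Z hv
  have hZ0 : Z ≠ 0 := by
    rintro rfl
    have h1 := H.e3
    have h2 := H.gh
    have h3 := H.gν
    have h4 := H.g8
    have h5 : 0 < 20000 * h * ν := Nat.mul_pos (by omega) (by omega)
    omega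
  have hcopD : ∀ {v : ℕ}, v.Coprime (D ^ Z) → v.Coprime D := fun hv =>
    Nat.Coprime.coprime_dvd_right (dvd_pow_self D hZ0) hv
  -- products
  have hprod : ∀ z : ι → ℕ, (∀ i, Var D E W N (z i)) →
      (((∏ i, un (D ^ Z) (z i) ^ U : (ZMod (D ^ Z))ˣ)) : ZMod (D ^ Z)) =
        (((∏ i, rad (z i)) ^ (E * U) * (∏ i, ex E (z i)) ^ U : ℕ) : ZMod (D ^ Z)) := by
    intro z hz
    rw [Units.coe_prod]
    have h1 : ∀ i ∈ (univ : Finset ι), (((un (D ^ Z) (z i)) ^ U : (ZMod (D ^ Z))ˣ) : ZMod (D ^ Z)) =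
        ((rad (z i) ^ E * ex E (z i) : ℕ) : ZMod (D ^ Z)) ^ U := by
      intro i _
      rw [Units.val_pow_eq_pow_val, un_coe (hcop (hz i).cop), rad_ex (hz i).pos.ne' (hz i).lo]
    rw [Finset.prod_congr rfl h1, Finset.prod_pow]
    push_cast
    rw [Finset.prod_mul_distrib, mul_pow, pow_mul, Finset.prod_pow]
  have hrcop : ∀ z : ι → ℕ, (∀ i, Var D E W N (z i)) → (∏ i, rad (z i)).Coprime D := by
    intro z hz
    apply Nat.Coprime.prod_left
    intro i _
    exact Nat.Coprime.coprime_dvd_left (rad_dvd' _) (hz i).cop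
  have hecop : ∀ z : ι → ℕ, (∀ i, Var D E W N (z i)) → (∏ i, ex E (z i)).Coprime D := by
    intro z hz
    apply Nat.Coprime.prod_left
    intro i _
    refine Nat.Coprime.coprime_dvd_left ⟨rad (z i) ^ E, ?_⟩ (hz i).cop
    rw [mul_comm]
    exact (rad_ex (hz i).pos.ne' (hz i).lo).symm
  have hsz : ∀ z : ι → ℕ, (∀ i, Var D E W N (z i)) → ∏ i, rad (z i) ≤ N ^ m := by
    intro z hz
    calc ∏ i, rad (z i) ≤ ∏ _i : ι, N := Finset.prod_le_prod' fun i _ => (hz i).rad_le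
      _ = N ^ m := by rw [Finset.prod_const, Finset.card_univ, hm]
  have hez : ∀ z : ι → ℕ, (∀ i, Var D E W N (z i)) → ∏ i, ex E (z i) ≤ (N ^ m) ^ W := by
    intro z hz
    calc ∏ i, ex E (z i) ≤ ∏ i, rad (z i) ^ W :=
          Finset.prod_le_prod' fun i _ => ex_le (hz i).hi
      _ = (∏ i, rad (z i)) ^ W := Finset.prod_pow _ _ _
      _ ≤ (N ^ m) ^ W := Nat.pow_le_pow_left (hsz z hz) _
  have hrel' : (∏ i, rad (y i)) ^ (E * U) * ((∏ i, ex E (y i)) ^ U * B) ≡
      (∏ i, rad (y' i)) ^ (E * U) * ((∏ i, ex E (y' i)) ^ U * A) [MOD D ^ Z] := by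
    rw [← ZMod.natCast_eq_natCast_iff]
    have e1 := hprod y hy
    have e2 := hprod y' hy'
    have h2 : ((∏ i, un (D ^ Z) (y i) ^ U : (ZMod (D ^ Z))ˣ) : ZMod (D ^ Z)) * (B : ZMod (D ^ Z)) =
        ((∏ i, un (D ^ Z) (y' i) ^ U : (ZMod (D ^ Z))ˣ) : ZMod (D ^ Z)) * (A : ZMod (D ^ Z)) := by
      rw [← h0, Units.val_mul]
      calc ((∏ i, un (D ^ Z) (y i) ^ U : (ZMod (D ^ Z))ˣ) : ZMod (D ^ Z)) * (B : ZMod (D ^ Z)) =
          (((∏ i, un (D ^ Z) (y' i) ^ U) * (∏ i, un (D ^ Z) (y' i) ^ U)⁻¹ : (ZMod (D ^ Z))ˣ) :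
            ZMod (D ^ Z)) *
          (((∏ i, un (D ^ Z) (y i) ^ U : (ZMod (D ^ Z))ˣ) : ZMod (D ^ Z)) * (B : ZMod (D ^ Z))) := by
            rw [mul_inv_cancel, Units.val_one, one_mul]
        _ = _ := by rw [Units.val_mul]; ring
    rw [e1, e2] at h2
    push_cast at h2 ⊢
    calc (∏ i, (rad (y i) : ZMod (D ^ Z))) ^ (E * U) *
        ((∏ i, (ex E (y i) : ZMod (D ^ Z))) ^ U * (B : ZMod (D ^ Z))) =
        (∏ i, (rad (y i) : ZMod (D ^ Z))) ^ (E * U) *
        (∏ i, (ex E (y i) : ZMod (D ^ Z))) ^ U * (B : ZMod (D ^ Z)) := by ring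
      _ = _ := by rw [h2]; ring
  have hsize : ∀ z : ι → ℕ, (∀ i, Var D E W N (z i)) → ∀ C ≤ Λ ^ c,
      (∏ i, ex E (z i)) ^ U * C < 2 ^ ν := by
    intro z hz C hC
    refine lt_of_le_of_lt ?_ H.hν
    refine Nat.mul_le_mul ?_ hC
    calc (∏ i, ex E (z i)) ^ U ≤ ((N ^ m) ^ W) ^ U := Nat.pow_le_pow_left (hez z hz) _
      _ = (N ^ m) ^ (W * U) := by rw [← pow_mul]
  have hpos : ∀ z : ι → ℕ, (∀ i, Var D E W N (z i)) → 0 < (∏ i, ex E (z i)) ^ U :=
    fun z _ => pow_pos (Finset.prod_pos fun i _ => ex_pos _ _) _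
  refine (Pool.Agent.Y911.AA.core (D := D) (g := g) (h := h) (ν := ν) (q := E * U) (Y := Z)
    (a := ∏ i, rad (y i)) (b := ∏ i, rad (y' i)) (A := (∏ i, ex E (y' i)) ^ U * A)
    (B := (∏ i, ex E (y i)) ^ U * B)
    H.gD H.g8 H.gh H.gν (Finset.prod_pos fun i _ => rad_pos' _)
    (Finset.prod_pos fun i _ => rad_pos' _) (Nat.mul_pos (hpos y' hy') hA)
    (Nat.mul_pos (hpos y hy) hB) (lt_of_le_of_lt (hsz y hy) H.hh)
    (lt_of_le_of_lt (hsz y' hy') H.hh) (hsize y' hy' A lA) (hsize y hy B lB)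
    (hrcop y hy) (hrcop y' hy')
    (((hecop y' hy').pow_left U).mul_left (hcopD cA))
    (((hecop y hy).pow_left U).mul_left (hcopD cB)) ?_ hrel' H.e1 H.e2 H.e3).1
  exact (ZMod.natCast_eq_natCast_iff _ _ _).1 hmod

/-- **The energy of one variable.** -/
theorem energy_one {D E W N U Z Λ c d g h ν T K : ℕ} (hD : 0 < D) (hΛ : 1 ≤ Λ)
    (H : Num D E W N U Z Λ (2 * c) (2 ^ d) g h ν)
    (A : Finset ℕ) (hA : ∀ v ∈ A, Var D E W N v)
    (hT : ∀ s : ℕ, 0 < s → s ≤ N ^ (2 ^ d) → s.divisors.card ≤ T)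
    (hK : ∀ r : ℕ, (A.filter fun v => rad v = r).card ≤ K) :
    en (Sm (D ^ Z) Λ) c (tup d fun _ => A) (fun x => ∏ i, (un (D ^ Z) (x i)) ^ U) ≤
      A.card ^ (2 ^ d) * (D * (T * K) ^ (2 ^ d)) := by
  classical
  have hΓ : Balls (Sm (D ^ Z) Λ) := balls_Sm hΛ
  obtain ⟨a, ha⟩ : ∃ a : (Ix d → ℕ) → (ZMod (D ^ Z))ˣ,
      a = fun x => ∏ i, (un (D ^ Z) (x i)) ^ U := ⟨_, rfl⟩
  obtain ⟨S, hS⟩ : ∃ S : (Ix d → ℕ) → ℕ, S = fun x => ∏ i, rad (x i) := ⟨_, rfl⟩
  rw [← ha]
  have hcardT : (tup d fun _ => A).card = A.card ^ (2 ^ d) := by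
    unfold tup
    rw [Fintype.card_piFinset, Finset.prod_const, Finset.card_univ, card_Ix]
  -- tuples with a given product of radicals
  have hfib : ∀ s : ℕ, 0 < s → s ≤ N ^ (2 ^ d) →
      ((tup d fun _ => A).filter fun y => S y = s).card ≤ (T * K) ^ (2 ^ d) := by
    intro s hs hs'
    obtain ⟨B, hB⟩ : ∃ B : Finset ℕ, B = A.filter fun v => rad v ∈ s.divisors := ⟨_, rfl⟩
    have hBc : B.card ≤ T * K := by
      have h1 : B.card = ∑ r ∈ s.divisors, (B.filter fun v => rad v = r).card := by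
        apply card_eq_sum_card_fiberwise
        intro v hv
        have hv' := mem_coe.1 hv
        rw [hB, mem_filter] at hv'
        exact mem_coe.2 hv'.2
      rw [h1]
      calc ∑ r ∈ s.divisors, (B.filter fun v => rad v = r).card ≤ ∑ _r ∈ s.divisors, K := by
            apply sum_le_sum
            intro r _
            refine le_trans (card_le_card ?_) (hK r)
            intro v hv
            rw [hB, mem_filter, mem_filter] at hv
            exact mem_filter.2 ⟨hv.1.1, hv.2⟩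
        _ = s.divisors.card * K := by rw [sum_const, smul_eq_mul]
        _ ≤ T * K := Nat.mul_le_mul_right _ (hT s hs hs')
    have hsub : ((tup d fun _ => A).filter fun y => S y = s) ⊆ tup d fun _ => B := by
      intro y hy
      rw [mem_filter, mem_tup] at hy
      rw [mem_tup]
      intro i
      rw [hB, mem_filter]
      refine ⟨hy.1 i, ?_⟩
      rw [Nat.mem_divisors]
      refine ⟨?_, hs.ne'⟩
      rw [← hy.2, hS]
      exact Finset.dvd_prod_of_mem _ (mem_univ i)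
    refine (card_le_card hsub).trans ?_
    unfold tup
    rw [Fintype.card_piFinset, Finset.prod_const, Finset.card_univ, card_Ix]
    exact Nat.pow_le_pow_left hBc _
  -- fix `x`
  have hx : ∀ x ∈ tup d fun _ => A,
      ((tup d fun _ => A).filter fun y => Sm (D ^ Z) Λ c (a x * (a y)⁻¹)).card ≤
        D * (T * K) ^ (2 ^ d) := by
    intro x hx
    set F := (tup d fun _ => A).filter fun y => Sm (D ^ Z) Λ c (a x * (a y)⁻¹) with hF
    have : NeZero D := ⟨hD.ne'⟩
    have h1 : F.card = ∑ κ : ZMod D, (F.filter fun y => ((S y : ℕ) : ZMod D) = κ).card :=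
      card_eq_sum_card_fiberwise fun _ _ => mem_coe.2 (mem_univ _)
    rw [h1]
    calc ∑ κ : ZMod D, (F.filter fun y => ((S y : ℕ) : ZMod D) = κ).card
        ≤ ∑ _κ : ZMod D, (T * K) ^ (2 ^ d) := by
          apply sum_le_sum
          intro κ _
          rcases (F.filter fun y => ((S y : ℕ) : ZMod D) = κ).eq_empty_or_nonempty with h0 | ⟨y0, hy0⟩
          · rw [h0, card_empty]; exact Nat.zero_le _
          rw [mem_filter] at hy0
          have hy0F := hy0.1
          rw [hF, mem_filter, mem_tup] at hy0F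
          have hVar0 : ∀ i, Var D E W N (y0 i) := fun i => hA _ (hy0F.1 i)
          refine le_trans (card_le_card ?_) (hfib (S y0) ?_ ?_)
          · intro y hy
            rw [mem_filter] at hy
            have hyF := hy.1
            rw [hF, mem_filter, mem_tup] at hyF
            rw [mem_filter, mem_tup]
            refine ⟨hyF.1, ?_⟩
            have h2 := hΓ.mul _ _ _ _ (hΓ.inv _ _ hyF.2) hy0F.2
            have h3 : (a x * (a y)⁻¹)⁻¹ * (a x * (a y0)⁻¹) = a y * (a y0)⁻¹ := by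
              rw [mul_inv, inv_inv]
              calc (a x)⁻¹ * a y * (a x * (a y0)⁻¹) = ((a x)⁻¹ * a x) * (a y * (a y0)⁻¹) := by
                    simp only [mul_assoc, mul_left_comm]
                _ = _ := by rw [inv_mul_cancel, one_mul]
            rw [h3, ← two_mul] at h2
            have h4 := tuple_rad H (card_Ix d) y y0 (fun i => hA _ (hyF.1 i)) hVar0
              (by rw [ha] at h2; exact h2) (by
                have e1 := hy.2
                have e2 := hy0.2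
                rw [hS] at e1 e2
                rw [e1, e2])
            rw [hS]
            exact h4
          · rw [hS]
            exact Finset.prod_pos fun i _ => rad_pos' _
          · rw [hS]
            calc ∏ i, rad (y0 i) ≤ ∏ _i : Ix d, N :=
                  Finset.prod_le_prod' fun i _ => (hVar0 i).rad_le
              _ = N ^ (2 ^ d) := by rw [Finset.prod_const, Finset.card_univ, card_Ix]
      _ = D * (T * K) ^ (2 ^ d) := by
          rw [sum_const, card_univ, ZMod.card, smul_eq_mul]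
  unfold en
  rw [card_filter, sum_product]
  calc ∑ x ∈ tup d fun _ => A, ∑ y ∈ tup d fun _ => A,
        (if Sm (D ^ Z) Λ c (a x * (a y)⁻¹) then 1 else 0)
      ≤ ∑ _x ∈ tup d fun _ => A, D * (T * K) ^ (2 ^ d) := by
        apply sum_le_sum
        intro x hx'
        rw [← card_filter]
        exact hx x hx'
    _ = A.card ^ (2 ^ d) * (D * (T * K) ^ (2 ^ d)) := by
        rw [sum_const, smul_eq_mul, hcardT]

end Pool.Agent.T2H20.AH
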