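import Pool.Agent.T2H20.AH.Fn

/-!
The number of the triples two of whose members are, up to known factors, products of powers of few
primes: asymptotic form.
-/

set_option autoImplicit false

namespace Pool.Agent.T2H20.AH

open Finset Pool.Agent.H785R2.ABC Pool.Agent.H785R2.ABC.EC Pool.Agent.T2H20.ABC

lemma exists_s' {k X : ℕ} (hk : 1 ≤ k) (hX : 1 ≤ X) : ∃ s : ℕ, 1 ≤ s ∧ X ^ 3 < (s - 1).choose k ∧
    (s : ℝ) ≤ 3 * k * (X : ℝ) ^ ((3 : ℝ) / k) := by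
  have hX0 : (0 : ℝ) < X := by exact_mod_cast hX
  have hX1 : (1 : ℝ) ≤ X := by exact_mod_cast hX
  have hk0 : (0 : ℝ) < k := by exact_mod_cast hk
  obtain ⟨z, hz⟩ : ∃ z, z = ⌊(X : ℝ) ^ ((3 : ℝ) / k)⌋₊ + 1 := ⟨_, rfl⟩
  have h1 : (X : ℝ) ^ ((3 : ℝ) / k) < z := by
    rw [hz]; push_cast; exact Nat.lt_floor_add_one _
  have h2 : (z : ℝ) ≤ (X : ℝ) ^ ((3 : ℝ) / k) + 1 := by
    rw [hz]; push_cast
    have := Nat.floor_le (by positivity : (0 : ℝ) ≤ (X : ℝ) ^ ((3 : ℝ) / k))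
    linarith
  have h3 : X ^ 3 < z ^ k := by
    have : ((X : ℝ) ^ ((3 : ℝ) / k)) ^ k < (z : ℝ) ^ k :=
      pow_lt_pow_left₀ h1 (by positivity) (by omega)
    rw [← Real.rpow_natCast, ← Real.rpow_mul hX0.le, div_mul_cancel₀ _ hk0.ne'] at this
    have e1 : (X : ℝ) ^ (3 : ℝ) = (X : ℝ) ^ 3 := by
      rw [← Real.rpow_natCast]; norm_num
    rw [e1] at this
    exact_mod_cast this
  refine ⟨k * (z + 1), ?_, exists_s hk h3, ?_⟩
  · exact Nat.mul_pos (by omega) (by omega)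
  · push_cast
    have h4 : 1 ≤ (X : ℝ) ^ ((3 : ℝ) / k) := Real.one_le_rpow hX1 (by positivity)
    nlinarith

/-- `t` is, up to the factor `lam ^ U` and a number without large exponents, a product of powers of
few primes -/
structure Fw (U X lam n0 d d1 : ℕ) (t l : ℕ) : Prop where
  t0 : 0 < t
  l0 : 0 < l
  eq : rt U t = lam * l
  rad : rad t ≤ X
  card : l.primeFactors.card ≤ n0
  dig : ∀ p ∈ l.primeFactors, d ≤ l.factorization p ∧ l.factorization p ≤ d1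

/-- the digits -/
def dgs (l : ℕ) : Finset ℕ := l.primeFactors.image fun p => l.factorization p

lemma Fw.few {U X lam n0 d d1 t l : ℕ} (H : Fw U X lam n0 d d1 t l) {S : Finset ℕ}
    (hS : dgs l ⊆ S) : Few U X lam n0 S t l :=
  ⟨H.t0, H.l0, H.eq, H.rad, H.card, fun _ hp => hS (mem_image_of_mem _ hp)⟩

/-- the parameter of the approximation -/
def Qp (e k κ : ℕ) : ℕ := 5120000 * (4 * e) ^ 2 * k ^ 2 * κ
/-- the bound for the denominator -/
def Bp (e k κ : ℕ) : ℕ := Qp e k κ ^ (4 * e)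

/-- the constant -/
noncomputable def Cf (e k d1 : ℕ) : ℝ :=
  2 ^ (d1 + 1) * ((3 * k) ^ (4 * e) * (4 * e).factorial * ((d1 + 1 : ℕ) ^ (4 * e)) ^ 2)

lemma group_S {U X e d d1 lam₁ lam₂ : ℕ} {B : ℝ} {i j : Fin 3}
    (Q : Finset (ℕ × ℕ)) (l₁ l₂ : ℕ × ℕ → ℕ)
    (hQ : ∀ q ∈ Q, Fw U X lam₁ (2 * e) d d1 (num (tri q) i) (l₁ q) ∧
      Fw U X lam₂ (2 * e) d d1 (num (tri q) j) (l₂ q))
    (hB : ∀ S : Finset ℕ, S.card ≤ 4 * e → (∀ δ ∈ S, d ≤ δ ∧ δ ≤ d1) → ∀ Q' ⊆ Q,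
      (∀ q ∈ Q', Few U X lam₁ (2 * e) S (num (tri q) i) (l₁ q) ∧
        Few U X lam₂ (2 * e) S (num (tri q) j) (l₂ q)) → (Q'.card : ℝ) ≤ B) (hB0 : 0 ≤ B) :
    (Q.card : ℝ) ≤ 2 ^ (d1 + 1) * B := by
  classical
  obtain ⟨Sf, hSf⟩ : ∃ Sf : ℕ × ℕ → Finset ℕ, Sf = fun q => dgs (l₁ q) ∪ dgs (l₂ q) := ⟨_, rfl⟩
  have hdg : ∀ {t l lam : ℕ}, Fw U X lam (2 * e) d d1 t l → (dgs l).card ≤ 2 * e ∧
      ∀ δ ∈ dgs l, d ≤ δ ∧ δ ≤ d1 := by
    intro t l lam H
    refine ⟨card_image_le.trans H.card, ?_⟩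
    intro δ hδ
    unfold dgs at hδ
    obtain ⟨p, hp, rfl⟩ := mem_image.1 hδ
    exact H.dig p hp
  have hmaps : ∀ q ∈ Q, Sf q ∈ (range (d1 + 1)).powerset := by
    intro q hq
    rw [mem_powerset]
    intro δ hδ
    rw [hSf] at hδ
    rw [mem_range]
    rcases mem_union.1 hδ with h | h
    · have := ((hdg (hQ q hq).1).2 δ h).2
      omega
    · have := ((hdg (hQ q hq).2).2 δ h).2
      omega
  have h1 : Q.card = ∑ S ∈ (range (d1 + 1)).powerset, (Q.filter fun q => Sf q = S).card :=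
    Finset.card_eq_sum_card_fiberwise fun q hq => mem_coe.2 (hmaps q (mem_coe.1 hq))
  rw [h1]
  push_cast
  calc ∑ S ∈ (range (d1 + 1)).powerset, ((Q.filter fun q => Sf q = S).card : ℝ)
      ≤ ∑ _S ∈ (range (d1 + 1)).powerset, B := by
        apply Finset.sum_le_sum
        intro S _
        rcases (Q.filter fun q => Sf q = S).eq_empty_or_nonempty with h0 | ⟨q0, hq0⟩
        · rw [h0, card_empty, Nat.cast_zero]; exact hB0
        rw [mem_filter] at hq0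
        have F1 := hdg (hQ q0 hq0.1).1
        have F2 := hdg (hQ q0 hq0.1).2
        apply hB S
        · rw [← hq0.2, hSf]
          refine (card_union_le _ _).trans ?_
          have := F1.1
          have := F2.1
          omega
        · intro δ hδ
          rw [← hq0.2, hSf] at hδ
          rcases mem_union.1 hδ with h | h
          · exact F1.2 δ h
          · exact F2.2 δ h
        · exact filter_subset _ _
        · intro q hq
          rw [mem_filter] at hq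
          have hs : dgs (l₁ q) ∪ dgs (l₂ q) = S := by rw [← hq.2, hSf]
          exact ⟨(hQ q hq.1).1.few (hs ▸ subset_union_left),
            (hQ q hq.1).2.few (hs ▸ subset_union_right)⟩
    _ = 2 ^ (d1 + 1) * B := by
        rw [Finset.sum_const, card_powerset, card_range, nsmul_eq_mul]
        push_cast
        ring

lemma final_bound {e k d1 s : ℕ} {X : ℕ} (hX : 1 ≤ X) (hk : 1 ≤ k)
    (hs : (s : ℝ) ≤ 3 * k * (X : ℝ) ^ ((3 : ℝ) / k)) {n : ℕ}
    (hn : n ≤ (s ^ (2 * (2 * e)) * (2 * (2 * e)).factorial) * ((d1 + 1) ^ (2 * (2 * e))) ^ 2) :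
    (n : ℝ) ≤ ((3 * k) ^ (4 * e) * (4 * e).factorial * ((d1 + 1 : ℕ) ^ (4 * e)) ^ 2) *
      (X : ℝ) ^ ((12 * e : ℝ) / k) := by
  have hX0 : (0 : ℝ) < X := by exact_mod_cast hX
  have hk0 : (0 : ℝ) < k := by exact_mod_cast hk
  have e4 : 2 * (2 * e) = 4 * e := by ring
  rw [e4] at hn
  have h1 : (n : ℝ) ≤ ((s : ℝ) ^ (4 * e) * (4 * e).factorial) * ((d1 + 1 : ℕ) ^ (4 * e)) ^ 2 := by
    exact_mod_cast hn
  refine h1.trans ?_
  have h2 : (s : ℝ) ^ (4 * e) ≤ (3 * k) ^ (4 * e) * (X : ℝ) ^ ((12 * e : ℝ) / k) := by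
    calc (s : ℝ) ^ (4 * e) ≤ (3 * k * (X : ℝ) ^ ((3 : ℝ) / k)) ^ (4 * e) :=
          pow_le_pow_left₀ (Nat.cast_nonneg _) hs _
      _ = (3 * k) ^ (4 * e) * (X : ℝ) ^ ((12 * e : ℝ) / k) := by
          rw [mul_pow]
          congr 1
          rw [← Real.rpow_natCast, ← Real.rpow_mul hX0.le]
          congr 1
          push_cast
          ring
  calc ((s : ℝ) ^ (4 * e) * (4 * e).factorial) * ((d1 + 1 : ℕ) ^ (4 * e)) ^ 2
      ≤ (((3 * k) ^ (4 * e) * (X : ℝ) ^ ((12 * e : ℝ) / k)) * (4 * e).factorial) *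
        ((d1 + 1 : ℕ) ^ (4 * e)) ^ 2 := by
        apply mul_le_mul_of_nonneg_right _ (by positivity)
        exact mul_le_mul_of_nonneg_right h2 (by positivity)
    _ = _ := by ring

/-- **few primes, modulo a large power** -/
theorem few_level_padic {e k κ d d1 U X D Z lam₁ lam₂ : ℕ} (he : 1 ≤ e) (hk : 1 ≤ k)
    (hκ : 1 ≤ κ) (hd1 : d1 = κ * d) (hd : 5120000 * (4 * e) ^ 2 * k ^ 2 * Bp e k κ ≤ d)
    (hU : 4 * Bp e k κ + 2 ≤ U) (hX : X ≠ 0) (hDX : D ≤ X) (hXD : X ≤ D ^ (2 * e))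
    (hg16 : 16 ≤ Nat.log 2 D) (hd1g : d1 ≤ 2 ^ (Nat.log 2 D / 4)) (hZ : U * d ≤ 8 * Z)
    (hf : X ^ (2 * U) < D ^ Z) {i j c : Fin 3} (hij : i ≠ j) (hjc : j ≠ c) (hic : i ≠ c)
    (Q : Finset (ℕ × ℕ)) (hQ : ∀ q ∈ Q, Pr q ∧ (∀ l, rad (num (tri q) l) ≤ X) ∧
      D ^ Z ∣ num (tri q) c ∧ (∃ l, Fw U X lam₁ (2 * e) d d1 (num (tri q) i) l) ∧
      (∃ l, Fw U X lam₂ (2 * e) d d1 (num (tri q) j) l)) :
    (Q.card : ℝ) ≤ Cf e k d1 * (X : ℝ) ^ ((12 * e : ℝ) / k) := by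
  classical
  have hl1 : ∀ q ∈ Q, ∃ l, Fw U X lam₁ (2 * e) d d1 (num (tri q) i) l := fun q hq =>
    (hQ q hq).2.2.2.1
  have hl2 : ∀ q ∈ Q, ∃ l, Fw U X lam₂ (2 * e) d d1 (num (tri q) j) l := fun q hq =>
    (hQ q hq).2.2.2.2
  choose! l₁ hl₁ using hl1
  choose! l₂ hl₂ using hl2
  have hX1 : 1 ≤ X := by omega
  have hQp : 5120000 * (4 * e) ^ 2 * k ^ 2 * κ ≤ Qp e k κ := le_rfl
  have hee : 1 ≤ (4 * e) ^ 2 * k ^ 2 :=
    Nat.mul_pos (pow_pos (by omega) _) (pow_pos (by omega) _)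
  have hQ2 : 2 * κ ≤ Qp e k κ := by
    unfold Qp
    calc 2 * κ ≤ 5120000 * κ := Nat.mul_le_mul_right _ (by norm_num)
      _ ≤ 5120000 * κ * ((4 * e) ^ 2 * k ^ 2) := Nat.le_mul_of_pos_right _ (by omega)
      _ = _ := by ring
  have hBp1 : 1 ≤ Bp e k κ := Nat.one_le_pow _ _ (by omega)
  have hd0 : 1 ≤ d := by
    refine le_trans ?_ hd
    have : 0 < 5120000 * (4 * e) ^ 2 * k ^ 2 * Bp e k κ := by positivity
    omega
  have hU1 : 1 ≤ U := by omega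
  -- the logarithms
  obtain ⟨ℓ, hℓ⟩ : ∃ ℓ, ℓ = Nat.log 2 X := ⟨_, rfl⟩
  obtain ⟨g, hg⟩ : ∃ g, g = Nat.log 2 D := ⟨_, rfl⟩
  rw [← hg] at hg16 hd1g
  have hD0 : D ≠ 0 := by
    rintro rfl
    rw [Nat.log_zero_right] at hg
    omega
  have hDge : 2 ^ g ≤ D := by rw [hg]; exact Nat.pow_log_le_self 2 hD0
  have hDlt : D < 2 ^ (g + 1) := by rw [hg]; exact Nat.lt_pow_succ_log_self (by norm_num) _
  have hXge : 2 ^ ℓ ≤ X := by rw [hℓ]; exact Nat.pow_log_le_self 2 hX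
  have hgℓ : g ≤ ℓ + 1 := by
    have : g ≤ ℓ := by rw [hg, hℓ]; exact Nat.log_mono_right hDX
    omega
  have hGg : ℓ + 1 ≤ 4 * e * g := by
    have h1 : ℓ < (g + 1) * (2 * e) := by
      have : 2 ^ ℓ < 2 ^ ((g + 1) * (2 * e)) := by
        calc 2 ^ ℓ ≤ X := hXge
          _ ≤ D ^ (2 * e) := hXD
          _ < (2 ^ (g + 1)) ^ (2 * e) := Nat.pow_lt_pow_left hDlt (by omega)
          _ = _ := (pow_mul _ _ _).symm
      exact (Nat.pow_lt_pow_iff_right (by norm_num)).1 this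
    have e1 : (g + 1) * (2 * e) = 2 * (e * g) + 2 * e := by ring
    have e2 : e * 2 ≤ e * g := Nat.mul_le_mul_left _ (by omega)
    have e3 : 4 * e * g = 4 * (e * g) := by ring
    omega
  obtain ⟨s, hs1, hs2, hs3⟩ := exists_s' hk hX1
  unfold Cf
  rw [mul_assoc]
  apply group_S Q l₁ l₂ (fun q hq => ⟨hl₁ q hq, hl₂ q hq⟩)
  · intro S hSc hS Q' hQ' hF
    obtain ⟨b, hb1, hbB, α, hα⟩ := dirichlet S (N := d1) (Q := Qp e k κ) (n := 4 * e)
      (by rw [hd1]; exact Nat.mul_pos (by omega) (by omega)) (by omega) hSc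
    have happ := app_of (U := U) hd0 hd1 hκ hQ2 hb1 hS hα
    obtain ⟨hnum, he3⟩ := numF_of (X := X) (U := U) (d := d) (d1 := d1) (κ := κ) (Q := Qp e k κ)
      (b := b) (B := Bp e k κ) (k := k) (G := 4 * e) (g := g) (ℓ := ℓ) (Z := Z) hℓ hX hU1 hk
      (by omega) hd1 hκ hb1 hbB hQp hd hU hg16 hgℓ hGg hd1g hZ
    apply final_bound hX1 hk hs3
    refine card_of_supp (G := d1) (lam₁ := lam₁) (lam₂ := lam₂) (S := S) (i := i) (j := j) Q' l₁ l₂
      (fun δ hδ => (hS δ hδ).2) hF ?_ ?_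
    · refine supp_padic (D := D) (Z := Z) (lam₁ := lam₁) (lam₂ := lam₂) hnum hDge he3 hs1 ?_ happ hij hjc hic Q' l₁ l₂ ?_
      · calc D ≤ X ^ 3 := hDX.trans (Nat.le_self_pow (by norm_num) X)
          _ < _ := hs2
      · intro q hq
        obtain ⟨h1, h2, h3, -, -⟩ := hQ q (hQ' hq)
        exact ⟨h1, h3, (hF q hq).1, (hF q hq).2⟩
    · intro q hq q' hq' h1 h2
      obtain ⟨a1, a2, a3, -, -⟩ := hQ q (hQ' hq)
      obtain ⟨b1, b2, b3, -, -⟩ := hQ q' (hQ' hq')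
      exact uniq_padic hU1 hf hij hjc hic a1 b1 a3 b3 a2 b2 h1 h2
  · positivity

/-- **few primes, in the real numbers** -/
theorem few_level_real {e k κ d d1 U X lam₁ lam₂ : ℕ} (he : 1 ≤ e) (hk : 1 ≤ k)
    (hκ : 1 ≤ κ) (hd1 : d1 = κ * d) (hd : 5120000 * (4 * e) ^ 2 * k ^ 2 * Bp e k κ ≤ d)
    (hU : 4 * Bp e k κ + 2 ≤ U)
    (hg16 : 16 ≤ Nat.log 2 X) (hd1g : d1 ≤ 2 ^ ((Nat.log 2 X + 1) / 4))
    (hXk : 17 * Bp e k κ * k ≤ X) (hd8 : 8 ∣ d) {i j : Fin 3} (hij : i ≠ j)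
    (Q : Finset (ℕ × ℕ)) (hQ : ∀ q ∈ Q, Pr q ∧ (∀ l, rad (num (tri q) l) ≤ X) ∧
      |Real.log (num (tri q) i) - Real.log (num (tri q) j)| ≤ 2 * ((X : ℝ) ^ (U * (d / 2)))⁻¹ ∧
      (∃ l, Fw U X lam₁ (2 * e) d d1 (num (tri q) i) l) ∧
      (∃ l, Fw U X lam₂ (2 * e) d d1 (num (tri q) j) l)) :
    (Q.card : ℝ) ≤ Cf e k d1 * (X : ℝ) ^ ((12 * e : ℝ) / k) := by
  classical
  have hl1 : ∀ q ∈ Q, ∃ l, Fw U X lam₁ (2 * e) d d1 (num (tri q) i) l := fun q hq =>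
    (hQ q hq).2.2.2.1
  have hl2 : ∀ q ∈ Q, ∃ l, Fw U X lam₂ (2 * e) d d1 (num (tri q) j) l := fun q hq =>
    (hQ q hq).2.2.2.2
  choose! l₁ hl₁ using hl1
  choose! l₂ hl₂ using hl2
  have hX : X ≠ 0 := by
    rintro rfl
    rw [Nat.log_zero_right] at hg16
    omega
  have hX1 : 1 ≤ X := by omega
  have hQp : 5120000 * (4 * e) ^ 2 * k ^ 2 * κ ≤ Qp e k κ := le_rfl
  have hee : 1 ≤ (4 * e) ^ 2 * k ^ 2 :=
    Nat.mul_pos (pow_pos (by omega) _) (pow_pos (by omega) _)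
  have hQ2 : 2 * κ ≤ Qp e k κ := by
    unfold Qp
    calc 2 * κ ≤ 5120000 * κ := Nat.mul_le_mul_right _ (by norm_num)
      _ ≤ 5120000 * κ * ((4 * e) ^ 2 * k ^ 2) := Nat.le_mul_of_pos_right _ (by omega)
      _ = _ := by ring
  have hBp1 : 1 ≤ Bp e k κ := Nat.one_le_pow _ _ (by omega)
  have hd0 : 5120000 ≤ d := by
    refine le_trans ?_ hd
    calc 5120000 ≤ 5120000 * ((4 * e) ^ 2 * k ^ 2 * Bp e k κ) :=
          Nat.le_mul_of_pos_right _ (Nat.mul_pos (by omega) (by omega))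
      _ = _ := by ring
  have hU1 : 1 ≤ U := by omega
  -- the logarithms
  obtain ⟨ℓ, hℓ⟩ : ∃ ℓ, ℓ = Nat.log 2 X := ⟨_, rfl⟩
  rw [← hℓ] at hg16 hd1g
  have hXge : 2 ^ ℓ ≤ X := by rw [hℓ]; exact Nat.pow_log_le_self 2 hX
  have hXlt : X < 2 ^ (ℓ + 1) := by rw [hℓ]; exact Nat.lt_pow_succ_log_self (by norm_num) _
  have hX16 : 65536 ≤ X := by
    calc 65536 = 2 ^ 16 := by norm_num
      _ ≤ 2 ^ ℓ := Nat.pow_le_pow_right (by norm_num) hg16
      _ ≤ X := hXge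
  have hXR : (65536 : ℝ) ≤ X := by exact_mod_cast hX16
  have hX0 : (0 : ℝ) < X := by linarith
  obtain ⟨w, hw⟩ := hd8
  have hw1 : 640000 ≤ w := by omega
  have hd2 : d / 2 = 4 * w := by omega
  have hθe : 2 * ((X : ℝ) ^ (U * (d / 2)))⁻¹ = 2 * ((X : ℝ) ^ (4 * (U * w)))⁻¹ := by
    rw [hd2]; congr 3; ring
  rw [hθe] at hQ
  obtain ⟨s, hs1, hs2, hs3⟩ := exists_s' hk hX1
  unfold Cf
  rw [mul_assoc]
  apply group_S Q l₁ l₂ (fun q hq => ⟨hl₁ q hq, hl₂ q hq⟩)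
  · intro S hSc hS Q' hQ' hF
    obtain ⟨b, hb1, hbB, α, hα⟩ := dirichlet S (N := d1) (Q := Qp e k κ) (n := 4 * e)
      (by rw [hd1]; exact Nat.mul_pos (by omega) (by omega)) (by omega) hSc
    have happ := app_of (U := U) (by omega : 1 ≤ d) hd1 hκ hQ2 hb1 hS hα
    obtain ⟨hnum, he3⟩ := numF_of (X := X) (U := U) (d := d) (d1 := d1) (κ := κ) (Q := Qp e k κ)
      (b := b) (B := Bp e k κ) (k := k) (G := 4 * e) (g := ℓ + 1) (ℓ := ℓ) (Z := U * w) hℓ hX hU1 hk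
      (by omega) hd1 hκ hb1 hbB hQp hd hU (by omega) le_rfl
      (Nat.le_mul_of_pos_left _ (by omega)) hd1g (le_of_eq (by rw [hw]; ring))
    apply final_bound hX1 hk hs3
    refine card_of_supp (G := d1) (lam₁ := lam₁) (lam₂ := lam₂) (S := S) (i := i) (j := j) Q' l₁ l₂
      (fun δ hδ => (hS δ hδ).2) hF ?_ ?_
    · have hbk : b * k ≤ Bp e k κ * k := Nat.mul_le_mul_right _ hbB
      refine supp_real (lam₁ := lam₁) (lam₂ := lam₂) (Z := U * w) (N' := 8 * b * k * X ^ 2)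
        (θ := 2 * ((X : ℝ) ^ (4 * (U * w)))⁻¹) hnum he3 hs1 ?_ ?_ happ hij Q' l₁ l₂ ?_ ?_
      · -- boxes
        have h1 : (2 : ℝ) ^ (ℓ + 1 + 1) ≤ 4 * X := by
          have : 2 ^ (ℓ + 1 + 1) ≤ 4 * X := by
            rw [pow_succ, pow_succ]; omega
          exact_mod_cast this
        have h2 : Real.log ((X ^ (2 * b) : ℕ) : ℝ) ≤ 2 * b * X := by
          push_cast
          rw [Real.log_pow]
          push_cast
          apply mul_le_mul_of_nonneg_left _ (by positivity)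
          have := Real.log_le_sub_one_of_pos hX0
          linarith
        have h3 : 0 ≤ Real.log ((X ^ (2 * b) : ℕ) : ℝ) :=
          Real.log_nonneg (by exact_mod_cast Nat.one_le_pow _ _ hX1)
        calc (2 : ℝ) ^ (ℓ + 1 + 1) * (k * Real.log ((X ^ (2 * b) : ℕ) : ℝ))
            ≤ (4 * X) * (k * (2 * b * X)) := by
              apply mul_le_mul h1 _ (by positivity) (by positivity)
              exact mul_le_mul_of_nonneg_left h2 (Nat.cast_nonneg _)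
          _ = ((8 * b * k * X ^ 2 : ℕ) : ℝ) := by push_cast; ring
      · refine lt_of_le_of_lt ?_ hs2
        have h1 : 1 ≤ b * k * X ^ 2 := Nat.mul_pos (Nat.mul_pos (by omega) (by omega))
          (pow_pos (by omega) _)
        calc 2 * (8 * b * k * X ^ 2) + 1 ≤ 17 * (b * k * X ^ 2) := by
              have : 2 * (8 * b * k * X ^ 2) = 16 * (b * k * X ^ 2) := by ring
              omega
          _ = 17 * (b * k) * X ^ 2 := by ring
          _ ≤ X * X ^ 2 := by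
              apply Nat.mul_le_mul_right
              calc 17 * (b * k) ≤ 17 * (Bp e k κ * k) := Nat.mul_le_mul_left _ hbk
                _ = 17 * Bp e k κ * k := by ring
                _ ≤ X := hXk
          _ = X ^ 3 := by ring
      · -- the precision
        have hkX : 8 * k ≤ X := by
          refine le_trans ?_ hXk
          calc 8 * k ≤ 17 * k := Nat.mul_le_mul_right _ (by norm_num)
            _ ≤ 17 * k * Bp e k κ := Nat.le_mul_of_pos_right _ (by omega)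
            _ = _ := by ring
        have h1 : (2 : ℝ) ^ ((ℓ + 1) * (U * w)) ≤ (X : ℝ) ^ (2 * (U * w)) := by
          have : 2 ^ ((ℓ + 1) * (U * w)) ≤ X ^ (2 * (U * w)) := by
            calc 2 ^ ((ℓ + 1) * (U * w)) = (2 ^ (ℓ + 1)) ^ (U * w) := pow_mul _ _ _
              _ ≤ (X ^ 2) ^ (U * w) := by
                  apply Nat.pow_le_pow_left
                  calc 2 ^ (ℓ + 1) = 2 ^ ℓ * 2 := pow_succ _ _
                    _ ≤ X * X := Nat.mul_le_mul hXge (by omega)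
                    _ = X ^ 2 := (sq X).symm
              _ = _ := (pow_mul _ _ _).symm
          exact_mod_cast this
        have h2 : (8 * k : ℝ) ≤ (X : ℝ) ^ (2 * (U * w)) := by
          calc (8 * k : ℝ) ≤ X := by exact_mod_cast hkX
            _ = (X : ℝ) ^ 1 := (pow_one _).symm
            _ ≤ (X : ℝ) ^ (2 * (U * w)) := by
                apply pow_le_pow_right₀ (by linarith)
                have : 0 < U * w := Nat.mul_pos (by omega) (by omega)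
                omega
        have h3 : (0 : ℝ) < (X : ℝ) ^ (2 * (U * w)) := by positivity
        rw [one_div, inv_pow]
        have h4 : 4 * ((k : ℝ) * (2 * ((X : ℝ) ^ (4 * (U * w)))⁻¹)) =
            8 * k * ((X : ℝ) ^ (2 * (U * w)))⁻¹ * ((X : ℝ) ^ (2 * (U * w)))⁻¹ := by
          rw [mul_assoc (8 * (k : ℝ)), ← mul_inv, ← pow_add]
          have : 2 * (U * w) + 2 * (U * w) = 4 * (U * w) := by ring
          rw [this]; ring
        rw [h4]
        calc 8 * (k : ℝ) * ((X : ℝ) ^ (2 * (U * w)))⁻¹ * ((X : ℝ) ^ (2 * (U * w)))⁻¹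
            ≤ 1 * ((X : ℝ) ^ (2 * (U * w)))⁻¹ := by
              apply mul_le_mul_of_nonneg_right _ (by positivity)
              rw [mul_inv_le_iff₀ h3, one_mul]
              exact h2
          _ ≤ 1 * ((2 : ℝ) ^ ((ℓ + 1) * (U * w)))⁻¹ := by
              apply mul_le_mul_of_nonneg_left _ zero_le_one
              exact inv_anti₀ (by positivity) h1
          _ = _ := one_mul _
      · intro q hq
        obtain ⟨h1, h2, h3, -, -⟩ := hQ q (hQ' hq)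
        exact ⟨h1, h3, (hF q hq).1, (hF q hq).2⟩
    · intro q hq q' hq' h1 h2
      obtain ⟨a1, a2, a3, -, -⟩ := hQ q (hQ' hq)
      obtain ⟨b1, b2, b3, -, -⟩ := hQ q' (hQ' hq')
      refine uniq_real hU1 hij a1 b1 ?_ hX1 a3 b3 a2 b2 h1 h2
      have h3 : (X : ℝ) ^ (2 * U) * 16 ≤ (X : ℝ) ^ (4 * (U * w)) := by
        calc (X : ℝ) ^ (2 * U) * 16 ≤ (X : ℝ) ^ (2 * U) * X := by
              apply mul_le_mul_of_nonneg_left _ (by positivity)
              linarith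
          _ = (X : ℝ) ^ (2 * U + 1) := (pow_succ _ _).symm
          _ ≤ (X : ℝ) ^ (4 * (U * w)) := by
              apply pow_le_pow_right₀ (by linarith)
              have : U * 1 ≤ U * w := Nat.mul_le_mul_left _ (by omega)
              omega
      have h4 : (0 : ℝ) < (X : ℝ) ^ (4 * (U * w)) := by positivity
      have h5 : 4 * (2 * ((X : ℝ) ^ (4 * (U * w)))⁻¹) * (X : ℝ) ^ (2 * U) =
          (8 * (X : ℝ) ^ (2 * U)) * ((X : ℝ) ^ (4 * (U * w)))⁻¹ := by ring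
      rw [h5, mul_inv_lt_iff₀ h4, one_mul]
      have h6 : (0 : ℝ) < (X : ℝ) ^ (2 * U) := by positivity
      linarith
  · positivity

end Pool.Agent.T2H20.AH
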