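import Pool.Agent.T2H20.AH.Di
import Pool.Agent.T2H20.AH.Fx

/-!
The numerical conditions for the counting of the triples two of whose members have few primes.
-/

set_option autoImplicit false

namespace Pool.Agent.T2H20.AH

open Finset

/-- from the simultaneous approximation -/
lemma app_of {U d d1 κ Q b : ℕ} {S : Finset ℕ} {α : ℕ → ℕ} (hd : 1 ≤ d) (hd1 : d1 = κ * d)
    (hκ : 1 ≤ κ) (hQ : 2 * κ ≤ Q) (hb : 1 ≤ b) (hS : ∀ δ ∈ S, d ≤ δ ∧ δ ≤ d1)
    (hα : ∀ δ ∈ S, b * δ * Q ≤ α δ * d1 * Q + d1 ∧ α δ * d1 * Q ≤ b * δ * Q + d1) :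
    App U (U * d1 / b) (2 * b) (U * d1 / (Q * b) + 2 * b + 1) S α := by
  have hd10 : 0 < d1 := by rw [hd1]; exact Nat.mul_pos (by omega) (by omega)
  have hQ0 : 0 < Q := by omega
  obtain ⟨E, hE⟩ : ∃ E, E = U * d1 / b := ⟨_, rfl⟩
  obtain ⟨f, hf⟩ : ∃ f, f = U * d1 / (Q * b) := ⟨_, rfl⟩
  have hE1 : E * b ≤ U * d1 := by rw [hE]; exact Nat.div_mul_le_self _ _
  have hE2 : U * d1 < E * b + b := by
    rw [hE, ← Nat.succ_mul, mul_comm _ b]
    exact Nat.lt_mul_div_succ _ (by omega)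
  have hf2 : U * d1 < f * (Q * b) + Q * b := by
    rw [hf, ← Nat.succ_mul, mul_comm _ (Q * b)]
    exact Nat.lt_mul_div_succ _ (Nat.mul_pos hQ0 (by omega))
  rw [← hE, ← hf]
  have hle : ∀ δ ∈ S, α δ ≤ 2 * b := by
    intro δ hδ
    have h1 := (hα δ hδ).2
    have h2 : α δ * d1 * Q ≤ (b + 1) * d1 * Q := by
      calc α δ * d1 * Q ≤ b * δ * Q + d1 := h1
        _ ≤ b * d1 * Q + d1 * Q :=
            Nat.add_le_add (Nat.mul_le_mul_right _ (Nat.mul_le_mul_left _ (hS δ hδ).2))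
              (Nat.le_mul_of_pos_right _ hQ0)
        _ = _ := by ring
    have h3 : α δ * (d1 * Q) ≤ (b + 1) * (d1 * Q) := by
      rw [← mul_assoc, ← mul_assoc]; exact h2
    have h4 := Nat.le_of_mul_le_mul_right h3 (Nat.mul_pos hd10 hQ0)
    omega
  have hX : 0 < Q * b := Nat.mul_pos hQ0 (by omega)
  refine ⟨?_, hle, ?_, ?_⟩
  · intro δ hδ
    by_contra hcon
    have h0 : α δ = 0 := by omega
    have h1 := (hα δ hδ).1
    rw [h0, zero_mul, zero_mul, zero_add, hd1] at h1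
    have h2 : d * (2 * κ) ≤ κ * d := by
      calc d * (2 * κ) ≤ δ * Q := Nat.mul_le_mul (hS δ hδ).1 hQ
        _ ≤ b * δ * Q := by
            rw [mul_assoc]
            exact Nat.le_mul_of_pos_left _ (by omega)
        _ ≤ κ * d := h1
    have h3 : 0 < κ * d := Nat.mul_pos (by omega) (by omega)
    have h4 : d * (2 * κ) = 2 * (κ * d) := by ring
    omega
  · intro δ hδ
    have h1 := (hα δ hδ).1
    have ha := hle δ hδ
    by_contra hcon
    rw [not_le] at hcon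
    -- multiply by `Q b`
    have h2 : (α δ * E + (f + 2 * b + 1) + 1) * (Q * b) ≤ δ * U * (Q * b) :=
      Nat.mul_le_mul_right _ hcon
    have h3 : δ * U * (Q * b) ≤ (α δ * d1 * Q + d1) * U := by
      calc δ * U * (Q * b) = (b * δ * Q) * U := by ring
        _ ≤ _ := Nat.mul_le_mul_right _ h1
    have h4 : α δ * Q * (U * d1) ≤ α δ * Q * (E * b + b) := Nat.mul_le_mul_left _ hE2.le
    have h5 : α δ * (Q * b) ≤ 2 * b * (Q * b) := Nat.mul_le_mul_right _ ha
    have e1 : (α δ * E + (f + 2 * b + 1) + 1) * (Q * b) =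
        α δ * Q * (E * b) + f * (Q * b) + 2 * b * (Q * b) + 2 * (Q * b) := by ring
    have e2 : (α δ * d1 * Q + d1) * U = α δ * Q * (U * d1) + U * d1 := by ring
    have e3 : α δ * Q * (E * b + b) = α δ * Q * (E * b) + α δ * (Q * b) := by ring
    omega
  · intro δ hδ
    have h1 := (hα δ hδ).2
    by_contra hcon
    rw [not_le] at hcon
    have h2 : (δ * U + (f + 2 * b + 1) + 1) * (Q * b) ≤ α δ * E * (Q * b) :=
      Nat.mul_le_mul_right _ hcon
    have h3 : α δ * E * (Q * b) ≤ α δ * Q * (U * d1) := by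
      calc α δ * E * (Q * b) = α δ * Q * (E * b) := by ring
        _ ≤ _ := Nat.mul_le_mul_left _ hE1
    have h4 : α δ * Q * (U * d1) ≤ (b * δ * Q + d1) * U := by
      calc α δ * Q * (U * d1) = (α δ * d1 * Q) * U := by ring
        _ ≤ _ := Nat.mul_le_mul_right _ h1
    have e1 : (δ * U + (f + 2 * b + 1) + 1) * (Q * b) =
        δ * U * (Q * b) + f * (Q * b) + 2 * b * (Q * b) + 2 * (Q * b) := by ring
    have e2 : (b * δ * Q + d1) * U = δ * U * (Q * b) + U * d1 := by ring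
    omega

/-- the numerical conditions -/
lemma numF_of {X U d d1 κ Q b B k G g ℓ Z : ℕ} (hℓ : ℓ = Nat.log 2 X) (hX : X ≠ 0)
    (hU1 : 1 ≤ U)
    (hk : 1 ≤ k) (hG : 1 ≤ G) (hd1 : d1 = κ * d) (hκ : 1 ≤ κ) (hb : 1 ≤ b) (hbB : b ≤ B)
    (hQ : 5120000 * G ^ 2 * k ^ 2 * κ ≤ Q) (hd : 5120000 * G ^ 2 * k ^ 2 * B ≤ d)
    (hU : 4 * B + 2 ≤ U) (hg16 : 16 ≤ g) (hg : g ≤ ℓ + 1) (hGg : ℓ + 1 ≤ G * g)
    (hd1g : d1 ≤ 2 ^ (g / 4)) (hZ : U * d ≤ 8 * Z) :
    NumF X U (U * d1 / b) (2 * b) (U * d1 / (Q * b) + 2 * b + 1) g (4 * b * k * (ℓ + 1))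
      (2 * k * (2 * (U * d1 / (Q * b) + 2 * b + 1) + U) * (ℓ + 1)) k ∧
    20000 * (4 * b * k * (ℓ + 1)) *
      (2 * k * (2 * (U * d1 / (Q * b) + 2 * b + 1) + U) * (ℓ + 1)) ≤ Z * g ^ 2 := by
  have hXlt : X < 2 ^ (ℓ + 1) := by rw [hℓ]; exact Nat.lt_pow_succ_log_self (by norm_num) _
  obtain ⟨F, hF⟩ : ∃ F, F = U * d1 / (Q * b) + 2 * b + 1 := ⟨_, rfl⟩
  rw [← hF]
  have hGG : 1 ≤ G ^ 2 := Nat.one_le_pow _ _ hG
  have hkk : 1 ≤ k ^ 2 := Nat.one_le_pow _ _ hk
  have hQ0 : 0 < Q := by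
    have : 0 < 5120000 * G ^ 2 * k ^ 2 * κ := by positivity
    omega
  -- `b F Q ≤ U d1 + ...`
  have hbF : (b * F) * Q ≤ U * d1 + (2 * b * b + b) * Q := by
    have h1 : U * d1 / (Q * b) * (Q * b) ≤ U * d1 := Nat.div_mul_le_self _ _
    calc (b * F) * Q = U * d1 / (Q * b) * (Q * b) + (2 * b * b + b) * Q := by rw [hF]; ring
      _ ≤ _ := Nat.add_le_add_right h1 _
  have hkey : ∀ c : ℕ, 32 * c ≤ Q → 32 * c * b ≤ d1 → c * (b * (2 * F + U)) * 8 ≤ U * d1 := by
    intro c h1 h2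
    have e1 : (c * (b * (2 * F + U)) * 8) * Q ≤ (U * d1) * Q := by
      calc (c * (b * (2 * F + U)) * 8) * Q = 16 * c * ((b * F) * Q) + 8 * c * b * U * Q := by ring
        _ ≤ 16 * c * (U * d1 + (2 * b * b + b) * Q) + 8 * c * b * U * Q :=
            Nat.add_le_add_right (Nat.mul_le_mul_left _ hbF) _
        _ = (16 * c) * (U * d1) + (8 * c * b * (4 * b + 2)) * Q + 8 * c * b * U * Q := by ring
        _ ≤ (16 * c) * (U * d1) + (8 * c * b * U) * Q + 8 * c * b * U * Q := by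
            have : 8 * c * b * (4 * b + 2) ≤ 8 * c * b * U := Nat.mul_le_mul_left _ (by omega)
            exact Nat.add_le_add_right (Nat.add_le_add_left (Nat.mul_le_mul_right _ this) _) _
        _ = (16 * c) * (U * d1) + (16 * c * b) * U * Q := by ring
        _ ≤ (U * d1) * Q := by
            have h3 : 2 * ((16 * c) * (U * d1)) ≤ (U * d1) * Q := by
              calc 2 * ((16 * c) * (U * d1)) = (U * d1) * (32 * c) := by ring
                _ ≤ _ := Nat.mul_le_mul_left _ h1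
            have h4 : 2 * ((16 * c * b) * U * Q) ≤ (U * d1) * Q := by
              calc 2 * ((16 * c * b) * U * Q) = (32 * c * b) * (U * Q) := by ring
                _ ≤ d1 * (U * Q) := Nat.mul_le_mul_right _ h2
                _ = _ := by ring
            omega
    exact Nat.le_of_mul_le_mul_right e1 hQ0
  have hdd1 : d ≤ d1 := by rw [hd1]; exact Nat.le_mul_of_pos_left _ (by omega)
  have hνpos : ℓ + 1 ≤ 2 * k * (2 * F + U) * (ℓ + 1) :=
    Nat.le_mul_of_pos_left _ (Nat.mul_pos (by omega) (by omega))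
  refine ⟨⟨hU1, hg16, ?_, hg.trans hνpos, ?_, ?_, ?_, ?_⟩, ?_⟩
  · refine hg.trans (Nat.le_mul_of_pos_left _ ?_)
    exact Nat.mul_pos (by omega) (by omega)
  · -- e1
    have h1 := hkey (282 * k * G) (by
      refine le_trans ?_ hQ
      calc 32 * (282 * k * G) = 9024 * (G * k) := by ring
        _ ≤ 5120000 * (G ^ 2 * k ^ 2) := Nat.mul_le_mul (by norm_num)
            (Nat.mul_le_mul (Nat.le_self_pow (by norm_num) G) (Nat.le_self_pow (by norm_num) k))
        _ = 5120000 * G ^ 2 * k ^ 2 := by ring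
        _ ≤ _ := Nat.le_mul_of_pos_right _ (by omega)) (by
      refine le_trans ?_ (hd.trans hdd1)
      calc 32 * (282 * k * G) * b = 9024 * (G * k) * b := by ring
        _ ≤ 5120000 * (G ^ 2 * k ^ 2) * B := Nat.mul_le_mul (Nat.mul_le_mul (by norm_num)
            (Nat.mul_le_mul (Nat.le_self_pow (by norm_num) G)
              (Nat.le_self_pow (by norm_num) k))) hbB
        _ = _ := by ring)
    have h2 : 282 * k * G * (2 * F + U) ≤ U * d1 / b := by
      rw [Nat.le_div_iff_mul_le (by omega)]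
      calc 282 * k * G * (2 * F + U) * b = 282 * k * G * (b * (2 * F + U)) := by ring
        _ ≤ _ := by omega
    calc 141 * (2 * k * (2 * F + U) * (ℓ + 1)) ≤ 141 * (2 * k * (2 * F + U) * (G * g)) :=
          Nat.mul_le_mul_left _ (Nat.mul_le_mul_left _ hGg)
      _ = g * (282 * k * G * (2 * F + U)) := by ring
      _ ≤ g * (U * d1 / b) := Nat.mul_le_mul_left _ h2
  · -- e2
    calc U * d1 / b * g ≤ U * d1 * (ℓ + 1) := Nat.mul_le_mul (Nat.div_le_self _ _) hg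
      _ = d1 * (U * (ℓ + 1)) := by ring
      _ ≤ 2 ^ (g / 4) * (2 * k * (2 * F + U) * (ℓ + 1)) := by
          apply Nat.mul_le_mul hd1g
          apply Nat.mul_le_mul_right
          calc U ≤ 2 * F + U := by omega
            _ ≤ _ := Nat.le_mul_of_pos_left _ (by omega)
  · -- hM
    calc (X ^ (2 * b)) ^ k * (X ^ (2 * b)) ^ k = X ^ (4 * b * k) := by
          rw [← pow_mul, ← pow_add]; congr 1; ring
      _ < (2 ^ (ℓ + 1)) ^ (4 * b * k) := Nat.pow_lt_pow_left hXlt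
          (Nat.mul_ne_zero (by omega) (by omega))
      _ = 2 ^ (4 * b * k * (ℓ + 1)) := by rw [← pow_mul]; congr 1; ring
  · calc (X ^ (2 * F + U)) ^ k * (X ^ (2 * F + U)) ^ k = X ^ (2 * k * (2 * F + U)) := by
          rw [← pow_mul, ← pow_add]; congr 1; ring
      _ < (2 ^ (ℓ + 1)) ^ (2 * k * (2 * F + U)) := Nat.pow_lt_pow_left hXlt
          (Nat.mul_ne_zero (by omega) (by omega))
      _ = 2 ^ (2 * k * (2 * F + U) * (ℓ + 1)) := by rw [← pow_mul]; congr 1; ring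
  · -- e3
    have h1 := hkey (160000 * G ^ 2 * k ^ 2 * κ) (by
      refine le_trans (le_of_eq ?_) hQ
      ring) (by
      rw [hd1]
      calc 32 * (160000 * G ^ 2 * k ^ 2 * κ) * b = κ * (5120000 * G ^ 2 * k ^ 2 * b) := by ring
        _ ≤ κ * d := Nat.mul_le_mul_left _ ((Nat.mul_le_mul_left _ hbB).trans hd))
    have h2 : 160000 * G ^ 2 * k ^ 2 * (b * (2 * F + U)) * 8 ≤ U * d := by
      have : κ * (160000 * G ^ 2 * k ^ 2 * (b * (2 * F + U)) * 8) ≤ κ * (U * d) := by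
        calc κ * (160000 * G ^ 2 * k ^ 2 * (b * (2 * F + U)) * 8) =
            160000 * G ^ 2 * k ^ 2 * κ * (b * (2 * F + U)) * 8 := by ring
          _ ≤ U * d1 := h1
          _ = κ * (U * d) := by rw [hd1]; ring
      exact Nat.le_of_mul_le_mul_left this (by omega)
    have h3 : 160000 * G ^ 2 * k ^ 2 * (b * (2 * F + U)) ≤ Z := by omega
    calc 20000 * (4 * b * k * (ℓ + 1)) * (2 * k * (2 * F + U) * (ℓ + 1)) =
        160000 * k ^ 2 * (b * (2 * F + U)) * (ℓ + 1) ^ 2 := by ring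
      _ ≤ 160000 * k ^ 2 * (b * (2 * F + U)) * (G * g) ^ 2 :=
          Nat.mul_le_mul_left _ (Nat.pow_le_pow_left hGg 2)
      _ = (160000 * G ^ 2 * k ^ 2 * (b * (2 * F + U))) * g ^ 2 := by ring
      _ ≤ Z * g ^ 2 := Nat.mul_le_mul_right _ h3

end Pool.Agent.T2H20.AH
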