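import Pool.Agent.T2H20.AH.Dr
import Pool.Agent.H374R2.T.TaskE

/-!
Two positive rational numbers `a / b`, `A / B`: if `a / b` is close to `1` and `(a / b) ^ q` is very
close to `A / B` then both are `1`. The real analogue of `Pool.Agent.Y911.AA.core`.
-/

set_option autoImplicit false

namespace Pool.Agent.T2H20.AH

open Finset Pool.Agent.H374R2.T.TaskZ
open Pool.Agent.H374R2.T.TaskE (exists_rows)

lemma abs_pow_sub_one {x η : ℝ} (h : |x - 1| ≤ η) (hη : η ≤ 1 / 64) {l : ℕ} (hl : l < 8) :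
    |x ^ l - 1| ≤ 8 * η := by
  have hη0 : 0 ≤ η := (abs_nonneg _).trans h
  have hx : |x| ≤ 65 / 64 := by
    have h1 : |x| ≤ |x - 1| + 1 := by
      calc |x| = |(x - 1) + 1| := by ring_nf
        _ ≤ |x - 1| + |(1 : ℝ)| := abs_add_le _ _
        _ = |x - 1| + 1 := by rw [abs_one]
    linarith
  have hp : ∀ i : ℕ, i ≤ 6 → |x| ^ i ≤ 8 / 7 := by
    intro i hi
    calc |x| ^ i ≤ (65 / 64 : ℝ) ^ i := pow_le_pow_left₀ (abs_nonneg _) hx _
      _ ≤ (65 / 64 : ℝ) ^ 6 := pow_le_pow_right₀ (by norm_num) hi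
      _ ≤ 8 / 7 := by norm_num
  have h2 : x ^ l - 1 = (∑ i ∈ range l, x ^ i) * (x - 1) := (geom_sum_mul x l).symm
  rw [h2, abs_mul]
  have h3 : |∑ i ∈ range l, x ^ i| ≤ 8 := by
    calc |∑ i ∈ range l, x ^ i| ≤ ∑ i ∈ range l, |x ^ i| := Finset.abs_sum_le_sum_abs _ _
      _ ≤ ∑ _i ∈ range l, (8 / 7 : ℝ) := by
          apply Finset.sum_le_sum
          intro i hi
          rw [abs_pow]
          exact hp i (by have := mem_range.1 hi; omega)
      _ = l * (8 / 7 : ℝ) := by rw [sum_const, card_range, nsmul_eq_mul]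
      _ ≤ 7 * (8 / 7 : ℝ) := by
          apply mul_le_mul_of_nonneg_right _ (by norm_num)
          have : l ≤ 7 := by omega
          exact_mod_cast this
      _ = 8 := by norm_num
  exact mul_le_mul h3 h (abs_nonneg _) (by norm_num)

lemma exp_two_le : Real.exp 1 ^ 2 ≤ 8 := by
  have := Real.exp_one_lt_d9
  have h0 := Real.exp_pos 1
  nlinarith

theorem final_real {g g' K : ℤ} (hg : 16 ≤ g) (hK : 9 ≤ K) (h4 : 3 * g ≤ 4 * g' + 8)
    (h : g' * (24 * K ^ 2 - 4 * K) ≤ 9 * g * K ^ 2 + 8 * K * (4 * K + 5)) : False := by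
  have p1 : 0 ≤ (4 * g' + 8 - 3 * g) * (24 * K ^ 2 - 4 * K) :=
    mul_nonneg (by linarith) (by nlinarith)
  have p2 : 0 ≤ (g - 16) * (K * (3 * K - 1)) :=
    mul_nonneg (by linarith) (mul_nonneg (by linarith) (by linarith))
  have p3 : 0 ≤ K * (K - 9) := mul_nonneg (by linarith) (by linarith)
  linarith

theorem core_real {g h ν q Y a b A B : ℕ} (hg : 16 ≤ g) (hgh : g ≤ h)
    (hgν : g ≤ ν) (ha : 0 < a) (hb : 0 < b) (hA : 0 < A) (hB : 0 < B)
    (hbh : b < 2 ^ h) (hBν : B < 2 ^ ν)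
    (hab : |(a : ℝ) / b - 1| ≤ (1 / 2 : ℝ) ^ g)
    (hrel : |((b : ℝ) ^ q * A) / ((a : ℝ) ^ q * B) - 1| ≤ (1 / 2 : ℝ) ^ (g * Y))
    (h1 : 141 * ν ≤ g * q) (h2 : q * g ≤ 2 ^ (g / 4) * ν) (hY : 20000 * h * ν ≤ Y * g ^ 2) :
    a = b := by
  by_contra hne
  have hq0 : 0 < q := by
    by_contra hc
    have : q = 0 := by omega
    rw [this, mul_zero] at h1
    omega
  obtain ⟨L, hL⟩ : ∃ L, L = 8 := ⟨_, rfl⟩
  obtain ⟨R₂, hR₂⟩ : ∃ R₂, R₂ = 140 * ν / g + 1 := ⟨_, rfl⟩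
  obtain ⟨S₂, hS₂⟩ : ∃ S₂, S₂ = 140 * h / g + 1 := ⟨_, rfl⟩
  obtain ⟨R, hR⟩ : ∃ R, R = R₂ + L - 1 := ⟨_, rfl⟩
  obtain ⟨K, hK⟩ : ∃ K, K = 8 * (R * h + S₂ * ν) / g + 1 := ⟨_, rfl⟩
  obtain ⟨n, hn⟩ : ∃ n, n = K * L := ⟨_, rfl⟩
  have hg0 : 0 < g := by omega
  have hR₂a : g * R₂ ≤ 141 * ν := by
    have : g * (140 * ν / g) ≤ 140 * ν := Nat.mul_div_le _ _
    rw [hR₂, mul_add, mul_one]
    omega
  have hR₂b : 140 * ν < g * R₂ := by
    rw [hR₂]
    exact Nat.lt_mul_div_succ _ hg0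
  have hS₂a : g * S₂ ≤ 141 * h := by
    have : g * (140 * h / g) ≤ 140 * h := Nat.mul_div_le _ _
    rw [hS₂, mul_add, mul_one]
    omega
  have hS₂b : 140 * h < g * S₂ := by
    rw [hS₂]
    exact Nat.lt_mul_div_succ _ hg0
  have hKa : g * (K - 1) ≤ 8 * (R * h + S₂ * ν) := by
    rw [hK, Nat.add_sub_cancel]
    exact Nat.mul_div_le _ _
  have hKb : 8 * (R * h + S₂ * ν) < g * K := by
    rw [hK]
    exact Nat.lt_mul_div_succ _ hg0
  have hK1 : 1 ≤ K := by rw [hK]; exact Nat.le_add_left 1 _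
  have hRR : R = R₂ + 7 := by omega
  -- the estimate for `g ^ 2 (K - 1)`
  have hsum : g * (R * h + S₂ * ν) ≤ 289 * (h * ν) := by
    have e1 : g * (R * h + S₂ * ν) = (g * R₂) * h + 7 * (g * h) + (g * S₂) * ν := by
      rw [hRR]; ring
    have e2 : (g * R₂) * h ≤ (141 * ν) * h := Nat.mul_le_mul_right _ hR₂a
    have e3 : (g * S₂) * ν ≤ (141 * h) * ν := Nat.mul_le_mul_right _ hS₂a
    have e4 : g * h ≤ ν * h := Nat.mul_le_mul_right _ hgν
    have e5 : (141 * ν) * h = 141 * (h * ν) := by ring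
    have e6 : (141 * h) * ν = 141 * (h * ν) := by ring
    have e7 : ν * h = h * ν := mul_comm _ _
    rw [e1]
    omega
  have hK2 : g ^ 2 * (K - 1) ≤ 2312 * (h * ν) := by
    calc g ^ 2 * (K - 1) = g * (g * (K - 1)) := by ring
      _ ≤ g * (8 * (R * h + S₂ * ν)) := Nat.mul_le_mul_left _ hKa
      _ = 8 * (g * (R * h + S₂ * ν)) := by ring
      _ ≤ 8 * (289 * (h * ν)) := Nat.mul_le_mul_left _ hsum
      _ = _ := by ring
  have hRS : 19600 * (h * ν) < g ^ 2 * (R₂ * S₂) := by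
    have e1 : (140 * ν) * (140 * h) < (g * R₂) * (g * S₂) :=
      Nat.mul_lt_mul'' hR₂b hS₂b
    have e2 : (140 * ν) * (140 * h) = 19600 * (h * ν) := by ring
    have e3 : (g * R₂) * (g * S₂) = g ^ 2 * (R₂ * S₂) := by ring
    omega
  have hKL : (K - 1) * L < R₂ * S₂ := by
    have e1 : g ^ 2 * ((K - 1) * L) < g ^ 2 * (R₂ * S₂) := by
      have e2 : g ^ 2 * ((K - 1) * L) = 8 * (g ^ 2 * (K - 1)) := by rw [hL]; ring
      omega
    exact Nat.lt_of_mul_lt_mul_left e1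
  have hny : n ≤ Y := by
    have e1 : g ^ 2 ≤ h * ν := by
      rw [pow_two]; exact Nat.mul_le_mul hgh hgν
    have e2 : g ^ 2 * n ≤ g ^ 2 * Y := by
      have e3 : g ^ 2 * n = 8 * (g ^ 2 * (K - 1)) + 8 * g ^ 2 := by
        obtain ⟨K', hK'⟩ : ∃ K', K = K' + 1 := ⟨K - 1, by omega⟩
        rw [hn, hL, hK', Nat.add_sub_cancel]; ring
      have e4 : 20000 * h * ν = 20000 * (h * ν) := by ring
      have e5 : Y * g ^ 2 = g ^ 2 * Y := by ring
      omega
    exact Nat.le_of_mul_le_mul_left e2 (by positivity)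
  have hRq : R₂ ≤ q := by
    have e1 : g * R₂ ≤ g * q := hR₂a.trans h1
    exact Nat.le_of_mul_le_mul_left e1 hg0
  -- the size of `R + S₂ q`
  have hz : (R + S₂ * q) * 3 ≤ K * 2 ^ (g / 4) := by
    have hh0 : 0 < h := by omega
    have e1 : 8 * R ≤ K := by
      have : g * (8 * R) ≤ g * K := by
        have e3 : g * (8 * R) ≤ 8 * (R * h) := by
          calc g * (8 * R) = 8 * (R * g) := by ring
            _ ≤ 8 * (R * h) := Nat.mul_le_mul_left _ (Nat.mul_le_mul_left _ hgh)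
        have e4 : 8 * (R * h + S₂ * ν) = 8 * (R * h) + 8 * (S₂ * ν) := by ring
        omega
      exact Nat.le_of_mul_le_mul_left this hg0
    have e2 : 8 * (S₂ * q) ≤ 2 ^ (g / 4) * K := by
      have : g * (8 * (S₂ * q)) ≤ g * (2 ^ (g / 4) * K) := by
        calc g * (8 * (S₂ * q)) = 8 * (S₂ * (q * g)) := by ring
          _ ≤ 8 * (S₂ * (2 ^ (g / 4) * ν)) :=
              Nat.mul_le_mul_left _ (Nat.mul_le_mul_left _ h2)
          _ = 2 ^ (g / 4) * (8 * (S₂ * ν)) := by ring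
          _ ≤ 2 ^ (g / 4) * (g * K) := by
              apply Nat.mul_le_mul_left
              have e4 : 8 * (R * h + S₂ * ν) = 8 * (R * h) + 8 * (S₂ * ν) := by ring
              omega
          _ = g * (2 ^ (g / 4) * K) := by ring
      exact Nat.le_of_mul_le_mul_left this hg0
    have e3 : K ≤ 2 ^ (g / 4) * K := Nat.le_mul_of_pos_left _ (by positivity)
    have e4 : K * 2 ^ (g / 4) = 2 ^ (g / 4) * K := mul_comm _ _
    omega
  have hK9 : 9 ≤ K := by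
    have e1 : 8 * (R * h) < g * K := by
      have e4 : 8 * (R * h + S₂ * ν) = 8 * (R * h) + 8 * (S₂ * ν) := by ring
      omega
    have e2 : g * (8 * R) < g * K := by
      refine lt_of_le_of_lt ?_ e1
      calc g * (8 * R) = 8 * (R * g) := by ring
        _ ≤ 8 * (R * h) := Nat.mul_le_mul_left _ (Nat.mul_le_mul_left _ hgh)
    have e3 := Nat.lt_of_mul_lt_mul_left e2
    omega
  have hS₂K : S₂ ≤ K := by
    have e1 : g * S₂ ≤ g * K := by
      calc g * S₂ ≤ ν * S₂ := Nat.mul_le_mul_right _ hgν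
        _ = S₂ * ν := mul_comm _ _
        _ ≤ g * K := by
          have e4 : 8 * (R * h + S₂ * ν) = 8 * (R * h) + 8 * (S₂ * ν) := by ring
          omega
    exact Nat.le_of_mul_le_mul_left e1 hg0
  -- the rational parameters
  have ha' : (0 : ℚ) < a := by exact_mod_cast ha
  have hb' : (0 : ℚ) < b := by exact_mod_cast hb
  have hA' : (0 : ℚ) < A := by exact_mod_cast hA
  have hB' : (0 : ℚ) < B := by exact_mod_cast hB
  obtain ⟨β, hβ⟩ : ∃ β : ℚ, β = (a : ℚ) / b := ⟨_, rfl⟩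
  obtain ⟨κ, hκ⟩ : ∃ κ : ℚ, κ = (A : ℚ) / B := ⟨_, rfl⟩
  have hβpos : 0 < β := by rw [hβ]; positivity
  have hκpos : 0 < κ := by rw [hκ]; positivity
  have hβ1 : β ≠ 1 := by
    intro h1
    rw [hβ, div_eq_one_iff_eq hb'.ne'] at h1
    exact hne (by exact_mod_cast h1)
  let e : Fin K × Fin L ≃ Fin (K * L) := finProdFinEquiv
  let M : Matrix (Fin R × Fin S₂) (Fin (K * L)) ℚ := Matrix.of fun ρ c =>
    (Nat.choose (ρ.1 * 1 + ρ.2 * q) (e.symm c).1 : ℚ) *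
      (β ^ (ρ.1 : ℕ) * κ ^ (ρ.2 : ℕ)) ^ ((e.symm c).2 : ℕ)
  have hinj : Function.Injective M.mulVec := by
    have hzero : ∀ d : Fin (K * L) → ℚ, M.mulVec d = 0 → d = 0 := by
      intro d hd
      have hz := zero_estimate (K := K) (L := L) (i := 1) (q := q) hβpos hβ1 hκpos
        (Nat.coprime_one_left q) hRq hKL
        (fun k l => d (e (k, l))) (by
          intro r s hr hs
          have hr' : r < R := by omega
          have h1 := congrFun hd (⟨r, hr'⟩, ⟨s, hs⟩)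
          simp only [Matrix.mulVec, dotProduct, Pi.zero_apply] at h1
          rw [← h1, ← Fintype.sum_prod_type']
          apply Fintype.sum_equiv e
          intro c
          simp only [M, Matrix.of_apply, Equiv.symm_apply_apply]
          ring)
      funext c
      have h2 := hz (e.symm c).1 (e.symm c).2
      simpa using h2
    intro u v huv
    have h1 : M.mulVec (u - v) = 0 := by
      rw [Matrix.mulVec_sub, huv, sub_self]
    exact sub_eq_zero.mp (hzero _ h1)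
  obtain ⟨f, hf⟩ := exists_rows M hinj
  -- the integer matrix
  let N : Matrix (Fin (K * L)) (Fin (K * L)) ℤ := Matrix.of fun ρ c : Fin (K * L) =>
    ((Nat.choose (((f ρ).1 : ℕ) * 1 + ((f ρ).2 : ℕ) * q) ((e.symm c).1 : ℕ) *
      (a ^ (((f ρ).1 : ℕ) * ((e.symm c).2 : ℕ)) *
        b ^ (((f ρ).1 : ℕ) * (L - 1 - ((e.symm c).2 : ℕ))) *
        A ^ (((f ρ).2 : ℕ) * ((e.symm c).2 : ℕ)) *
        B ^ (((f ρ).2 : ℕ) * (L - 1 - ((e.symm c).2 : ℕ)))) : ℕ) : ℤ)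
  have hdet : N.det ≠ 0 := by
    intro h0
    apply hf
    have hrel2 : N.map (Int.cast : ℤ → ℚ) = Matrix.diagonal (fun ρ : Fin (K * L) =>
        (b : ℚ) ^ (((f ρ).1 : ℕ) * (L - 1)) *
          (B : ℚ) ^ (((f ρ).2 : ℕ) * (L - 1))) * M.submatrix f id := by
      ext ρ c
      rw [Matrix.diagonal_mul]
      simp only [N, M, Matrix.map_apply, Matrix.of_apply, Matrix.submatrix_apply, id]
      push_cast
      have hl := (e.symm c).2.2
      obtain ⟨t, ht⟩ : ∃ t, L - 1 = ((e.symm c).2 : ℕ) + t := ⟨L - 1 - (e.symm c).2, by omega⟩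
      have ht2 : L - 1 - ((e.symm c).2 : ℕ) = t := by omega
      rw [ht2, ht, hβ, hκ, div_pow, div_pow, mul_pow, div_pow, div_pow]
      have hbne : (b : ℚ) ≠ 0 := by positivity
      have hBne : (B : ℚ) ≠ 0 := by positivity
      rw [mul_add, pow_add, mul_add, pow_add, pow_mul _ _ ((e.symm c).2 : ℕ),
        pow_mul _ ((f ρ).1 : ℕ) ((e.symm c).2 : ℕ), pow_mul _ ((f ρ).2 : ℕ) ((e.symm c).2 : ℕ),
        pow_mul (B : ℚ) ((f ρ).2 : ℕ) ((e.symm c).2 : ℕ)]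
      field_simp
    have h1 : ((N.det : ℤ) : ℚ) = (N.map (Int.cast : ℤ → ℚ)).det := by
      have := RingHom.map_det (Int.castRingHom ℚ) N
      simpa using this
    rw [hrel2, Matrix.det_mul, Matrix.det_diagonal, h0, Int.cast_zero] at h1
    rcases mul_eq_zero.mp h1.symm with h2 | h2
    · exfalso
      rw [Finset.prod_eq_zero_iff] at h2
      obtain ⟨ρ, _, hρ⟩ := h2
      have : (b : ℚ) ^ (((f ρ).1 : ℕ) * (L - 1)) *
          (B : ℚ) ^ (((f ρ).2 : ℕ) * (L - 1)) ≠ 0 := by positivity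
      exact this hρ
    · exact h2
  have hlow : (1 : ℝ) ≤ |((N.det : ℤ) : ℝ)| := by
    have : (1 : ℤ) ≤ |N.det| := Int.one_le_abs hdet
    rw [← Int.cast_abs]
    exact_mod_cast this
  -- real parameters
  have haR : (0 : ℝ) < a := by exact_mod_cast ha
  have hbR : (0 : ℝ) < b := by exact_mod_cast hb
  have hAR : (0 : ℝ) < A := by exact_mod_cast hA
  have hBR : (0 : ℝ) < B := by exact_mod_cast hB
  obtain ⟨βr, hβr⟩ : ∃ βr : ℝ, βr = (a : ℝ) / b := ⟨_, rfl⟩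
  obtain ⟨ω, hω⟩ : ∃ ω : ℝ, ω = ((b : ℝ) ^ q * A) / ((a : ℝ) ^ q * B) := ⟨_, rfl⟩
  rw [← hβr] at hab
  rw [← hω] at hrel
  have hmat : (N.map (Int.cast : ℤ → ℝ)) = Matrix.of fun ρ c : Fin (K * L) =>
      ((b : ℝ) ^ (((f ρ).1 : ℕ) * (L - 1)) * (B : ℝ) ^ (((f ρ).2 : ℕ) * (L - 1))) *
      ((Nat.choose (((f ρ).1 : ℕ) * 1 + ((f ρ).2 : ℕ) * q) ((e.symm c).1 : ℕ) : ℝ) *
        (βr ^ ((e.symm c).2 : ℕ)) ^ (((f ρ).1 : ℕ) * 1 + ((f ρ).2 : ℕ) * q) *
        (ω ^ ((e.symm c).2 : ℕ)) ^ ((f ρ).2 : ℕ)) := by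
    ext ρ c
    simp only [N, Matrix.map_apply, Matrix.of_apply]
    push_cast
    have hl := (e.symm c).2.2
    obtain ⟨r, hr⟩ : ∃ r, r = ((f ρ).1 : ℕ) := ⟨_, rfl⟩
    obtain ⟨s, hs⟩ : ∃ s, s = ((f ρ).2 : ℕ) := ⟨_, rfl⟩
    obtain ⟨l, hl'⟩ : ∃ l, l = ((e.symm c).2 : ℕ) := ⟨_, rfl⟩
    rw [← hr, ← hs, ← hl']
    obtain ⟨t, ht⟩ : ∃ t, L - 1 = l + t := ⟨L - 1 - l, by omega⟩
    have ht2 : L - 1 - l = t := by omega
    rw [ht2, ht, mul_one]
    have hkey : (βr ^ l) ^ (r + s * q) * (ω ^ l) ^ s = ((a : ℝ) / b) ^ (l * r) *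
        ((A : ℝ) / B) ^ (l * s) := by
      have e1 : βr ^ q * ω = (A : ℝ) / B := by
        rw [hβr, hω, div_pow]
        field_simp
      calc (βr ^ l) ^ (r + s * q) * (ω ^ l) ^ s = βr ^ (l * r) * (βr ^ q * ω) ^ (l * s) := by
            rw [mul_pow]; ring
        _ = _ := by rw [e1, hβr]
    calc ((r + s * q).choose ((e.symm c).1 : ℕ) : ℝ) *
          ((a : ℝ) ^ (r * l) * b ^ (r * t) * A ^ (s * l) * B ^ (s * t))
        = (b : ℝ) ^ (r * (l + t)) * B ^ (s * (l + t)) *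
          (((r + s * q).choose ((e.symm c).1 : ℕ) : ℝ) *
            (((a : ℝ) / b) ^ (l * r) * ((A : ℝ) / B) ^ (l * s))) := by
          rw [div_pow, div_pow, mul_add, mul_add, pow_add, pow_add, mul_comm l r, mul_comm l s]
          field_simp
      _ = _ := by rw [← hkey]; ring
  have hcast : ((N.det : ℤ) : ℝ) = (N.map (Int.cast : ℤ → ℝ)).det := by
    have := RingHom.map_det (Int.castRingHom ℝ) N
    simpa using this
  -- sizes
  obtain ⟨η, hη⟩ : ∃ η : ℝ, η = (1 / 2 : ℝ) ^ g := ⟨_, rfl⟩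
  have hη64 : η ≤ 1 / 64 := by
    rw [hη]
    calc (1 / 2 : ℝ) ^ g ≤ (1 / 2 : ℝ) ^ 6 :=
          pow_le_pow_of_le_one (by norm_num) (by norm_num) (by omega)
      _ = 1 / 64 := by norm_num
  have hY0 : 1 ≤ Y := by
    have : 1 ≤ n := by rw [hn, hL]; omega
    omega
  have hrel64 : (1 / 2 : ℝ) ^ (g * Y) ≤ 1 / 64 := by
    calc (1 / 2 : ℝ) ^ (g * Y) ≤ (1 / 2 : ℝ) ^ 6 :=
          pow_le_pow_of_le_one (by norm_num) (by norm_num) (by nlinarith)
      _ = 1 / 64 := by norm_num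
  obtain ⟨g', hg'⟩ : ∃ g', g' = g - g / 4 - 2 := ⟨_, rfl⟩
  have hg'e : g = g' + g / 4 + 2 := by omega
  have hβl : ∀ c : Fin (K * L), |βr ^ ((e.symm c).2 : ℕ) - 1| ≤ 8 * η := fun c =>
    abs_pow_sub_one (by rw [hη]; exact hab) hη64 (by have := (e.symm c).2.2; omega)
  have hωl : ∀ c : Fin (K * L), |ω ^ ((e.symm c).2 : ℕ) - 1| ≤ 8 * (1 / 2 : ℝ) ^ (g * Y) :=
    fun c => abs_pow_sub_one hrel hrel64 (by have := (e.symm c).2.2; omega)
  have hη0 : 0 < η := by rw [hη]; positivity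
  have hup := det_small (n := K * L) (K := K) (Y := Y)
    (fun ρ => ((f ρ).1 : ℕ) * 1 + ((f ρ).2 : ℕ) * q) (fun ρ => ((f ρ).2 : ℕ))
    (fun c => ((e.symm c).1 : ℕ)) (fun c => ((e.symm c).2 : ℕ))
    (fun c => (e.symm c).1.2.le) (by rw [← hn]; exact hny)
    (fun ρ => (b : ℝ) ^ (((f ρ).1 : ℕ) * (L - 1)) * (B : ℝ) ^ (((f ρ).2 : ℕ) * (L - 1)))
    (β := βr) (ω := ω) (Um := 2 ^ (7 * (R * h + S₂ * ν))) (Zm := K * 2 ^ (g / 4) / 3)
    (Sm := S₂) (G := 2 ^ (g / 4 * K) * Real.exp K) (δ := (1 / 2) ^ g')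
    (by
      intro ρ
      rw [abs_of_nonneg (by positivity)]
      have e1 : b ^ (((f ρ).1 : ℕ) * (L - 1)) ≤ 2 ^ (h * (R * 7)) := by
        calc b ^ (((f ρ).1 : ℕ) * (L - 1)) ≤ (2 ^ h) ^ (((f ρ).1 : ℕ) * (L - 1)) :=
              Nat.pow_le_pow_left hbh.le _
          _ = 2 ^ (h * (((f ρ).1 : ℕ) * (L - 1))) := (pow_mul _ _ _).symm
          _ ≤ 2 ^ (h * (R * 7)) := by
              apply Nat.pow_le_pow_right (by norm_num)
              apply Nat.mul_le_mul_left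
              exact Nat.mul_le_mul (f ρ).1.2.le (by omega)
      have e2 : B ^ (((f ρ).2 : ℕ) * (L - 1)) ≤ 2 ^ (ν * (S₂ * 7)) := by
        calc B ^ (((f ρ).2 : ℕ) * (L - 1)) ≤ (2 ^ ν) ^ (((f ρ).2 : ℕ) * (L - 1)) :=
              Nat.pow_le_pow_left hBν.le _
          _ = 2 ^ (ν * (((f ρ).2 : ℕ) * (L - 1))) := (pow_mul _ _ _).symm
          _ ≤ 2 ^ (ν * (S₂ * 7)) := by
              apply Nat.pow_le_pow_right (by norm_num)
              apply Nat.mul_le_mul_left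
              exact Nat.mul_le_mul (f ρ).2.2.le (by omega)
      have e3 : 2 ^ (h * (R * 7)) * 2 ^ (ν * (S₂ * 7)) = 2 ^ (7 * (R * h + S₂ * ν)) := by
        rw [← pow_add]; congr 1; ring
      have e4 := Nat.mul_le_mul e1 e2
      rw [e3] at e4
      exact_mod_cast e4)
    (by
      intro ρ
      rw [le_div_iff₀ (by norm_num)]
      have e1 : ((f ρ).1 : ℕ) * 1 + ((f ρ).2 : ℕ) * q ≤ R + S₂ * q := by
        rw [mul_one]
        exact Nat.add_le_add (f ρ).1.2.le (Nat.mul_le_mul_right _ (f ρ).2.2.le)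
      have e2 := (Nat.mul_le_mul_right 3 e1).trans hz
      exact_mod_cast e2)
    (by
      intro ρ
      exact_mod_cast (f ρ).2.2.le)
    (by positivity) (by positivity) (by positivity) (by positivity) (by positivity)
    (pow_le_one₀ (by norm_num) (by norm_num))
    (by
      intro c
      calc (K : ℝ) * 2 ^ (g / 4) / 3 * |βr ^ ((e.symm c).2 : ℕ) - 1|
          ≤ (K : ℝ) * 2 ^ (g / 4) / 3 * (8 * η) :=
            mul_le_mul_of_nonneg_left (hβl c) (by positivity)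
        _ = K * ((1 / 2) ^ g' * (2 / 3)) := by
            have e1 : η = (1 / 2 : ℝ) ^ g' * (1 / 2 : ℝ) ^ (g / 4) * (1 / 4) := by
              rw [hη]
              conv_lhs => rw [hg'e]
              rw [pow_add, pow_add]
              norm_num
            have e2 : (2 : ℝ) ^ (g / 4) * (1 / 2 : ℝ) ^ (g / 4) = 1 := by
              rw [← mul_pow]; norm_num
            rw [e1]
            calc (K : ℝ) * 2 ^ (g / 4) / 3 * (8 * ((1 / 2 : ℝ) ^ g' * (1 / 2 : ℝ) ^ (g / 4) *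
                  (1 / 4))) = K * (1 / 2 : ℝ) ^ g' * (2 / 3) *
                  ((2 : ℝ) ^ (g / 4) * (1 / 2 : ℝ) ^ (g / 4)) := by ring
              _ = _ := by rw [e2]; ring
        _ ≤ K * (1 / 2) ^ g' := by
            apply mul_le_mul_of_nonneg_left _ (Nat.cast_nonneg _)
            have : (0 : ℝ) < (1 / 2) ^ g' := by positivity
            linarith)
    (by
      intro c
      refine (mul_le_mul_of_nonneg_left (hωl c) (Nat.cast_nonneg _)).trans ?_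
      have e1 : 8 * S₂ ≤ 2 ^ (g / 4 * Y + 2 * Y) := by
        have e2 : S₂ ≤ Y := by
          have : K ≤ n := by rw [hn, hL]; omega
          omega
        have e3 : Y < 2 ^ Y := Nat.lt_two_pow_self
        have e4 : 4 * Y ≤ g / 4 * Y := Nat.mul_le_mul_right _ (by omega)
        calc 8 * S₂ ≤ 2 ^ 3 * 2 ^ Y := Nat.mul_le_mul (by norm_num) (by omega)
          _ = 2 ^ (3 + Y) := (pow_add _ _ _).symm
          _ ≤ 2 ^ (g / 4 * Y + 2 * Y) := Nat.pow_le_pow_right (by norm_num) (by omega)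
      have e5 : (8 * S₂ : ℝ) ≤ 2 ^ (g / 4 * Y + 2 * Y) := by exact_mod_cast e1
      calc (S₂ : ℝ) * (8 * (1 / 2 : ℝ) ^ (g * Y)) = (8 * S₂) * (1 / 2 : ℝ) ^ (g * Y) := by ring
        _ ≤ 2 ^ (g / 4 * Y + 2 * Y) * (1 / 2 : ℝ) ^ (g * Y) :=
            mul_le_mul_of_nonneg_right e5 (by positivity)
        _ = ((1 / 2) ^ g') ^ Y := by
            have e6 : g * Y = g' * Y + (g / 4 * Y + 2 * Y) := by
              conv_lhs => rw [hg'e]
              ring
            rw [e6, pow_add (1 / 2 : ℝ) (g' * Y), ← pow_mul]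
            have e7 : (2 : ℝ) ^ (g / 4 * Y + 2 * Y) * (1 / 2 : ℝ) ^ (g / 4 * Y + 2 * Y) = 1 := by
              rw [← mul_pow]; norm_num
            calc (2 : ℝ) ^ (g / 4 * Y + 2 * Y) * ((1 / 2) ^ (g' * Y) *
                  (1 / 2) ^ (g / 4 * Y + 2 * Y)) = (1 / 2) ^ (g' * Y) *
                  ((2 : ℝ) ^ (g / 4 * Y + 2 * Y) * (1 / 2 : ℝ) ^ (g / 4 * Y + 2 * Y)) := by ring
              _ = _ := by rw [e7, mul_one])
    (by
      intro c
      obtain ⟨k, hk⟩ : ∃ k, k = ((e.symm c).1 : ℕ) := ⟨_, rfl⟩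
      rw [← hk]
      have hkK : k ≤ K := by rw [hk]; exact (e.symm c).1.2.le
      have e1 : |βr ^ ((e.symm c).2 : ℕ)| ≤ 2 := by
        calc |βr ^ ((e.symm c).2 : ℕ)| = |(βr ^ ((e.symm c).2 : ℕ) - 1) + 1| := by ring_nf
          _ ≤ |βr ^ ((e.symm c).2 : ℕ) - 1| + |(1 : ℝ)| := abs_add_le _ _
          _ ≤ 8 * η + 1 := by
              rw [abs_one]
              have := hβl c
              linarith
          _ ≤ 2 := by linarith
      have e2 : (K : ℝ) * 2 ^ (g / 4) / 3 * |βr ^ ((e.symm c).2 : ℕ)| ≤ 2 ^ (g / 4) * K := by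
        calc (K : ℝ) * 2 ^ (g / 4) / 3 * |βr ^ ((e.symm c).2 : ℕ)|
            ≤ (K : ℝ) * 2 ^ (g / 4) / 3 * 2 := mul_le_mul_of_nonneg_left e1 (by positivity)
          _ ≤ (K : ℝ) * 2 ^ (g / 4) / 3 * 3 :=
              mul_le_mul_of_nonneg_left (by norm_num) (by positivity)
          _ = 2 ^ (g / 4) * K := by ring
      calc ((K : ℝ) * 2 ^ (g / 4) / 3) ^ k / (k.factorial : ℝ) * |βr ^ ((e.symm c).2 : ℕ)| ^ k
          = ((K : ℝ) * 2 ^ (g / 4) / 3 * |βr ^ ((e.symm c).2 : ℕ)|) ^ k / (k.factorial : ℝ) := by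
            rw [mul_pow ((K : ℝ) * 2 ^ (g / 4) / 3)]; ring
        _ ≤ (2 ^ (g / 4) * K) ^ k / (k.factorial : ℝ) := by
            apply div_le_div_of_nonneg_right _ (Nat.cast_nonneg _)
            exact pow_le_pow_left₀ (by positivity) e2 _
        _ = (2 ^ (g / 4)) ^ k * ((K : ℝ) ^ k / (k.factorial : ℝ)) := by rw [mul_pow]; ring
        _ ≤ (2 ^ (g / 4)) ^ K * Real.exp K := by
            apply mul_le_mul
            · exact pow_le_pow_right₀ (one_le_pow₀ (by norm_num)) hkK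
            · exact Real.pow_div_factorial_le_exp _ (Nat.cast_nonneg _) _
            · positivity
            · positivity
        _ = 2 ^ (g / 4 * K) * Real.exp K := by rw [← pow_mul])
  rw [← hmat, ← hcast] at hup
  obtain ⟨dt, hdt⟩ : ∃ dt : ℝ, dt = |((N.det : ℤ) : ℝ)| := ⟨_, rfl⟩
  rw [← hdt] at hup hlow
  -- the contradiction
  have hn8 : n = 8 * K := by rw [hn, hL]; ring
  have hexp : n * (n - 1) / 2 - n * K = 24 * K ^ 2 - 4 * K := by
    have e1 : n * (n - 1) = 2 * (32 * K ^ 2 - 4 * K) := by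
      rw [hn8]
      have hKK : K ≤ K ^ 2 := Nat.le_self_pow (by norm_num) K
      zify [show 1 ≤ 8 * K by omega, show 4 * K ≤ 32 * K ^ 2 by omega]
      ring
    rw [e1, Nat.mul_div_cancel_left _ (by norm_num), hn8]
    have e2 : 8 * K * K = 8 * K ^ 2 := by ring
    rw [e2]
    omega
  rw [← hn, hexp] at hup
  have hnle : n ≤ 2 ^ (3 + K) := by
    rw [hn8, pow_add]
    exact Nat.mul_le_mul (by norm_num) (Nat.lt_two_pow_self).le
  obtain ⟨T, hT⟩ : ∃ T, T = 7 * (R * h + S₂ * ν) + (g / 4 * K + (3 * K + 2)) := ⟨_, rfl⟩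
  have hUm : (2 : ℝ) ^ (7 * (R * h + S₂ * ν)) * (2 ^ (g / 4 * K) * Real.exp K *
      (Real.exp K * Real.exp 1)) ≤ 2 ^ T := by
    have e1 : Real.exp K * (Real.exp K * Real.exp 1) ≤ 2 ^ (3 * K + 2) := by
      have e2 : Real.exp K = Real.exp 1 ^ K := by rw [← Real.exp_nat_mul, mul_one]
      have e3 : Real.exp 1 ≤ 4 := by
        have := Real.exp_one_lt_d9
        linarith
      calc Real.exp K * (Real.exp K * Real.exp 1) = (Real.exp 1 ^ 2) ^ K * Real.exp 1 := by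
            rw [e2]; ring
        _ ≤ 8 ^ K * 4 := by
            apply mul_le_mul _ e3 (Real.exp_pos _).le (by positivity)
            exact pow_le_pow_left₀ (by positivity) exp_two_le _
        _ = 2 ^ (3 * K + 2) := by
            rw [pow_add, pow_mul]; norm_num
    calc (2 : ℝ) ^ (7 * (R * h + S₂ * ν)) * (2 ^ (g / 4 * K) * Real.exp K *
        (Real.exp K * Real.exp 1)) = 2 ^ (7 * (R * h + S₂ * ν)) * (2 ^ (g / 4 * K) *
          (Real.exp K * (Real.exp K * Real.exp 1))) := by ring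
      _ ≤ 2 ^ (7 * (R * h + S₂ * ν)) * (2 ^ (g / 4 * K) * 2 ^ (3 * K + 2)) := by
          apply mul_le_mul_of_nonneg_left _ (by positivity)
          exact mul_le_mul_of_nonneg_left e1 (by positivity)
      _ = 2 ^ T := by
          rw [hT, pow_add (2 : ℝ) (7 * (R * h + S₂ * ν)), pow_add (2 : ℝ) (g / 4 * K)]
  have hchain : (2 : ℝ) ^ (g' * (24 * K ^ 2 - 4 * K)) ≤ 2 ^ ((3 + K + T) * n) := by
    have e1 : (1 : ℝ) ≤ ((2 : ℝ) ^ (3 + K)) ^ n * (2 ^ T) ^ n *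
        ((1 / 2 : ℝ) ^ g') ^ (24 * K ^ 2 - 4 * K) := by
      refine hlow.trans (hup.trans ?_)
      apply mul_le_mul_of_nonneg_right _ (by positivity)
      apply mul_le_mul
      · calc (n.factorial : ℝ) ≤ (n : ℝ) ^ n := by exact_mod_cast Nat.factorial_le_pow n
          _ ≤ ((2 : ℝ) ^ (3 + K)) ^ n := by
              apply pow_le_pow_left₀ (by positivity)
              exact_mod_cast hnle
      · exact pow_le_pow_left₀ (by positivity) hUm _
      · positivity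
      · positivity
    have e2 : (2 : ℝ) ^ (g' * (24 * K ^ 2 - 4 * K)) *
        ((1 / 2 : ℝ) ^ g') ^ (24 * K ^ 2 - 4 * K) = 1 := by
      rw [← pow_mul, ← mul_pow]; norm_num
    calc (2 : ℝ) ^ (g' * (24 * K ^ 2 - 4 * K)) = 2 ^ (g' * (24 * K ^ 2 - 4 * K)) * 1 :=
          (mul_one _).symm
      _ ≤ 2 ^ (g' * (24 * K ^ 2 - 4 * K)) * (((2 : ℝ) ^ (3 + K)) ^ n * (2 ^ T) ^ n *
        ((1 / 2 : ℝ) ^ g') ^ (24 * K ^ 2 - 4 * K)) :=
          mul_le_mul_of_nonneg_left e1 (by positivity)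
      _ = ((2 : ℝ) ^ (3 + K)) ^ n * (2 ^ T) ^ n * (2 ^ (g' * (24 * K ^ 2 - 4 * K)) *
          ((1 / 2 : ℝ) ^ g') ^ (24 * K ^ 2 - 4 * K)) := by ring
      _ = 2 ^ ((3 + K + T) * n) := by
          rw [e2, mul_one, ← mul_pow, ← pow_add, ← pow_mul]
  have hcontra := (pow_le_pow_iff_right₀ (by norm_num : (1 : ℝ) < 2)).mp hchain
  -- arithmetic
  have hsub : 4 * K ≤ 24 * K ^ 2 := by
    have : K ≤ K ^ 2 := Nat.le_self_pow (by norm_num) K
    omega
  have hTn : T * n ≤ 9 * g * K ^ 2 + 8 * K * (3 * K + 2) := by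
    have e1 : 7 * (R * h + S₂ * ν) * 8 ≤ 7 * (g * K) := by omega
    have e2 : g / 4 * 4 ≤ g := Nat.div_mul_le_self _ _
    calc T * n = (7 * (R * h + S₂ * ν) * 8) * K + (g / 4 * 4) * (2 * K ^ 2) +
          8 * K * (3 * K + 2) := by rw [hT, hn8]; ring
      _ ≤ 7 * (g * K) * K + g * (2 * K ^ 2) + 8 * K * (3 * K + 2) := by
          apply Nat.add_le_add_right
          exact Nat.add_le_add (Nat.mul_le_mul_right _ e1) (Nat.mul_le_mul_right _ e2)
      _ = _ := by ring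
  have hfin : g' * (24 * K ^ 2 - 4 * K) ≤ 9 * g * K ^ 2 + 8 * K * (4 * K + 5) := by
    calc g' * (24 * K ^ 2 - 4 * K) ≤ (3 + K + T) * n := hcontra
      _ = (3 + K) * n + T * n := by ring
      _ ≤ (3 + K) * n + (9 * g * K ^ 2 + 8 * K * (3 * K + 2)) := Nat.add_le_add_left hTn _
      _ = _ := by rw [hn8]; ring
  have h4g' : 3 * g ≤ 4 * g' + 8 := by omega
  have hcz : ((g' * (24 * K ^ 2 - 4 * K) : ℕ) : ℤ) ≤
      ((9 * g * K ^ 2 + 8 * K * (4 * K + 5) : ℕ) : ℤ) := by exact_mod_cast hfin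
  rw [Nat.cast_mul, Nat.cast_sub hsub] at hcz
  push_cast at hcz
  exact final_real (g := g) (g' := g') (K := K) (by exact_mod_cast hg) (by exact_mod_cast hK9)
    (by exact_mod_cast h4g') hcz

/-- both numbers are `1` -/
theorem core_real' {g h ν q Y a b A B : ℕ} (hg : 16 ≤ g) (hgh : g ≤ h)
    (hgν : g ≤ ν) (ha : 0 < a) (hb : 0 < b) (hA : 0 < A) (hB : 0 < B)
    (hbh : b < 2 ^ h) (hBν : B < 2 ^ ν)
    (hab : |(a : ℝ) / b - 1| ≤ (1 / 2 : ℝ) ^ g)
    (hrel : |((b : ℝ) ^ q * A) / ((a : ℝ) ^ q * B) - 1| ≤ (1 / 2 : ℝ) ^ (g * Y))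
    (h1 : 141 * ν ≤ g * q) (h2 : q * g ≤ 2 ^ (g / 4) * ν) (hY : 20000 * h * ν ≤ Y * g ^ 2) :
    a = b ∧ A = B := by
  have h3 := core_real hg hgh hgν ha hb hA hB hbh hBν hab hrel h1 h2 hY
  refine ⟨h3, ?_⟩
  subst h3
  have haR : (0 : ℝ) < a := by exact_mod_cast ha
  have hBR : (0 : ℝ) < B := by exact_mod_cast hB
  have e1 : ((a : ℝ) ^ q * A) / ((a : ℝ) ^ q * B) = A / B := by
    rw [mul_div_mul_left _ _ (by positivity)]
  rw [e1] at hrel
  have h5 : ν ≤ g * Y := by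
    have e1 : g * ν * 1 ≤ g * (g * Y) := by
      calc g * ν * 1 ≤ h * ν * 20000 :=
            Nat.mul_le_mul (Nat.mul_le_mul_right _ hgh) (by norm_num)
        _ = 20000 * h * ν := by ring
        _ ≤ Y * g ^ 2 := hY
        _ = g * (g * Y) := by ring
    rw [mul_one] at e1
    exact Nat.le_of_mul_le_mul_left e1 (by omega)
  have h6 : (B : ℝ) * (1 / 2 : ℝ) ^ (g * Y) < 1 := by
    have : (B : ℝ) < 2 ^ (g * Y) := by
      exact_mod_cast lt_of_lt_of_le hBν (Nat.pow_le_pow_right (by norm_num) h5)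
    calc (B : ℝ) * (1 / 2 : ℝ) ^ (g * Y) < 2 ^ (g * Y) * (1 / 2 : ℝ) ^ (g * Y) :=
          mul_lt_mul_of_pos_right this (by positivity)
      _ = 1 := by rw [← mul_pow]; norm_num
  have h7 : |(A : ℝ) - B| < 1 := by
    have e2 : (A : ℝ) - B = B * (A / B - 1) := by field_simp
    rw [e2, abs_mul, abs_of_pos hBR]
    exact lt_of_le_of_lt (mul_le_mul_of_nonneg_left hrel hBR.le) h6
  have h8 : |((A : ℤ) - (B : ℤ) : ℤ)| < 1 := by
    have : ((|((A : ℤ) - (B : ℤ) : ℤ)| : ℤ) : ℝ) < 1 := by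
      push_cast
      exact h7
    exact_mod_cast this
  have h9 := Int.abs_lt_one_iff.mp h8
  omega

end Pool.Agent.T2H20.AH
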