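import Pool.Agent.T2H20.AH.Sf
import Pool.Agent.T2H20.AH.Rc
import Pool.Agent.Y911.AA.Two

/-!
The number of the supports of solutions of a relation `u m₁ ^ E C₁ = m₂ ^ E C₂` where `m₁`, `m₂` have
few primes, modulo a large power and in the real numbers.
-/

set_option autoImplicit false

namespace Pool.Agent.T2H20.AH

open Finset

lemma prod_le_pow' {ι : Type*} (I : Finset ι) (f : ι → ℕ) {B k : ℕ} (h : ∀ x ∈ I, f x ≤ B)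
    (hk : I.card = k) : ∏ x ∈ I, f x ≤ B ^ k := by
  rw [← hk]
  exact Finset.prod_le_pow_card I f B h

/-- **the relation modulo a large power** -/
theorem few_padic {D Z g h ν E k s n0 Mb Cb : ℕ} {ι : Type*} [DecidableEq ι]
    (hgD : 2 ^ g ≤ D) (hg : 8 ≤ g) (hgh : g ≤ h) (hgν : g ≤ ν)
    (e1 : 141 * ν ≤ g * E) (e2 : E * g ≤ 2 ^ (g / 4) * ν) (e3 : 20000 * h * ν ≤ Z * g ^ 2)
    (hMb : Mb ^ k * Mb ^ k < 2 ^ h) (hCb : Cb ^ k * Cb ^ k < 2 ^ ν)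
    (hs : 1 ≤ s) (hsk : D < (s - 1).choose k)
    (F : Finset ι) (m₁ m₂ C₁ C₂ : ι → ℕ) (u : (ZMod (D ^ Z))ˣ)
    (hrel : ∀ x ∈ F, (u : ZMod (D ^ Z)) * ((m₁ x : ZMod (D ^ Z)) ^ E * (C₁ x : ZMod (D ^ Z))) =
      (m₂ x : ZMod (D ^ Z)) ^ E * (C₂ x : ZMod (D ^ Z)))
    (p1 : ∀ x ∈ F, 0 < m₁ x ∧ m₁ x ≤ Mb ∧ (m₁ x).Coprime D)
    (p2 : ∀ x ∈ F, 0 < m₂ x ∧ m₂ x ≤ Mb ∧ (m₂ x).Coprime D)
    (p3 : ∀ x ∈ F, 0 < C₁ x ∧ C₁ x ≤ Cb ∧ (C₁ x).Coprime D)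
    (p4 : ∀ x ∈ F, 0 < C₂ x ∧ C₂ x ≤ Cb ∧ (C₂ x).Coprime D)
    (hcop : ∀ x ∈ F, Nat.Coprime (m₁ x) (m₂ x))
    (hcard : ∀ x ∈ F, (m₁ x * m₂ x).primeFactors.card ≤ n0) :
    (F.image fun x => (m₁ x * m₂ x).primeFactors).card ≤ s ^ n0 * n0.factorial := by
  classical
  have hD0 : D ≠ 0 := by
    have : 0 < 2 ^ g := by positivity
    omega
  have : NeZero D := ⟨hD0⟩
  refine sun (κ := ZMod D) F m₁ m₂ (k := k) hs
    (fun I => ((∏ x ∈ I, m₁ x : ℕ) : ZMod D) * ((∏ x ∈ I, m₂ x : ℕ) : ZMod D)⁻¹)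
    univ (fun _ _ _ => mem_univ _) (by rw [card_univ, ZMod.card]; exact hsk)
    (fun x hx => (p1 x hx).1) (fun x hx => (p2 x hx).1) hcop hcard ?_
  intro I hI I' hI' hIk hI'k hf
  have c : ∀ (f : ι → ℕ), (∀ x ∈ F, (f x).Coprime D) → ∀ J ⊆ F, (∏ x ∈ J, f x).Coprime D :=
    fun f hf J hJ => Nat.Coprime.prod_left fun x hx => hf x (hJ hx)
  have pos : ∀ (f : ι → ℕ), (∀ x ∈ F, 0 < f x) → ∀ J ⊆ F, 0 < ∏ x ∈ J, f x :=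
    fun f hf J hJ => Finset.prod_pos fun x hx => hf x (hJ hx)
  have le : ∀ (f : ι → ℕ) (B : ℕ), (∀ x ∈ F, f x ≤ B) → ∀ J ⊆ F, J.card = k →
      ∏ x ∈ J, f x ≤ B ^ k := fun f B hf J hJ hk => prod_le_pow' J f (fun x hx => hf x (hJ hx)) hk
  have c1 := c m₁ (fun x hx => (p1 x hx).2.2)
  have c2 := c m₂ (fun x hx => (p2 x hx).2.2)
  have c3 := c C₁ (fun x hx => (p3 x hx).2.2)
  have c4 := c C₂ (fun x hx => (p4 x hx).2.2)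
  have q1 := pos m₁ (fun x hx => (p1 x hx).1)
  have q2 := pos m₂ (fun x hx => (p2 x hx).1)
  have q3 := pos C₁ (fun x hx => (p3 x hx).1)
  have q4 := pos C₂ (fun x hx => (p4 x hx).1)
  have l1 := le m₁ Mb (fun x hx => (p1 x hx).2.1)
  have l2 := le m₂ Mb (fun x hx => (p2 x hx).2.1)
  have l3 := le C₁ Cb (fun x hx => (p3 x hx).2.1)
  have l4 := le C₂ Cb (fun x hx => (p4 x hx).2.1)
  have hmod : (∏ x ∈ I, m₁ x) * (∏ x ∈ I', m₂ x) ≡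
      (∏ x ∈ I, m₂ x) * (∏ x ∈ I', m₁ x) [MOD D] := by
    rw [← ZMod.natCast_eq_natCast_iff, Nat.cast_mul, Nat.cast_mul]
    have i1 := ZMod.coe_mul_inv_eq_one _ (c2 I hI)
    have i2 := ZMod.coe_mul_inv_eq_one _ (c2 I' hI')
    calc ((∏ x ∈ I, m₁ x : ℕ) : ZMod D) * ((∏ x ∈ I', m₂ x : ℕ) : ZMod D) =
        (((∏ x ∈ I, m₁ x : ℕ) : ZMod D) * ((∏ x ∈ I, m₂ x : ℕ) : ZMod D)⁻¹) *
          (((∏ x ∈ I, m₂ x : ℕ) : ZMod D) * ((∏ x ∈ I', m₂ x : ℕ) : ZMod D)) := by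
          calc _ = ((∏ x ∈ I, m₁ x : ℕ) : ZMod D) * ((∏ x ∈ I', m₂ x : ℕ) : ZMod D) *
                (((∏ x ∈ I, m₂ x : ℕ) : ZMod D) * ((∏ x ∈ I, m₂ x : ℕ) : ZMod D)⁻¹) := by
                rw [i1, mul_one]
            _ = _ := by ring
      _ = (((∏ x ∈ I', m₁ x : ℕ) : ZMod D) * ((∏ x ∈ I', m₂ x : ℕ) : ZMod D)⁻¹) *
          (((∏ x ∈ I, m₂ x : ℕ) : ZMod D) * ((∏ x ∈ I', m₂ x : ℕ) : ZMod D)) := by rw [hf]
      _ = ((∏ x ∈ I, m₂ x : ℕ) : ZMod D) * ((∏ x ∈ I', m₁ x : ℕ) : ZMod D) *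
          (((∏ x ∈ I', m₂ x : ℕ) : ZMod D) * ((∏ x ∈ I', m₂ x : ℕ) : ZMod D)⁻¹) := by ring
      _ = _ := by rw [i2, mul_one]
  have hprod : ∀ J ⊆ F, J.card = k → (u : ZMod (D ^ Z)) ^ k *
      (((∏ x ∈ J, m₁ x : ℕ) : ZMod (D ^ Z)) ^ E * ((∏ x ∈ J, C₁ x : ℕ) : ZMod (D ^ Z))) =
      ((∏ x ∈ J, m₂ x : ℕ) : ZMod (D ^ Z)) ^ E * ((∏ x ∈ J, C₂ x : ℕ) : ZMod (D ^ Z)) := by
    intro J hJ hk
    have h1 := Finset.prod_congr rfl fun x hx => hrel x (hJ hx)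
    rw [Finset.prod_mul_distrib, Finset.prod_mul_distrib, Finset.prod_mul_distrib,
      Finset.prod_const, hk, Finset.prod_pow, Finset.prod_pow] at h1
    push_cast
    exact h1
  have r1 := hprod I hI hIk
  have r2 := hprod I' hI' hI'k
  have hrel' : ((∏ x ∈ I, m₁ x) * (∏ x ∈ I', m₂ x)) ^ E *
      ((∏ x ∈ I, C₁ x) * (∏ x ∈ I', C₂ x)) ≡
      ((∏ x ∈ I, m₂ x) * (∏ x ∈ I', m₁ x)) ^ E *
      ((∏ x ∈ I, C₂ x) * (∏ x ∈ I', C₁ x)) [MOD D ^ Z] := by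
    rw [← ZMod.natCast_eq_natCast_iff]
    have hu : IsUnit ((u : ZMod (D ^ Z)) ^ k) := (u.isUnit).pow k
    apply hu.mul_left_cancel
    push_cast at r1 r2 ⊢
    calc (u : ZMod (D ^ Z)) ^ k * (((∏ x ∈ I, (m₁ x : ZMod (D ^ Z))) *
          (∏ x ∈ I', (m₂ x : ZMod (D ^ Z)))) ^ E *
          ((∏ x ∈ I, (C₁ x : ZMod (D ^ Z))) * (∏ x ∈ I', (C₂ x : ZMod (D ^ Z)))))
        = ((u : ZMod (D ^ Z)) ^ k * ((∏ x ∈ I, (m₁ x : ZMod (D ^ Z))) ^ E *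
          (∏ x ∈ I, (C₁ x : ZMod (D ^ Z))))) * ((∏ x ∈ I', (m₂ x : ZMod (D ^ Z))) ^ E *
          (∏ x ∈ I', (C₂ x : ZMod (D ^ Z)))) := by ring
      _ = ((∏ x ∈ I, (m₂ x : ZMod (D ^ Z))) ^ E * (∏ x ∈ I, (C₂ x : ZMod (D ^ Z)))) *
          ((u : ZMod (D ^ Z)) ^ k * ((∏ x ∈ I', (m₁ x : ZMod (D ^ Z))) ^ E *
          (∏ x ∈ I', (C₁ x : ZMod (D ^ Z))))) := by rw [r1, r2]
      _ = _ := by ring
  exact (Pool.Agent.Y911.AA.core (D := D) (g := g) (h := h) (ν := ν) (q := E) (Y := Z)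
    hgD hg hgh hgν (Nat.mul_pos (q1 I hI) (q2 I' hI')) (Nat.mul_pos (q2 I hI) (q1 I' hI'))
    (Nat.mul_pos (q4 I hI) (q3 I' hI')) (Nat.mul_pos (q3 I hI) (q4 I' hI'))
    (lt_of_le_of_lt (Nat.mul_le_mul (l1 I hI hIk) (l2 I' hI' hI'k)) hMb)
    (lt_of_le_of_lt (Nat.mul_le_mul (l2 I hI hIk) (l1 I' hI' hI'k)) hMb)
    (lt_of_le_of_lt (Nat.mul_le_mul (l4 I hI hIk) (l3 I' hI' hI'k)) hCb)
    (lt_of_le_of_lt (Nat.mul_le_mul (l3 I hI hIk) (l4 I' hI' hI'k)) hCb)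
    ((c1 I hI).mul_left (c2 I' hI')) ((c2 I hI).mul_left (c1 I' hI'))
    ((c4 I hI).mul_left (c3 I' hI')) ((c3 I hI).mul_left (c4 I' hI'))
    hmod hrel' e1 e2 e3).1

lemma log_close {x y t : ℝ} (hx : 0 < x) (hy : 0 < y) (h : |Real.log x - Real.log y| ≤ t)
    (ht : t ≤ 1) : |x / y - 1| ≤ 2 * t := by
  have h1 : x / y = Real.exp (Real.log x - Real.log y) := by
    rw [Real.exp_sub, Real.exp_log hx, Real.exp_log hy]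
  rw [h1]
  have h2 := Real.abs_exp_sub_one_le (x := Real.log x - Real.log y) (h.trans ht)
  linarith

/-- **the relation in the real numbers** -/
theorem few_real {Z g h ν E k s n0 Mb Cb N : ℕ} {ι : Type*} [DecidableEq ι]
    (hg : 16 ≤ g) (hgh : g ≤ h) (hgν : g ≤ ν)
    (e1 : 141 * ν ≤ g * E) (e2 : E * g ≤ 2 ^ (g / 4) * ν) (e3 : 20000 * h * ν ≤ Z * g ^ 2)
    (hMb : Mb ^ k * Mb ^ k < 2 ^ h) (hCb : Cb ^ k * Cb ^ k < 2 ^ ν)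
    (hs : 1 ≤ s) (hN : 2 ^ (g + 1) * (k * Real.log Mb) ≤ N) (hsk : 2 * N + 1 < (s - 1).choose k)
    (F : Finset ι) (m₁ m₂ C₁ C₂ : ι → ℕ) (u θ : ℝ) (hu : 0 < u)
    (hθ : 4 * (k * θ) ≤ (1 / 2 : ℝ) ^ (g * Z))
    (hrel : ∀ x ∈ F, |Real.log (u * ((m₁ x : ℝ) ^ E * (C₁ x : ℝ))) -
      Real.log ((m₂ x : ℝ) ^ E * (C₂ x : ℝ))| ≤ θ)
    (p1 : ∀ x ∈ F, 0 < m₁ x ∧ m₁ x ≤ Mb)
    (p2 : ∀ x ∈ F, 0 < m₂ x ∧ m₂ x ≤ Mb)
    (p3 : ∀ x ∈ F, 0 < C₁ x ∧ C₁ x ≤ Cb)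
    (p4 : ∀ x ∈ F, 0 < C₂ x ∧ C₂ x ≤ Cb)
    (hcop : ∀ x ∈ F, Nat.Coprime (m₁ x) (m₂ x))
    (hcard : ∀ x ∈ F, (m₁ x * m₂ x).primeFactors.card ≤ n0) :
    (F.image fun x => (m₁ x * m₂ x).primeFactors).card ≤ s ^ n0 * n0.factorial := by
  classical
  have pos : ∀ (f : ι → ℕ), (∀ x ∈ F, 0 < f x) → ∀ J ⊆ F, 0 < ∏ x ∈ J, f x :=
    fun f hf J hJ => Finset.prod_pos fun x hx => hf x (hJ hx)
  have le : ∀ (f : ι → ℕ) (B : ℕ), (∀ x ∈ F, f x ≤ B) → ∀ J ⊆ F, J.card = k →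
      ∏ x ∈ J, f x ≤ B ^ k := fun f B hf J hJ hk => prod_le_pow' J f (fun x hx => hf x (hJ hx)) hk
  have q1 := pos m₁ (fun x hx => (p1 x hx).1)
  have q2 := pos m₂ (fun x hx => (p2 x hx).1)
  have q3 := pos C₁ (fun x hx => (p3 x hx).1)
  have q4 := pos C₂ (fun x hx => (p4 x hx).1)
  have l1 := le m₁ Mb (fun x hx => (p1 x hx).2)
  have l2 := le m₂ Mb (fun x hx => (p2 x hx).2)
  have l3 := le C₁ Cb (fun x hx => (p3 x hx).2)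
  have l4 := le C₂ Cb (fun x hx => (p4 x hx).2)
  obtain ⟨φ, hφ⟩ : ∃ φ : Finset ι → ℝ, φ = fun J =>
      Real.log ((∏ x ∈ J, m₁ x : ℕ) : ℝ) - Real.log ((∏ x ∈ J, m₂ x : ℕ) : ℝ) := ⟨_, rfl⟩
  have hlogle : ∀ (f : ι → ℕ), (∀ x ∈ F, 0 < f x) → (∀ J ⊆ F, J.card = k →
      ∏ x ∈ J, f x ≤ Mb ^ k) → ∀ J ⊆ F, J.card = k →
      0 ≤ Real.log ((∏ x ∈ J, f x : ℕ) : ℝ) ∧
      Real.log ((∏ x ∈ J, f x : ℕ) : ℝ) ≤ k * Real.log Mb := by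
    intro f hf hl J hJ hk
    have h1 := pos f hf J hJ
    refine ⟨Real.log_nonneg (by exact_mod_cast h1), ?_⟩
    rw [← Real.log_pow]
    apply Real.log_le_log (by exact_mod_cast h1)
    exact_mod_cast hl J hJ hk
  refine sun (κ := ℤ) F m₁ m₂ (k := k) hs (fun J => ⌊2 ^ (g + 1) * φ J⌋)
    (Finset.Icc (-(N : ℤ)) N) ?_ ?_
    (fun x hx => (p1 x hx).1) (fun x hx => (p2 x hx).1) hcop hcard ?_
  · intro J hJ hk
    obtain ⟨a1, a2⟩ := hlogle m₁ (fun x hx => (p1 x hx).1) l1 J hJ hk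
    obtain ⟨b1, b2⟩ := hlogle m₂ (fun x hx => (p2 x hx).1) l2 J hJ hk
    have c1 : φ J ≤ k * Real.log Mb := by rw [hφ]; simp only; linarith
    have c2 : -(k * Real.log Mb) ≤ φ J := by rw [hφ]; simp only; linarith
    have h2 : (0 : ℝ) < 2 ^ (g + 1) := by positivity
    rw [Finset.mem_Icc]
    constructor
    · rw [Int.le_floor]
      push_cast
      nlinarith [mul_le_mul_of_nonneg_left c2 h2.le]
    · have h3 : 2 ^ (g + 1) * φ J ≤ N := (mul_le_mul_of_nonneg_left c1 h2.le).trans hN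
      have h4 : (⌊2 ^ (g + 1) * φ J⌋ : ℝ) ≤ N := (Int.floor_le _).trans h3
      exact_mod_cast h4
  · rw [Int.card_Icc]
    omega
  intro I hI I' hI' hIk hI'k hf
  have hclose : |φ I - φ I'| ≤ (1 / 2 : ℝ) ^ (g + 1) := by
    have h1 := Int.floor_le (2 ^ (g + 1) * φ I)
    have h2 := Int.lt_floor_add_one (2 ^ (g + 1) * φ I)
    have h3 := Int.floor_le (2 ^ (g + 1) * φ I')
    have h4 := Int.lt_floor_add_one (2 ^ (g + 1) * φ I')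
    rw [hf] at h1 h2
    have h5 : |2 ^ (g + 1) * (φ I - φ I')| ≤ 1 := by
      rw [abs_le]
      constructor <;> linarith
    rw [abs_mul, abs_of_pos (by positivity : (0 : ℝ) < 2 ^ (g + 1))] at h5
    rw [one_div, inv_pow, ← one_div, le_div_iff₀ (by positivity), mul_comm]
    exact h5
  have f1 : (0 : ℝ) < ((∏ x ∈ I, m₁ x : ℕ) : ℝ) := by exact_mod_cast q1 I hI
  have f2 : (0 : ℝ) < ((∏ x ∈ I, m₂ x : ℕ) : ℝ) := by exact_mod_cast q2 I hI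
  have f3 : (0 : ℝ) < ((∏ x ∈ I', m₁ x : ℕ) : ℝ) := by exact_mod_cast q1 I' hI'
  have f4 : (0 : ℝ) < ((∏ x ∈ I', m₂ x : ℕ) : ℝ) := by exact_mod_cast q2 I' hI'
  have g1 : (0 : ℝ) < ((∏ x ∈ I, C₁ x : ℕ) : ℝ) := by exact_mod_cast q3 I hI
  have g2 : (0 : ℝ) < ((∏ x ∈ I, C₂ x : ℕ) : ℝ) := by exact_mod_cast q4 I hI
  have g3 : (0 : ℝ) < ((∏ x ∈ I', C₁ x : ℕ) : ℝ) := by exact_mod_cast q3 I' hI'
  have g4 : (0 : ℝ) < ((∏ x ∈ I', C₂ x : ℕ) : ℝ) := by exact_mod_cast q4 I' hI'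
  have hab : |(((∏ x ∈ I, m₁ x) * (∏ x ∈ I', m₂ x) : ℕ) : ℝ) /
      (((∏ x ∈ I, m₂ x) * (∏ x ∈ I', m₁ x) : ℕ) : ℝ) - 1| ≤ (1 / 2 : ℝ) ^ g := by
    have h1 := log_close (x := (((∏ x ∈ I, m₁ x) * (∏ x ∈ I', m₂ x) : ℕ) : ℝ))
      (y := (((∏ x ∈ I, m₂ x) * (∏ x ∈ I', m₁ x) : ℕ) : ℝ)) (t := (1 / 2 : ℝ) ^ (g + 1))
      (by rw [Nat.cast_mul]; exact mul_pos f1 f4) (by rw [Nat.cast_mul]; exact mul_pos f2 f3)
      (by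
        rw [Nat.cast_mul, Nat.cast_mul, Real.log_mul f1.ne' f4.ne', Real.log_mul f2.ne' f3.ne']
        refine le_trans (le_of_eq ?_) hclose
        rw [hφ]
        simp only
        congr 1
        ring) (pow_le_one₀ (by norm_num) (by norm_num))
    refine h1.trans (le_of_eq ?_)
    rw [pow_succ]; ring
  -- the sum of the relations
  have hsum : ∀ J ⊆ F, J.card = k →
      |(k * Real.log u + E * Real.log ((∏ x ∈ J, m₁ x : ℕ) : ℝ) +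
        Real.log ((∏ x ∈ J, C₁ x : ℕ) : ℝ)) - (E * Real.log ((∏ x ∈ J, m₂ x : ℕ) : ℝ) +
        Real.log ((∏ x ∈ J, C₂ x : ℕ) : ℝ))| ≤ k * θ := by
    intro J hJ hk
    have hl : ∀ (f : ι → ℕ), (∀ x ∈ F, 0 < f x) →
        Real.log ((∏ x ∈ J, f x : ℕ) : ℝ) = ∑ x ∈ J, Real.log (f x) := by
      intro f hf
      rw [Nat.cast_prod, Real.log_prod]
      intro x hx
      exact_mod_cast (hf x (hJ hx)).ne'
    rw [hl m₁ (fun x hx => (p1 x hx).1), hl m₂ (fun x hx => (p2 x hx).1),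
      hl C₁ (fun x hx => (p3 x hx).1), hl C₂ (fun x hx => (p4 x hx).1)]
    have h1 : (k * Real.log u + E * ∑ x ∈ J, Real.log (m₁ x) + ∑ x ∈ J, Real.log (C₁ x)) -
        (E * ∑ x ∈ J, Real.log (m₂ x) + ∑ x ∈ J, Real.log (C₂ x)) =
        ∑ x ∈ J, (Real.log (u * ((m₁ x : ℝ) ^ E * (C₁ x : ℝ))) -
          Real.log ((m₂ x : ℝ) ^ E * (C₂ x : ℝ))) := by
      have h2 : ∀ x ∈ J, (Real.log (u * ((m₁ x : ℝ) ^ E * (C₁ x : ℝ))) -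
          Real.log ((m₂ x : ℝ) ^ E * (C₂ x : ℝ))) =
          Real.log u + (E * Real.log (m₁ x) + Real.log (C₁ x)) -
            (E * Real.log (m₂ x) + Real.log (C₂ x)) := by
        intro x hx
        have a1 : (0 : ℝ) < m₁ x := by exact_mod_cast (p1 x (hJ hx)).1
        have a2 : (0 : ℝ) < m₂ x := by exact_mod_cast (p2 x (hJ hx)).1
        have a3 : (0 : ℝ) < C₁ x := by exact_mod_cast (p3 x (hJ hx)).1
        have a4 : (0 : ℝ) < C₂ x := by exact_mod_cast (p4 x (hJ hx)).1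
        rw [Real.log_mul hu.ne' (by positivity), Real.log_mul (by positivity) a3.ne',
          Real.log_mul (by positivity) a4.ne', Real.log_pow, Real.log_pow]
      rw [Finset.sum_congr rfl h2, Finset.sum_sub_distrib, Finset.sum_add_distrib,
        Finset.sum_add_distrib, Finset.sum_add_distrib, Finset.sum_const, hk, nsmul_eq_mul,
        ← Finset.mul_sum, ← Finset.mul_sum]
      ring
    rw [h1]
    calc |∑ x ∈ J, (Real.log (u * ((m₁ x : ℝ) ^ E * (C₁ x : ℝ))) -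
          Real.log ((m₂ x : ℝ) ^ E * (C₂ x : ℝ)))|
        ≤ ∑ x ∈ J, |Real.log (u * ((m₁ x : ℝ) ^ E * (C₁ x : ℝ))) -
          Real.log ((m₂ x : ℝ) ^ E * (C₂ x : ℝ))| := Finset.abs_sum_le_sum_abs _ _
      _ ≤ ∑ _x ∈ J, θ := Finset.sum_le_sum fun x hx => hrel x (hJ hx)
      _ = k * θ := by rw [Finset.sum_const, hk, nsmul_eq_mul]
  have s1 := hsum I hI hIk
  have s2 := hsum I' hI' hI'k
  have hrel' : |((((∏ x ∈ I, m₂ x) * (∏ x ∈ I', m₁ x) : ℕ) : ℝ) ^ E *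
      (((∏ x ∈ I, C₂ x) * (∏ x ∈ I', C₁ x) : ℕ) : ℝ)) /
      ((((∏ x ∈ I, m₁ x) * (∏ x ∈ I', m₂ x) : ℕ) : ℝ) ^ E *
      (((∏ x ∈ I, C₁ x) * (∏ x ∈ I', C₂ x) : ℕ) : ℝ)) - 1| ≤ (1 / 2 : ℝ) ^ (g * Z) := by
    have hθ1 : 2 * (k * θ) ≤ 1 := by
      have : (1 / 2 : ℝ) ^ (g * Z) ≤ 1 := pow_le_one₀ (by norm_num) (by norm_num)
      linarith
    have h1 := log_close (x := (((∏ x ∈ I, m₂ x) * (∏ x ∈ I', m₁ x) : ℕ) : ℝ) ^ E *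
      (((∏ x ∈ I, C₂ x) * (∏ x ∈ I', C₁ x) : ℕ) : ℝ))
      (y := (((∏ x ∈ I, m₁ x) * (∏ x ∈ I', m₂ x) : ℕ) : ℝ) ^ E *
      (((∏ x ∈ I, C₁ x) * (∏ x ∈ I', C₂ x) : ℕ) : ℝ)) (t := 2 * (k * θ))
      (by rw [Nat.cast_mul, Nat.cast_mul]; exact mul_pos (pow_pos (mul_pos f2 f3) _)
            (mul_pos g2 g3))
      (by rw [Nat.cast_mul, Nat.cast_mul]; exact mul_pos (pow_pos (mul_pos f1 f4) _)
            (mul_pos g1 g4))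
      (by
        rw [Nat.cast_mul, Nat.cast_mul, Nat.cast_mul, Nat.cast_mul,
          Real.log_mul (pow_pos (mul_pos f2 f3) _).ne' (mul_pos g2 g3).ne',
          Real.log_mul (pow_pos (mul_pos f1 f4) _).ne' (mul_pos g1 g4).ne',
          Real.log_pow, Real.log_pow, Real.log_mul f2.ne' f3.ne', Real.log_mul f1.ne' f4.ne',
          Real.log_mul g2.ne' g3.ne', Real.log_mul g1.ne' g4.ne']
        rw [abs_le] at s1 s2 ⊢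
        constructor <;> linarith [s1.1, s1.2, s2.1, s2.2]) hθ1
    refine h1.trans ?_
    linarith
  exact (core_real' (g := g) (h := h) (ν := ν) (q := E) (Y := Z) hg hgh hgν
    (Nat.mul_pos (q1 I hI) (q2 I' hI')) (Nat.mul_pos (q2 I hI) (q1 I' hI'))
    (Nat.mul_pos (q4 I hI) (q3 I' hI')) (Nat.mul_pos (q3 I hI) (q4 I' hI'))
    (lt_of_le_of_lt (Nat.mul_le_mul (l2 I hI hIk) (l1 I' hI' hI'k)) hMb)
    (lt_of_le_of_lt (Nat.mul_le_mul (l3 I hI hIk) (l4 I' hI' hI'k)) hCb)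
    hab hrel' e1 e2 e3).1

end Pool.Agent.T2H20.AH
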