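import Pool.Agent.T2H20.AH.Rt
import Pool.Agent.T2H20.AH.Fp
import Pool.Agent.T2H20.ABC.Box

/-!
Members of a triple which are, up to a known factor, products of powers of few primes.
-/

set_option autoImplicit false

namespace Pool.Agent.T2H20.AH

open Finset Pool.Agent.H785R2.ABC Pool.Agent.H785R2.ABC.EC Pool.Agent.T2H20.ABC

lemma cop_of_sub {a b D : ℕ} (hb : b ≠ 0) (h : a.primeFactors ⊆ b.primeFactors)
    (hD : b.Coprime D) (ha : a ≠ 0) : a.Coprime D := by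
  rw [Nat.coprime_iff_gcd_eq_one]
  by_contra hne
  obtain ⟨p, hp, hpd⟩ := Nat.exists_prime_and_dvd hne
  have h1 := hpd.trans (Nat.gcd_dvd_left a D)
  have h2 := hpd.trans (Nat.gcd_dvd_right a D)
  have h3 := h ((Nat.mem_primeFactors_of_ne_zero ha).2 ⟨hp, h1⟩)
  have h4 := Nat.dvd_of_mem_primeFactors h3
  exact Nat.not_coprime_of_dvd_of_dvd hp.one_lt h4 h2 hD

/-- the base -/
def fm (α : ℕ → ℕ) (l : ℕ) : ℕ := pp l.primeFactors fun p => α (l.factorization p)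
/-- the factor over the power -/
def fA (U E : ℕ) (α : ℕ → ℕ) (l : ℕ) : ℕ :=
  pp l.primeFactors fun p => l.factorization p * U - α (l.factorization p) * E
/-- the factor under the power -/
def fB (U E : ℕ) (α : ℕ → ℕ) (l : ℕ) : ℕ :=
  pp l.primeFactors fun p => α (l.factorization p) * E - l.factorization p * U

lemma few_id {U E : ℕ} {α : ℕ → ℕ} {l : ℕ} (hl : 0 < l) :
    l ^ U * fB U E α l = fm α l ^ E * fA U E α l := by
  unfold fB fA fm pp
  conv_lhs => rw [show l ^ U = (∏ p ∈ l.primeFactors, p ^ l.factorization p) ^ U by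
    conv_lhs => rw [← Nat.prod_factorization_pow_eq_self hl.ne']
    rfl]
  rw [← Finset.prod_pow, ← Finset.prod_pow, ← Finset.prod_mul_distrib, ← Finset.prod_mul_distrib]
  apply Finset.prod_congr rfl
  intro p _
  beta_reduce
  rw [← pow_mul, ← pow_mul, ← pow_add, ← pow_add]
  congr 1
  omega

lemma pp_le_pow {S : Finset ℕ} (hS : ∀ p ∈ S, p.Prime) {e : ℕ → ℕ} {N : ℕ} (h : ∀ p ∈ S, e p ≤ N) :
    pp S e ≤ (∏ p ∈ S, p) ^ N := by
  unfold pp
  rw [← Finset.prod_pow]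
  exact Finset.prod_le_prod' fun p hp => Nat.pow_le_pow_right (hS p hp).pos (h p hp)

/-- `t` is, up to the factor `lam ^ U` and a number without large exponents, a product of powers of
few primes with exponents in `S` -/
structure Few (U X lam n0 : ℕ) (S : Finset ℕ) (t l : ℕ) : Prop where
  t0 : 0 < t
  l0 : 0 < l
  eq : rt U t = lam * l
  rad : rad t ≤ X
  card : l.primeFactors.card ≤ n0
  dig : ∀ p ∈ l.primeFactors, l.factorization p ∈ S

/-- the approximation of the digits in `S` -/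
structure App (U E a F : ℕ) (S : Finset ℕ) (α : ℕ → ℕ) : Prop where
  pos : ∀ δ ∈ S, 1 ≤ α δ
  le : ∀ δ ∈ S, α δ ≤ a
  up : ∀ δ ∈ S, δ * U ≤ α δ * E + F
  dn : ∀ δ ∈ S, α δ * E ≤ δ * U + F

section
variable {U X lam n0 : ℕ} {S : Finset ℕ} {t l : ℕ}

lemma Few.sub (H : Few U X lam n0 S t l) : l.primeFactors ⊆ t.primeFactors := by
  intro p hp
  have h1 : l ∣ rt U t := ⟨lam, by rw [H.eq, mul_comm]⟩
  have h2 := Nat.primeFactors_mono h1 (rt_pos U t).ne' hp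
  unfold rt at h2
  exact pp_sub primes_of _ h2

lemma Few.lam0 (H : Few U X lam n0 S t l) : 0 < lam := by
  rcases Nat.eq_zero_or_pos lam with h | h
  · have := rt_pos U t
    rw [H.eq, h, zero_mul] at this
    omega
  · exact h

lemma Few.lamsub (H : Few U X lam n0 S t l) : lam.primeFactors ⊆ t.primeFactors := by
  intro p hp
  have h1 : lam ∣ rt U t := ⟨l, H.eq⟩
  have h2 := Nat.primeFactors_mono h1 (rt_pos U t).ne' hp
  unfold rt at h2
  exact pp_sub primes_of _ h2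

lemma Few.radl (H : Few U X lam n0 S t l) : ∏ p ∈ l.primeFactors, p ≤ X :=
  (Finset.prod_le_prod_of_subset_of_one_le' H.sub fun p hp _ =>
    (Nat.prime_of_mem_primeFactors hp).one_le).trans H.rad

lemma Few.id (H : Few U X lam n0 S t l) (E : ℕ) (α : ℕ → ℕ) :
    t * fB U E α l = lam ^ U * (fm α l ^ E * (fA U E α l * rm U t)) := by
  have h1 := rt_mul_rm (U := U) H.t0.ne'
  have h2 := few_id (U := U) (E := E) (α := α) H.l0
  calc t * fB U E α l = (rt U t ^ U * rm U t) * fB U E α l := by rw [h1]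
    _ = lam ^ U * ((l ^ U * fB U E α l) * rm U t) := by rw [H.eq, mul_pow]; ring
    _ = _ := by rw [h2]; ring

lemma fm_pos (α : ℕ → ℕ) : 0 < fm α l := pp_pos primes_of _
lemma fA_pos (U E : ℕ) (α : ℕ → ℕ) : 0 < fA U E α l := pp_pos primes_of _
lemma fB_pos (U E : ℕ) (α : ℕ → ℕ) : 0 < fB U E α l := pp_pos primes_of _

lemma Few.fm_le (H : Few U X lam n0 S t l) {E a F : ℕ} {α : ℕ → ℕ} (h : App U E a F S α) :
    fm α l ≤ X ^ a :=
  (pp_le_pow primes_of fun p hp => h.le _ (H.dig p hp)).trans (Nat.pow_le_pow_left H.radl _)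

lemma Few.fA_le (H : Few U X lam n0 S t l) {E a F : ℕ} {α : ℕ → ℕ} (h : App U E a F S α) :
    fA U E α l ≤ X ^ F :=
  (pp_le_pow primes_of fun p hp => by have := h.up _ (H.dig p hp); omega).trans
    (Nat.pow_le_pow_left H.radl _)

lemma Few.fB_le (H : Few U X lam n0 S t l) {E a F : ℕ} {α : ℕ → ℕ} (h : App U E a F S α) :
    fB U E α l ≤ X ^ F :=
  (pp_le_pow primes_of fun p hp => by have := h.dn _ (H.dig p hp); omega).trans
    (Nat.pow_le_pow_left H.radl _)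

lemma Few.fm_pf (H : Few U X lam n0 S t l) {E a F : ℕ} {α : ℕ → ℕ} (h : App U E a F S α) :
    (fm α l).primeFactors = l.primeFactors := by
  unfold fm
  rw [pp_primeFactors primes_of]
  apply Finset.filter_true_of_mem
  intro p hp
  have := h.pos _ (H.dig p hp)
  omega

lemma rm_dvd {U n : ℕ} (hn : n ≠ 0) : rm U n ∣ n :=
  ⟨rt U n ^ U, by rw [mul_comm]; exact (rt_mul_rm hn).symm⟩

lemma Few.rm_le (H : Few U X lam n0 S t l) (hU : 1 ≤ U) : rm U t ≤ X ^ U :=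
  (AH.rm_le hU H.t0.ne').trans (Nat.pow_le_pow_left H.rad _)

end

/-- numerical conditions -/
structure NumF (X U E a F g h ν k : ℕ) : Prop where
  U1 : 1 ≤ U
  g16 : 16 ≤ g
  gh : g ≤ h
  gν : g ≤ ν
  e1 : 141 * ν ≤ g * E
  e2 : E * g ≤ 2 ^ (g / 4) * ν
  hM : (X ^ a) ^ k * (X ^ a) ^ k < 2 ^ h
  hC : (X ^ (2 * F + U)) ^ k * (X ^ (2 * F + U)) ^ k < 2 ^ ν

/-- the conditions on a pair -/
structure Pr (q : ℕ × ℕ) : Prop where
  p1 : 0 < q.1
  p2 : 0 < q.2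
  cop : Nat.Coprime q.1 q.2

lemma Pr.abc {q : ℕ × ℕ} (h : Pr q) : IsABCTriple (tri q).1 (tri q).2.1 (tri q).2.2 :=
  tri_abc h.p1 h.p2 h.cop

lemma un_eq_cast {f a : ℕ} (h : a.Coprime f) : ∃ u : (ZMod f)ˣ, (u : ZMod f) = (a : ZMod f) :=
  ⟨ZMod.unitOfCoprime a h, ZMod.coe_unitOfCoprime a h⟩

/-- **p-adic supports** -/
theorem supp_padic {D Z U X E a F g h ν k s n0 lam₁ lam₂ : ℕ} {S : Finset ℕ} {α : ℕ → ℕ}
    (N : NumF X U E a F g h ν k) (hgD : 2 ^ g ≤ D) (e3 : 20000 * h * ν ≤ Z * g ^ 2)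
    (hs : 1 ≤ s) (hsk : D < (s - 1).choose k) (hα : App U E a F S α)
    {i j c : Fin 3} (hij : i ≠ j) (hjc : j ≠ c) (hic : i ≠ c) (Q : Finset (ℕ × ℕ))
    (l₁ l₂ : ℕ × ℕ → ℕ) (hQ : ∀ q ∈ Q, Pr q ∧ D ^ Z ∣ num (tri q) c ∧
      Few U X lam₁ n0 S (num (tri q) i) (l₁ q) ∧ Few U X lam₂ n0 S (num (tri q) j) (l₂ q)) :
    (Q.image fun q => (l₁ q * l₂ q).primeFactors).card ≤ s ^ (2 * n0) * (2 * n0).factorial := by
  classical
  rcases Q.eq_empty_or_nonempty with h0 | ⟨q0, hq0⟩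
  · rw [h0, image_empty, card_empty]; exact Nat.zero_le _
  have hD2 : 2 ≤ D := by
    have h1 : 2 ^ 1 ≤ 2 ^ g := Nat.pow_le_pow_right (by norm_num) (by have := N.g16; omega)
    omega
  have hZ0 : Z ≠ 0 := by
    rintro rfl
    have h1 := N.gh
    have h2 := N.gν
    have h3 := N.g16
    have h4 : 0 < 20000 * h * ν := Nat.mul_pos (by omega) (by omega)
    omega
  have hcop : ∀ q ∈ Q, ∀ l : Fin 3, l ≠ c → Nat.Coprime (num (tri q) l) (D ^ Z) := fun q hq l hl =>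
    Nat.Coprime.coprime_dvd_right (hQ q hq).2.1 (num_coprime (hQ q hq).1.abc hl)
  have hcopD : ∀ {v : ℕ}, v.Coprime (D ^ Z) → v.Coprime D := fun hv =>
    Nat.Coprime.coprime_dvd_right (dvd_pow_self D hZ0) hv
  have cl1 : (lam₁ ^ U).Coprime (D ^ Z) := Nat.Coprime.pow_left _
    (cop_of_sub (hQ q0 hq0).2.2.1.t0.ne' (hQ q0 hq0).2.2.1.lamsub (hcop q0 hq0 i hic)
      (hQ q0 hq0).2.2.1.lam0.ne')
  have cl2 : (lam₂ ^ U).Coprime (D ^ Z) := Nat.Coprime.pow_left _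
    (cop_of_sub (hQ q0 hq0).2.2.2.t0.ne' (hQ q0 hq0).2.2.2.lamsub (hcop q0 hq0 j hjc)
      (hQ q0 hq0).2.2.2.lam0.ne')
  obtain ⟨u1, hu1⟩ := un_eq_cast cl1
  obtain ⟨u2, hu2⟩ := un_eq_cast cl2
  have hcp : ∀ q ∈ Q, Nat.Coprime (l₁ q) (l₂ q) := by
    intro q hq
    have h1 := num_coprime (hQ q hq).1.abc hij
    have F1 := (hQ q hq).2.2.1
    have F2 := (hQ q hq).2.2.2
    exact cop_of_sub F1.t0.ne' F1.sub (Nat.Coprime.symm (cop_of_sub F2.t0.ne' F2.sub h1.symm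
      F2.l0.ne')) F1.l0.ne'
  have himage : (Q.image fun q => (l₁ q * l₂ q).primeFactors) =
      Q.image fun q => (fm α (l₁ q) * fm α (l₂ q)).primeFactors := by
    apply Finset.image_congr
    intro q hq
    have hq' := mem_coe.1 hq
    have F1 := (hQ q hq').2.2.1
    have F2 := (hQ q hq').2.2.2
    simp only
    rw [Nat.primeFactors_mul F1.l0.ne' F2.l0.ne', Nat.primeFactors_mul (fm_pos α).ne'
      (fm_pos α).ne', F1.fm_pf hα, F2.fm_pf hα]
  rw [himage]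
  have cA : ∀ {t l lam : ℕ}, Few U X lam n0 S t l → t.Coprime (D ^ Z) → ∀ e : ℕ → ℕ,
      (pp l.primeFactors e).Coprime D := by
    intro t l lam H ht e
    exact cop_of_sub H.t0.ne' ((pp_sub primes_of _).trans H.sub) (hcopD ht)
      (pp_pos primes_of _).ne'
  have cR : ∀ {t : ℕ}, t ≠ 0 → t.Coprime (D ^ Z) → (rm U t).Coprime D := by
    intro t ht ht'
    exact Nat.Coprime.coprime_dvd_left (rm_dvd ht) (hcopD ht')
  have hX1 : 1 ≤ X := by
    have h1 := (hQ q0 hq0).2.2.1.rad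
    have h2 := AH.rad_pos' (num (tri q0) i)
    omega
  refine few_padic (D := D) (Z := Z) (g := g) (h := h) (ν := ν) (E := E) (k := k) (s := s)
    (n0 := 2 * n0) (Mb := X ^ a) (Cb := X ^ (2 * F + U)) hgD (by have := N.g16; omega) N.gh N.gν
    N.e1 N.e2 e3 N.hM N.hC hs hsk Q (fun q => fm α (l₁ q)) (fun q => fm α (l₂ q))
    (fun q => fA U E α (l₁ q) * rm U (num (tri q) i) * fB U E α (l₂ q))
    (fun q => fA U E α (l₂ q) * rm U (num (tri q) j) * fB U E α (l₁ q))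
    (sgu (D ^ Z) c * u1 * u2⁻¹) ?_ ?_ ?_ ?_ ?_ ?_ ?_
  · intro q hq
    obtain ⟨hp, hd, F1, F2⟩ := hQ q hq
    have h1 := cong hp.abc hij hjc hic hd
    have i1 := congrArg (fun z : ℕ => (z : ZMod (D ^ Z))) (F1.id E α)
    have i2 := congrArg (fun z : ℕ => (z : ZMod (D ^ Z))) (F2.id E α)
    beta_reduce at i1 i2
    have hu1' : (u1 : ZMod (D ^ Z)) = (lam₁ : ZMod (D ^ Z)) ^ U := by rw [hu1]; push_cast; rfl
    have hu2' : (u2 : ZMod (D ^ Z)) = (lam₂ : ZMod (D ^ Z)) ^ U := by rw [hu2]; push_cast; rfl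
    push_cast at i1 i2 ⊢
    rw [← hu1'] at i1
    rw [← hu2'] at i2
    apply (Units.isUnit u2).mul_left_cancel
    calc (u2 : ZMod (D ^ Z)) * ((sgu (D ^ Z) c : ZMod (D ^ Z)) * (u1 : ZMod (D ^ Z)) *
          ((u2⁻¹ : (ZMod (D ^ Z))ˣ) : ZMod (D ^ Z)) * ((fm α (l₁ q) : ZMod (D ^ Z)) ^ E *
          ((fA U E α (l₁ q) : ZMod (D ^ Z)) * (rm U (num (tri q) i) : ZMod (D ^ Z)) *
            (fB U E α (l₂ q) : ZMod (D ^ Z)))))
        = ((u2 : ZMod (D ^ Z)) * ((u2⁻¹ : (ZMod (D ^ Z))ˣ) : ZMod (D ^ Z))) *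
          ((sgu (D ^ Z) c : ZMod (D ^ Z)) *
          ((u1 : ZMod (D ^ Z)) * ((fm α (l₁ q) : ZMod (D ^ Z)) ^ E *
          ((fA U E α (l₁ q) : ZMod (D ^ Z)) * (rm U (num (tri q) i) : ZMod (D ^ Z))))) *
            (fB U E α (l₂ q) : ZMod (D ^ Z))) := by ring
      _ = (sgu (D ^ Z) c : ZMod (D ^ Z)) *
          ((num (tri q) i : ZMod (D ^ Z)) * (fB U E α (l₁ q) : ZMod (D ^ Z))) *
            (fB U E α (l₂ q) : ZMod (D ^ Z)) := by
          rw [← i1, Units.mul_inv, one_mul]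
      _ = ((num (tri q) j : ZMod (D ^ Z)) * (fB U E α (l₂ q) : ZMod (D ^ Z))) *
            (fB U E α (l₁ q) : ZMod (D ^ Z)) := by rw [h1]; ring
      _ = _ := by rw [i2]; ring
  · intro q hq
    obtain ⟨hp, hd, F1, F2⟩ := hQ q hq
    exact ⟨fm_pos α, F1.fm_le hα, cA F1 (hcop q hq i hic) _⟩
  · intro q hq
    obtain ⟨hp, hd, F1, F2⟩ := hQ q hq
    exact ⟨fm_pos α, F2.fm_le hα, cA F2 (hcop q hq j hjc) _⟩
  · intro q hq
    obtain ⟨hp, hd, F1, F2⟩ := hQ q hq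
    refine ⟨Nat.mul_pos (Nat.mul_pos (fA_pos _ _ _) (rm_pos F1.t0.ne')) (fB_pos _ _ _), ?_, ?_⟩
    · calc fA U E α (l₁ q) * rm U (num (tri q) i) * fB U E α (l₂ q) ≤ X ^ F * X ^ U * X ^ F :=
            Nat.mul_le_mul (Nat.mul_le_mul (F1.fA_le hα) (F1.rm_le N.U1)) (F2.fB_le hα)
        _ = X ^ (2 * F + U) := by rw [← pow_add, ← pow_add]; congr 1; ring
    · exact ((cA F1 (hcop q hq i hic) _).mul_left (cR F1.t0.ne' (hcop q hq i hic))).mul_left
        (cA F2 (hcop q hq j hjc) _)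
  · intro q hq
    obtain ⟨hp, hd, F1, F2⟩ := hQ q hq
    refine ⟨Nat.mul_pos (Nat.mul_pos (fA_pos _ _ _) (rm_pos F2.t0.ne')) (fB_pos _ _ _), ?_, ?_⟩
    · calc fA U E α (l₂ q) * rm U (num (tri q) j) * fB U E α (l₁ q) ≤ X ^ F * X ^ U * X ^ F :=
            Nat.mul_le_mul (Nat.mul_le_mul (F2.fA_le hα) (F2.rm_le N.U1)) (F1.fB_le hα)
        _ = X ^ (2 * F + U) := by rw [← pow_add, ← pow_add]; congr 1; ring
    · exact ((cA F2 (hcop q hq j hjc) _).mul_left (cR F2.t0.ne' (hcop q hq j hjc))).mul_left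
        (cA F1 (hcop q hq i hic) _)
  · intro q hq
    obtain ⟨hp, hd, F1, F2⟩ := hQ q hq
    have h1 := hcp q hq
    refine cop_of_sub F1.l0.ne' (by rw [F1.fm_pf hα]) ?_ (fm_pos α).ne'
    exact Nat.Coprime.symm (cop_of_sub F2.l0.ne' (by rw [F2.fm_pf hα]) h1.symm (fm_pos α).ne')
  · intro q hq
    obtain ⟨hp, hd, F1, F2⟩ := hQ q hq
    rw [Nat.primeFactors_mul (fm_pos α).ne' (fm_pos α).ne', F1.fm_pf hα, F2.fm_pf hα]
    refine (card_union_le _ _).trans ?_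
    have := F1.card
    have := F2.card
    omega

end Pool.Agent.T2H20.AH
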