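import Pool.Agent.T2H20.AH.Ce

/-!
The class bound for members whose radicals belong to a given family.
-/

set_option autoImplicit false

namespace Pool.Agent.T2H20.AH

open Finset Pool.Agent.H785R2.ABC Pool.Agent.H785R2.ABC.EC Pool.Agent.T2H20.ABC

lemma Good.mono {D U Z Λ d T K : ℕ} {A B : Finset ℕ} (h : Good D U Z Λ d T K A) (hB : B ⊆ A) :
    Good D U Z Λ d T K B := by
  obtain ⟨⟨E, W, N, g, hh, ν, h1, h2, h3⟩, h4⟩ := h
  refine ⟨⟨E, W, N, g, hh, ν, fun v hv => h1 v (hB hv), h2, h3⟩, fun r => ?_⟩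
  exact (card_le_card (filter_subset_filter _ hB)).trans (h4 r)

/-- **the class bound, for subsets** -/
theorem class_bound' {X A D U Z dd T K R₁ R₂ : ℕ} (hX : 1 ≤ X) (hU : 1 ≤ U) (hD : 0 < D)
    (hZ : Z ≠ 0)
    (hf : X ^ (2 * U) < D ^ Z) {i j c : Fin 3} (hij : i ≠ j) (hjc : j ≠ c) (hic : i ≠ c)
    (B₁ B₂ : Ix dd → Finset ℕ) (τ₁ τ₂ : Ix dd → ℕ × ℕ × ℕ) (kn₁ kn₂ : ℕ)
    (hB₁ : ∀ l, B₁ l ⊆ As X A D (τ₁ l)) (hB₂ : ∀ l, B₂ l ⊆ As X A D (τ₂ l))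
    (hG₁ : ∀ l, Good D U Z (X ^ U) dd T K (B₁ l))
    (hG₂ : ∀ l, Good D U Z (X ^ U) dd T K (B₂ l)) {W₁ W₂ : ℝ} (hW₁ : 0 ≤ W₁) (hW₂ : 0 ≤ W₂)
    (hC₁ : ∀ z : Ix dd → ℕ, (∀ l, z l ∈ B₁ l) → ∏ l, rad (z l) ≤ R₁ →
      ∏ l, ((B₁ l).card : ℝ) ≤ W₁)
    (hC₂ : ∀ z : Ix dd → ℕ, (∀ l, z l ∈ B₂ l) → ∏ l, rad (z l) ≤ R₂ →
      ∏ l, ((B₂ l).card : ℝ) ≤ W₂)
    (Q : Finset (ℕ × ℕ)) (hQ : ∀ q ∈ Q, Pr q ∧ (∀ l, rad (num (tri q) l) ≤ X) ∧
      D ^ Z ∣ num (tri q) c ∧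
      (∃ x : Ix dd → ℕ, (∀ l, x l ∈ B₁ l) ∧ rt U (num (tri q) i) = kn₁ * ∏ l, x l ∧
        ∏ l, rad (x l) ≤ R₁) ∧
      (∃ x : Ix dd → ℕ, (∀ l, x l ∈ B₂ l) ∧ rt U (num (tri q) j) = kn₂ * ∏ l, x l ∧
        ∏ l, rad (x l) ≤ R₂)) :
    (Q.card : ℝ) ^ 2 ≤ W₁ * W₂ * ((D * (T * K) ^ (2 ^ dd) : ℕ) : ℝ) ^ 2 := by
  classical
  rcases Q.eq_empty_or_nonempty with h0 | ⟨q0, hq0⟩
  · rw [h0, card_empty]
    rw [Nat.cast_zero, zero_pow two_ne_zero]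
    positivity
  have hx : ∀ q ∈ Q, ∃ x : Ix dd → ℕ, (∀ l, x l ∈ B₁ l) ∧
      rt U (num (tri q) i) = kn₁ * ∏ l, x l ∧ ∏ l, rad (x l) ≤ R₁ := fun q hq => (hQ q hq).2.2.2.1
  have hy : ∀ q ∈ Q, ∃ x : Ix dd → ℕ, (∀ l, x l ∈ B₂ l) ∧
      rt U (num (tri q) j) = kn₂ * ∏ l, x l ∧ ∏ l, rad (x l) ≤ R₂ := fun q hq => (hQ q hq).2.2.2.2
  choose! x hx1 hx2 hx3 using hx
  choose! y hy1 hy2 hy3 using hy
  have hcop : ∀ q ∈ Q, ∀ l : Fin 3, l ≠ c → Nat.Coprime (num (tri q) l) (D ^ Z) := fun q hq l hl =>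
    Nat.Coprime.coprime_dvd_right (hQ q hq).2.2.1 (num_coprime (hQ q hq).1.abc hl)
  have hcrt : ∀ q ∈ Q, ∀ l : Fin 3, l ≠ c → Nat.Coprime (rt U (num (tri q) l)) (D ^ Z) := by
    intro q hq l hl
    have tl : 0 < num (tri q) l := num_pos (hQ q hq).1.abc l
    exact Nat.Coprime.coprime_dvd_left (rt_dvd hU tl.ne') (hcop q hq l hl)
  have ck1 : kn₁.Coprime (D ^ Z) := by
    have h1 := hcrt q0 hq0 i hic
    rw [hx2 q0 hq0] at h1
    exact Nat.Coprime.coprime_mul_right h1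
  have ck2 : kn₂.Coprime (D ^ Z) := by
    have h1 := hcrt q0 hq0 j hjc
    rw [hy2 q0 hq0] at h1
    exact Nat.Coprime.coprime_mul_right h1
  have cx : ∀ q ∈ Q, ∀ l, (x q l).Coprime (D ^ Z) := by
    intro q hq l
    have h1 := hB₁ l (hx1 q hq l)
    unfold As at h1
    rw [mem_filter] at h1
    exact Nat.Coprime.pow_right Z h1.2.1.cop
  have cy : ∀ q ∈ Q, ∀ l, (y q l).Coprime (D ^ Z) := by
    intro q hq l
    have h1 := hB₂ l (hy1 q hq l)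
    unfold As at h1
    rw [mem_filter] at h1
    exact Nat.Coprime.pow_right Z h1.2.1.cop
  obtain ⟨r, hr⟩ : ∃ r : (ZMod (D ^ Z))ˣ, r = sgu (D ^ Z) c * un (D ^ Z) kn₁ ^ U *
      (un (D ^ Z) kn₂ ^ U)⁻¹ := ⟨_, rfl⟩
  have hpc := pair_class (Z := Z) (U := U) (T := T) (K := K) hD (Nat.one_le_pow U X hX)
    B₁ B₂ hG₁ hG₂ r
  set P := (tup dd B₁ ×ˢ tup dd B₂).filter
    fun t => Sm (D ^ Z) (X ^ U) 1 ((∏ i, (un (D ^ Z) (t.1 i)) ^ U) *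
      (r * (∏ i, (un (D ^ Z) (t.2 i)) ^ U)⁻¹)) with hP
  have hcard : Q.card ≤ P.card := by
    apply card_le_card_of_injOn (fun q => (x q, y q))
    · intro q hq
      have hq' := mem_coe.1 hq
      apply mem_coe.2
      rw [hP, mem_filter, mem_product, mem_tup, mem_tup]
      refine ⟨⟨hx1 q hq', hy1 q hq'⟩, ?_⟩
      obtain ⟨hp, hrad, hd, -, -⟩ := hQ q hq'
      have ti : 0 < num (tri q) i := num_pos hp.abc i
      have tj : 0 < num (tri q) j := num_pos hp.abc j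
      refine ⟨rm U (num (tri q) j), rm U (num (tri q) i), rm_pos tj.ne', rm_pos ti.ne',
        Nat.Coprime.coprime_dvd_left (rm_dvd tj.ne') (hcop q hq' j hjc),
        Nat.Coprime.coprime_dvd_left (rm_dvd ti.ne') (hcop q hq' i hic), ?_, ?_, ?_⟩
      · rw [pow_one]
        exact (rm_le hU tj.ne').trans (Nat.pow_le_pow_left (hrad j) _)
      · rw [pow_one]
        exact (rm_le hU ti.ne').trans (Nat.pow_le_pow_left (hrad i) _)
      · have e1 := cong hp.abc hij hjc hic hd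
        have a1 := rt_mul_rm (U := U) ti.ne'
        have a2 := rt_mul_rm (U := U) tj.ne'
        have ux : ((∏ l, (un (D ^ Z) (x q l)) ^ U : (ZMod (D ^ Z))ˣ) : ZMod (D ^ Z)) =
            ((∏ l, x q l : ℕ) : ZMod (D ^ Z)) ^ U := by
          rw [Finset.prod_pow, Units.val_pow_eq_pow_val, Units.coe_prod]
          congr 1
          push_cast
          exact Finset.prod_congr rfl fun l _ => un_coe (cx q hq' l)
        have uy : ((∏ l, (un (D ^ Z) (y q l)) ^ U : (ZMod (D ^ Z))ˣ) : ZMod (D ^ Z)) =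
            ((∏ l, y q l : ℕ) : ZMod (D ^ Z)) ^ U := by
          rw [Finset.prod_pow, Units.val_pow_eq_pow_val, Units.coe_prod]
          congr 1
          push_cast
          exact Finset.prod_congr rfl fun l _ => un_coe (cy q hq' l)
        obtain ⟨ux', hux'⟩ : ∃ u : (ZMod (D ^ Z))ˣ, u = ∏ l, (un (D ^ Z) (x q l)) ^ U := ⟨_, rfl⟩
        obtain ⟨uy', huy'⟩ : ∃ u : (ZMod (D ^ Z))ˣ, u = ∏ l, (un (D ^ Z) (y q l)) ^ U := ⟨_, rfl⟩
        simp only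
        rw [← hux'] at ux ⊢
        rw [← huy'] at uy ⊢
        rw [hx2 q hq'] at a1
        rw [hy2 q hq'] at a2
        rw [hr]
        have k1 := un_coe ck1
        have k2 := un_coe ck2
        obtain ⟨w1, hw1⟩ : ∃ w : (ZMod (D ^ Z))ˣ, w = un (D ^ Z) kn₁ ^ U := ⟨_, rfl⟩
        obtain ⟨w2, hw2⟩ : ∃ w : (ZMod (D ^ Z))ˣ, w = un (D ^ Z) kn₂ ^ U := ⟨_, rfl⟩
        have hw1' : (w1 : ZMod (D ^ Z)) = (kn₁ : ZMod (D ^ Z)) ^ U := by
          rw [hw1, Units.val_pow_eq_pow_val, k1]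
        have hw2' : (w2 : ZMod (D ^ Z)) = (kn₂ : ZMod (D ^ Z)) ^ U := by
          rw [hw2, Units.val_pow_eq_pow_val, k2]
        rw [← hw1, ← hw2]
        push_cast at e1 ux uy ⊢
        have a1' := congrArg (fun z : ℕ => (z : ZMod (D ^ Z))) a1
        have a2' := congrArg (fun z : ℕ => (z : ZMod (D ^ Z))) a2
        beta_reduce at a1' a2'
        push_cast at a1' a2'
        rw [mul_pow, ← hw1', ← ux] at a1'
        rw [mul_pow, ← hw2', ← uy] at a2'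
        apply (Units.isUnit w2).mul_left_cancel
        apply (Units.isUnit uy').mul_left_cancel
        calc (uy' : ZMod (D ^ Z)) * ((w2 : ZMod (D ^ Z)) * ((ux' : ZMod (D ^ Z)) *
              ((sgu (D ^ Z) c : ZMod (D ^ Z)) * (w1 : ZMod (D ^ Z)) *
                ((w2⁻¹ : (ZMod (D ^ Z))ˣ) : ZMod (D ^ Z)) *
                ((uy'⁻¹ : (ZMod (D ^ Z))ˣ) : ZMod (D ^ Z))) *
                (rm U (num (tri q) i) : ZMod (D ^ Z))))
            = ((uy' : ZMod (D ^ Z)) * ((uy'⁻¹ : (ZMod (D ^ Z))ˣ) : ZMod (D ^ Z))) *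
              ((w2 : ZMod (D ^ Z)) * ((w2⁻¹ : (ZMod (D ^ Z))ˣ) : ZMod (D ^ Z))) *
              ((sgu (D ^ Z) c : ZMod (D ^ Z)) * ((w1 : ZMod (D ^ Z)) * (ux' : ZMod (D ^ Z)) *
                (rm U (num (tri q) i) : ZMod (D ^ Z)))) := by ring
          _ = (num (tri q) j : ZMod (D ^ Z)) := by
              rw [Units.mul_inv, Units.mul_inv, one_mul, one_mul, a1', e1]
          _ = _ := by rw [← a2']; ring
    · intro q hq q' hq' h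
      have m1 := mem_coe.1 hq
      have m2 := mem_coe.1 hq'
      simp only [Prod.mk.injEq] at h
      obtain ⟨hp, hrad, hd, -, -⟩ := hQ q m1
      obtain ⟨hp', hrad', hd', -, -⟩ := hQ q' m2
      refine uniq_padic hU hf hij hjc hic hp hp' hd hd' hrad hrad' ?_ ?_
      · rw [hx2 q m1, hx2 q' m2, h.1]
      · rw [hy2 q m1, hy2 q' m2, h.2]
  -- sizes
  have s1 := hC₁ (x q0) (hx1 q0 hq0) (hx3 q0 hq0)
  have s2 := hC₂ (y q0) (hy1 q0 hq0) (hy3 q0 hq0)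
  have hcardR : (Q.card : ℝ) ≤ P.card := by exact_mod_cast hcard
  calc (Q.card : ℝ) ^ 2 ≤ (P.card : ℝ) ^ 2 := pow_le_pow_left₀ (Nat.cast_nonneg _) hcardR 2
    _ ≤ (∏ l, ((B₁ l).card : ℝ)) * (∏ l, ((B₂ l).card : ℝ)) *
        ((D * (T * K) ^ (2 ^ dd) : ℕ) : ℝ) ^ 2 := hpc
    _ ≤ _ := mul_le_mul_of_nonneg_right (mul_le_mul s1 s2
        (Finset.prod_nonneg fun _ _ => Nat.cast_nonneg _) hW₁) (by positivity)

end Pool.Agent.T2H20.AH
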