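import Pool.Agent.T2H20.AH.Ga

/-!
The triples of a level two members of which have radicals in given families.
-/

set_option autoImplicit false

namespace Pool.Agent.T2H20.AH

open Finset Pool.Agent.H785R2.ABC Pool.Agent.H785R2.ABC.EC Pool.Agent.T2H20.ABC

/-- families of integers with all divisors and with few elements -/
structure Fml (F : ℕ → Prop) (G α : ℝ) : Prop where
  her : ∀ m n, F n → m ∣ n → F m
  G1 : 1 ≤ G
  a0 : 0 ≤ α
  a1 : α ≤ 1
  cnt : ∀ (Y : ℕ) (S : Finset ℕ), 1 ≤ Y → (∀ s ∈ S, 1 ≤ s ∧ s ≤ Y ∧ F s) →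
    (S.card : ℝ) ≤ G * (Y : ℝ) ^ α

open Classical in
/-- the numbers of a type with radical in the family -/
noncomputable def BF (F : ℕ → Prop) (X A D : ℕ) (τ : ℕ × ℕ × ℕ) : Finset ℕ :=
  (As X A D τ).filter fun v => F (rad v)

open Classical in
/-- the roots with radical in the family -/
noncomputable def SF (F : ℕ → Prop) (N R : ℕ) : Finset ℕ :=
  (Icc 1 N).filter fun v => rad v ≤ R ∧ F (rad v)

lemma BF_sub {F : ℕ → Prop} {X A D : ℕ} {τ : ℕ × ℕ × ℕ} : BF F X A D τ ⊆ As X A D τ := by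
  classical
  unfold BF
  exact filter_subset _ _

section

variable {F : ℕ → Prop} {G α : ℝ}

/-- the number of the elements of a set of integers whose radicals belong to the family -/
lemma Fml.card_le (hF : Fml F G α) {N K Y : ℕ} (hY : 1 ≤ Y)
    (hK : ∀ r : ℕ, ((Icc 1 N).filter fun v => rad v = r).card ≤ K) (S : Finset ℕ)
    (hS : ∀ v ∈ S, 1 ≤ v ∧ v ≤ N ∧ rad v ≤ Y ∧ F (rad v)) :
    (S.card : ℝ) ≤ K * (G * (Y : ℝ) ^ α) := by
  classical
  have h1 : S.card ≤ K * (S.image rad).card := by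
    apply Finset.card_le_mul_card_image
    intro r _
    refine le_trans (Finset.card_le_card ?_) (hK r)
    intro v hv
    rw [mem_filter] at hv ⊢
    exact ⟨mem_Icc.2 ⟨(hS v hv.1).1, (hS v hv.1).2.1⟩, hv.2⟩
  have h2 := hF.cnt Y (S.image rad) hY (by
    intro s hs
    rw [mem_image] at hs
    obtain ⟨v, hv, rfl⟩ := hs
    exact ⟨rad_pos' v, (hS v hv).2.2.1, (hS v hv).2.2.2⟩)
  calc (S.card : ℝ) ≤ ((K * (S.image rad).card : ℕ) : ℝ) := by exact_mod_cast h1
    _ = K * ((S.image rad).card : ℝ) := by push_cast; ring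
    _ ≤ _ := mul_le_mul_of_nonneg_left h2 (Nat.cast_nonneg _)

lemma BF_card (hF : Fml F G α) {X A D K : ℕ} {τ : ℕ × ℕ × ℕ}
    (hK : ∀ r : ℕ, ((Icc 1 (X ^ A)).filter fun v => rad v = r).card ≤ K) :
    ((BF F X A D τ).card : ℝ) ≤ (2 * K * G) * ((2 : ℝ) ^ τ.2.2) ^ α := by
  classical
  have h1 := hF.card_le (N := X ^ A) (Y := 2 ^ (τ.2.2 + 1)) Nat.one_le_two_pow hK
    (BF F X A D τ) (by
    intro v hv
    unfold BF at hv
    rw [mem_filter] at hv
    unfold As at hv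
    rw [mem_filter, mem_Icc] at hv
    exact ⟨hv.1.1.1, hv.1.1.2, hv.1.2.1.rad_le, hv.2⟩)
  refine h1.trans ?_
  have hG := hF.G1
  have h2 : (((2 ^ (τ.2.2 + 1) : ℕ)) : ℝ) ^ α ≤ 2 * ((2 : ℝ) ^ τ.2.2) ^ α := by
    push_cast
    rw [pow_succ, mul_comm, Real.mul_rpow (by norm_num) (by positivity)]
    apply mul_le_mul_of_nonneg_right _ (by positivity)
    calc (2 : ℝ) ^ α ≤ 2 ^ (1 : ℝ) := Real.rpow_le_rpow_of_exponent_le (by norm_num) hF.a1
      _ = 2 := Real.rpow_one 2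
  calc (K : ℝ) * (G * (((2 ^ (τ.2.2 + 1) : ℕ)) : ℝ) ^ α)
      ≤ K * (G * (2 * ((2 : ℝ) ^ τ.2.2) ^ α)) := by
        apply mul_le_mul_of_nonneg_left _ (Nat.cast_nonneg _)
        exact mul_le_mul_of_nonneg_left h2 (by linarith)
    _ = _ := by ring

lemma BF_prod (hF : Fml F G α) {X A D K R dd : ℕ} (τ : Ix dd → ℕ × ℕ × ℕ)
    (hK : ∀ r : ℕ, ((Icc 1 (X ^ A)).filter fun v => rad v = r).card ≤ K)
    (z : Ix dd → ℕ) (hz : ∀ l, z l ∈ BF F X A D (τ l)) (hR : ∏ l, rad (z l) ≤ R) :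
    ∏ l, ((BF F X A D (τ l)).card : ℝ) ≤ (2 * K * G) ^ 2 ^ dd * (R : ℝ) ^ α := by
  classical
  have hG := hF.G1
  calc ∏ l, ((BF F X A D (τ l)).card : ℝ)
      ≤ ∏ l, ((2 * K * G) * ((2 : ℝ) ^ (τ l).2.2) ^ α) :=
        Finset.prod_le_prod (fun _ _ => Nat.cast_nonneg _) fun l _ => BF_card hF hK
    _ = (2 * K * G) ^ 2 ^ dd * (∏ l, (2 : ℝ) ^ (τ l).2.2) ^ α := by
        rw [Finset.prod_mul_distrib, Finset.prod_const, Finset.card_univ, card_Ix,
          Real.finsetProd_rpow]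
        intro l _
        positivity
    _ ≤ (2 * K * G) ^ 2 ^ dd * (R : ℝ) ^ α := by
        apply mul_le_mul_of_nonneg_left _ (by positivity)
        apply Real.rpow_le_rpow (Finset.prod_nonneg fun _ _ => by positivity) _ hF.a0
        have h1 : ∏ l, 2 ^ (τ l).2.2 ≤ ∏ l, rad (z l) := by
          apply Finset.prod_le_prod'
          intro l _
          have := BF_sub (hz l)
          unfold As at this
          rw [mem_filter] at this
          exact this.2.2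
        have h2 : ∏ l, 2 ^ (τ l).2.2 ≤ R := h1.trans hR
        exact_mod_cast h2

end

end Pool.Agent.T2H20.AH
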