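import Pool.Agent.T2H20.AH.Gd
import Pool.Agent.T2H20.AH.Cg

/-!
All levels and all scales, for members whose radicals belong to given families.
-/

set_option autoImplicit false

namespace Pool.Agent.T2H20.AH

open Finset Pool.Agent.H785R2.ABC Pool.Agent.H785R2.ABC.EC Pool.Agent.T2H20.ABC

/-- **large radicals** -/
theorem box_large' (ε : ℝ) (hε : 0 < ε) : ∃ K X₀ m : ℕ, ∃ C : ℝ, 1 ≤ K ∧ 0 < C ∧ ∀ X R₁ R₂ : ℕ,
    X₀ ≤ X → 1 ≤ R₁ → 1 ≤ R₂ → ∀ (F₁ F₂ : ℕ → Prop) (G₁ G₂ α₁ α₂ : ℝ), Fml F₁ G₁ α₁ →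
    Fml F₂ G₂ α₂ → (R₁ : ℝ) ^ α₁ ≤ (R₂ : ℝ) ^ α₂ → ∀ i j c : Fin 3, i ≠ j → j ≠ c → i ≠ c →
    ∀ Q : Finset (ℕ × ℕ), (∀ q ∈ Q, Pr q ∧ (∀ l, rad (num (tri q) l) ≤ X) ∧
      (rad (num (tri q) i) ≤ R₁ ∧ rad (num (tri q) j) ≤ R₂) ∧
      (F₁ (rad (num (tri q) i)) ∧ F₂ (rad (num (tri q) j))) ∧ X ^ K ≤ q.1 + q.2) →
    (Q.card : ℝ) ≤ C * (G₁ * G₂) ^ m * (X : ℝ) ^ ε *
      Real.sqrt ((R₁ : ℝ) ^ α₁ * (R₂ : ℝ) ^ α₂) := by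
  classical
  obtain ⟨η, hη⟩ : ∃ η, η = ε / 17 := ⟨_, rfl⟩
  have hη0 : 0 < η := by rw [hη]; positivity
  obtain ⟨e', he'⟩ := exists_nat_ge (1 / η)
  obtain ⟨e, hed⟩ : ∃ e, e = e' + 4 := ⟨_, rfl⟩
  have he : 4 ≤ e := by omega
  have hηe : 1 ≤ η * e := by
    have h1 : (e' : ℝ) ≤ e := by
      have : e' ≤ e := by omega
      exact_mod_cast this
    have h2 := he'.trans h1
    rw [div_le_iff₀ hη0] at h2
    linarith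
  obtain ⟨k', hk'⟩ := exists_nat_ge ((12 * e : ℝ) / η)
  obtain ⟨k, hkd⟩ : ∃ k, k = k' + 1 := ⟨_, rfl⟩
  have hk : 1 ≤ k := by omega
  have hηk : (12 * e : ℝ) / k ≤ η := by
    have h1 : (k' : ℝ) ≤ k := by
      have : k' ≤ k := by omega
      exact_mod_cast this
    have h2 := hk'.trans h1
    rw [div_le_iff₀ hη0] at h2
    rw [div_le_iff₀ (by exact_mod_cast hk)]
    linarith
  -- the data of the levels
  have key : ∀ Ξ : ℕ, ∃ d U₀ X₀ m : ℕ, ∃ C : ℝ, 1 ≤ d ∧ 1 ≤ U₀ ∧ 0 < C ∧ (1 ≤ Ξ →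
      ∀ X U R₁ R₂ : ℕ, X₀ ≤ X → U₀ ≤ U →
      1 ≤ R₁ → 1 ≤ R₂ → ∀ (F₁ F₂ : ℕ → Prop) (G₁ G₂ α₁ α₂ : ℝ), Fml F₁ G₁ α₁ → Fml F₂ G₂ α₂ →
      (R₁ : ℝ) ^ α₁ ≤ (R₂ : ℝ) ^ α₂ → ∀ i j c : Fin 3, i ≠ j → j ≠ c → i ≠ c →
      ∀ Q : Finset (ℕ × ℕ), (∀ q ∈ Q, Pr q ∧ (∀ l, rad (num (tri q) l) ≤ X) ∧
        (rad (num (tri q) i) ≤ R₁ ∧ rad (num (tri q) j) ≤ R₂) ∧
        (F₁ (rad (num (tri q) i)) ∧ F₂ (rad (num (tri q) j))) ∧ X ^ (Ξ * d * U) ≤ q.1 + q.2 ∧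
        q.1 + q.2 ≤ X ^ (2 * (Ξ * d * U)) ∧ ∀ l, Win e X U d (num (tri q) l)) →
      (Q.card : ℝ) ≤ C * (G₁ * G₂) ^ m * (X : ℝ) ^ (16 * η) *
        Real.sqrt ((R₁ : ℝ) ^ α₁ * (R₂ : ℝ) ^ α₂)) := by
    intro Ξ
    by_cases hΞ : 1 ≤ Ξ
    · obtain ⟨d, U₀, X₀, m, C, h1, h2, h3, h4⟩ := level' e k η he hk hη0 hηe hηk Ξ hΞ
      exact ⟨d, U₀, X₀, m, C, h1, h2, h3, fun _ => h4⟩
    · exact ⟨1, 1, 1, 1, 1, le_rfl, le_rfl, one_pos, fun h => absurd h hΞ⟩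
  choose dF UF XF mF CF hd1 hU1 hC1 hlev using key
  obtain ⟨J, hJ⟩ : ∃ J, J = 12 * e := ⟨_, rfl⟩
  obtain ⟨Ξ, hΞ⟩ : ∃ Ξ, Ξ = Xi dF := ⟨_, rfl⟩
  have hΞ1 : ∀ j, 1 ≤ Ξ j := by rw [hΞ]; exact Xi_pos hd1
  have hΞd : ∀ {a b : ℕ}, a ≤ b → Ξ a ∣ Ξ b := by rw [hΞ]; exact fun h => Xi_dvd h
  have hΞs : ∀ j, Ξ (j + 1) = Ξ j * dF (Ξ j) := by rw [hΞ]; exact fun _ => rfl
  obtain ⟨S, hS⟩ : ∃ S, S = ∑ j ∈ range J, UF (Ξ j) + 1 := ⟨_, rfl⟩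
  obtain ⟨XM, hXM⟩ : ∃ XM, XM = ∑ j ∈ range J, XF (Ξ j) + 2 := ⟨_, rfl⟩
  obtain ⟨CM, hCM⟩ : ∃ CM : ℝ, CM = ∑ j ∈ range J, CF (Ξ j) + 1 := ⟨_, rfl⟩
  obtain ⟨mM, hmM⟩ : ∃ mM, mM = ∑ j ∈ range J, mF (Ξ j) := ⟨_, rfl⟩
  have hCM0 : 0 < CM := by
    rw [hCM]
    have : 0 ≤ ∑ j ∈ range J, CF (Ξ j) := Finset.sum_nonneg fun j _ => (hC1 _).le
    linarith
  obtain ⟨K, hK⟩ : ∃ K, K = Ξ J * S := ⟨_, rfl⟩
  have hK1 : 1 ≤ K := by rw [hK]; exact Nat.mul_pos (hΞ1 J) (by omega)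
  obtain ⟨DL, hDL, hL⟩ := Pool.Agent.TH867.SM.log_pow_le (η / 3) (by positivity)
  refine ⟨K, XM, mM, 3 * DL * J * CM + 1, hK1, by positivity, ?_⟩
  intro X R₁ R₂ hX hR₁ hR₂ F₁ F₂ G₁ G₂ α₁ α₂ hF₁ hF₂ hw i j c hij hjc hic Q hQ
  have hG1 := hF₁.G1
  have hG2 := hF₂.G1
  obtain ⟨w, hwd⟩ : ∃ w, w = Real.sqrt ((R₁ : ℝ) ^ α₁ * (R₂ : ℝ) ^ α₂) := ⟨_, rfl⟩
  have hw0 : 0 ≤ w := by rw [hwd]; exact Real.sqrt_nonneg _
  rw [← hwd]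
  obtain ⟨Γ, hΓ⟩ : ∃ Γ, Γ = G₁ * G₂ := ⟨_, rfl⟩
  have hΓ1 : 1 ≤ Γ := by rw [hΓ]; nlinarith
  rw [← hΓ]
  have hX2 : 2 ≤ X := by omega
  have hXone : 1 ≤ X := by omega
  have hX0 : (0 : ℝ) < X := by exact_mod_cast hXone
  have hX1 : (1 : ℝ) ≤ X := by exact_mod_cast hXone
  obtain ⟨SM, hSM⟩ : ∃ SM, SM = ⌊2 * (1 + Hb X)⌋₊ := ⟨_, rfl⟩
  have hHb : 0 ≤ Hb X := by
    unfold Hb
    have : 0 ≤ Real.log ((X : ℝ) ^ 3) := Real.log_nonneg (one_le_pow₀ hX1)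
    positivity
  have hSMle : (SM : ℝ) + 1 ≤ 3 * DL * (X : ℝ) ^ η := by
    have h1 : (SM : ℝ) ≤ 2 * (1 + Hb X) := by rw [hSM]; exact Nat.floor_le (by positivity)
    have h2 := hL ((X : ℝ) ^ 3) (one_le_pow₀ hX1)
    have h3 : ((X : ℝ) ^ 3) ^ (η / 3) = (X : ℝ) ^ η := by
      rw [← Real.rpow_natCast, ← Real.rpow_mul hX0.le]
      congr 1
      push_cast
      ring
    rw [h3] at h2
    have h4 : 1 + Hb X ≤ DL * (X : ℝ) ^ η := h2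
    linarith
  -- the cover
  have hcov := card_le_of_cover Q (range (SM + 1) ×ˢ range J)
    (fun z q => (X ^ (K * 2 ^ z.1) ≤ q.1 + q.2 ∧ q.1 + q.2 ≤ X ^ (2 * (K * 2 ^ z.1))) ∧
      ∀ l, Win e X (K * 2 ^ z.1 / Ξ (z.2 + 1)) (dF (Ξ z.2)) (num (tri q) l))
    (CM * Γ ^ mM * (X : ℝ) ^ (16 * η) * w) (by
      intro q hq
      obtain ⟨h1, h2, h3, h4, h5⟩ := hQ q hq
      obtain ⟨s, hs1, hs2, hs3⟩ := exists_scale hX2 hK1 h5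
      obtain ⟨a, ha, ha2⟩ := window_pigeon (e := e) hXone (by omega) (fun m => K * 2 ^ s / Ξ m) (by
        intro u v huv
        exact Nat.div_le_div_left (Nat.le_of_dvd (hΞ1 v) (hΞd huv)) (hΞ1 u))
        (fun l => num (tri q) l) h2
      refine ⟨(s, a), ?_, ⟨hs1, hs2⟩, ?_⟩
      · rw [mem_product, mem_range, mem_range]
        refine ⟨?_, by rw [hJ]; exact ha⟩
        have h6 := scale_le hX2 (by have := h1.p1; omega) hs3 (height_q h1 hXone h2)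
        have h7 : s ≤ SM := by rw [hSM]; exact Nat.le_floor h6
        simp only
        omega
      · intro l
        have h6 := ha2 l
        have hdv : Ξ (a + 1) ∣ K * 2 ^ s := by
          rw [hK, mul_assoc]
          exact (hΞd (by omega)).trans (Dvd.intro _ rfl)
        have h7 : K * 2 ^ s / Ξ a = dF (Ξ a) * (K * 2 ^ s / Ξ (a + 1)) := by
          obtain ⟨u, hu⟩ := hdv
          rw [hu, Nat.mul_div_cancel_left _ (hΞ1 (a + 1)), hΞs, mul_assoc,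
            Nat.mul_div_cancel_left _ (hΞ1 a)]
        unfold wd at h6
        unfold Win
        simp only at h6 ⊢
        rw [h7] at h6
        exact h6) (by
      rintro ⟨s, a⟩ hz
      rw [mem_product, mem_range, mem_range] at hz
      obtain ⟨hz1, hz2⟩ := hz
      simp only at hz1 hz2 ⊢
      obtain ⟨u, hu⟩ : ∃ u, Ξ J = Ξ (a + 1) * u := hΞd (by omega)
      have hu1 : 1 ≤ u := by
        rcases Nat.eq_zero_or_pos u with h | h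
        · rw [h, mul_zero] at hu
          have := hΞ1 J
          omega
        · exact h
      have hKs : K * 2 ^ s = Ξ (a + 1) * (u * S * 2 ^ s) := by rw [hK, hu]; ring
      have hdiv : K * 2 ^ s / Ξ (a + 1) = u * S * 2 ^ s := by
        rw [hKs, Nat.mul_div_cancel_left _ (hΞ1 (a + 1))]
      rw [hdiv]
      have hUS : UF (Ξ a) ≤ u * S * 2 ^ s := by
        have h1 : UF (Ξ a) ≤ S := by
          rw [hS]
          have := Finset.single_le_sum (f := fun j => UF (Ξ j)) (fun _ _ => Nat.zero_le _)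
            (mem_range.2 hz2)
          omega
        calc UF (Ξ a) ≤ S := h1
          _ ≤ u * S := Nat.le_mul_of_pos_left _ hu1
          _ ≤ u * S * 2 ^ s := Nat.le_mul_of_pos_right _ (by positivity)
      have hXF : XF (Ξ a) ≤ X := by
        refine le_trans ?_ hX
        rw [hXM]
        have := Finset.single_le_sum (f := fun j => XF (Ξ j)) (fun _ _ => Nat.zero_le _)
          (mem_range.2 hz2)
        omega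
      have hCF : CF (Ξ a) ≤ CM := by
        rw [hCM]
        have := Finset.single_le_sum (f := fun j => CF (Ξ j)) (fun j _ => (hC1 (Ξ j)).le)
          (mem_range.2 hz2)
        linarith
      have hmF : mF (Ξ a) ≤ mM := by
        rw [hmM]
        exact Finset.single_le_sum (f := fun j => mF (Ξ j)) (fun _ _ => Nat.zero_le _)
          (mem_range.2 hz2)
      have hmain := hlev (Ξ a) (hΞ1 a) X (u * S * 2 ^ s) R₁ R₂ hXF hUS hR₁ hR₂ F₁ F₂ G₁ G₂ α₁ α₂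
        hF₁ hF₂ hw i j c hij hjc hic
        (Q.filter fun q => (X ^ (K * 2 ^ s) ≤ q.1 + q.2 ∧ q.1 + q.2 ≤ X ^ (2 * (K * 2 ^ s))) ∧
          ∀ l, Win e X (u * S * 2 ^ s) (dF (Ξ a)) (num (tri q) l)) (by
          intro q hq
          rw [mem_filter] at hq
          obtain ⟨hq, ⟨h6, h7⟩, h8⟩ := hq
          obtain ⟨h1, h2, h3, h4, h5⟩ := hQ q hq
          have hn : Ξ a * dF (Ξ a) * (u * S * 2 ^ s) = K * 2 ^ s := by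
            rw [hKs, hΞs]
          rw [hn]
          exact ⟨h1, h2, h3, h4, h6, h7, h8⟩)
      rw [← hwd, ← hΓ] at hmain
      refine hmain.trans ?_
      apply mul_le_mul_of_nonneg_right _ hw0
      apply mul_le_mul_of_nonneg_right _ (by positivity)
      exact mul_le_mul hCF (pow_le_pow_right₀ hΓ1 hmF) (by positivity) hCM0.le)
  refine hcov.trans ?_
  rw [card_product, card_range, card_range]
  push_cast
  have hJ0 : (0 : ℝ) ≤ J := Nat.cast_nonneg _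
  calc ((SM : ℝ) + 1) * J * (CM * Γ ^ mM * (X : ℝ) ^ (16 * η) * w)
      ≤ (3 * DL * (X : ℝ) ^ η) * J * (CM * Γ ^ mM * (X : ℝ) ^ (16 * η) * w) := by
        apply mul_le_mul_of_nonneg_right _ (by positivity)
        exact mul_le_mul_of_nonneg_right hSMle hJ0
    _ = (3 * DL * J * CM) * Γ ^ mM * ((X : ℝ) ^ η * (X : ℝ) ^ (16 * η)) * w := by
        ring
    _ = (3 * DL * J * CM) * Γ ^ mM * (X : ℝ) ^ ε * w := by
        rw [← Real.rpow_add hX0]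
        congr 3
        rw [hη]; ring
    _ ≤ _ := by
        apply mul_le_mul_of_nonneg_right _ hw0
        apply mul_le_mul_of_nonneg_right _ (by positivity)
        apply mul_le_mul_of_nonneg_right _ (by positivity)
        linarith

/-- **The square root bound at all heights.** -/
theorem box_fam₀ (ε : ℝ) (hε : 0 < ε) : ∃ K m : ℕ, ∃ C : ℝ, 0 < C ∧
    ∀ X R₁ R₂ : ℕ, 1 ≤ X → 1 ≤ R₁ → 1 ≤ R₂ → ∀ (F₁ F₂ : ℕ → Prop) (G₁ G₂ α₁ α₂ : ℝ),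
    Fml F₁ G₁ α₁ → Fml F₂ G₂ α₂ → (R₁ : ℝ) ^ α₁ ≤ (R₂ : ℝ) ^ α₂ → ∀ i j c : Fin 3,
    i ≠ j → j ≠ c → i ≠ c → ∀ Q : Finset (ℕ × ℕ),
    (∀ q ∈ Q, Pr q ∧ (∀ l, rad (num (tri q) l) ≤ X) ∧
      (rad (num (tri q) i) ≤ R₁ ∧ rad (num (tri q) j) ≤ R₂) ∧
      (F₁ (rad (num (tri q) i)) ∧ F₂ (rad (num (tri q) j))) ∧ X ^ K ≤ q.1 + q.2) →
    (Q.card : ℝ) ≤ C * (G₁ * G₂) ^ m * (X : ℝ) ^ ε *
      Real.sqrt ((R₁ : ℝ) ^ α₁ * (R₂ : ℝ) ^ α₂) := by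
  classical
  obtain ⟨K, X₀, m, C, hK, hC, hmain⟩ := box_large' ε hε
  obtain ⟨H, hH⟩ : ∃ H, H = ⌊Real.exp (Real.exp (Hb (X₀ + 1 : ℕ)))⌋₊ := ⟨_, rfl⟩
  refine ⟨K, m, C + ((H : ℝ) + 1) ^ 2, by positivity, ?_⟩
  intro X R₁ R₂ hX hR₁ hR₂ F₁ F₂ G₁ G₂ α₁ α₂ hF₁ hF₂ hw i j c hij hjc hic Q hQ
  have hG1 := hF₁.G1
  have hG2 := hF₂.G1
  obtain ⟨w, hwd⟩ : ∃ w, w = Real.sqrt ((R₁ : ℝ) ^ α₁ * (R₂ : ℝ) ^ α₂) := ⟨_, rfl⟩
  have hw0 : 0 ≤ w := by rw [hwd]; exact Real.sqrt_nonneg _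
  obtain ⟨Γ, hΓ⟩ : ∃ Γ, Γ = G₁ * G₂ := ⟨_, rfl⟩
  have hΓ1 : 1 ≤ Γ := by rw [hΓ]; nlinarith
  have hX0 : (0 : ℝ) < X := by exact_mod_cast hX
  have hX1 : (1 : ℝ) ≤ X := by exact_mod_cast hX
  rcases Nat.lt_or_ge X X₀ with h | h
  · have hR₁r : (1 : ℝ) ≤ R₁ := by exact_mod_cast hR₁
    have hR₂r : (1 : ℝ) ≤ R₂ := by exact_mod_cast hR₂
    have hr1 : 1 ≤ (R₁ : ℝ) ^ α₁ := Real.one_le_rpow hR₁r hF₁.a0
    have hr2 : 1 ≤ (R₂ : ℝ) ^ α₂ := Real.one_le_rpow hR₂r hF₂.a0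
    have hsq1 : (1 : ℝ) ≤ w := by
      rw [hwd]
      apply Real.le_sqrt_of_sq_le
      nlinarith
    have hXe : 1 ≤ (X : ℝ) ^ ε := Real.one_le_rpow hX1 hε.le
    have hsub : Q ⊆ range (H + 1) ×ˢ range (H + 1) := by
      intro q hq
      obtain ⟨h1, h2, -⟩ := hQ q hq
      have h3 := height_q h1 hX h2
      have h4 : Hb X ≤ Hb (X₀ + 1 : ℕ) := by
        unfold Hb
        have h5 : Real.log ((X : ℝ) ^ 3) ≤ Real.log (((X₀ + 1 : ℕ) : ℝ) ^ 3) := by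
          apply Real.log_le_log (by positivity)
          apply pow_le_pow_left₀ hX0.le
          have : X ≤ X₀ + 1 := by omega
          exact_mod_cast this
        have h6 : 0 ≤ Real.log ((X : ℝ) ^ 3) := Real.log_nonneg (one_le_pow₀ hX1)
        apply mul_le_mul_of_nonneg_left _ (by norm_num)
        apply pow_le_pow_left₀ (by linarith)
        linarith
      have h5 : Real.log ((q.1 + q.2 : ℕ) : ℝ) ≤ Real.exp (Hb (X₀ + 1 : ℕ)) :=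
        h3.trans (Real.exp_le_exp.2 h4)
      have h6 : q.1 + q.2 ≤ H := by
        rw [hH]
        apply Nat.le_floor
        have h7 : (0 : ℝ) < ((q.1 + q.2 : ℕ) : ℝ) := by
          have := h1.p1
          have : 0 < q.1 + q.2 := by omega
          exact_mod_cast this
        rw [← Real.log_le_iff_le_exp h7]
        exact h5
      rw [mem_product, mem_range, mem_range]
      omega
    have hcard := card_le_card hsub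
    rw [card_product, card_range] at hcard
    calc (Q.card : ℝ) ≤ ((H : ℝ) + 1) * ((H : ℝ) + 1) := by exact_mod_cast hcard
      _ = ((H : ℝ) + 1) ^ 2 * 1 * 1 * 1 := by ring
      _ ≤ (C + ((H : ℝ) + 1) ^ 2) * Γ ^ m * (X : ℝ) ^ ε * w := by
          apply mul_le_mul _ hsq1 zero_le_one (by positivity)
          apply mul_le_mul _ hXe zero_le_one (by positivity)
          apply mul_le_mul _ (one_le_pow₀ hΓ1) zero_le_one (by positivity)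
          linarith
      _ = _ := by rw [hwd, hΓ]
  · refine (hmain X R₁ R₂ h hR₁ hR₂ F₁ F₂ G₁ G₂ α₁ α₂ hF₁ hF₂ hw i j c hij hjc hic Q hQ).trans ?_
    rw [← hwd, ← hΓ]
    apply mul_le_mul_of_nonneg_right _ hw0
    apply mul_le_mul_of_nonneg_right _ (by positivity)
    apply mul_le_mul_of_nonneg_right _ (by positivity)
    have : 0 ≤ ((H : ℝ) + 1) ^ 2 := by positivity
    linarith

/-- **The square root bound at all heights, for families.** -/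
theorem box_fam (ε : ℝ) (hε : 0 < ε) : ∃ K m : ℕ, ∃ C : ℝ, 0 < C ∧
    ∀ X R₁ R₂ : ℕ, 1 ≤ X → 1 ≤ R₁ → 1 ≤ R₂ → ∀ (F₁ F₂ : ℕ → Prop) (G₁ G₂ α₁ α₂ : ℝ),
    Fml F₁ G₁ α₁ → Fml F₂ G₂ α₂ → ∀ i j : Fin 3, i ≠ j → ∀ Q : Finset (ℕ × ℕ),
    (∀ q ∈ Q, Pr q ∧ (∀ l, rad (num (tri q) l) ≤ X) ∧
      (rad (num (tri q) i) ≤ R₁ ∧ rad (num (tri q) j) ≤ R₂) ∧
      (F₁ (rad (num (tri q) i)) ∧ F₂ (rad (num (tri q) j))) ∧ X ^ K ≤ q.1 + q.2) →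
    (Q.card : ℝ) ≤ C * (G₁ * G₂) ^ m * (X : ℝ) ^ ε *
      Real.sqrt ((R₁ : ℝ) ^ α₁ * (R₂ : ℝ) ^ α₂) := by
  obtain ⟨K, m, C, hC, h⟩ := box_fam₀ ε hε
  refine ⟨K, m, C, hC, ?_⟩
  intro X R₁ R₂ hX hR₁ hR₂ F₁ F₂ G₁ G₂ α₁ α₂ hF₁ hF₂ i j hij Q hQ
  have hthird : ∀ i j : Fin 3, i ≠ j → ∃ k : Fin 3, j ≠ k ∧ i ≠ k := by decide
  obtain ⟨c, hjc, hic⟩ := hthird i j hij
  rcases le_total ((R₁ : ℝ) ^ α₁) ((R₂ : ℝ) ^ α₂) with hw | hw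
  · exact h X R₁ R₂ hX hR₁ hR₂ F₁ F₂ G₁ G₂ α₁ α₂ hF₁ hF₂ hw i j c hij hjc hic Q hQ
  · rw [mul_comm G₁ G₂, mul_comm ((R₁ : ℝ) ^ α₁)]
    refine h X R₂ R₁ hX hR₂ hR₁ F₂ F₁ G₂ G₁ α₂ α₁ hF₂ hF₁ hw j i c hij.symm hic hjc Q ?_
    intro q hq
    obtain ⟨h1, h2, ⟨h3, h4⟩, ⟨h5, h6⟩, h7⟩ := hQ q hq
    exact ⟨h1, h2, ⟨h4, h3⟩, ⟨h6, h5⟩, h7⟩

end Pool.Agent.T2H20.AH
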