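import Pool.Agent.T2H20.AH.Gf

/-!
The triples two members of which are composed of given primes.
-/

set_option autoImplicit false

namespace Pool.Agent.T2H20.AH

open Finset Pool.Agent.H785R2.ABC Pool.Agent.H785R2.ABC.EC Pool.Agent.T2H20.ABC

/-- **two members composed of given primes** -/
theorem two_units (ε : ℝ) (hε : 0 < ε) : ∃ M : ℕ, ∃ C K : ℝ, 1 ≤ M ∧ 0 < C ∧ 1 ≤ K ∧
    ∀ X : ℕ, 1 ≤ X → ∀ S T : Finset ℕ, ∀ Q : Finset (ℕ × ℕ),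
    (∀ q ∈ Q, 0 < q.1 ∧ 0 < q.2 ∧ Nat.Coprime q.1 q.2 ∧ rad (q.1 * q.2 * (q.1 + q.2)) ≤ X ∧
      (∃ i j, i ≠ j ∧ (num (tri q) i).primeFactors ⊆ S ∧ (num (tri q) j).primeFactors ⊆ T) ∧
      rad (q.1 * q.2 * (q.1 + q.2)) ^ M ≤ q.1 + q.2) →
    (Q.card : ℝ) ≤ C * K ^ (S.card + T.card) * (X : ℝ) ^ ε := by
  obtain ⟨M, m, C, hM, hC, h⟩ := fam_exceptions ε hε
  refine ⟨M, C, 2 ^ m, hM, hC, one_le_pow₀ (by norm_num), ?_⟩
  intro X hX S T Q hQ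
  have h1 := h X X X hX hX hX _ _ _ _ _ _ (fml_set S) (fml_set T) Q (by
    intro q hq
    obtain ⟨g1, g2, g3, g4, ⟨i, j, hij, g5, g6⟩, g7⟩ := hQ q hq
    exact ⟨g1, g2, g3, g4, ⟨i, j, hij, ⟨rads_le' g1 g2 g4 i, rads_le' g1 g2 g4 j⟩,
      rad_mem_set g5, rad_mem_set g6⟩, g7⟩)
  rw [Real.rpow_zero, mul_one, Real.sqrt_one, mul_one] at h1
  refine h1.trans (le_of_eq ?_)
  rw [← pow_add, ← pow_mul, ← pow_mul, mul_comm m]

/-- **a member composed of given primes, another one with a small radical** -/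
theorem one_unit (ε : ℝ) (hε : 0 < ε) : ∃ M : ℕ, ∃ C K : ℝ, 1 ≤ M ∧ 0 < C ∧ 1 ≤ K ∧
    ∀ X B : ℕ, 1 ≤ X → 1 ≤ B → ∀ S : Finset ℕ, ∀ Q : Finset (ℕ × ℕ),
    (∀ q ∈ Q, 0 < q.1 ∧ 0 < q.2 ∧ Nat.Coprime q.1 q.2 ∧ rad (q.1 * q.2 * (q.1 + q.2)) ≤ X ∧
      (∃ i j, i ≠ j ∧ (num (tri q) i).primeFactors ⊆ S ∧ rad (num (tri q) j) ≤ B) ∧
      rad (q.1 * q.2 * (q.1 + q.2)) ^ M ≤ q.1 + q.2) →
    (Q.card : ℝ) ≤ C * K ^ S.card * (X : ℝ) ^ ε * Real.sqrt B := by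
  obtain ⟨M, m, C, hM, hC, h⟩ := fam_exceptions ε hε
  refine ⟨M, C, 2 ^ m, hM, hC, one_le_pow₀ (by norm_num), ?_⟩
  intro X B hX hB S Q hQ
  have h1 := h X X B hX hX hB _ _ _ _ _ _ (fml_set S) fml_all Q (by
    intro q hq
    obtain ⟨g1, g2, g3, g4, ⟨i, j, hij, g5, g6⟩, g7⟩ := hQ q hq
    exact ⟨g1, g2, g3, g4, ⟨i, j, hij, ⟨rads_le' g1 g2 g4 i, g6⟩,
      rad_mem_set g5, trivial⟩, g7⟩)
  rw [Real.rpow_zero, one_mul, Real.rpow_one, mul_one, ← pow_mul, mul_comm S.card m, pow_mul] at h1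
  exact h1

/-- the number of the integers composed of given primes -/
lemma units_le (S : Finset ℕ) (ε : ℝ) (hε : 0 < ε) : ∃ C : ℝ, 0 < C ∧ ∀ Y : ℕ, 1 ≤ Y →
    ∀ V : Finset ℕ, (∀ v ∈ V, 1 ≤ v ∧ v ≤ Y ∧ v.primeFactors ⊆ S) →
    (V.card : ℝ) ≤ C * (Y : ℝ) ^ ε := by
  obtain ⟨D, hD, h⟩ := stmtA2 ε hε
  refine ⟨(D + 1) * 2 ^ S.card, by positivity, ?_⟩
  intro Y hY V hV
  have hY0 : (0 : ℝ) < Y := by exact_mod_cast hY
  have h1 := (fml_set S).card_le (N := Y) (K := ⌊D * (Y : ℝ) ^ ε⌋₊) (Y := Y) hY (by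
    intro r
    exact Nat.le_floor (h Y hY r)) V (by
    intro v hv
    obtain ⟨g1, g2, g3⟩ := hV v hv
    refine ⟨g1, g2, ?_, rad_mem_set g3⟩
    exact (Nat.le_of_dvd g1 (rad_dvd' v)).trans g2)
  rw [Real.rpow_zero, mul_one] at h1
  refine h1.trans ?_
  have h2 : ((⌊D * (Y : ℝ) ^ ε⌋₊ : ℕ) : ℝ) ≤ D * (Y : ℝ) ^ ε := Nat.floor_le (by positivity)
  have h3 : 0 ≤ (Y : ℝ) ^ ε := by positivity
  calc ((⌊D * (Y : ℝ) ^ ε⌋₊ : ℕ) : ℝ) * 2 ^ S.card ≤ (D * (Y : ℝ) ^ ε) * 2 ^ S.card :=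
        mul_le_mul_of_nonneg_right h2 (by positivity)
    _ ≤ ((D + 1) * (Y : ℝ) ^ ε) * 2 ^ S.card := by
        apply mul_le_mul_of_nonneg_right _ (by positivity)
        exact mul_le_mul_of_nonneg_right (by linarith) h3
    _ = _ := by ring

/-- the product of the primes of `S` -/
def pS (S : Finset ℕ) : ℕ := ∏ p ∈ S.filter Nat.Prime, p

lemma pS_pos (S : Finset ℕ) : 0 < pS S :=
  Finset.prod_pos fun _ hp => (mem_filter.1 hp).2.pos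

lemma rad_le_pS {S : Finset ℕ} {n : ℕ} (h : n.primeFactors ⊆ S) : rad n ≤ pS S := by
  unfold rad pS
  apply Finset.prod_le_prod_of_subset_of_one_le'
  · intro p hp
    exact mem_filter.2 ⟨h hp, Nat.prime_of_mem_primeFactors hp⟩
  · intro p hp _
    exact (mem_filter.1 hp).2.one_le

/-- **sums and differences of two units with a small radical** -/
theorem unit_sums (S : Finset ℕ) (ε : ℝ) (hε : 0 < ε) : ∃ C : ℝ, 0 < C ∧ ∀ X : ℕ, 1 ≤ X →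
    ∀ Q : Finset (ℕ × ℕ), (∀ q ∈ Q, 0 < q.1 ∧ 0 < q.2 ∧ Nat.Coprime q.1 q.2 ∧
      ∃ i j k, (i ≠ j ∧ j ≠ k ∧ i ≠ k) ∧ (num (tri q) i).primeFactors ⊆ S ∧
        (num (tri q) j).primeFactors ⊆ S ∧ rad (num (tri q) k) ≤ X) →
    (Q.card : ℝ) ≤ C * (X : ℝ) ^ ε := by
  classical
  obtain ⟨M, C, K, hM, hC, hK, hu⟩ := two_units ε hε
  obtain ⟨C', hC', hv⟩ := units_le S (ε / (2 * M)) (by
    have : (0 : ℝ) < M := by exact_mod_cast hM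
    positivity)
  obtain ⟨P, hP⟩ : ∃ P, P = pS S ^ 2 := ⟨_, rfl⟩
  have hP1 : 1 ≤ P := by rw [hP]; exact Nat.one_le_pow _ _ (pS_pos S)
  refine ⟨C * K ^ (S.card + S.card) * (P : ℝ) ^ ε + 9 * (C' ^ 2 * (P : ℝ) ^ ε), by positivity, ?_⟩
  intro X hX Q hQ
  have hX0 : (0 : ℝ) < X := by exact_mod_cast hX
  have hP0 : (0 : ℝ) < P := by exact_mod_cast hP1
  have hM0 : (0 : ℝ) < M := by exact_mod_cast hM
  have hρX : ∀ q ∈ Q, rad (q.1 * q.2 * (q.1 + q.2)) ≤ P * X := by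
    intro q hq
    obtain ⟨g1, g2, g3, i, j, k, ⟨hij, hjk, hik⟩, g5, g6, g7⟩ := hQ q hq
    have hpr := rad_prod' g1 g2 g3 hij hjk hik
    rw [hpr, hP, sq]
    exact Nat.mul_le_mul (Nat.mul_le_mul (rad_le_pS g5) (rad_le_pS g6)) g7
  have hsplit : Q.card = (Q.filter fun q => rad (q.1 * q.2 * (q.1 + q.2)) ^ M ≤ q.1 + q.2).card +
      (Q.filter fun q => ¬ rad (q.1 * q.2 * (q.1 + q.2)) ^ M ≤ q.1 + q.2).card :=
    (Finset.card_filter_add_card_filter_not (s := Q)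
      (fun q => rad (q.1 * q.2 * (q.1 + q.2)) ^ M ≤ q.1 + q.2)).symm
  have b1 := hu (P * X) (Nat.mul_pos hP1 hX) S S
    (Q.filter fun q => rad (q.1 * q.2 * (q.1 + q.2)) ^ M ≤ q.1 + q.2) (by
    intro q hq
    rw [mem_filter] at hq
    obtain ⟨g1, g2, g3, i, j, k, ⟨hij, hjk, hik⟩, g5, g6, g7⟩ := hQ q hq.1
    exact ⟨g1, g2, g3, hρX q hq.1, ⟨i, j, hij, g5, g6⟩, hq.2⟩)
  obtain ⟨Y, hY⟩ : ∃ Y, Y = (P * X) ^ M := ⟨_, rfl⟩
  have hY1 : 1 ≤ Y := by rw [hY]; exact Nat.one_le_pow _ _ (Nat.mul_pos hP1 hX)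
  set V : Finset ℕ := (Icc 1 Y).filter fun v => v.primeFactors ⊆ S with hV
  have hVc := hv Y hY1 V (by
    intro v hv
    rw [hV, mem_filter, mem_Icc] at hv
    exact ⟨hv.1.1, hv.1.2, hv.2⟩)
  have b2 : ((Q.filter fun q => ¬ rad (q.1 * q.2 * (q.1 + q.2)) ^ M ≤ q.1 + q.2).card : ℝ) ≤
      (((univ : Finset (Fin 3 × Fin 3)) ×ˢ (V ×ˢ V)).card : ℝ) * 1 := by
    apply card_le_of_cover _ _ (fun z q => z.1.1 ≠ z.1.2 ∧ num (tri q) z.1.1 = z.2.1 ∧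
      num (tri q) z.1.2 = z.2.2)
    · intro q hq
      rw [mem_filter] at hq
      obtain ⟨g1, g2, g3, i, j, k, ⟨hij, hjk, hik⟩, g5, g6, g7⟩ := hQ q hq.1
      have hρ := hρX q hq.1
      have hle : q.1 + q.2 ≤ Y := by
        rw [hY]
        exact (not_le.1 hq.2).le.trans (Nat.pow_le_pow_left hρ M)
      have hpr : Pr q := ⟨g1, g2, g3⟩
      refine ⟨((i, j), (num (tri q) i, num (tri q) j)), ?_, hij, rfl, rfl⟩
      rw [mem_product, mem_product, hV, mem_filter, mem_filter, mem_Icc, mem_Icc]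
      refine ⟨mem_univ _, ⟨⟨num_pos hpr.abc i, (EC.num_le hpr.abc i).trans hle⟩, g5⟩,
        ⟨⟨num_pos hpr.abc j, (EC.num_le hpr.abc j).trans hle⟩, g6⟩⟩
    · rintro ⟨⟨i, j⟩, v, w⟩ _
      have : (((Q.filter fun q => ¬ rad (q.1 * q.2 * (q.1 + q.2)) ^ M ≤ q.1 + q.2).filter
          fun q => i ≠ j ∧ num (tri q) i = v ∧ num (tri q) j = w).card) ≤ 1 := by
        rw [card_le_one]
        intro q hq q' hq'
        rw [mem_filter, mem_filter] at hq hq'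
        obtain ⟨⟨h1, -⟩, hij, h2, h3⟩ := hq
        obtain ⟨⟨h1', -⟩, -, h2', h3'⟩ := hq'
        obtain ⟨g1, g2, g3, -⟩ := hQ q h1
        obtain ⟨g1', g2', g3', -⟩ := hQ q' h1'
        have p : Pr q := ⟨g1, g2, g3⟩
        have p' : Pr q' := ⟨g1', g2', g3'⟩
        apply tri_inj
        exact num_inj p.abc p'.abc hij (h2.trans h2'.symm) (h3.trans h3'.symm)
      simpa using this
  have hYe : (Y : ℝ) ^ (ε / (2 * M)) = ((P : ℝ) * X) ^ (ε / 2) := by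
    rw [hY]
    push_cast
    rw [← Real.rpow_natCast, ← Real.rpow_mul (by positivity)]
    congr 1
    field_simp
  rw [hYe] at hVc
  have hV2 : (V.card : ℝ) * V.card ≤ C' ^ 2 * (P : ℝ) ^ ε * (X : ℝ) ^ ε := by
    calc (V.card : ℝ) * V.card ≤ (C' * ((P : ℝ) * X) ^ (ε / 2)) * (C' * ((P : ℝ) * X) ^ (ε / 2)) :=
          mul_le_mul hVc hVc (Nat.cast_nonneg _) (by positivity)
      _ = C' ^ 2 * (((P : ℝ) * X) ^ (ε / 2) * ((P : ℝ) * X) ^ (ε / 2)) := by ring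
      _ = C' ^ 2 * (P : ℝ) ^ ε * (X : ℝ) ^ ε := by
          rw [← Real.rpow_add (by positivity), add_halves, Real.mul_rpow hP0.le hX0.le]
          ring
  rw [card_product, card_product, card_univ, Fintype.card_prod, Fintype.card_fin] at b2
  push_cast at b1 b2
  rw [Real.mul_rpow hP0.le hX0.le] at b1
  rw [hsplit]
  push_cast
  calc _ ≤ C * K ^ (S.card + S.card) * ((P : ℝ) ^ ε * (X : ℝ) ^ ε) +
        9 * (C' ^ 2 * (P : ℝ) ^ ε * (X : ℝ) ^ ε) := by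
        refine add_le_add b1 ?_
        linarith
    _ = _ := by ring

end Pool.Agent.T2H20.AH
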