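import Pool.Agent.T2H20.AH.Gg

/-!
The exceptions with members of prescribed radicals.
-/

set_option autoImplicit false

namespace Pool.Agent.T2H20.AH

open Finset Pool.Agent.H785R2.ABC Pool.Agent.H785R2.ABC.EC Pool.Agent.T2H20.ABC

/-- the divisors of an integer -/
lemma fml_dvd {r : ℕ} (hr : r ≠ 0) : Fml (fun s => s ∣ r) r.divisors.card 0 := by
  refine ⟨fun m n h1 h2 => h2.trans h1, ?_, le_rfl, zero_le_one, ?_⟩
  · have : 1 ≤ r.divisors.card := Finset.card_pos.2 ⟨1, Nat.one_mem_divisors.2 hr⟩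
    exact_mod_cast this
  · intro Y S _ hS
    rw [Real.rpow_zero, mul_one]
    have h1 : S ⊆ r.divisors := fun s hs => Nat.mem_divisors.2 ⟨(hS s hs).2.2, hr⟩
    exact_mod_cast card_le_card h1

/-- the number of divisors, to a power -/
lemma div_pow (m : ℕ) (ε : ℝ) (hε : 0 < ε) : ∃ D : ℝ, 0 < D ∧ ∀ X r : ℕ, 1 ≤ r → r ≤ X →
    ((r.divisors.card : ℝ)) ^ m ≤ D * (X : ℝ) ^ ε := by
  obtain ⟨D, hD, h⟩ := Pool.Agent.H705R2.ABC.stmtTau (ε / (m + 1)) (by positivity)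
  refine ⟨D ^ m, by positivity, ?_⟩
  intro X r hr hrX
  have hX1 : (1 : ℝ) ≤ X := by exact_mod_cast hr.trans hrX
  have hX0 : (0 : ℝ) < X := by linarith
  have h1 := h r hr
  calc ((r.divisors.card : ℝ)) ^ m ≤ (D * (r : ℝ) ^ (ε / (m + 1))) ^ m :=
        pow_le_pow_left₀ (Nat.cast_nonneg _) h1 m
    _ ≤ (D * (X : ℝ) ^ (ε / (m + 1))) ^ m := by
        apply pow_le_pow_left₀ (by positivity)
        apply mul_le_mul_of_nonneg_left _ hD.le
        apply Real.rpow_le_rpow (Nat.cast_nonneg _) _ (by positivity)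
        exact_mod_cast hrX
    _ = D ^ m * (X : ℝ) ^ (ε / (m + 1) * m) := by
        rw [mul_pow, ← Real.rpow_natCast ((X : ℝ) ^ (ε / (m + 1))), ← Real.rpow_mul hX0.le]
    _ ≤ D ^ m * (X : ℝ) ^ ε := by
        apply mul_le_mul_of_nonneg_left _ (by positivity)
        apply Real.rpow_le_rpow_of_exponent_le hX1
        rw [div_mul_eq_mul_div, div_le_iff₀ (by positivity)]
        nlinarith

/-- **members of prescribed radicals** -/
theorem prescribed (ε : ℝ) (hε : 0 < ε) : ∃ M : ℕ, ∃ C : ℝ, 1 ≤ M ∧ 0 < C ∧ ∀ X r : ℕ, 1 ≤ X →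
    1 ≤ r → ∀ Q : Finset (ℕ × ℕ),
    (∀ q ∈ Q, 0 < q.1 ∧ 0 < q.2 ∧ Nat.Coprime q.1 q.2 ∧ rad (q.1 * q.2 * (q.1 + q.2)) ≤ X ∧
      rad (q.1 * q.2 * (q.1 + q.2)) ^ M ≤ q.1 + q.2) →
    (∀ s : ℕ, 1 ≤ s → (∀ q ∈ Q, ∃ i j, i ≠ j ∧ rad (num (tri q) i) = r ∧
      rad (num (tri q) j) = s) → (Q.card : ℝ) ≤ C * (X : ℝ) ^ ε) ∧
    (∀ B : ℕ, 1 ≤ B → (∀ q ∈ Q, ∃ i j, i ≠ j ∧ rad (num (tri q) i) = r ∧
      rad (num (tri q) j) ≤ B) → (Q.card : ℝ) ≤ C * (X : ℝ) ^ ε * Real.sqrt B) := by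
  obtain ⟨M, m, C, hM, hC, h⟩ := fam_exceptions (ε / 3) (by positivity)
  obtain ⟨D, hD, hd⟩ := div_pow m (ε / 3) (by positivity)
  refine ⟨M, C * D * (D + 1), hM, by positivity, ?_⟩
  intro X r hX hr Q hQ
  have hX1 : (1 : ℝ) ≤ X := by exact_mod_cast hX
  have hX0 : (0 : ℝ) < X := by linarith
  have hrX : ∀ {q : ℕ × ℕ} {i : Fin 3} {s : ℕ}, q ∈ Q → rad (num (tri q) i) = s → s ≤ X := by
    intro q i s hq hi
    rw [← hi]
    obtain ⟨g1, g2, g3, g4, -⟩ := hQ q hq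
    exact rads_le' g1 g2 g4 i
  have hx3 : (X : ℝ) ^ (ε / 3) * (X : ℝ) ^ (ε / 3) * (X : ℝ) ^ (ε / 3) = (X : ℝ) ^ ε := by
    rw [← Real.rpow_add hX0, ← Real.rpow_add hX0]
    congr 1
    ring
  have hx2 : (X : ℝ) ^ (ε / 3) * (X : ℝ) ^ (ε / 3) ≤ (X : ℝ) ^ ε := by
    rw [← Real.rpow_add hX0]
    exact Real.rpow_le_rpow_of_exponent_le hX1 (by linarith)
  refine ⟨?_, ?_⟩
  · intro s hs hQs
    rcases Q.eq_empty_or_nonempty with h0 | ⟨q0, hq0⟩
    · rw [h0, card_empty, Nat.cast_zero]; positivity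
    obtain ⟨i0, j0, -, e1, e2⟩ := hQs q0 hq0
    have hr1 := hd X r hr (hrX hq0 e1)
    have hs1 := hd X s hs (hrX hq0 e2)
    have h1 := h X X X hX hX hX _ _ _ _ _ _ (fml_dvd (r := r) (by omega))
      (fml_dvd (r := s) (by omega)) Q (by
      intro q hq
      obtain ⟨g1, g2, g3, g4, g5⟩ := hQ q hq
      obtain ⟨i, j, hij, g6, g7⟩ := hQs q hq
      exact ⟨g1, g2, g3, g4, ⟨i, j, hij, ⟨rads_le' g1 g2 g4 i, rads_le' g1 g2 g4 j⟩,
        by rw [g6], by rw [g7]⟩, g5⟩)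
    rw [Real.rpow_zero, mul_one, Real.sqrt_one, mul_one, mul_pow] at h1
    calc (Q.card : ℝ) ≤ C * ((r.divisors.card : ℝ) ^ m * (s.divisors.card : ℝ) ^ m) *
          (X : ℝ) ^ (ε / 3) := h1
      _ ≤ C * ((D * (X : ℝ) ^ (ε / 3)) * (D * (X : ℝ) ^ (ε / 3))) * (X : ℝ) ^ (ε / 3) := by
          apply mul_le_mul_of_nonneg_right _ (by positivity)
          apply mul_le_mul_of_nonneg_left _ hC.le
          exact mul_le_mul hr1 hs1 (by positivity) (by positivity)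
      _ = C * D * D * ((X : ℝ) ^ (ε / 3) * (X : ℝ) ^ (ε / 3) * (X : ℝ) ^ (ε / 3)) := by ring
      _ = C * D * D * (X : ℝ) ^ ε := by rw [hx3]
      _ ≤ C * D * (D + 1) * (X : ℝ) ^ ε := by
          apply mul_le_mul_of_nonneg_right _ (by positivity)
          exact mul_le_mul_of_nonneg_left (by linarith) (by positivity)
  · intro B hB hQs
    rcases Q.eq_empty_or_nonempty with h0 | ⟨q0, hq0⟩
    · rw [h0, card_empty, Nat.cast_zero]; positivity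
    obtain ⟨i0, j0, -, e1, -⟩ := hQs q0 hq0
    have hr1 := hd X r hr (hrX hq0 e1)
    have h1 := h X X B hX hX hB _ _ _ _ _ _ (fml_dvd (r := r) (by omega)) fml_all Q (by
      intro q hq
      obtain ⟨g1, g2, g3, g4, g5⟩ := hQ q hq
      obtain ⟨i, j, hij, g6, g7⟩ := hQs q hq
      exact ⟨g1, g2, g3, g4, ⟨i, j, hij, ⟨rads_le' g1 g2 g4 i, g7⟩, by rw [g6], trivial⟩, g5⟩)
    rw [Real.rpow_zero, one_mul, Real.rpow_one, mul_one] at h1
    calc (Q.card : ℝ) ≤ C * (r.divisors.card : ℝ) ^ m * (X : ℝ) ^ (ε / 3) * Real.sqrt B := h1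
      _ ≤ C * (D * (X : ℝ) ^ (ε / 3)) * (X : ℝ) ^ (ε / 3) * Real.sqrt B := by
          apply mul_le_mul_of_nonneg_right _ (Real.sqrt_nonneg _)
          apply mul_le_mul_of_nonneg_right _ (by positivity)
          exact mul_le_mul_of_nonneg_left hr1 hC.le
      _ = C * D * 1 * ((X : ℝ) ^ (ε / 3) * (X : ℝ) ^ (ε / 3)) * Real.sqrt B := by ring
      _ ≤ C * D * (D + 1) * (X : ℝ) ^ ε * Real.sqrt B := by
          apply mul_le_mul_of_nonneg_right _ (Real.sqrt_nonneg _)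
          apply mul_le_mul _ hx2 (by positivity) (by positivity)
          exact mul_le_mul_of_nonneg_left (by linarith) (by positivity)

end Pool.Agent.T2H20.AH
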