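import Pool.Agent.W221.ABC.Main7
import Pool.Agent.H170R2.PC.Primes
import Pool.Agent.Results.MP_2ec8a3_nt.SquareRootAllHeights

/-! # The exceptions of `c < rad (abc) ^ M` at all heights, for every `M` -/

set_option autoImplicit false

namespace Pool.Agent.T2H20.AH

open Finset Pool.Agent.H785R2.ABC Filter
open Pool.Agent.Results.MP_2ec8a3_nt.SquareRootAllHeights (exceptions finite_exceptions)

/-- the triples `(a, b, a + b)`, `a ≤ b`, with `rad (abc) ≤ X` and `c ≥ rad (abc) ^ M` -/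
def Exc (M X : ℝ) : Set (ℕ × ℕ) :=
  {q | (0 < q.1 ∧ q.1 ≤ q.2 ∧ Nat.Coprime q.1 q.2) ∧
    (rad (q.1 * q.2 * (q.1 + q.2)) : ℝ) ≤ X ∧
    (rad (q.1 * q.2 * (q.1 + q.2)) : ℝ) ^ M ≤ ((q.1 + q.2 : ℕ) : ℝ)}

theorem Fx_le {l : ℝ} (_ : 0 < l) : Pool.Agent.W221.ABC7.Fx l ≤ max (4 * l / 7) (l - 1) := by
  unfold Pool.Agent.W221.ABC7.Fx
  split_ifs with h1 h2 h3 h4 h5
  · exact le_max_left _ _
  · push Not at h1
    exact le_trans (by linarith) (le_max_left _ _)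
  · push Not at h1 h2
    exact le_trans (by linarith) (le_max_left _ _)
  · push Not at h1 h2 h3
    exact le_trans (by linarith) (le_max_left _ _)
  · push Not at h1 h2 h3 h4
    exact le_trans (by linarith) (le_max_left _ _)
  · exact le_max_right _ _

theorem mul_Fx_le {M κ : ℝ} (hM : 0 < M) (h : M ≤ κ) :
    κ * Pool.Agent.W221.ABC7.Fx (1 / κ) ≤ max (4 / 7) (1 - M) := by
  have hκ : 0 < κ := lt_of_lt_of_le hM h
  have h1 := Fx_le (l := 1 / κ) (by positivity)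
  rcases le_max_iff.1 h1 with h2 | h2
  · refine le_trans ?_ (le_max_left _ _)
    calc κ * Pool.Agent.W221.ABC7.Fx (1 / κ) ≤ κ * (4 * (1 / κ) / 7) :=
          mul_le_mul_of_nonneg_left h2 hκ.le
      _ = 4 / 7 := by field_simp
  · refine le_trans ?_ (le_max_right _ _)
    calc κ * Pool.Agent.W221.ABC7.Fx (1 / κ) ≤ κ * (1 / κ - 1) :=
          mul_le_mul_of_nonneg_left h2 hκ.le
      _ = 1 - κ := by field_simp
      _ ≤ 1 - M := by linarith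

theorem exc_finite (M : ℝ) {X : ℝ} (hX : 1 ≤ X) : (Exc M X).Finite := by
  refine (finite_exceptions 0 (Nat.le_floor (by exact_mod_cast hX) : 1 ≤ ⌊X⌋₊)).subset ?_
  rintro q ⟨⟨h1, h2, h3⟩, h4, h5⟩
  refine ⟨⟨h1, by omega, h3⟩, Nat.le_floor h4, ?_⟩
  rw [pow_zero]
  omega

/-- the injection into the set counted by the library -/
theorem ncard_inj_le (B lam : ℝ) (N : ℕ) (Q : Finset (ℕ × ℕ))
    (hQ : ∀ q ∈ Q, (q.1, q.2, q.1 + q.2) ∈ Pool.Agent.W221.ABC7.ExcB B lam N) :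
    (Q.card : ℝ) ≤ ((Pool.Agent.W221.ABC7.ExcB B lam N).ncard : ℝ) := by
  have h := Set.ncard_le_ncard_of_injOn (s := (Q : Set (ℕ × ℕ)))
    (t := Pool.Agent.W221.ABC7.ExcB B lam N)
    (fun q : ℕ × ℕ => ((q.1, q.2, q.1 + q.2) : ℕ × ℕ × ℕ)) (fun q hq => hQ q (by exact_mod_cast hq))
    (by
      rintro ⟨a, b⟩ _ ⟨a', b'⟩ _ h
      simp only [Prod.mk.injEq] at h
      exact Prod.ext h.1 h.2.1) (Pool.Agent.W221.ABC7.excB_finite B lam N)
  rw [Set.ncard_coe_finset] at h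
  exact_mod_cast h

/-- **The upper bound at all heights.** -/
theorem prof_upper (M ε : ℝ) (hM : 0 < M) (hε : 0 < ε) : ∃ C : ℝ, 0 < C ∧ ∀ X : ℝ, 1 ≤ X →
    ((Exc M X).ncard : ℝ) ≤ C * X ^ (max (4 / 7) (1 - M) + ε) := by
  classical
  obtain ⟨K, C0, hC0, h0⟩ := Pool.Agent.Results.MP_2ec8a3_nt.SquareRootAllHeights.result ε hε
  obtain ⟨g, hg⟩ : ∃ g : ℝ, g = max (4 / 7) (1 - M) := ⟨_, rfl⟩
  have hg0 : (4 : ℝ) / 7 ≤ g := by rw [hg]; exact le_max_left _ _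
  have hg1 : g ≤ 1 := by rw [hg]; exact max_le (by norm_num) (by linarith)
  obtain ⟨δ, hδ⟩ : ∃ δ : ℝ, δ = ε * M / 4 := ⟨_, rfl⟩
  have hδ0 : 0 < δ := by rw [hδ]; positivity
  obtain ⟨n0, hn0⟩ : ∃ n0 : ℕ, n0 = ⌈(K : ℝ) / δ⌉₊ := ⟨_, rfl⟩
  have hn0K : (K : ℝ) ≤ n0 * δ := by
    rw [← div_le_iff₀ hδ0, hn0]
    exact Nat.le_ceil _
  obtain ⟨T, hT⟩ : ∃ T : ℝ, T = M + n0 * δ + δ := ⟨_, rfl⟩
  have hT0 : 0 < T := by rw [hT]; positivity
  obtain ⟨ε', hε'⟩ : ∃ ε' : ℝ, ε' = ε / (4 * T) := ⟨_, rfl⟩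
  have hε'0 : 0 < ε' := by rw [hε']; positivity
  obtain ⟨κ, hκ⟩ : ∃ κ : ℕ → ℝ, κ = fun i : ℕ => M + (i : ℝ) * δ := ⟨_, rfl⟩
  have hκM : ∀ i, M ≤ κ i := fun i => by rw [hκ]; simp only; nlinarith [(Nat.cast_nonneg i : (0:ℝ) ≤ i)]
  have hκ0 : ∀ i, 0 < κ i := fun i => lt_of_lt_of_le hM (hκM i)
  have hκs : ∀ i, κ (i + 1) = κ i + δ := fun i => by rw [hκ]; push_cast; ring
  have hall : ∀ i : ℕ, ∃ C : ℝ, ∀ X : ℕ, 1 ≤ X →
      ((Pool.Agent.W221.ABC7.ExcB 1 (1 / κ i) X).ncard : ℝ) ≤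
        C * (X : ℝ) ^ (Pool.Agent.W221.ABC7.Fx (1 / κ i) + ε') := fun i =>
    Pool.Agent.W221.ABC7.count_FxB 1 (1 / κ i) ε' (by have := hκ0 i; positivity) hε'0
  choose Cs hCs using hall
  refine ⟨C0 + ∑ i ∈ range (n0 + 1), |Cs i|, by positivity, fun X hX => ?_⟩
  have hX0 : 0 < X := by linarith
  rw [← hg]
  have hn1 : 1 ≤ ⌊X⌋₊ := Nat.le_floor (by exact_mod_cast hX)
  have hfin := exc_finite M hX
  rw [Set.ncard_eq_toFinset_card _ hfin]
  obtain ⟨F, hF⟩ : ∃ F, F = hfin.toFinset := ⟨_, rfl⟩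
  rw [← hF]
  have hFm : ∀ p ∈ F, p ∈ Exc M X := fun p hp => by
    rw [hF, Set.Finite.mem_toFinset] at hp
    exact hp
  set A : ℕ → Finset (ℕ × ℕ) := fun i => F.filter fun q =>
    (q.1, q.2, q.1 + q.2) ∈ Pool.Agent.W221.ABC7.ExcB 1 (1 / κ i) ⌊X ^ (κ i + δ)⌋₊ with hA
  set B : Finset (ℕ × ℕ) := F.filter fun q => q ∈ exceptions K ⌊X⌋₊ with hB
  have hcov : F ⊆ B ∪ (range (n0 + 1)).biUnion A := by
    intro q hq
    by_cases hqB : q ∈ exceptions K ⌊X⌋₊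
    · exact mem_union_left _ (mem_filter.2 ⟨hq, hqB⟩)
    refine mem_union_right _ (mem_biUnion.2 ?_)
    obtain ⟨⟨h1, h2, h3⟩, h4, h5⟩ := hFm q hq
    obtain ⟨ρ, hρ⟩ : ∃ ρ : ℕ, ρ = rad (q.1 * q.2 * (q.1 + q.2)) := ⟨_, rfl⟩
    obtain ⟨c, hc⟩ : ∃ c : ℕ, c = q.1 + q.2 := ⟨_, rfl⟩
    rw [← hρ] at h4 h5
    rw [← hc] at h5
    have hc0 : 0 < c := by omega
    have hcR : (0 : ℝ) < c := by exact_mod_cast hc0
    have hρ0 : (0 : ℝ) ≤ ρ := Nat.cast_nonneg _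
    have hcK : (c : ℝ) ≤ X ^ (κ n0 + δ) := by
      have h6 : q.1 + q.2 < rad (q.1 * q.2 * (q.1 + q.2)) ^ K := by
        by_contra hcon
        rw [not_lt] at hcon
        refine hqB ⟨⟨h1, by omega, h3⟩, Nat.le_floor ?_, hcon⟩
        show ((rad (q.1 * q.2 * (q.1 + q.2)) : ℕ) : ℝ) ≤ X
        rw [← hρ]
        exact h4
      rw [← hρ, ← hc] at h6
      calc (c : ℝ) ≤ (ρ : ℝ) ^ K := by exact_mod_cast h6.le
        _ ≤ X ^ K := pow_le_pow_left₀ hρ0 h4 K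
        _ = X ^ (K : ℝ) := (Real.rpow_natCast X K).symm
        _ ≤ X ^ (κ n0 + δ) := by
            apply Real.rpow_le_rpow_of_exponent_le hX
            rw [hκ]
            simp only
            linarith
    have hex : ∃ i : ℕ, (c : ℝ) ≤ X ^ (κ i + δ) := ⟨n0, hcK⟩
    obtain ⟨i, hspec, hmin, hlt⟩ : ∃ i : ℕ, (c : ℝ) ≤ X ^ (κ i + δ) ∧ i ≤ n0 ∧
        ∀ j < i, ¬ (c : ℝ) ≤ X ^ (κ j + δ) :=
      ⟨Nat.find hex, Nat.find_spec hex, Nat.find_min' hex hcK, fun j hj => Nat.find_min hex hj⟩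
    have hrad : (ρ : ℝ) ≤ 1 * (c : ℝ) ^ (1 / κ i) := by
      rw [one_mul]
      rcases Nat.eq_zero_or_pos i with h | h
      · have e : κ i = M := by rw [h, hκ]; simp
        rw [e]
        calc (ρ : ℝ) = ((ρ : ℝ) ^ M) ^ (1 / M) := by
              rw [← Real.rpow_mul hρ0, mul_one_div_cancel hM.ne', Real.rpow_one]
          _ ≤ _ := Real.rpow_le_rpow (by positivity) h5 (by positivity)
      · obtain ⟨j, hj⟩ : ∃ j, i = j + 1 := ⟨i - 1, by omega⟩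
        have h7 : ¬ (c : ℝ) ≤ X ^ (κ j + δ) := hlt j (by omega)
        rw [not_le, ← hκs j, ← hj] at h7
        calc (ρ : ℝ) ≤ X := h4
          _ = (X ^ κ i) ^ (1 / κ i) := by
              rw [← Real.rpow_mul hX0.le, mul_one_div_cancel (hκ0 i).ne', Real.rpow_one]
          _ ≤ _ := Real.rpow_le_rpow (by positivity) h7.le (by have := hκ0 i; positivity)
    refine ⟨i, mem_range.2 (by omega), mem_filter.2 ⟨hq, h1, lt_of_lt_of_le h1 h2, h3, rfl, ?_, ?_⟩⟩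
    · rw [← hc]
      exact Nat.le_floor hspec
    · rw [← hρ, ← hc]
      exact hrad
  have hB1 : (B.card : ℝ) ≤ C0 * X ^ (g + ε) := by
    obtain ⟨f1, f2, -, -⟩ := h0 ⌊X⌋₊ hn1
    have h1 : B.card ≤ (exceptions K ⌊X⌋₊).ncard := by
      rw [Set.ncard_eq_toFinset_card _ f1]
      refine card_le_card fun q hq => ?_
      rw [Set.Finite.mem_toFinset]
      exact (mem_filter.1 hq).2
    calc (B.card : ℝ) ≤ ((exceptions K ⌊X⌋₊).ncard : ℝ) := by exact_mod_cast h1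
      _ ≤ C0 * ((⌊X⌋₊ : ℕ) : ℝ) ^ (1 / 3 + ε) := f2
      _ ≤ C0 * X ^ (1 / 3 + ε) := by
          apply mul_le_mul_of_nonneg_left _ hC0.le
          exact Real.rpow_le_rpow (Nat.cast_nonneg _) (Nat.floor_le hX0.le) (by positivity)
      _ ≤ C0 * X ^ (g + ε) := by
          apply mul_le_mul_of_nonneg_left _ hC0.le
          exact Real.rpow_le_rpow_of_exponent_le hX (by linarith)
  have hA1 : ∀ i ∈ range (n0 + 1), ((A i).card : ℝ) ≤ |Cs i| * X ^ (g + ε) := by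
    intro i hi
    rw [mem_range, Nat.lt_succ_iff] at hi
    have hN1 : 1 ≤ ⌊X ^ (κ i + δ)⌋₊ := Nat.le_floor (by
      push_cast
      exact Real.one_le_rpow hX (by have := hκ0 i; positivity))
    have h1 := ncard_inj_le 1 (1 / κ i) ⌊X ^ (κ i + δ)⌋₊ (A i) (fun q hq => (mem_filter.1 hq).2)
    have hF0 : 0 ≤ Pool.Agent.W221.ABC7.Fx (1 / κ i) + ε' :=
      add_nonneg (Pool.Agent.W221.ABC7.Fx_pos _ (by have := hκ0 i; positivity)).le hε'0.le
    have hiT : κ i + δ ≤ T := by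
      rw [hT, hκ]
      simp only
      have : (i : ℝ) ≤ n0 := by exact_mod_cast hi
      nlinarith
    have hexp : (κ i + δ) * (Pool.Agent.W221.ABC7.Fx (1 / κ i) + ε') ≤ g + ε := by
      have e1 : κ i * Pool.Agent.W221.ABC7.Fx (1 / κ i) ≤ g := by
        rw [hg]
        exact mul_Fx_le hM (hκM i)
      have e2 : δ * Pool.Agent.W221.ABC7.Fx (1 / κ i) ≤ ε / 4 := by
        have e3 : Pool.Agent.W221.ABC7.Fx (1 / κ i) ≤ 1 / M := by
          rw [le_div_iff₀ hM, mul_comm]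
          have := (Pool.Agent.W221.ABC7.Fx_pos (1 / κ i) (by have := hκ0 i; positivity)).le
          calc M * Pool.Agent.W221.ABC7.Fx (1 / κ i) ≤ κ i * Pool.Agent.W221.ABC7.Fx (1 / κ i) :=
                mul_le_mul_of_nonneg_right (hκM i) this
            _ ≤ 1 := e1.trans hg1
        calc δ * Pool.Agent.W221.ABC7.Fx (1 / κ i) ≤ δ * (1 / M) :=
              mul_le_mul_of_nonneg_left e3 hδ0.le
          _ = ε / 4 := by rw [hδ]; field_simp
      have e4 : (κ i + δ) * ε' ≤ ε / 4 := by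
        calc (κ i + δ) * ε' ≤ T * ε' := mul_le_mul_of_nonneg_right hiT hε'0.le
          _ = ε / 4 := by rw [hε']; field_simp
      calc (κ i + δ) * (Pool.Agent.W221.ABC7.Fx (1 / κ i) + ε') =
            κ i * Pool.Agent.W221.ABC7.Fx (1 / κ i) + δ * Pool.Agent.W221.ABC7.Fx (1 / κ i) +
              (κ i + δ) * ε' := by ring
        _ ≤ g + ε := by linarith
    calc ((A i).card : ℝ) ≤ _ := h1
      _ ≤ Cs i * ((⌊X ^ (κ i + δ)⌋₊ : ℕ) : ℝ) ^ (Pool.Agent.W221.ABC7.Fx (1 / κ i) + ε') :=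
          hCs i _ hN1
      _ ≤ |Cs i| * ((⌊X ^ (κ i + δ)⌋₊ : ℕ) : ℝ) ^ (Pool.Agent.W221.ABC7.Fx (1 / κ i) + ε') :=
          mul_le_mul_of_nonneg_right (le_abs_self _) (by positivity)
      _ ≤ |Cs i| * (X ^ (κ i + δ)) ^ (Pool.Agent.W221.ABC7.Fx (1 / κ i) + ε') := by
          apply mul_le_mul_of_nonneg_left _ (abs_nonneg _)
          exact Real.rpow_le_rpow (Nat.cast_nonneg _) (Nat.floor_le (by positivity)) hF0
      _ = |Cs i| * X ^ ((κ i + δ) * (Pool.Agent.W221.ABC7.Fx (1 / κ i) + ε')) := by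
          rw [← Real.rpow_mul hX0.le]
      _ ≤ |Cs i| * X ^ (g + ε) := by
          apply mul_le_mul_of_nonneg_left _ (abs_nonneg _)
          exact Real.rpow_le_rpow_of_exponent_le hX hexp
  have hcard : (F.card : ℝ) ≤ B.card + ∑ i ∈ range (n0 + 1), ((A i).card : ℝ) := by
    have a0 := card_le_card hcov
    have a1 := card_union_le B ((range (n0 + 1)).biUnion A)
    have a2 : ((range (n0 + 1)).biUnion A).card ≤ ∑ i ∈ range (n0 + 1), (A i).card :=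
      card_biUnion_le
    have : F.card ≤ B.card + ∑ i ∈ range (n0 + 1), (A i).card := by omega
    exact_mod_cast this
  calc (F.card : ℝ) ≤ B.card + ∑ i ∈ range (n0 + 1), ((A i).card : ℝ) := hcard
    _ ≤ C0 * X ^ (g + ε) + ∑ i ∈ range (n0 + 1), |Cs i| * X ^ (g + ε) :=
        add_le_add hB1 (sum_le_sum hA1)
    _ = (C0 + ∑ i ∈ range (n0 + 1), |Cs i|) * X ^ (g + ε) := by
        rw [← sum_mul]
        ring

end Pool.Agent.T2H20.AH
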