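import Pool.Agent.T2H20.AH.Hb

/-! # The exceptions of `c < κ rad (abc) ^ M` at all heights -/

set_option autoImplicit false

namespace Pool.Agent.T2H20.AH

open Finset Pool.Agent.H785R2.ABC Filter Topology

/-- the triples `(a, b, a + b)`, `a ≤ b`, with `rad (abc) ≤ X` and `c ≥ κ rad (abc) ^ M` -/
def ExcC (κ M X : ℝ) : Set (ℕ × ℕ) :=
  {q | (0 < q.1 ∧ q.1 ≤ q.2 ∧ Nat.Coprime q.1 q.2) ∧
    (rad (q.1 * q.2 * (q.1 + q.2)) : ℝ) ≤ X ∧
    κ * (rad (q.1 * q.2 * (q.1 + q.2)) : ℝ) ^ M ≤ ((q.1 + q.2 : ℕ) : ℝ)}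

theorem rad_ge_one (n : ℕ) : (1 : ℝ) ≤ (rad n : ℝ) := by
  have : 1 ≤ rad n := Finset.prod_pos fun _ hp => (Nat.prime_of_mem_primeFactors hp).pos
  exact_mod_cast this

theorem exc_zero_of {κ M X : ℝ} {q : ℕ × ℕ} (h : q ∈ ExcC κ M X) {Y : ℝ}
    (hY : (rad (q.1 * q.2 * (q.1 + q.2)) : ℝ) ≤ Y) : q ∈ Exc 0 Y := by
  obtain ⟨h1, h2, h3⟩ := h
  refine ⟨h1, hY, ?_⟩
  rw [Real.rpow_zero]
  have : 1 ≤ q.1 + q.2 := by have := h1.1; omega
  exact_mod_cast this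

theorem excC_finite (κ M : ℝ) {X : ℝ} (hX : 1 ≤ X) : (ExcC κ M X).Finite :=
  (exc_finite 0 hX).subset fun _ h => exc_zero_of h h.2.1

theorem excC_finite' (κ M X : ℝ) : (ExcC κ M X).Finite := by
  rcases le_or_gt 1 X with h | h
  · exact excC_finite κ M h
  · refine Set.Finite.subset Set.finite_empty fun q hq => ?_
    have h1 := rad_ge_one (q.1 * q.2 * (q.1 + q.2))
    have h2 := hq.2.1
    linarith

/-- **The upper bound**, with a constant. -/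
theorem profC_upper (κ M ε : ℝ) (hκ : 0 < κ) (hM : 0 < M) (hε : 0 < ε) : ∃ C : ℝ, 0 < C ∧
    ∀ X : ℝ, 1 ≤ X → ((ExcC κ M X).ncard : ℝ) ≤ C * X ^ (max (4 / 7) (1 - M) + ε) := by
  obtain ⟨δ, hδ⟩ : ∃ δ : ℝ, δ = min (M / 2) (ε / 2) := ⟨_, rfl⟩
  have hδ0 : 0 < δ := by rw [hδ]; exact lt_min (by positivity) (by positivity)
  have hδM : δ ≤ M / 2 := by rw [hδ]; exact min_le_left _ _
  have hδε : δ ≤ ε / 2 := by rw [hδ]; exact min_le_right _ _
  obtain ⟨C, hC, h⟩ := prof_upper (M - δ) (ε / 2) (by linarith) (by positivity)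
  obtain ⟨X₁, hX₁⟩ : ∃ X₁ : ℝ, X₁ = max 1 (κ ^ (-(1 / δ))) := ⟨_, rfl⟩
  have hX₁1 : 1 ≤ X₁ := by rw [hX₁]; exact le_max_left _ _
  refine ⟨C + (Exc 0 X₁).ncard, by positivity, fun X hX => ?_⟩
  have hX0 : 0 < X := by linarith
  have hsub : ExcC κ M X ⊆ Exc (M - δ) X ∪ Exc 0 X₁ := by
    intro q hq
    obtain ⟨h1, h2, h3⟩ := id hq
    obtain ⟨ρ, hρ⟩ : ∃ ρ : ℝ, ρ = (rad (q.1 * q.2 * (q.1 + q.2)) : ℝ) := ⟨_, rfl⟩
    have hρ1 : 1 ≤ ρ := by rw [hρ]; exact rad_ge_one _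
    have hρ0 : 0 < ρ := by linarith
    rw [← hρ] at h2 h3
    by_cases hc : 1 ≤ κ * ρ ^ δ
    · left
      refine ⟨h1, by rw [← hρ]; exact h2, ?_⟩
      rw [← hρ]
      refine le_trans ?_ h3
      calc ρ ^ (M - δ) ≤ κ * ρ ^ δ * ρ ^ (M - δ) := le_mul_of_one_le_left (by positivity) hc
        _ = κ * ρ ^ M := by
            rw [mul_assoc, ← Real.rpow_add hρ0]
            congr 2
            ring
    · right
      refine exc_zero_of hq ?_
      rw [← hρ, hX₁]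
      refine le_trans ?_ (le_max_right _ _)
      have h4 : ρ ^ δ ≤ κ⁻¹ := by
        rw [← one_div, le_div_iff₀ hκ, mul_comm]
        exact (not_le.1 hc).le
      calc ρ = (ρ ^ δ) ^ (1 / δ) := by
            rw [← Real.rpow_mul hρ0.le, mul_one_div_cancel hδ0.ne', Real.rpow_one]
        _ ≤ κ⁻¹ ^ (1 / δ) := Real.rpow_le_rpow (by positivity) h4 (by positivity)
        _ = κ ^ (-(1 / δ)) := by rw [Real.rpow_neg hκ.le, Real.inv_rpow hκ.le]
  have h1 : ((ExcC κ M X).ncard : ℝ) ≤ (Exc (M - δ) X).ncard + (Exc 0 X₁).ncard := by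
    have a1 := Set.ncard_le_ncard hsub ((exc_finite _ hX).union (exc_finite _ hX₁1))
    have a2 := Set.ncard_union_le (Exc (M - δ) X) (Exc 0 X₁)
    exact_mod_cast a1.trans a2
  have h2 := h X hX
  have h3 : max (4 / 7) (1 - (M - δ)) + ε / 2 ≤ max (4 / 7) (1 - M) + ε := by
    have e1 := le_max_left (4 / 7) (1 - M)
    have e2 := le_max_right (4 / 7) (1 - M)
    have : max (4 / 7) (1 - (M - δ)) ≤ max (4 / 7) (1 - M) + ε / 2 :=
      max_le (by linarith) (by linarith)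
    linarith
  have h5 : (1 : ℝ) ≤ X ^ (max (4 / 7) (1 - M) + ε) := by
    refine Real.one_le_rpow hX ?_
    have := le_max_left (4 / 7) (1 - M)
    linarith
  calc ((ExcC κ M X).ncard : ℝ) ≤ (Exc (M - δ) X).ncard + (Exc 0 X₁).ncard := h1
    _ ≤ C * X ^ (max (4 / 7) (1 - M) + ε) +
        ((Exc 0 X₁).ncard : ℝ) * X ^ (max (4 / 7) (1 - M) + ε) := by
        refine add_le_add (h2.trans ?_) (le_mul_of_one_le_right (Nat.cast_nonneg _) h5)
        exact mul_le_mul_of_nonneg_left (Real.rpow_le_rpow_of_exponent_le hX h3) hC.le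
    _ = _ := by ring

/-- the lower bound, for small `ε` -/
theorem profC_lower' {κ M ε : ℝ} (_ : 0 < κ) (hM : 1 / 3 < M) (hM1 : M < 1 / 2) (hε : 0 < ε)
    (hε1 : ε ≤ 1 / 4) :
    ∃ X₀ : ℝ, ∀ X : ℝ, X₀ ≤ X → X ^ (1 - M - ε) ≤ ((ExcC κ M X).ncard : ℝ) := by
  obtain ⟨δ, hδ⟩ : ∃ δ : ℝ, δ = min ((1 / 2 - M) / 2) (ε / 4) := ⟨_, rfl⟩
  have hδ0 : 0 < δ := by rw [hδ]; exact lt_min (by linarith) (by positivity)
  have hδM : δ ≤ (1 / 2 - M) / 2 := by rw [hδ]; exact min_le_left _ _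
  have hδε : δ ≤ ε / 4 := by rw [hδ]; exact min_le_right _ _
  obtain ⟨X₂, h⟩ := prof_lower (M := M + δ) (ε := ε / 4) (by linarith) (by linarith)
    (by positivity)
  obtain ⟨X₁, hX₁⟩ : ∃ X₁ : ℝ, X₁ = max 1 (κ ^ (1 / δ)) := ⟨_, rfl⟩
  have hX₁1 : 1 ≤ X₁ := by rw [hX₁]; exact le_max_left _ _
  obtain ⟨N, hN⟩ : ∃ N : ℝ, N = ((Exc 0 X₁).ncard : ℝ) := ⟨_, rfl⟩
  have t5 : Tendsto (fun X : ℝ => X ^ (ε / 2)) atTop atTop :=
    tendsto_rpow_atTop (by linarith)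
  obtain ⟨X₃, hX₃⟩ := eventually_atTop.1 (t5.eventually (eventually_ge_atTop (1 + |N|)))
  refine ⟨max 1 (max X₂ X₃), fun X hX => ?_⟩
  have hX1 : 1 ≤ X := (le_max_left _ _).trans hX
  have hX2 : X₂ ≤ X := ((le_max_left _ _).trans (le_max_right _ _)).trans hX
  have hX3 : X₃ ≤ X := ((le_max_right _ _).trans (le_max_right _ _)).trans hX
  have hX0 : 0 < X := by linarith
  have hsub : Exc (M + δ) X ⊆ ExcC κ M X ∪ Exc 0 X₁ := by
    intro q hq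
    obtain ⟨h1, h2, h3⟩ := hq
    obtain ⟨ρ, hρ⟩ : ∃ ρ : ℝ, ρ = (rad (q.1 * q.2 * (q.1 + q.2)) : ℝ) := ⟨_, rfl⟩
    have hρ1 : 1 ≤ ρ := by rw [hρ]; exact rad_ge_one _
    have hρ0 : 0 < ρ := by linarith
    rw [← hρ] at h2 h3
    by_cases hc : κ ≤ ρ ^ δ
    · left
      refine ⟨h1, by rw [← hρ]; exact h2, ?_⟩
      rw [← hρ]
      refine le_trans ?_ h3
      calc κ * ρ ^ M ≤ ρ ^ δ * ρ ^ M := mul_le_mul_of_nonneg_right hc (by positivity)
        _ = ρ ^ (M + δ) := by rw [← Real.rpow_add hρ0, add_comm]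
    · right
      refine ⟨h1, ?_, ?_⟩
      · rw [← hρ, hX₁]
        refine le_trans ?_ (le_max_right _ _)
        calc ρ = (ρ ^ δ) ^ (1 / δ) := by
              rw [← Real.rpow_mul hρ0.le, mul_one_div_cancel hδ0.ne', Real.rpow_one]
          _ ≤ κ ^ (1 / δ) := Real.rpow_le_rpow (by positivity) (not_le.1 hc).le (by positivity)
      · rw [Real.rpow_zero]
        have : 1 ≤ q.1 + q.2 := by have := h1.1; omega
        exact_mod_cast this
  have h1 : ((Exc (M + δ) X).ncard : ℝ) ≤ (ExcC κ M X).ncard + N := by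
    have a1 := Set.ncard_le_ncard hsub ((excC_finite _ _ hX1).union (exc_finite _ hX₁1))
    have a2 := Set.ncard_union_le (ExcC κ M X) (Exc 0 X₁)
    rw [hN]
    exact_mod_cast a1.trans a2
  have h2 := h X hX2
  have h3 : X ^ (1 - M - ε) * (1 + |N|) ≤ X ^ (1 - (M + δ) - ε / 4) := by
    calc X ^ (1 - M - ε) * (1 + |N|) ≤ X ^ (1 - M - ε) * X ^ (ε / 2) :=
          mul_le_mul_of_nonneg_left (hX₃ X hX3) (by positivity)
      _ = X ^ (1 - M - ε / 2) := by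
          rw [← Real.rpow_add hX0]
          congr 1
          ring
      _ ≤ _ := Real.rpow_le_rpow_of_exponent_le hX1 (by linarith)
  have h4 : (1 : ℝ) ≤ X ^ (1 - M - ε) := Real.one_le_rpow hX1 (by linarith)
  have h5 : |N| ≤ X ^ (1 - M - ε) * |N| := le_mul_of_one_le_left (abs_nonneg _) h4
  have h6 := le_abs_self N
  nlinarith

/-- **The lower bound**, with a constant. -/
theorem profC_lower {κ M ε : ℝ} (hκ : 0 < κ) (hM : 1 / 3 < M) (hM1 : M < 1 / 2) (hε : 0 < ε) :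
    ∃ X₀ : ℝ, ∀ X : ℝ, X₀ ≤ X → X ^ (1 - M - ε) ≤ ((ExcC κ M X).ncard : ℝ) := by
  obtain ⟨X₀, h⟩ := profC_lower' (ε := min ε (1 / 4)) hκ hM hM1 (lt_min hε (by norm_num))
    (min_le_right _ _)
  refine ⟨max 1 X₀, fun X hX => ?_⟩
  refine le_trans ?_ (h X ((le_max_right _ _).trans hX))
  refine Real.rpow_le_rpow_of_exponent_le ((le_max_left _ _).trans hX) ?_
  have := min_le_left ε (1 / 4)
  linarith

/-- **The exact exponent for `1/3 < M ≤ 3/7`.** -/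
theorem profC_tendsto {κ M : ℝ} (hκ : 0 < κ) (hM : 1 / 3 < M) (hM1 : M ≤ 3 / 7) :
    Tendsto (fun X : ℝ => Real.log ((ExcC κ M X).ncard : ℝ) / Real.log X) atTop
      (𝓝 (1 - M)) := by
  refine tendsto_exponent (fun ε hε => ?_) fun ε hε => profC_lower hκ hM (by linarith) hε
  have h := profC_upper κ M ε hκ (by linarith) hε
  rwa [max_eq_right (by linarith : (4 : ℝ) / 7 ≤ 1 - M)] at h

end Pool.Agent.T2H20.AH
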