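import Pool.Agent.T2H20.AH.En

/-!
The number of pairs of products of variables in a relation modulo a power.
-/

set_option autoImplicit false

namespace Pool.Agent.T2H20.AH

open Finset Pool.Agent.H785R2.ABC

/-- the set of the values of a variable -/
structure Good (D U Z Λ d T K : ℕ) (A : Finset ℕ) : Prop where
  var : ∃ E W N g h ν : ℕ, (∀ v ∈ A, Var D E W N v) ∧
    Num D E W N U Z Λ (4 * 2 ^ d) (2 ^ d) g h ν ∧
    ∀ s : ℕ, 0 < s → s ≤ N ^ (2 ^ d) → s.divisors.card ≤ T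
  fib : ∀ r : ℕ, (A.filter fun v => rad v = r).card ≤ K

/-- the energy of a product of variables -/
theorem energy_prod {D U Z Λ d T K : ℕ} (hD : 0 < D) (hΛ : 1 ≤ Λ) (A : Ix d → Finset ℕ)
    (hA : ∀ l, Good D U Z Λ d T K (A l)) :
    (en (Sm (D ^ Z) Λ) 2 (tup d A) (fun x => ∏ i, (un (D ^ Z) (x i)) ^ U) : ℝ) ≤
      (∏ l, ((A l).card : ℝ)) * (D * (T * K) ^ (2 ^ d) : ℕ) := by
  have hΓ : Balls (Sm (D ^ Z) Λ) := balls_Sm hΛ
  have h1 := holder hΓ d A (fun v => (un (D ^ Z) v) ^ U) 2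
  obtain ⟨Q, hQ⟩ : ∃ Q : ℕ, Q = D * (T * K) ^ (2 ^ d) := ⟨_, rfl⟩
  rw [← hQ]
  have h2 : ∏ l, (en (Sm (D ^ Z) Λ) (2 ^ d * 2) (tup d fun _ => A l)
      (fun x => ∏ i, (un (D ^ Z) (x i)) ^ U) : ℝ) ≤ ∏ l, ((((A l).card : ℝ)) ^ (2 ^ d) * Q) := by
    apply Finset.prod_le_prod (fun _ _ => Nat.cast_nonneg _)
    intro l _
    obtain ⟨E, W, N, g, h, ν, hv, hn, hT⟩ := (hA l).var
    have h3 := energy_one (c := 2 ^ d * 2) hD hΛ (by
      have e : 2 * (2 ^ d * 2) = 4 * 2 ^ d := by ring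
      rw [e]
      exact hn) (A l) hv hT (hA l).fib
    rw [← hQ] at h3
    exact_mod_cast h3
  have h4 : ∏ l : Ix d, ((((A l).card : ℝ)) ^ (2 ^ d) * Q) =
      ((∏ l, ((A l).card : ℝ)) * Q) ^ (2 ^ d) := by
    rw [Finset.prod_mul_distrib, Finset.prod_pow, Finset.prod_const, Finset.card_univ, card_Ix,
      mul_pow]
  rw [h4] at h2
  exact le_of_pow_le_pow_left₀ (by positivity) (mul_nonneg
    (Finset.prod_nonneg fun _ _ => Nat.cast_nonneg _) (Nat.cast_nonneg _)) (h1.trans h2)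

open Classical in
lemma en_inv {G : Type*} [CommGroup G] {Γ : ℕ → G → Prop} (hΓ : Balls Γ) (c : ℕ) {ι : Type*}
    (B : Finset ι) (a : ι → G) (l : G) : en Γ c B (fun y => l * (a y)⁻¹) = en Γ c B a := by
  unfold en
  congr 1
  apply filter_congr
  intro t _
  have e : l * (a t.1)⁻¹ * (l * (a t.2)⁻¹)⁻¹ = (a t.1 * (a t.2)⁻¹)⁻¹ := by
    rw [mul_inv, inv_inv, mul_inv, inv_inv]
    calc l * (a t.1)⁻¹ * (l⁻¹ * a t.2) = (l * l⁻¹) * ((a t.1)⁻¹ * a t.2) := by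
          simp only [mul_assoc, mul_left_comm]
      _ = _ := by rw [mul_inv_cancel, one_mul]
  rw [e]
  constructor
  · intro h
    have := hΓ.inv _ _ h
    rwa [inv_inv] at this
  · exact hΓ.inv _ _

open Classical in
/-- **pairs of products** -/
theorem pair_class {D U Z Λ d T K : ℕ} (hD : 0 < D) (hΛ : 1 ≤ Λ) (A A' : Ix d → Finset ℕ)
    (hA : ∀ l, Good D U Z Λ d T K (A l)) (hA' : ∀ l, Good D U Z Λ d T K (A' l))
    (r : (ZMod (D ^ Z))ˣ) :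
    ((((tup d A ×ˢ tup d A').filter fun t => Sm (D ^ Z) Λ 1 ((∏ i, (un (D ^ Z) (t.1 i)) ^ U) *
      (r * (∏ i, (un (D ^ Z) (t.2 i)) ^ U)⁻¹))).card : ℕ) : ℝ) ^ 2 ≤
      (∏ l, ((A l).card : ℝ)) * (∏ l, ((A' l).card : ℝ)) * ((D * (T * K) ^ (2 ^ d) : ℕ) : ℝ) ^ 2 := by
  have hΓ : Balls (Sm (D ^ Z) Λ) := balls_Sm hΛ
  have h1 := cs hΓ 1 (tup d A) (tup d A') (fun x => ∏ i, (un (D ^ Z) (x i)) ^ U)
    (fun y => r * (∏ i, (un (D ^ Z) (y i)) ^ U)⁻¹)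
  rw [en_inv hΓ, mul_one] at h1
  refine h1.trans ?_
  calc _ ≤ ((∏ l, ((A l).card : ℝ)) * ((D * (T * K) ^ (2 ^ d) : ℕ) : ℝ)) *
        ((∏ l, ((A' l).card : ℝ)) * ((D * (T * K) ^ (2 ^ d) : ℕ) : ℝ)) :=
        mul_le_mul (energy_prod hD hΛ A hA) (energy_prod hD hΛ A' hA') (Nat.cast_nonneg _)
          (mul_nonneg (Finset.prod_nonneg fun _ _ => Nat.cast_nonneg _) (Nat.cast_nonneg _))
    _ = _ := by ring

end Pool.Agent.T2H20.AH
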