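import Pool.Agent.T2H20.AH.En

/-!
Products of powers of given primes, and the integral part of the `U`-th root.
-/

set_option autoImplicit false

namespace Pool.Agent.T2H20.AH

open Finset Pool.Agent.H785R2.ABC

/-- the product of the `p ^ e p`, `p ∈ S` -/
def pp (S : Finset ℕ) (e : ℕ → ℕ) : ℕ := ∏ p ∈ S, p ^ e p

lemma pp_pos {S : Finset ℕ} (hS : ∀ p ∈ S, p.Prime) (e : ℕ → ℕ) : 0 < pp S e :=
  Finset.prod_pos fun _ hp => pow_pos (hS _ hp).pos _

lemma pp_fac {S : Finset ℕ} (hS : ∀ p ∈ S, p.Prime) (e : ℕ → ℕ) (q : ℕ) :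
    (pp S e).factorization q = if q ∈ S then e q else 0 := by
  classical
  unfold pp
  rw [Nat.factorization_prod (fun p hp => pow_ne_zero _ (hS p hp).ne_zero), Finset.sum_apply']
  have h1 : ∀ p ∈ S, (p ^ e p).factorization q = if p = q then e q else 0 := by
    intro p hp
    rw [(hS p hp).factorization_pow, Finsupp.single_apply]
    split_ifs with h
    · rw [h]
    · rfl
  rw [Finset.sum_congr rfl h1, Finset.sum_ite_eq']

lemma pp_primeFactors {S : Finset ℕ} (hS : ∀ p ∈ S, p.Prime) (e : ℕ → ℕ) :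
    (pp S e).primeFactors = S.filter fun p => e p ≠ 0 := by
  ext q
  rw [← Nat.support_factorization, Finsupp.mem_support_iff, pp_fac hS, mem_filter]
  by_cases h : q ∈ S
  · simp [h]
  · simp [h]

lemma pp_sub {S : Finset ℕ} (hS : ∀ p ∈ S, p.Prime) (e : ℕ → ℕ) : (pp S e).primeFactors ⊆ S := by
  rw [pp_primeFactors hS]
  exact filter_subset _ _

lemma rad_pp_le {S : Finset ℕ} (hS : ∀ p ∈ S, p.Prime) (e : ℕ → ℕ) :
    rad (pp S e) ≤ ∏ p ∈ S, p := by
  unfold rad
  exact Finset.prod_le_prod_of_subset_of_one_le' (pp_sub hS e) fun p hp _ => (hS p hp).one_le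

lemma rad_pp_eq {S : Finset ℕ} (hS : ∀ p ∈ S, p.Prime) (e : ℕ → ℕ) (he : ∀ p ∈ S, e p ≠ 0) :
    rad (pp S e) = ∏ p ∈ S, p := by
  unfold rad
  rw [pp_primeFactors hS, Finset.filter_true_of_mem he]

lemma pp_union {S T : Finset ℕ} (h : Disjoint S T) (e : ℕ → ℕ) :
    pp (S ∪ T) e = pp S e * pp T e := Finset.prod_union h

/-- the radical is monotone for inclusion of the sets of primes -/
lemma rad_mono {a b : ℕ} (h : a.primeFactors ⊆ b.primeFactors) : rad a ≤ rad b := by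
  unfold rad
  exact Finset.prod_le_prod_of_subset_of_one_le' h
    fun p hp _ => (Nat.prime_of_mem_primeFactors hp).one_le

lemma rad_le_of_dvd {a b : ℕ} (hb : b ≠ 0) (h : a ∣ b) : rad a ≤ rad b :=
  rad_mono (Nat.primeFactors_mono h hb)

/-- the integral part of the `U`-th root -/
def rt (U n : ℕ) : ℕ := pp n.primeFactors fun p => n.factorization p / U

lemma primes_of {n : ℕ} : ∀ p ∈ n.primeFactors, p.Prime := fun _ hp =>
  Nat.prime_of_mem_primeFactors hp

lemma rt_pos (U n : ℕ) : 0 < rt U n := pp_pos primes_of _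

lemma rt_fac (U n q : ℕ) : (rt U n).factorization q = n.factorization q / U := by
  unfold rt
  rw [pp_fac primes_of]
  split_ifs with h
  · rfl
  · have : n.factorization q = 0 := by
      rw [← Nat.support_factorization, Finsupp.notMem_support_iff] at h
      exact h
    rw [this, Nat.zero_div]

lemma rt_pow_dvd {U n : ℕ} (hn : n ≠ 0) : rt U n ^ U ∣ n := by
  rw [← Nat.factorization_le_iff_dvd (pow_ne_zero _ (rt_pos U n).ne') hn]
  intro q
  rw [Nat.factorization_pow, Finsupp.smul_apply, rt_fac, smul_eq_mul]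
  exact Nat.mul_div_le _ _

/-- the remaining factor -/
def rm (U n : ℕ) : ℕ := n / rt U n ^ U

lemma rt_mul_rm {U n : ℕ} (hn : n ≠ 0) : rt U n ^ U * rm U n = n :=
  Nat.mul_div_cancel' (rt_pow_dvd hn)

lemma rm_pos {U n : ℕ} (hn : n ≠ 0) : 0 < rm U n := by
  rcases Nat.eq_zero_or_pos (rm U n) with h | h
  · have := rt_mul_rm (U := U) hn
    rw [h, mul_zero] at this
    exact absurd this.symm hn
  · exact h

lemma rm_le {U n : ℕ} (hU : 1 ≤ U) (hn : n ≠ 0) : rm U n ≤ rad n ^ U := by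
  have h1 : ∀ p, (rm U n).factorization p ≤ U := by
    intro p
    have h2 := congrArg (fun x => Nat.factorization x p) (rt_mul_rm (U := U) hn)
    beta_reduce at h2
    rw [Nat.factorization_mul (pow_ne_zero _ (rt_pos U n).ne') (rm_pos hn).ne',
      Nat.factorization_pow] at h2
    simp only [Finsupp.add_apply, Finsupp.smul_apply, smul_eq_mul, rt_fac] at h2
    have h3 := Nat.div_add_mod (n.factorization p) U
    have h4 := Nat.mod_lt (n.factorization p) (by omega : 0 < U)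
    omega
  have hdvd : rm U n ∣ n := ⟨rt U n ^ U, by rw [mul_comm]; exact (rt_mul_rm hn).symm⟩
  calc rm U n = ∏ p ∈ (rm U n).primeFactors, p ^ (rm U n).factorization p :=
        (Nat.prod_factorization_pow_eq_self (rm_pos hn).ne').symm
    _ ≤ ∏ p ∈ (rm U n).primeFactors, p ^ U :=
        Finset.prod_le_prod' fun p hp => Nat.pow_le_pow_right
          (Nat.prime_of_mem_primeFactors hp).pos (h1 p)
    _ ≤ ∏ p ∈ n.primeFactors, p ^ U :=
        Finset.prod_le_prod_of_subset_of_one_le' (Nat.primeFactors_mono hdvd hn)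
          fun p hp _ => Nat.one_le_pow _ _ (Nat.prime_of_mem_primeFactors hp).pos
    _ = rad n ^ U := Finset.prod_pow _ _ _

lemma rt_dvd {U n : ℕ} (hU : 1 ≤ U) (hn : n ≠ 0) : rt U n ∣ n :=
  (dvd_pow_self _ (by omega)).trans (rt_pow_dvd hn)

lemma rad_rt_le {U n : ℕ} : rad (rt U n) ≤ rad n := rad_mono (pp_sub primes_of _)

/-- a divisor of suitable size: a root of a divisor with a small radical -/
lemma exists_root {X z e d B : ℕ} (hX : 2 ≤ X) (hz : z ≠ 0) (hd : 8 ≤ d)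
    (h1 : rad z ^ e ≤ X) (h2 : X ^ d ≤ z ^ (4 * e)) (h3 : z ^ e ≤ X ^ B) :
    ∃ D Y : ℕ, D ^ Y ∣ z ∧ X ≤ D ^ e ∧ D ^ e ≤ X ^ 4 ∧ d / 8 ≤ Y ∧ 2 * Y ≤ B ∧ 0 < D := by
  classical
  have hX0 : 0 < X := by omega
  obtain ⟨Y, hY⟩ : ∃ Y, Y = Nat.findGreatest (fun y => X ^ (2 * y) ≤ z ^ e) B := ⟨_, rfl⟩
  have hP0 : X ^ (2 * 0) ≤ z ^ e := by
    rw [mul_zero, pow_zero]
    exact Nat.one_le_pow _ _ (Nat.pos_of_ne_zero hz)
  have hYs : X ^ (2 * Y) ≤ z ^ e := by
    rw [hY]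
    exact Nat.findGreatest_spec (P := fun y => X ^ (2 * y) ≤ z ^ e) (Nat.zero_le _) hP0
  have hYB : 2 * Y ≤ B := (Nat.pow_le_pow_iff_right (by omega)).1 (hYs.trans h3)
  have hbig : d / 8 ≤ Y := by
    have h4 : X ^ (2 * (d / 8)) ≤ z ^ e := by
      have h5 : (X ^ (2 * (d / 8))) ^ 4 ≤ (z ^ e) ^ 4 := by
        calc (X ^ (2 * (d / 8))) ^ 4 = X ^ (8 * (d / 8)) := by rw [← pow_mul]; congr 1; ring
          _ ≤ X ^ d := Nat.pow_le_pow_right hX0 (Nat.mul_div_le _ _)
          _ ≤ z ^ (4 * e) := h2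
          _ = (z ^ e) ^ 4 := by rw [← pow_mul]; congr 1; ring
      exact (Nat.pow_le_pow_iff_left (by norm_num)).1 h5
    have h6 : 2 * (d / 8) ≤ B := (Nat.pow_le_pow_iff_right (by omega)).1 (h4.trans h3)
    rw [hY]
    exact Nat.le_findGreatest (by omega) h4
  have hY1 : 1 ≤ Y := by omega
  have hup : z ^ e < X ^ (2 * (Y + 1)) := by
    by_contra hcon
    push Not at hcon
    have h7 : 2 * (Y + 1) ≤ B := (Nat.pow_le_pow_iff_right (by omega)).1 (hcon.trans h3)
    have h8 : Y + 1 ≤ Y := by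
      conv_rhs => rw [hY]
      exact Nat.le_findGreatest (by omega) hcon
    omega
  refine ⟨rt Y z, Y, rt_pow_dvd hz, ?_, ?_, hbig, hYB, rt_pos _ _⟩
  · -- lower bound
    have h9 : z ≤ (rt Y z * rad z) ^ Y := by
      calc z = rt Y z ^ Y * rm Y z := (rt_mul_rm hz).symm
        _ ≤ rt Y z ^ Y * rad z ^ Y := Nat.mul_le_mul_left _ (rm_le hY1 hz)
        _ = _ := (mul_pow _ _ _).symm
    have h10 : (X ^ 2) ^ Y ≤ ((rt Y z * rad z) ^ e) ^ Y := by
      calc (X ^ 2) ^ Y = X ^ (2 * Y) := (pow_mul _ _ _).symm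
        _ ≤ z ^ e := hYs
        _ ≤ ((rt Y z * rad z) ^ Y) ^ e := Nat.pow_le_pow_left h9 _
        _ = _ := by rw [← pow_mul, ← pow_mul, mul_comm Y e]
    have h11 : X ^ 2 ≤ (rt Y z * rad z) ^ e := (Nat.pow_le_pow_iff_left (by omega)).1 h10
    rw [mul_pow] at h11
    have h12 : X * X ≤ rt Y z ^ e * X := by
      calc X * X = X ^ 2 := by ring
        _ ≤ rt Y z ^ e * rad z ^ e := h11
        _ ≤ rt Y z ^ e * X := Nat.mul_le_mul_left _ h1
    exact Nat.le_of_mul_le_mul_right h12 hX0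
  · have h13 : (rt Y z ^ e) ^ Y ≤ (X ^ 4) ^ Y := by
      calc (rt Y z ^ e) ^ Y = (rt Y z ^ Y) ^ e := by rw [← pow_mul, ← pow_mul, mul_comm e Y]
        _ ≤ z ^ e := Nat.pow_le_pow_left
            (Nat.le_of_dvd (Nat.pos_of_ne_zero hz) (rt_pow_dvd hz)) _
        _ ≤ X ^ (2 * (Y + 1)) := hup.le
        _ ≤ X ^ (4 * Y) := Nat.pow_le_pow_right hX0 (by omega)
        _ = (X ^ 4) ^ Y := pow_mul _ _ _
    exact (Nat.pow_le_pow_iff_left (by omega)).1 h13

end Pool.Agent.T2H20.AH
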