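import Pool.Agent.H520R2.Sun

/-!
The number of the supports of pairs of integers with few primes, when equal values of a function on
the `k`-element sets force an equality of products. After `Pool.Agent.Y911.AA.Rep`.
-/

set_option autoImplicit false

namespace Pool.Agent.T2H20.AH

open Finset

theorem sun {ι κ : Type*} [DecidableEq ι] (F : Finset ι) (m₁ m₂ : ι → ℕ)
    {n0 s k : ℕ} (hs : 1 ≤ s) (f : Finset ι → κ) (T : Finset κ)
    (hT : ∀ I ⊆ F, I.card = k → f I ∈ T) (hsk : T.card < (s - 1).choose k)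
    (h1 : ∀ x ∈ F, 0 < m₁ x) (h2 : ∀ x ∈ F, 0 < m₂ x)
    (hcop : ∀ x ∈ F, Nat.Coprime (m₁ x) (m₂ x))
    (hcard : ∀ x ∈ F, (m₁ x * m₂ x).primeFactors.card ≤ n0)
    (hcore : ∀ I ⊆ F, ∀ I' ⊆ F, I.card = k → I'.card = k → f I = f I' →
      (∏ x ∈ I, m₁ x) * ∏ x ∈ I', m₂ x = (∏ x ∈ I, m₂ x) * ∏ x ∈ I', m₁ x) :
    (F.image fun x => (m₁ x * m₂ x).primeFactors).card ≤ s ^ n0 * n0.factorial := by
  classical
  obtain ⟨sup, hsup⟩ : ∃ sup : ι → Finset ℕ, sup = fun x => (m₁ x * m₂ x).primeFactors :=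
    ⟨_, rfl⟩
  rw [← hsup]
  by_contra hcon
  rw [not_le] at hcon
  obtain ⟨P, hPsub, hPcard, Z, hZ, hZ'⟩ := Pool.Agent.H520R2.sunflower s hs n0 (F.image sup)
    (by
      intro S hS
      obtain ⟨x, hx, hxS⟩ := Finset.mem_image.1 hS
      rw [← hxS, hsup]
      exact hcard x hx) hcon
  -- an element for each petal
  have hch : ∀ S ∈ P, ∃ x ∈ F, sup x = S := fun S hS => by
    obtain ⟨x, hx, hxS⟩ := Finset.mem_image.1 (hPsub hS)
    exact ⟨x, hx, hxS⟩
  have hPne : P.Nonempty := card_pos.1 (by omega)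
  obtain ⟨S0, hS0⟩ := hPne
  obtain ⟨x0, hx0, -⟩ := hch S0 hS0
  have : Nonempty ι := ⟨x0⟩
  choose! τ hτF hτS using hch
  obtain ⟨P', hP'⟩ : ∃ P', P' = P.erase Z := ⟨_, rfl⟩
  have hP'c : s - 1 ≤ P'.card := by
    rw [hP', ← hPcard]
    exact Finset.pred_card_le_card_erase
  have hP'P : ∀ S ∈ P', S ∈ P := fun S hS => by
    rw [hP'] at hS
    exact Finset.mem_of_mem_erase hS
  have hτinj : ∀ J ⊆ P', Set.InjOn τ J := by
    intro J hJ S hS S' hS' h
    have e1 := hτS S (hP'P S (hJ hS))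
    have e2 := hτS S' (hP'P S' (hJ hS'))
    rw [← e1, ← e2, h]
  have himF : ∀ J ⊆ P', J.image τ ⊆ F := by
    intro J hJ x hx
    obtain ⟨S, hS, rfl⟩ := mem_image.1 hx
    exact hτF S (hP'P S (hJ hS))
  have himc : ∀ J ⊆ P', (J.image τ).card = J.card := fun J hJ =>
    card_image_of_injOn (hτinj J hJ)
  -- pigeonhole
  obtain ⟨K, hK⟩ : ∃ K, K = P'.powersetCard k := ⟨_, rfl⟩
  have hKc : T.card < K.card := by
    rw [hK, Finset.card_powersetCard]
    exact lt_of_lt_of_le hsk (Nat.choose_le_choose k hP'c)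
  obtain ⟨I, hI, I', hI', hne, heq⟩ := Finset.exists_ne_map_eq_of_card_lt_of_maps_to
    (s := K) (t := T) (f := fun J => f (J.image τ)) hKc (by
      intro J hJ
      have hJ' := mem_coe.1 hJ
      rw [hK, Finset.mem_powersetCard] at hJ'
      exact mem_coe.2 (hT _ (himF J hJ'.1) (by rw [himc J hJ'.1]; exact hJ'.2)))
  rw [hK, Finset.mem_powersetCard] at hI hI'
  have hfin := hcore (I.image τ) (himF I hI.1) (I'.image τ) (himF I' hI'.1)
    (by rw [himc I hI.1]; exact hI.2) (by rw [himc I' hI'.1]; exact hI'.2) heq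
  rw [Finset.prod_image (hτinj I hI.1), Finset.prod_image (hτinj I' hI'.1),
    Finset.prod_image (hτinj I hI.1), Finset.prod_image (hτinj I' hI'.1)] at hfin
  -- a private prime
  obtain ⟨S, hSI, hSI'⟩ : ∃ S ∈ I, S ∉ I' := by
    by_contra hcon
    push Not at hcon
    exact hne (Finset.eq_of_subset_of_card_le hcon (by rw [hI.2, hI'.2]))
  have hSP' := hI.1 hSI
  have hSZ : S ≠ Z := by
    rw [hP', Finset.mem_erase] at hSP'
    exact hSP'.1
  obtain ⟨q, hqS, hqZ⟩ : ∃ q ∈ S, q ∉ Z := by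
    by_contra hcon
    push Not at hcon
    exact hSZ (Finset.Subset.antisymm hcon (hZ S (hP'P S hSP')))
  have hother : ∀ S' ∈ P', S' ≠ S → (m₁ (τ S')).factorization q = 0 ∧
      (m₂ (τ S')).factorization q = 0 := by
    intro S' hS' hne'
    have hq' : q ∉ S' := fun hq => hqZ (hZ' S (hP'P S hSP') S' (hP'P S' hS') hne'.symm
      (Finset.mem_inter.2 ⟨hqS, hq⟩))
    have hx := hτF S' (hP'P S' hS')
    have hs' := hτS S' (hP'P S' hS')
    rw [hsup] at hs'
    simp only at hs'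
    rw [← hs'] at hq'
    have hz : (m₁ (τ S') * m₂ (τ S')).factorization q = 0 := by
      by_contra hcon
      exact hq' (by rw [← Nat.support_factorization]; exact Finsupp.mem_support_iff.2 hcon)
    rw [Nat.factorization_mul (h1 _ hx).ne' (h2 _ hx).ne'] at hz
    have : (m₁ (τ S')).factorization q + (m₂ (τ S')).factorization q = 0 := hz
    omega
  have hval : ∀ (f : ι → ℕ), (∀ x ∈ F, f x ≠ 0) → (∀ S' ∈ P', S' ≠ S →
      (f (τ S')).factorization q = 0) → ∀ J ⊆ P', (∏ S' ∈ J, f (τ S')).factorization q =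
        if S ∈ J then (f (τ S)).factorization q else 0 := by
    intro f hf0 hf J hJ
    rw [Nat.factorization_prod (fun S' hS' => hf0 _ (hτF S' (hP'P S' (hJ hS')))),
      Finset.sum_apply']
    split_ifs with h1
    · exact Finset.sum_eq_single_of_mem S h1 fun S' hS' hne' => hf S' (hJ hS') hne'
    · exact Finset.sum_eq_zero fun S' hS' => hf S' (hJ hS') (by rintro rfl; exact h1 hS')
  have v1 := hval m₁ (fun x hx => (h1 x hx).ne') (fun S' h h' => (hother S' h h').1)
  have v2 := hval m₂ (fun x hx => (h2 x hx).ne') (fun S' h h' => (hother S' h h').2)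
  have pos : ∀ (f : ι → ℕ), (∀ x ∈ F, 0 < f x) → ∀ J ⊆ P', ∏ S' ∈ J, f (τ S') ≠ 0 :=
    fun f hf J hJ => (Finset.prod_pos fun S' hS' => hf _ (hτF S' (hP'P S' (hJ hS')))).ne'
  have hv := congrArg (fun z : ℕ => z.factorization q) hfin
  beta_reduce at hv
  rw [Nat.factorization_mul (pos m₁ h1 I hI.1) (pos m₂ h2 I' hI'.1),
    Nat.factorization_mul (pos m₂ h2 I hI.1) (pos m₁ h1 I' hI'.1),
    Finsupp.add_apply, Finsupp.add_apply] at hv
  rw [v1 I hI.1, v2 I' hI'.1, v2 I hI.1, v1 I' hI'.1, if_pos hSI, if_neg hSI', if_pos hSI,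
    if_neg hSI', add_zero, add_zero] at hv
  -- contradiction
  have hx := hτF S (hP'P S hSP')
  have hs' := hτS S (hP'P S hSP')
  rw [hsup] at hs'
  simp only at hs'
  rw [← hs'] at hqS
  have hqp := Nat.prime_of_mem_primeFactors hqS
  have hqd := Nat.dvd_of_mem_primeFactors hqS
  rcases (Nat.Prime.dvd_mul hqp).1 hqd with h3 | h3
  · have p1 := hqp.factorization_pos_of_dvd (h1 _ hx).ne' h3
    have h4 : ¬ q ∣ m₂ (τ S) := fun h4 => Nat.not_coprime_of_dvd_of_dvd hqp.one_lt h3 h4 (hcop _ hx)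
    have p2 := Nat.factorization_eq_zero_of_not_dvd h4
    omega
  · have p1 := hqp.factorization_pos_of_dvd (h2 _ hx).ne' h3
    have h4 : ¬ q ∣ m₁ (τ S) := fun h4 => Nat.not_coprime_of_dvd_of_dvd hqp.one_lt h4 h3 (hcop _ hx)
    have p2 := Nat.factorization_eq_zero_of_not_dvd h4
    omega

/-- a choice of `s` -/
lemma exists_s {k N z : ℕ} (hk : 1 ≤ k) (hz : N < z ^ k) :
    N < (k * (z + 1) - 1).choose k := by
  refine lt_of_lt_of_le hz ?_
  have h2 := Nat.pow_le_choose (α := ℚ) k (k * (z + 1) - 1)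
  have e1 : k * (z + 1) - 1 + 1 - k = k * z := by
    have : k * (z + 1) = k * z + k := by ring
    omega
  rw [e1] at h2
  have h3 : (k * z) ^ k ≤ k.factorial * (k * (z + 1) - 1).choose k := by
    have h4 : (((k * z) ^ k : ℕ) : ℚ) ≤ ((k.factorial * (k * (z + 1) - 1).choose k : ℕ) : ℚ) := by
      push_cast
      have hk' : (0 : ℚ) < k.factorial := by exact_mod_cast k.factorial_pos
      rw [div_le_iff₀ hk'] at h2
      push_cast at h2
      linarith
    exact_mod_cast h4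
  have h5 : k ^ k * z ^ k ≤ k ^ k * (k * (z + 1) - 1).choose k := by
    rw [← mul_pow]
    exact h3.trans (Nat.mul_le_mul_right _ (Nat.factorial_le_pow k))
  exact Nat.le_of_mul_le_mul_left h5 (by positivity)

end Pool.Agent.T2H20.AH
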